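import Mathlib

set_option autoImplicit false

namespace Pool.Agent.Helper153.Vdc

open Finset

/-- `e(x) = exp(2πix)` -/
noncomputable def ee (x : ℝ) : ℂ := Complex.exp (2 * Real.pi * x * Complex.I)

/-- cotangent of `πδ` -/
noncomputable def ct (δ : ℝ) : ℝ := Real.cos (Real.pi * δ) / Real.sin (Real.pi * δ)

noncomputable def cc (δ : ℝ) : ℂ := (1 + (ct δ : ℂ) * Complex.I) / 2

theorem norm_ee (x : ℝ) : ‖ee x‖ = 1 := by
  unfold ee
  have : (2 * Real.pi * x * Complex.I : ℂ) = ((2 * Real.pi * x : ℝ) : ℂ) * Complex.I := by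
    push_cast; ring
  rw [this, Complex.norm_exp_ofReal_mul_I]

theorem ee_add (x y : ℝ) : ee (x + y) = ee x * ee y := by
  unfold ee
  rw [← Complex.exp_add]
  congr 1
  push_cast
  ring

theorem sin_low {δ : ℝ} (h0 : 0 < δ) (h1 : δ ≤ 1 / 2) : 2 * δ ≤ Real.sin (Real.pi * δ) := by
  have hpi := Real.pi_pos
  have h := Real.mul_le_sin (x := Real.pi * δ) (by positivity) (by nlinarith)
  have e : 2 / Real.pi * (Real.pi * δ) = 2 * δ := by field_simp
  rwa [e] at h

theorem cos_nn {δ : ℝ} (h0 : 0 < δ) (h1 : δ ≤ 1 / 2) : 0 ≤ Real.cos (Real.pi * δ) := by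
  have hpi := Real.pi_pos
  apply Real.cos_nonneg_of_mem_Icc
  constructor <;> nlinarith

theorem ct_anti {δ ε : ℝ} (h0 : 0 < δ) (h : δ ≤ ε) (h1 : ε ≤ 1 / 2) : ct ε ≤ ct δ := by
  have hpi := Real.pi_pos
  have hs := sin_low h0 (h.trans h1)
  unfold ct
  apply div_le_div₀
  · exact cos_nn h0 (h.trans h1)
  · apply Real.cos_le_cos_of_nonneg_of_le_pi
    · positivity
    · nlinarith
    · exact mul_le_mul_of_nonneg_left h hpi.le
  · linarith
  · apply Real.sin_le_sin_of_le_of_le_pi_div_two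
    · nlinarith
    · nlinarith
    · exact mul_le_mul_of_nonneg_left h hpi.le

theorem ct_nn {δ : ℝ} (h0 : 0 < δ) (h1 : δ ≤ 1 / 2) : 0 ≤ ct δ := by
  have := sin_low h0 h1
  exact div_nonneg (cos_nn h0 h1) (by linarith)

theorem ct_le {δ : ℝ} (h0 : 0 < δ) (h1 : δ ≤ 1 / 2) : ct δ ≤ 1 / (2 * δ) := by
  have hs := sin_low h0 h1
  unfold ct
  exact div_le_div₀ zero_le_one (Real.cos_le_one _) (by linarith) hs

theorem cc_mul {δ : ℝ} (h0 : 0 < δ) (h1 : δ ≤ 1 / 2) : (1 - ee δ) * cc δ = 1 := by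
  have hs := sin_low h0 h1
  have hs0 : Real.sin (Real.pi * δ) ≠ 0 := by linarith
  have hee : ee δ = ((Real.cos (Real.pi * δ) : ℂ) + (Real.sin (Real.pi * δ) : ℂ) * Complex.I) ^ 2 := by
    unfold ee
    rw [Complex.ofReal_cos, Complex.ofReal_sin, ← Complex.exp_mul_I, ← Complex.exp_nat_mul]
    congr 1
    push_cast
    ring
  have hsq : (Real.sin (Real.pi * δ) : ℂ) ^ 2 + (Real.cos (Real.pi * δ) : ℂ) ^ 2 = 1 := by
    exact_mod_cast Real.sin_sq_add_cos_sq (Real.pi * δ)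
  rw [hee]
  unfold cc ct
  push_cast
  set s : ℂ := (Real.sin (Real.pi * δ) : ℂ) with hsdef
  set c : ℂ := (Real.cos (Real.pi * δ) : ℂ) with hcdef
  have hs0' : s ≠ 0 := by rw [hsdef]; exact_mod_cast hs0
  have hs1 : Complex.sin (Real.pi * δ) = s := by rw [hsdef]; push_cast; rfl
  have hc1 : Complex.cos (Real.pi * δ) = c := by rw [hcdef]; push_cast; rfl
  have hI : Complex.I ^ 2 = -1 := Complex.I_sq
  rw [hs1, hc1]
  field_simp
  have : (1 - (c + s * Complex.I) ^ 2) * (s + c * Complex.I) - s * 2 = 0 := by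
    have e1 : (c + s * Complex.I) ^ 2 = c ^ 2 - s ^ 2 + 2 * c * s * Complex.I := by
      linear_combination (s ^ 2) * hI
    rw [e1]
    have e2 : (1 - (c ^ 2 - s ^ 2 + 2 * c * s * Complex.I)) * (s + c * Complex.I) - s * 2 =
        (s - s * c ^ 2 + s ^ 3 + 2 * c ^ 2 * s - 2 * s) +
        (c - c ^ 3 + c * s ^ 2 - 2 * c * s ^ 2) * Complex.I := by
      linear_combination (-2 * c ^ 2 * s) * hI
    rw [e2]
    have e3 : c - c ^ 3 + c * s ^ 2 - 2 * c * s ^ 2 = 0 := by
      linear_combination (-c) * hsq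
    have e4 : s - s * c ^ 2 + s ^ 3 + 2 * c ^ 2 * s - 2 * s = 0 := by
      linear_combination s * hsq
    rw [e3, e4]
    ring
  linear_combination this

theorem cc_norm {δ : ℝ} (h0 : 0 < δ) (h1 : δ ≤ 1 / 2) : ‖cc δ‖ ≤ 1 / (4 * δ) := by
  have hs := sin_low h0 h1
  have hs0 : 0 < Real.sin (Real.pi * δ) := by linarith
  have h2 : ‖cc δ‖ ^ 2 ≤ (1 / (4 * δ)) ^ 2 := by
    rw [← Complex.normSq_eq_norm_sq]
    have e : Complex.normSq (cc δ) = (1 + ct δ ^ 2) / 4 := by
      unfold cc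
      rw [Complex.normSq_div, Complex.normSq_apply, Complex.normSq_apply]
      simp
      ring
    rw [e]
    have e2 : 1 + ct δ ^ 2 = 1 / (Real.sin (Real.pi * δ)) ^ 2 := by
      unfold ct
      field_simp
      exact Real.sin_sq_add_cos_sq _
    rw [e2]
    have h3 : 1 / (Real.sin (Real.pi * δ)) ^ 2 ≤ 1 / (2 * δ) ^ 2 := by
      apply one_div_le_one_div_of_le (by positivity)
      exact pow_le_pow_left₀ (by positivity) hs 2
    calc 1 / (Real.sin (Real.pi * δ)) ^ 2 / 4 ≤ 1 / (2 * δ) ^ 2 / 4 := by gcongr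
      _ = (1 / (4 * δ)) ^ 2 := by field_simp; ring
  exact le_of_sq_le_sq h2 (by positivity)

theorem cc_sub (δ ε : ℝ) : ‖cc δ - cc ε‖ = |ct δ - ct ε| / 2 := by
  have : cc δ - cc ε = ((ct δ - ct ε : ℝ) : ℂ) * Complex.I / 2 := by
    unfold cc
    push_cast
    ring
  rw [this, norm_div, norm_mul, Complex.norm_I, Complex.norm_real, Real.norm_eq_abs, mul_one]
  simp

/-- Kusmin-Landau inequality, discrete form. -/
theorem kusmin_landau (M : ℕ) (g : ℕ → ℝ) (θ : ℝ) (hθ : 0 < θ) (hθ2 : θ ≤ 1 / 2)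
    (h1 : ∀ n, n + 1 < M → θ ≤ g (n + 1) - g n ∧ g (n + 1) - g n ≤ 1 / 2)
    (h2 : ∀ n, n + 2 < M → g (n + 1) - g n ≤ g (n + 2) - g (n + 1)) :
    ‖∑ n ∈ range M, ee (g n)‖ ≤ 2 / θ := by
  set δ : ℕ → ℝ := fun n => g (n + 1) - g n with hδ
  have hd : ∀ n, n + 1 < M → 0 < δ n ∧ θ ≤ δ n ∧ δ n ≤ 1 / 2 := fun n hn =>
    ⟨hθ.trans_le (h1 n hn).1, (h1 n hn).1, (h1 n hn).2⟩
  have hE : ∀ n, n + 1 < M → ee (g n) = (ee (g n) - ee (g (n + 1))) * cc (δ n) := by
    intro n hn
    obtain ⟨a, b, c⟩ := hd n hn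
    have e : ee (g (n + 1)) = ee (g n) * ee (δ n) := by
      rw [← ee_add]; congr 1; rw [hδ]; ring
    rw [e]
    calc ee (g n) = ee (g n) * ((1 - ee (δ n)) * cc (δ n)) := by rw [cc_mul a c, mul_one]
      _ = _ := by ring
  have hstep : ∀ m, m + 1 < M →
      ‖(∑ n ∈ range (m + 1), ee (g n)) + ee (g (m + 1)) * cc (δ m)‖ ≤
        1 / (4 * θ) + (ct (δ 0) - ct (δ m)) / 2 := by
    intro m
    induction m with
    | zero =>
      intro hm
      obtain ⟨a, b, c⟩ := hd 0 hm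
      rw [sum_range_one]
      have e : ee (g 0) + ee (g (0 + 1)) * cc (δ 0) = ee (g 0) * cc (δ 0) := by
        have := hE 0 hm
        linear_combination this
      rw [e, norm_mul, norm_ee, one_mul, sub_self, zero_div, add_zero]
      refine (cc_norm a c).trans ?_
      apply one_div_le_one_div_of_le (by positivity)
      linarith
    | succ m ih =>
      intro hm
      have hm' : m + 1 < M := by omega
      obtain ⟨a, b, c⟩ := hd m hm'
      obtain ⟨a', b', c'⟩ := hd (m + 1) hm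
      have ih' := ih hm'
      have hmono : δ m ≤ δ (m + 1) := h2 m hm
      have e : (∑ n ∈ range (m + 1 + 1), ee (g n)) + ee (g (m + 1 + 1)) * cc (δ (m + 1)) =
          ((∑ n ∈ range (m + 1), ee (g n)) + ee (g (m + 1)) * cc (δ m)) +
            ee (g (m + 1)) * (cc (δ (m + 1)) - cc (δ m)) := by
        rw [sum_range_succ]
        have := hE (m + 1) hm
        linear_combination this
      rw [e]
      refine (norm_add_le _ _).trans ?_
      rw [norm_mul, norm_ee, one_mul, cc_sub]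
      have hct := ct_anti a hmono c'
      rw [abs_of_nonpos (by linarith)]
      linarith
  have hθ4 : (1 : ℝ) ≤ 1 / (2 * θ) := by
    rw [le_div_iff₀ (by positivity)]; linarith
  have hθpos : 0 < 1 / (4 * θ) := by positivity
  have e24 : 2 / θ = 8 * (1 / (4 * θ)) := by field_simp; norm_num
  have e22 : 1 / (2 * θ) = 2 * (1 / (4 * θ)) := by field_simp; norm_num
  rcases M with _ | _ | m
  · simp; positivity
  · rw [sum_range_one, norm_ee]
    rw [e24]; rw [e22] at hθ4; linarith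
  · have hm : m + 1 < m + 1 + 1 := by omega
    have h := hstep m hm
    obtain ⟨a, b, c⟩ := hd m hm
    obtain ⟨a', b', c'⟩ := hd 0 (by omega)
    have e : ∑ n ∈ range (m + 1 + 1), ee (g n) =
        ((∑ n ∈ range (m + 1), ee (g n)) + ee (g (m + 1)) * cc (δ m)) -
          ee (g (m + 1)) * cc (δ m) + ee (g (m + 1)) := by
      rw [sum_range_succ]; ring
    rw [e]
    refine (norm_add_le _ _).trans ?_
    have h3 := norm_sub_le ((∑ n ∈ range (m + 1), ee (g n)) + ee (g (m + 1)) * cc (δ m))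
      (ee (g (m + 1)) * cc (δ m))
    rw [norm_mul (ee (g (m + 1))) (cc (δ m)), norm_ee, one_mul] at h3
    rw [norm_ee]
    have h4 : ‖cc (δ m)‖ ≤ 1 / (4 * θ) := by
      refine (cc_norm a c).trans ?_
      apply one_div_le_one_div_of_le (by positivity)
      linarith
    have h5 := ct_nn a c
    have h6 : ct (δ 0) ≤ 1 / (2 * θ) := by
      refine (ct_le a' c').trans ?_
      apply one_div_le_one_div_of_le (by positivity)
      linarith
    rw [e24]
    rw [e22] at hθ4 h6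
    linarith

end Pool.Agent.Helper153.Vdc
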