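import Mathlib

set_option autoImplicit false

namespace Pool.Agent.Helper153.Vdc

open Finset

theorem shift_sum {f : ℕ → ℂ} {K j L : ℕ} (hKL : K + j ≤ L)
    (h0 : ∀ m, ¬ (j ≤ m ∧ m - j < K) → f m = 0) :
    ∑ m ∈ range L, f m = ∑ n ∈ range K, f (n + j) := by
  have h1 : ∑ n ∈ range K, f (n + j) = ∑ m ∈ Ico j (j + K), f m := by
    rw [Finset.sum_Ico_eq_sum_range]
    simp only [add_tsub_cancel_left]
    exact Finset.sum_congr rfl fun n _ => by rw [add_comm]
  rw [h1]
  symm
  apply Finset.sum_subset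
  · intro m hm
    rw [mem_Ico] at hm
    rw [mem_range]
    omega
  · intro m _ hm
    apply h0
    rintro ⟨h2, h3⟩
    apply hm
    rw [mem_Ico]
    omega

/-- the zero extended, shifted sequence -/
noncomputable def w (M : ℕ) (z : ℕ → ℂ) (m j : ℕ) : ℂ := if j ≤ m ∧ m - j < M then z (m - j) else 0

theorem w_sum (M H : ℕ) (z : ℕ → ℂ) {j : ℕ} (hj : j < H) :
    ∑ m ∈ range (M + H), w M z m j = ∑ n ∈ range M, z n := by
  rw [shift_sum (K := M) (j := j) (by omega)]
  · apply Finset.sum_congr rfl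
    intro n hn
    rw [mem_range] at hn
    have : j ≤ n + j ∧ n + j - j < M := ⟨by omega, by omega⟩
    unfold w
    rw [if_pos this, Nat.add_sub_cancel]
  · intro m hm
    unfold w
    rw [if_neg hm]

theorem T_eq (M H : ℕ) (z : ℕ → ℂ) {j j' : ℕ} (hj : j < H) (hjj : j' ≤ j) :
    ∑ m ∈ range (M + H), w M z m j * (starRingEnd ℂ) (w M z m j') =
      ∑ n ∈ range (M - (j - j')), z n * (starRingEnd ℂ) (z (n + (j - j'))) := by
  rw [shift_sum (K := M - (j - j')) (j := j) (by omega)]
  · apply Finset.sum_congr rfl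
    intro n hn
    rw [mem_range] at hn
    have h1 : j ≤ n + j ∧ n + j - j < M := ⟨by omega, by omega⟩
    have h2 : j' ≤ n + j ∧ n + j - j' < M := ⟨by omega, by omega⟩
    unfold w
    rw [if_pos h1, if_pos h2, Nat.add_sub_cancel]
    congr 3
    omega
  · intro m hm
    unfold w
    by_cases h1 : j ≤ m ∧ m - j < M
    · by_cases h2 : j' ≤ m ∧ m - j' < M
      · exfalso; apply hm; omega
      · rw [if_neg h2]; simp
    · rw [if_neg h1]; simp

/-- correlation sums -/
noncomputable def S (M : ℕ) (z : ℕ → ℂ) (h : ℕ) : ℝ :=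
  ‖∑ n ∈ range (M - h), z (n + h) * (starRingEnd ℂ) (z n)‖

theorem T_norm (M H : ℕ) (z : ℕ → ℂ) {j j' : ℕ} (hj : j < H) (hj' : j' < H) :
    ‖∑ m ∈ range (M + H), w M z m j * (starRingEnd ℂ) (w M z m j')‖ =
      S M z ((j - j') + (j' - j)) := by
  rcases le_total j' j with h | h
  · have e : (j - j') + (j' - j) = j - j' := by omega
    rw [T_eq M H z hj h, e, S]
    rw [← Complex.norm_conj]
    congr 1
    rw [map_sum]
    apply Finset.sum_congr rfl
    intro n _
    rw [map_mul, Complex.conj_conj, mul_comm]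
  · have e : (j - j') + (j' - j) = j' - j := by omega
    have e2 : ∑ m ∈ range (M + H), w M z m j * (starRingEnd ℂ) (w M z m j') =
        (starRingEnd ℂ) (∑ m ∈ range (M + H), w M z m j' * (starRingEnd ℂ) (w M z m j)) := by
      rw [map_sum]
      apply Finset.sum_congr rfl
      intro n _
      rw [map_mul, Complex.conj_conj, mul_comm]
    rw [e2, T_eq M H z hj' h, e, S]
    congr 1
    rw [map_sum]
    apply Finset.sum_congr rfl
    intro n _
    rw [map_mul, Complex.conj_conj, mul_comm]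

theorem row_le (g : ℕ → ℝ) (hg : ∀ n, 0 ≤ g n) (H j : ℕ) (hj : j < H) :
    ∑ j' ∈ range H, g ((j - j') + (j' - j)) ≤ g 0 + 2 * ∑ h ∈ Ico 1 H, g h := by
  have hsplit : range H = (range H).filter (fun j' => j' < j) ∪
      ({j} ∪ (range H).filter (fun j' => j < j')) := by
    ext x; simp only [mem_range, mem_union, mem_filter, mem_singleton]; omega
  have h1 : ∑ j' ∈ (range H).filter (fun j' => j' < j), g ((j - j') + (j' - j)) ≤
      ∑ h ∈ Ico 1 H, g h := by
    have hinj : Set.InjOn (fun j' => j - j') ((range H).filter (fun j' => j' < j) : Set ℕ) := by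
      intro a ha b hb hab
      simp only [coe_filter, mem_range, Set.mem_ofPred_eq] at ha hb
      simp only at hab
      omega
    have h2 : ∑ j' ∈ (range H).filter (fun j' => j' < j), g ((j - j') + (j' - j)) =
        ∑ h ∈ ((range H).filter (fun j' => j' < j)).image (fun j' => j - j'), g h := by
      rw [Finset.sum_image hinj]
      apply Finset.sum_congr rfl
      intro x hx
      rw [mem_filter] at hx
      congr 1; omega
    rw [h2]
    apply Finset.sum_le_sum_of_subset_of_nonneg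
    · intro x hx
      rw [mem_image] at hx
      obtain ⟨a, ha, rfl⟩ := hx
      rw [mem_filter, mem_range] at ha
      rw [mem_Ico]; omega
    · intro i _ _; exact hg i
  have h3 : ∑ j' ∈ (range H).filter (fun j' => j < j'), g ((j - j') + (j' - j)) ≤
      ∑ h ∈ Ico 1 H, g h := by
    have hinj : Set.InjOn (fun j' => j' - j) ((range H).filter (fun j' => j < j') : Set ℕ) := by
      intro a ha b hb hab
      simp only [coe_filter, mem_range, Set.mem_ofPred_eq] at ha hb
      simp only at hab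
      omega
    have h2 : ∑ j' ∈ (range H).filter (fun j' => j < j'), g ((j - j') + (j' - j)) =
        ∑ h ∈ ((range H).filter (fun j' => j < j')).image (fun j' => j' - j), g h := by
      rw [Finset.sum_image hinj]
      apply Finset.sum_congr rfl
      intro x hx
      rw [mem_filter] at hx
      congr 1; omega
    rw [h2]
    apply Finset.sum_le_sum_of_subset_of_nonneg
    · intro x hx
      rw [mem_image] at hx
      obtain ⟨a, ha, rfl⟩ := hx
      rw [mem_filter, mem_range] at ha
      rw [mem_Ico]; omega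
    · intro i _ _; exact hg i
  have hd1 : Disjoint ((range H).filter (fun j' => j' < j))
      ({j} ∪ (range H).filter (fun j' => j < j')) := by
    rw [Finset.disjoint_left]; intro x; simp only [mem_filter, mem_union, mem_singleton]; omega
  have hd2 : Disjoint ({j} : Finset ℕ) ((range H).filter (fun j' => j < j')) := by
    rw [Finset.disjoint_left]; intro x; simp only [mem_filter, mem_singleton]; omega
  rw [hsplit, Finset.sum_union hd1, Finset.sum_union hd2, sum_singleton]
  have e : (j - j) + (j - j) = 0 := by omega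
  rw [e]
  linarith

/-- van der Corput's inequality (Weyl differencing). -/
theorem vdc_ineq (M N H : ℕ) (hMN : M ≤ N) (hH : 1 ≤ H) (hHN : H ≤ N) (z : ℕ → ℂ)
    (hz : ∀ n, ‖z n‖ ≤ 1) :
    ‖∑ n ∈ range M, z n‖ ^ 2 ≤ 2 * (N : ℝ) / H * ((N : ℝ) +
      2 * ∑ h ∈ Ico 1 H, ‖∑ n ∈ range (M - h), z (n + h) * (starRingEnd ℂ) (z n)‖) := by
  have hHr : (0 : ℝ) < H := by exact_mod_cast hH
  set Q : ℝ := ∑ h ∈ Ico 1 H, S M z h with hQ
  have hQ' : ∑ h ∈ Ico 1 H, ‖∑ n ∈ range (M - h), z (n + h) * (starRingEnd ℂ) (z n)‖ = Q := rfl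
  rw [hQ']
  have hQ0 : 0 ≤ Q := Finset.sum_nonneg fun h _ => norm_nonneg _
  have h1 : (H : ℂ) * ∑ n ∈ range M, z n = ∑ m ∈ range (M + H), ∑ j ∈ range H, w M z m j := by
    rw [Finset.sum_comm]
    rw [Finset.sum_congr rfl (fun j hj => w_sum M H z (mem_range.1 hj))]
    simp
  have h2 : (H : ℝ) ^ 2 * ‖∑ n ∈ range M, z n‖ ^ 2 ≤
      ((M + H : ℕ) : ℝ) * ∑ m ∈ range (M + H), ‖∑ j ∈ range H, w M z m j‖ ^ 2 := by
    have e : (H : ℝ) ^ 2 * ‖∑ n ∈ range M, z n‖ ^ 2 =
        ‖∑ m ∈ range (M + H), ∑ j ∈ range H, w M z m j‖ ^ 2 := by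
      rw [← h1, norm_mul, Complex.norm_natCast]; ring
    rw [e]
    calc ‖∑ m ∈ range (M + H), ∑ j ∈ range H, w M z m j‖ ^ 2
        ≤ (∑ m ∈ range (M + H), ‖∑ j ∈ range H, w M z m j‖) ^ 2 := by
          gcongr; exact norm_sum_le _ _
      _ ≤ _ := by
          have := sq_sum_le_card_mul_sum_sq (s := range (M + H))
            (f := fun m => ‖∑ j ∈ range H, w M z m j‖)
          rwa [card_range] at this
  have h3 : ((∑ m ∈ range (M + H), ‖∑ j ∈ range H, w M z m j‖ ^ 2 : ℝ) : ℂ) =
      ∑ j ∈ range H, ∑ j' ∈ range H,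
        ∑ m ∈ range (M + H), w M z m j * (starRingEnd ℂ) (w M z m j') := by
    push_cast
    have : ∀ m, ((‖∑ j ∈ range H, w M z m j‖ : ℂ)) ^ 2 =
        ∑ j ∈ range H, ∑ j' ∈ range H, w M z m j * (starRingEnd ℂ) (w M z m j') := by
      intro m
      rw [← Complex.mul_conj', map_sum, Finset.sum_mul_sum]
    rw [Finset.sum_congr rfl (fun m _ => this m), Finset.sum_comm]
    apply Finset.sum_congr rfl
    intro j _
    rw [Finset.sum_comm]
  have h4 : ∑ m ∈ range (M + H), ‖∑ j ∈ range H, w M z m j‖ ^ 2 ≤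
      (H : ℝ) * ((N : ℝ) + 2 * Q) := by
    have e0 : 0 ≤ ∑ m ∈ range (M + H), ‖∑ j ∈ range H, w M z m j‖ ^ 2 :=
      Finset.sum_nonneg fun m _ => by positivity
    calc ∑ m ∈ range (M + H), ‖∑ j ∈ range H, w M z m j‖ ^ 2
        = ‖((∑ m ∈ range (M + H), ‖∑ j ∈ range H, w M z m j‖ ^ 2 : ℝ) : ℂ)‖ := by
          rw [Complex.norm_real, Real.norm_of_nonneg e0]
      _ ≤ ∑ j ∈ range H, ∑ j' ∈ range H, S M z ((j - j') + (j' - j)) := by
          rw [h3]
          refine (norm_sum_le _ _).trans (Finset.sum_le_sum fun j hj => ?_)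
          refine (norm_sum_le _ _).trans (Finset.sum_le_sum fun j' hj' => ?_)
          rw [T_norm M H z (mem_range.1 hj) (mem_range.1 hj')]
      _ ≤ ∑ j ∈ range H, (S M z 0 + 2 * Q) := by
          refine Finset.sum_le_sum fun j hj => ?_
          exact row_le (S M z) (fun n => norm_nonneg _) H j (mem_range.1 hj)
      _ = (H : ℝ) * (S M z 0 + 2 * Q) := by rw [Finset.sum_const, card_range, nsmul_eq_mul]
      _ ≤ _ := by
          gcongr
          unfold S
          calc ‖∑ n ∈ range (M - 0), z (n + 0) * (starRingEnd ℂ) (z n)‖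
              ≤ ∑ n ∈ range (M - 0), ‖z (n + 0) * (starRingEnd ℂ) (z n)‖ := norm_sum_le _ _
            _ ≤ ∑ n ∈ range (M - 0), 1 := by
                refine Finset.sum_le_sum fun n _ => ?_
                rw [norm_mul, Complex.norm_conj, add_zero]
                have := hz n
                have h0 := norm_nonneg (z n)
                nlinarith
            _ = (M : ℝ) := by simp
            _ ≤ N := by exact_mod_cast hMN
  have h5 : ((M + H : ℕ) : ℝ) ≤ 2 * N := by
    have : M + H ≤ 2 * N := by omega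
    exact_mod_cast this
  have h6 : (H : ℝ) ^ 2 * ‖∑ n ∈ range M, z n‖ ^ 2 ≤ 2 * N * ((H : ℝ) * ((N : ℝ) + 2 * Q)) := by
    refine h2.trans ?_
    have hnn : 0 ≤ (H : ℝ) * ((N : ℝ) + 2 * Q) := by positivity
    have hsn : 0 ≤ ∑ m ∈ range (M + H), ‖∑ j ∈ range H, w M z m j‖ ^ 2 :=
      Finset.sum_nonneg fun m _ => by positivity
    exact mul_le_mul h5 h4 hsn (by positivity)
  have h7 : 2 * (N : ℝ) / H * ((N : ℝ) + 2 * Q) =
      (2 * N * ((H : ℝ) * ((N : ℝ) + 2 * Q))) / (H : ℝ) ^ 2 := by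
    field_simp
  rw [h7, le_div_iff₀ (by positivity)]
  linarith

end Pool.Agent.Helper153.Vdc
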