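import Mathlib
import Pool.Agent.Helper153.FacA
import Pool.Agent.Helper153.FacB

set_option autoImplicit false

namespace Pool.Agent.Helper153.Vdc

open Finset

/-- iterated forward differences -/
def dd : ℕ → (ℕ → ℝ) → ℕ → ℝ
  | 0, g => g
  | k + 1, g => dd k (fun n => g (n + 1) - g n)

/-- the `k`-th differences of `g` on `[0,M)` lie in `[lam, A lam]`, the next ones are `≥ 0` -/
def Cond (k : ℕ) (g : ℕ → ℝ) (M : ℕ) (lam A : ℝ) : Prop :=
  (∀ n, n + k < M → lam ≤ dd k g n ∧ dd k g n ≤ A * lam) ∧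
  (∀ n, n + (k + 1) < M → 0 ≤ dd (k + 1) g n)

theorem ee_norm (x : ℝ) : ‖ee x‖ = 1 := by
  unfold ee
  have e : (2 * Real.pi * x * Complex.I : ℂ) = ((2 * Real.pi * x : ℝ) : ℂ) * Complex.I := by
    push_cast; ring
  rw [e, Complex.norm_exp_ofReal_mul_I]

theorem ee_mul_conj (x y : ℝ) : ee x * (starRingEnd ℂ) (ee y) = ee (x - y) := by
  unfold ee
  rw [← Complex.exp_conj, ← Complex.exp_add]
  congr 1
  simp only [map_mul, Complex.conj_ofReal, Complex.conj_I, Complex.conj_ofNat]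
  push_cast
  ring

theorem dd_diff (h : ℕ) : ∀ (k : ℕ) (g : ℕ → ℝ) (n : ℕ),
    dd k (fun n => g (n + h) - g n) n = ∑ u ∈ range h, dd (k + 1) g (n + u) := by
  intro k
  induction k with
  | zero =>
    intro g n
    have e : ∀ u, dd (0 + 1) g (n + u) = g (n + (u + 1)) - g (n + u) := by
      intro u; simp [dd]; rfl
    rw [Finset.sum_congr rfl fun u _ => e u, Finset.sum_range_sub (fun u => g (n + u))]
    simp [dd]
  | succ k ih =>
    intro g n
    have e1 : dd (k + 1) (fun n => g (n + h) - g n) n =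
        dd k (fun n => (fun m => g (m + 1) - g m) (n + h) - (fun m => g (m + 1) - g m) n) n := by
      simp only [dd]
      congr 1
      funext m
      have : m + 1 + h = m + h + 1 := by ring
      rw [this]; ring
    rw [e1, ih (fun m => g (m + 1) - g m) n]
    rfl

theorem cond_diff {k : ℕ} {g : ℕ → ℝ} {M : ℕ} {lam A : ℝ} (hc : Cond (k + 1) g M lam A)
    {h : ℕ} (hh : 1 ≤ h) : Cond k (fun n => g (n + h) - g n) (M - h) (h * lam) A := by
  refine ⟨fun n hn => ?_, fun n hn => ?_⟩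
  · rw [dd_diff]
    have hb : ∀ u ∈ range h, lam ≤ dd (k + 1) g (n + u) ∧ dd (k + 1) g (n + u) ≤ A * lam := by
      intro u hu
      rw [mem_range] at hu
      exact hc.1 (n + u) (by omega)
    constructor
    · have := Finset.card_nsmul_le_sum (range h) _ lam fun u hu => (hb u hu).1
      rwa [card_range, nsmul_eq_mul] at this
    · have := Finset.sum_le_card_nsmul (range h) _ (A * lam) fun u hu => (hb u hu).2
      rw [card_range, nsmul_eq_mul] at this
      calc _ ≤ (h : ℝ) * (A * lam) := this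
        _ = A * (h * lam) := by ring
  · rw [dd_diff]
    refine Finset.sum_nonneg fun u hu => ?_
    rw [mem_range] at hu
    exact hc.2 (n + u) (by omega)

theorem sum_inv_le {H N : ℕ} (hHN : H ≤ N) : ∑ h ∈ Ico 1 H, (1 / (h : ℝ)) ≤ 1 + Real.log N := by
  have h1 : ∑ h ∈ Ico 1 H, (1 / (h : ℝ)) ≤ ∑ h ∈ Icc 1 N, (1 / (h : ℝ)) := by
    refine Finset.sum_le_sum_of_subset_of_nonneg ?_ fun i _ _ => by positivity
    intro x hx
    rw [mem_Ico] at hx
    rw [mem_Icc]
    omega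
  have h2 : ∑ h ∈ Icc 1 N, (1 / (h : ℝ)) = ((harmonic N : ℚ) : ℝ) := by
    rw [harmonic_eq_sum_Icc]
    push_cast
    exact Finset.sum_congr rfl fun i _ => by rw [one_div]
  rw [h2] at h1
  exact h1.trans (harmonic_le_one_add_log N)

theorem triv_bound (M : ℕ) (g : ℕ → ℝ) : ‖∑ n ∈ range M, ee (g n)‖ ≤ M := by
  refine (norm_sum_le _ _).trans ?_
  rw [Finset.sum_congr rfl fun n _ => ee_norm (g n)]
  simp

/-- van der Corput's inequality for `ee` -/
theorem vdc_ineq' (M N H : ℕ) (hMN : M ≤ N) (hH : 1 ≤ H) (hHN : H ≤ N) (g : ℕ → ℝ) :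
    ‖∑ n ∈ range M, ee (g n)‖ ^ 2 ≤ 2 * (N : ℝ) / H * ((N : ℝ) +
      2 * ∑ h ∈ Ico 1 H, ‖∑ n ∈ range (M - h), ee ((fun n => g (n + h) - g n) n)‖) := by
  have h := vdc_ineq M N H hMN hH hHN (fun n => ee (g n)) (fun n => (ee_norm _).le)
  have e : ∀ h : ℕ, (∑ n ∈ range (M - h), ee (g (n + h)) * (starRingEnd ℂ) (ee (g n))) =
      ∑ n ∈ range (M - h), ee ((fun n => g (n + h) - g n) n) := by
    intro h
    exact Finset.sum_congr rfl fun n _ => ee_mul_conj _ _
  simp only [e] at h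
  exact h

theorem sq_to_lin {S K N σ : ℝ} (hS : 0 ≤ S) (hK : 1 ≤ K) (hN : 0 ≤ N)
    (h : S ^ 2 ≤ K * (N ^ (1 - σ)) ^ 2) : S ≤ K * N ^ (1 - σ) := by
  have h0 : 0 ≤ N ^ (1 - σ) := Real.rpow_nonneg hN _
  have h1 : S ^ 2 ≤ (K * N ^ (1 - σ)) ^ 2 := by
    rw [mul_pow]
    refine h.trans (mul_le_mul_of_nonneg_right ?_ (sq_nonneg _))
    nlinarith
  exact (pow_le_pow_iff_left₀ hS (by positivity) two_ne_zero).1 h1

theorem vdc_base (A : ℝ) (hA : 1 ≤ A) (η : ℝ) (hη : 0 < η) (hη1 : η < 1) :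
    ∃ σ : ℝ, 0 < σ ∧ ∃ C : ℝ, 1 ≤ C ∧ ∀ (N M : ℕ) (g : ℕ → ℝ) (lam : ℝ), 1 ≤ N → M ≤ N →
      Cond 2 g M lam A → (N : ℝ) ^ (-2 + η) ≤ lam → lam ≤ (N : ℝ) ^ (-η) →
      ‖∑ n ∈ range M, ee (g n)‖ ≤ C * (N : ℝ) ^ (1 - σ) := by
  set B : ℝ := 1 + 2 / η with hB
  have hB1 : 1 ≤ B := by rw [hB]; have : 0 < 2 / η := by positivity
                         linarith
  set K : ℝ := 2 + 8 * B + 8 * A + 32 * A * B with hK
  have hK1 : 1 ≤ K := by rw [hK]; nlinarith
  have hK2 : 2 * A ≤ K := by rw [hK]; nlinarith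
  refine ⟨η / 4, by positivity, K, hK1, ?_⟩
  intro N M g lam hN hMN hc hl1 hl2
  have hN1 : (1 : ℝ) ≤ N := by exact_mod_cast hN
  have hN0 : (0 : ℝ) < N := by linarith
  have hlam : 0 < lam := lt_of_lt_of_le (Real.rpow_pos_of_pos hN0 _) hl1
  by_cases hsmall : (N : ℝ) ^ η < 2 * A
  · -- trivial bound
    have h1 : (M : ℝ) ≤ N := by exact_mod_cast hMN
    have h2 : (N : ℝ) ^ (η / 4) ≤ (N : ℝ) ^ η :=
      Real.rpow_le_rpow_of_exponent_le hN1 (by linarith)
    have h3 : (N : ℝ) = (N : ℝ) ^ (η / 4) * (N : ℝ) ^ (1 - η / 4) := by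
      rw [← Real.rpow_add hN0]; simp
    have h4 : 0 ≤ (N : ℝ) ^ (1 - η / 4) := by positivity
    calc ‖∑ n ∈ range M, ee (g n)‖ ≤ M := triv_bound M g
      _ ≤ N := h1
      _ = (N : ℝ) ^ (η / 4) * (N : ℝ) ^ (1 - η / 4) := h3
      _ ≤ K * (N : ℝ) ^ (1 - η / 4) := mul_le_mul_of_nonneg_right (by linarith) h4
  push Not at hsmall
  -- A lam ≤ 1/2
  have hAl : 2 * A * lam ≤ 1 := by
    have h1 : (N : ℝ) ^ (-η) = 1 / (N : ℝ) ^ η := by rw [Real.rpow_neg hN0.le]; ring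
    have h2 : 0 < (N : ℝ) ^ η := by positivity
    calc 2 * A * lam ≤ (N : ℝ) ^ η * (N : ℝ) ^ (-η) :=
          mul_le_mul hsmall hl2 hlam.le h2.le
      _ = 1 := by rw [h1]; field_simp
  have hAl0 : 0 < 2 * A * lam := by positivity
  set q := 1 / (2 * A * lam) with hq
  have hq1 : 1 ≤ q := by rw [hq, le_div_iff₀ hAl0]; linarith
  set H := min N ⌊q⌋₊ with hH
  have hH1 : 1 ≤ H := le_min hN (Nat.floor_pos.2 hq1)
  have hHN : H ≤ N := min_le_left _ _
  have hH0 : (0 : ℝ) < H := by exact_mod_cast hH1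
  have hHq : (H : ℝ) ≤ q := by
    have h1 : (H : ℝ) ≤ (⌊q⌋₊ : ℝ) := by exact_mod_cast min_le_right _ _
    exact h1.trans (Nat.floor_le (by linarith))
  have hHinv : 1 / (H : ℝ) ≤ 1 / N + 4 * A * lam := by
    rcases le_total N ⌊q⌋₊ with h | h
    · have : H = N := min_eq_left h
      rw [this]
      have : 0 < 4 * A * lam := by positivity
      linarith
    · have hHf : H = ⌊q⌋₊ := min_eq_right h
      have h1 : q < (⌊q⌋₊ : ℝ) + 1 := Nat.lt_floor_add_one q
      have h2 : (1 : ℝ) ≤ ⌊q⌋₊ := by exact_mod_cast Nat.floor_pos.2 hq1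
      have h3 : q ≤ 2 * H := by rw [hHf]; linarith
      have h4 : 1 / (H : ℝ) ≤ 2 / q := by
        rw [div_le_div_iff₀ hH0 (by linarith)]; linarith
      have h5 : 2 / q = 4 * A * lam := by rw [hq]; field_simp; ring
      have h6 : 0 < 1 / (N : ℝ) := by positivity
      linarith
  -- bounds of the differenced sums
  have hSh : ∀ h ∈ Ico 1 H, ‖∑ n ∈ range (M - h), ee ((fun n => g (n + h) - g n) n)‖ ≤
      2 / lam * (1 / (h : ℝ)) := by
    intro h hh
    rw [mem_Ico] at hh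
    have hch := cond_diff (k := 1) hc hh.1
    have hh0 : (0 : ℝ) < h := by exact_mod_cast hh.1
    have hhH : (h : ℝ) ≤ H := by exact_mod_cast hh.2.le
    have hle : A * (h * lam) ≤ 1 / 2 := by
      have h1 : (h : ℝ) * (2 * A * lam) ≤ 1 := by
        have h2 : (h : ℝ) ≤ q := hhH.trans hHq
        rw [hq, le_div_iff₀ hAl0] at h2
        exact h2
      linarith
    have hθ : (h : ℝ) * lam ≤ 1 / 2 := by
      have : 0 < (h : ℝ) * lam := by positivity
      nlinarith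
    have hkl := kusmin_landau (M - h) (fun n => g (n + h) - g n) (h * lam) (by positivity) hθ
      (fun n hn => by
        have := hch.1 n hn
        simp only [dd] at this
        exact ⟨this.1, this.2.trans hle⟩)
      (fun n hn => by
        have := hch.2 n hn
        simp only [dd] at this
        linarith)
    refine hkl.trans (le_of_eq ?_)
    field_simp
  have hsum : ∑ h ∈ Ico 1 H, ‖∑ n ∈ range (M - h), ee ((fun n => g (n + h) - g n) n)‖ ≤
      2 / lam * (1 + Real.log N) := by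
    refine (Finset.sum_le_sum hSh).trans ?_
    rw [← Finset.mul_sum]
    exact mul_le_mul_of_nonneg_left (sum_inv_le hHN) (by positivity)
  -- logs and powers
  have hlog : 1 + Real.log N ≤ B * (N : ℝ) ^ (η / 2) := by
    have h1 := Real.log_le_rpow_div hN0.le (show 0 < η / 2 by positivity)
    have h2 : (1 : ℝ) ≤ (N : ℝ) ^ (η / 2) := Real.one_le_rpow hN1 (by positivity)
    have h3 : (N : ℝ) ^ (η / 2) / (η / 2) = 2 / η * (N : ℝ) ^ (η / 2) := by field_simp
    rw [h3] at h1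
    rw [hB, add_mul, one_mul]
    linarith
  set L := 1 + Real.log N with hL
  have hL0 : 0 ≤ L := by
    rw [hL]; have := Real.log_nonneg hN1; linarith
  have hlinv : 1 / lam ≤ (N : ℝ) ^ (2 - η) := by
    rw [div_le_iff₀ hlam]
    have h1 : (N : ℝ) ^ (2 - η) * (N : ℝ) ^ (-2 + η) = 1 := by
      rw [← Real.rpow_add hN0]; simp
    rw [← h1]
    exact mul_le_mul_of_nonneg_left hl1 (by positivity)
  set P := (N : ℝ) ^ (2 - η / 2) with hP
  have hP0 : 0 < P := by positivity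
  have p1 : (N : ℝ) ≤ P := by
    have := Real.rpow_le_rpow_of_exponent_le hN1 (show (1 : ℝ) ≤ 2 - η / 2 by linarith)
    rwa [Real.rpow_one] at this
  have p2 : L / lam ≤ B * P := by
    have e : (N : ℝ) ^ (η / 2) * (N : ℝ) ^ (2 - η) = P := by
      rw [← Real.rpow_add hN0, hP]; congr 1; ring
    calc L / lam = L * (1 / lam) := by ring
      _ ≤ (B * (N : ℝ) ^ (η / 2)) * (N : ℝ) ^ (2 - η) :=
          mul_le_mul hlog hlinv (by positivity) (by positivity)
      _ = B * P := by rw [← e]; ring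
  have p3 : lam * (N : ℝ) ^ 2 ≤ P := by
    have e : (N : ℝ) ^ (-η) * (N : ℝ) ^ 2 = (N : ℝ) ^ (2 - η) := by
      rw [← Real.rpow_natCast, ← Real.rpow_add hN0]; congr 1; push_cast; ring
    calc lam * (N : ℝ) ^ 2 ≤ (N : ℝ) ^ (-η) * (N : ℝ) ^ 2 :=
          mul_le_mul_of_nonneg_right hl2 (by positivity)
      _ = (N : ℝ) ^ (2 - η) := e
      _ ≤ P := Real.rpow_le_rpow_of_exponent_le hN1 (by linarith)
  have p4 : N * L ≤ B * P := by
    have e : (N : ℝ) * (N : ℝ) ^ (η / 2) = (N : ℝ) ^ (1 + η / 2) := by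
      rw [Real.rpow_add hN0, Real.rpow_one]
    calc N * L ≤ N * (B * (N : ℝ) ^ (η / 2)) := mul_le_mul_of_nonneg_left hlog hN0.le
      _ = B * (N : ℝ) ^ (1 + η / 2) := by rw [← e]; ring
      _ ≤ B * P := mul_le_mul_of_nonneg_left
          (Real.rpow_le_rpow_of_exponent_le hN1 (by linarith)) (by linarith)
  have hv := vdc_ineq' M N H hMN hH1 hHN g
  set T := ∑ h ∈ Ico 1 H, ‖∑ n ∈ range (M - h), ee ((fun n => g (n + h) - g n) n)‖ with hT
  have hT0 : 0 ≤ T := Finset.sum_nonneg fun _ _ => norm_nonneg _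
  have hmain : ‖∑ n ∈ range M, ee (g n)‖ ^ 2 ≤ K * ((N : ℝ) ^ (1 - η / 4)) ^ 2 := by
    have e : ((N : ℝ) ^ (1 - η / 4)) ^ 2 = P := by
      rw [← Real.rpow_natCast, ← Real.rpow_mul hN0.le, hP]; congr 1; push_cast; ring
    rw [e]
    have h1 : 2 * (N : ℝ) / H * ((N : ℝ) + 2 * T) ≤
        (2 * N * (1 / N + 4 * A * lam)) * (N + 2 * (2 / lam * L)) := by
      have h2 : 2 * (N : ℝ) / H = 2 * N * (1 / H) := by ring
      rw [h2]
      apply mul_le_mul
      · exact mul_le_mul_of_nonneg_left hHinv (by positivity)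
      · linarith
      · positivity
      · positivity
    have h3 : (2 * N * (1 / N + 4 * A * lam)) * (N + 2 * (2 / lam * L)) =
        2 * N + 8 * (L / lam) + 8 * A * (lam * (N : ℝ) ^ 2) + 32 * A * (N * L) := by
      field_simp
      ring
    rw [h3] at h1
    have hA0 : 0 ≤ A := by linarith
    have q1 : 8 * A * (lam * (N : ℝ) ^ 2) ≤ 8 * A * P :=
      mul_le_mul_of_nonneg_left p3 (by positivity)
    have q2 : 32 * A * (N * L) ≤ 32 * A * (B * P) :=
      mul_le_mul_of_nonneg_left p4 (by positivity)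
    have : K * P = 2 * P + 8 * (B * P) + 8 * A * P + 32 * A * (B * P) := by rw [hK]; ring
    rw [this]
    linarith
  exact sq_to_lin (norm_nonneg _) hK1 hN0.le hmain

/-- TARGET: discrete van der Corput derivative test with a power saving. -/
theorem vdc (k : ℕ) (hk : 2 ≤ k) (A : ℝ) (hA : 1 ≤ A) (η : ℝ) (hη : 0 < η) (hη1 : η < 1) :
    ∃ σ : ℝ, 0 < σ ∧ ∃ C : ℝ, 1 ≤ C ∧ ∀ (N M : ℕ) (g : ℕ → ℝ) (lam : ℝ), 1 ≤ N → M ≤ N →
      Cond k g M lam A → (N : ℝ) ^ (-2 + η) ≤ lam → lam ≤ (N : ℝ) ^ (-η) →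
      ‖∑ n ∈ range M, ee (g n)‖ ≤ C * (N : ℝ) ^ (1 - σ) := by
  induction k, hk using Nat.le_induction generalizing η with
  | base => exact vdc_base A hA η hη hη1
  | succ k hk ih =>
    obtain ⟨σ2, hσ2, C2, hC2, hIH⟩ := ih (η / 2) (by positivity) (by linarith)
    set σ := min (η / 4) (σ2 / 2) with hσ
    have hσ0 : 0 < σ := lt_min (by positivity) (by positivity)
    refine ⟨σ, hσ0, 4 + 4 * C2, by linarith, ?_⟩
    intro N M g lam hN hMN hc hl1 hl2
    have hN1 : (1 : ℝ) ≤ N := by exact_mod_cast hN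
    have hN0 : (0 : ℝ) < N := by linarith
    have hlam : 0 < lam := lt_of_lt_of_le (Real.rpow_pos_of_pos hN0 _) hl1
    set q := (N : ℝ) ^ (η / 2) with hq
    have hq1 : 1 ≤ q := Real.one_le_rpow hN1 (by positivity)
    have hqN : q ≤ N := by
      have := Real.rpow_le_rpow_of_exponent_le hN1 (show η / 2 ≤ 1 by linarith)
      rwa [Real.rpow_one] at this
    set H := ⌊q⌋₊ with hH
    have hH1 : 1 ≤ H := Nat.floor_pos.2 hq1
    have hHq : (H : ℝ) ≤ q := Nat.floor_le (by linarith)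
    have hHN : H ≤ N := by
      have : (H : ℝ) ≤ N := hHq.trans hqN
      exact_mod_cast this
    have hH0 : (0 : ℝ) < H := by exact_mod_cast hH1
    have hHq2 : q ≤ 2 * H := by
      have h1 : q < (H : ℝ) + 1 := Nat.lt_floor_add_one q
      have h2 : (1 : ℝ) ≤ H := by exact_mod_cast hH1
      linarith
    have hSh : ∀ h ∈ Ico 1 H, ‖∑ n ∈ range (M - h), ee ((fun n => g (n + h) - g n) n)‖ ≤
        C2 * (N : ℝ) ^ (1 - σ2) := by
      intro h hh
      rw [mem_Ico] at hh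
      have hh1 : (1 : ℝ) ≤ h := by exact_mod_cast hh.1
      have hhH : (h : ℝ) ≤ H := by exact_mod_cast hh.2.le
      refine hIH N (M - h) (fun n => g (n + h) - g n) (h * lam) hN (by omega)
        (cond_diff hc hh.1) ?_ ?_
      · calc (N : ℝ) ^ (-2 + η / 2) ≤ (N : ℝ) ^ (-2 + η) :=
              Real.rpow_le_rpow_of_exponent_le hN1 (by linarith)
          _ ≤ lam := hl1
          _ ≤ h * lam := by nlinarith
      · calc (h : ℝ) * lam ≤ q * (N : ℝ) ^ (-η) :=
              mul_le_mul (hhH.trans hHq) hl2 hlam.le (by positivity)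
          _ = (N : ℝ) ^ (-(η / 2)) := by
              rw [hq, ← Real.rpow_add hN0]; congr 1; ring
    have hv := vdc_ineq' M N H hMN hH1 hHN g
    set T := ∑ h ∈ Ico 1 H, ‖∑ n ∈ range (M - h), ee ((fun n => g (n + h) - g n) n)‖ with hT
    have hT1 : T ≤ H * (C2 * (N : ℝ) ^ (1 - σ2)) := by
      have h1 := Finset.sum_le_card_nsmul (Ico 1 H) _ _ hSh
      rw [Nat.card_Ico, nsmul_eq_mul] at h1
      refine h1.trans (mul_le_mul_of_nonneg_right ?_ (by positivity))
      have : ((H - 1 : ℕ) : ℝ) ≤ (H : ℕ) := by exact_mod_cast Nat.sub_le _ _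
      exact this
    have hmain : ‖∑ n ∈ range M, ee (g n)‖ ^ 2 ≤ (4 + 4 * C2) * ((N : ℝ) ^ (1 - σ)) ^ 2 := by
      have e : ((N : ℝ) ^ (1 - σ)) ^ 2 = (N : ℝ) ^ (2 - 2 * σ) := by
        rw [← Real.rpow_natCast, ← Real.rpow_mul hN0.le]; congr 1; push_cast; ring
      rw [e]
      have h1 : 2 * (N : ℝ) / H * ((N : ℝ) + 2 * T) ≤
          2 * (N : ℝ) / H * ((N : ℝ) + 2 * (H * (C2 * (N : ℝ) ^ (1 - σ2)))) :=
        mul_le_mul_of_nonneg_left (by linarith) (by positivity)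
      have h2 : 2 * (N : ℝ) / H * ((N : ℝ) + 2 * (H * (C2 * (N : ℝ) ^ (1 - σ2)))) =
          2 * (N : ℝ) ^ 2 * (1 / H) + 4 * C2 * (N * (N : ℝ) ^ (1 - σ2)) := by
        field_simp
        ring
      have h3 : 1 / (H : ℝ) ≤ 2 * (N : ℝ) ^ (-(η / 2)) := by
        have h4 : (N : ℝ) ^ (-(η / 2)) = 1 / q := by rw [hq, Real.rpow_neg hN0.le]; ring
        rw [h4, mul_one_div, div_le_div_iff₀ hH0 (by linarith)]
        linarith
      have h5 : 2 * (N : ℝ) ^ 2 * (1 / H) ≤ 4 * (N : ℝ) ^ (2 - 2 * σ) := by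
        calc 2 * (N : ℝ) ^ 2 * (1 / H) ≤ 2 * (N : ℝ) ^ 2 * (2 * (N : ℝ) ^ (-(η / 2))) :=
              mul_le_mul_of_nonneg_left h3 (by positivity)
          _ = 4 * (N : ℝ) ^ (2 - η / 2) := by
              have : (N : ℝ) ^ (2 - η / 2) = (N : ℝ) ^ 2 * (N : ℝ) ^ (-(η / 2)) := by
                rw [← Real.rpow_natCast, ← Real.rpow_add hN0]; congr 1
              rw [this]; ring
          _ ≤ 4 * (N : ℝ) ^ (2 - 2 * σ) := by
              have hs : σ ≤ η / 4 := min_le_left _ _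
              exact mul_le_mul_of_nonneg_left
                (Real.rpow_le_rpow_of_exponent_le hN1 (by linarith)) (by norm_num)
      have h6 : N * (N : ℝ) ^ (1 - σ2) ≤ (N : ℝ) ^ (2 - 2 * σ) := by
        have : N * (N : ℝ) ^ (1 - σ2) = (N : ℝ) ^ (2 - σ2) := by
          have e2 : (2 : ℝ) - σ2 = 1 + (1 - σ2) := by ring
          rw [e2, Real.rpow_add hN0 1, Real.rpow_one]
        rw [this]
        have hs : σ ≤ σ2 / 2 := min_le_right _ _
        exact Real.rpow_le_rpow_of_exponent_le hN1 (by linarith)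
      rw [h2] at h1
      have h7 : 4 * C2 * (N * (N : ℝ) ^ (1 - σ2)) ≤ 4 * C2 * (N : ℝ) ^ (2 - 2 * σ) :=
        mul_le_mul_of_nonneg_left h6 (by linarith)
      rw [add_mul]
      linarith
    exact sq_to_lin (norm_nonneg _) (by linarith) hN0.le hmain

end Pool.Agent.Helper153.Vdc
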