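import Mathlib
import Pool.Agent.Helper153.FacC

set_option autoImplicit false

namespace Pool.Agent.Helper153.Vdc

open Finset

theorem dd_succ (k : ℕ) : ∀ (g : ℕ → ℝ) (n : ℕ), dd (k + 1) g n = dd k g (n + 1) - dd k g n := by
  induction k with
  | zero => intro g n; rfl
  | succ k ih =>
    intro g n
    have h1 : dd (k + 1 + 1) g n = dd (k + 1) (fun n => g (n + 1) - g n) n := rfl
    rw [h1, ih]
    rfl

theorem dd_formula (A Q P : ℝ) (k : ℕ) : ∀ j : ℕ, (∀ i ≤ k, Q - P * ((j + i : ℕ) : ℝ) ≠ 0) →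
    dd k (fun j => A / (Q - P * (j : ℝ))) j =
      (k.factorial : ℝ) * P ^ k * A / ∏ i ∈ range (k + 1), (Q - P * ((j + i : ℕ) : ℝ)) := by
  induction k with
  | zero =>
    intro j _
    simp [dd]
  | succ k ih =>
    intro j hj
    rw [dd_succ, ih j (fun i hi => hj i (by omega)), ih (j + 1) (fun i hi => by
      have := hj (i + 1) (by omega)
      have e : j + 1 + i = j + (i + 1) := by ring
      rw [e]; exact this)]
    set P1 := ∏ i ∈ range (k + 1), (Q - P * ((j + i : ℕ) : ℝ)) with hP1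
    set P2 := ∏ i ∈ range (k + 1), (Q - P * ((j + 1 + i : ℕ) : ℝ)) with hP2
    set Pi := ∏ i ∈ range (k + 1 + 1), (Q - P * ((j + i : ℕ) : ℝ)) with hPi
    have e1 : Pi = P1 * (Q - P * ((j + (k + 1) : ℕ) : ℝ)) := by
      rw [hPi, hP1, Finset.prod_range_succ]
    have e2 : Pi = P2 * (Q - P * ((j : ℕ) : ℝ)) := by
      rw [hPi, hP2, Finset.prod_range_succ']
      congr 1
      refine Finset.prod_congr rfl (fun i _ => ?_)
      have e : j + 1 + i = j + (i + 1) := by ring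
      rw [e]
    have h0 : Pi ≠ 0 := by
      rw [hPi, Finset.prod_ne_zero_iff]
      intro i hi
      exact hj i (by have := Finset.mem_range.1 hi; omega)
    have h1 : P1 ≠ 0 := by intro h; rw [e1, h, zero_mul] at h0; exact h0 rfl
    have h2 : P2 ≠ 0 := by intro h; rw [e2, h, zero_mul] at h0; exact h0 rfl
    have f1 : (k.factorial : ℝ) * P ^ k * A / P2 = 
        (k.factorial : ℝ) * P ^ k * A * (Q - P * ((j : ℕ) : ℝ)) / Pi := by
      rw [div_eq_div_iff h2 h0, e2]; ring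
    have f2 : (k.factorial : ℝ) * P ^ k * A / P1 = 
        (k.factorial : ℝ) * P ^ k * A * (Q - P * ((j + (k + 1) : ℕ) : ℝ)) / Pi := by
      rw [div_eq_div_iff h1 h0, e1]; ring
    rw [f1, f2, ← sub_div]
    congr 1
    rw [Nat.factorial_succ]
    push_cast
    ring

theorem unif (K : ℕ) : ∃ σ : ℝ, 0 < σ ∧ ∃ C : ℝ, 1 ≤ C ∧ ∀ k, 2 ≤ k → k ≤ K → 
    ∀ (N M : ℕ) (g : ℕ → ℝ) (lam : ℝ), 1 ≤ N → M ≤ N →
      Cond k g M lam (2 ^ (k + 1)) → (N : ℝ) ^ (-2 + (1 / 10 : ℝ)) ≤ lam → 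
      lam ≤ (N : ℝ) ^ (-(1 / 10 : ℝ)) →
      ‖∑ n ∈ range M, ee (g n)‖ ≤ C * (N : ℝ) ^ (1 - σ) := by
  induction K with
  | zero =>
    refine ⟨1, one_pos, 1, le_rfl, ?_⟩
    intro k h1 h2
    omega
  | succ K ih =>
    obtain ⟨σ1, hσ1, C1, hC1, h1⟩ := ih
    by_cases hK : 2 ≤ K + 1
    · obtain ⟨σ2, hσ2, C2, hC2, h2⟩ := vdc (K + 1) hK (2 ^ (K + 1 + 1)) 
        (one_le_pow₀ (by norm_num)) (1 / 10) (by norm_num) (by norm_num)
      refine ⟨min σ1 σ2, lt_min hσ1 hσ2, max C1 C2, le_trans hC1 (le_max_left _ _), ?_⟩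
      intro k hk hkK N M g lam hN hM hc hl1 hl2
      have hN' : (1 : ℝ) ≤ N := by exact_mod_cast hN
      have hpos : ∀ s : ℝ, 0 ≤ (N : ℝ) ^ s := fun s => Real.rpow_nonneg (by linarith) s
      rcases Nat.lt_or_ge k (K + 1) with hlt | hge
      · refine (h1 k hk (by omega) N M g lam hN hM hc hl1 hl2).trans ?_
        refine mul_le_mul (le_max_left _ _) ?_ (hpos _) (by linarith [le_max_left C1 C2])
        exact Real.rpow_le_rpow_of_exponent_le hN' (by linarith [min_le_left σ1 σ2])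
      · have hke : k = K + 1 := by omega
        subst hke
        refine (h2 N M g lam hN hM hc hl1 hl2).trans ?_
        refine mul_le_mul (le_max_right _ _) ?_ (hpos _) (by linarith [le_max_left C1 C2])
        exact Real.rpow_le_rpow_of_exponent_le hN' (by linarith [min_le_right σ1 σ2])
    · refine ⟨σ1, hσ1, C1, hC1, ?_⟩
      intro k hk hkK
      omega

/-- description of the filtered interval -/
theorem sum_filter_eq (P : ℕ) (hP : 1 ≤ P) (c a : ℕ) (f : ℕ → ℂ)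
    (hne : ((Ioc (c / 2) c).filter (fun q => q % P = a)).Nonempty) :
    ∃ Q M : ℕ, c / 2 < Q ∧ Q ≤ c ∧ M ≤ c ∧ (∀ j, j < M → P * j < Q - c / 2) ∧
      ∑ q ∈ (Ioc (c / 2) c).filter (fun q => q % P = a), f q = 
        ∑ j ∈ range M, f (Q - P * j) := by
  set S := (Ioc (c / 2) c).filter (fun q => q % P = a) with hS
  set Q := S.max' hne with hQ
  have hQS : Q ∈ S := S.max'_mem hne
  rw [hS, Finset.mem_filter, Finset.mem_Ioc] at hQS
  obtain ⟨⟨hQ1, hQ2⟩, hQ3⟩ := hQS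
  have hM : ∀ j, j < (Q - c / 2 - 1) / P + 1 ↔ P * j < Q - c / 2 := by
    intro j
    rw [Nat.lt_succ_iff, Nat.le_div_iff_mul_le (by omega), mul_comm]
    omega
  refine ⟨Q, (Q - c / 2 - 1) / P + 1, hQ1, hQ2, ?_, fun j hj => (hM j).1 hj, ?_⟩
  · have : (Q - c / 2 - 1) / P ≤ Q - c / 2 - 1 := Nat.div_le_self _ _
    omega
  · symm
    refine Finset.sum_bij (fun j _ => Q - P * j) ?_ ?_ ?_ ?_
    · intro j hj
      have h1 := (hM j).1 (Finset.mem_range.1 hj)
      rw [hS, Finset.mem_filter, Finset.mem_Ioc]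
      refine ⟨⟨by omega, by omega⟩, ?_⟩
      have h2 : Q - P * j + P * j = Q := by omega
      rw [← hQ3]
      conv_rhs => rw [← h2]
      rw [Nat.add_mul_mod_self_left]
    · intro i hi j hj hij
      have h1 := (hM i).1 (Finset.mem_range.1 hi)
      have h2 := (hM j).1 (Finset.mem_range.1 hj)
      have h3 : P * i = P * j := by
        omega
      exact Nat.eq_of_mul_eq_mul_left (by omega) h3
    · intro q hq
      have hqQ : q ≤ Q := S.le_max' q hq
      rw [hS, Finset.mem_filter, Finset.mem_Ioc] at hq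
      obtain ⟨⟨hq1, hq2⟩, hq3⟩ := hq
      have hmod : (Q - q) % P = 0 := by
        have h4 : Q ≡ q [MOD P] := by rw [Nat.ModEq, hQ3, hq3]
        exact (Nat.modEq_iff_dvd' hqQ).1 h4.symm |>.elim (fun k hk => by rw [hk]; exact Nat.mul_mod_right _ _)
      have hdiv : P * ((Q - q) / P) = Q - q := by
        have := Nat.div_add_mod (Q - q) P
        omega
      refine ⟨(Q - q) / P, ?_, ?_⟩
      · rw [Finset.mem_range, hM, hdiv]; omega
      · rw [hdiv]; omega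
    · intro j _
      rfl

theorem exists_n0 (α σ C D : ℝ) (hα : 0 < α) (hσ : 0 < σ) : ∃ n₀ : ℕ, ∀ n : ℕ, n₀ ≤ n → 
    2 ≤ n ∧ 1 < (n : ℝ) ^ α ∧ 2 ≤ (n : ℝ) ^ (α * (2 / 5)) ∧ 
      D * Real.log n ≤ (n : ℝ) ^ (α * (2 / 5)) ∧ C ≤ (n : ℝ) ^ (α * (σ / 2)) := by
  have hcast : Filter.Tendsto (fun n : ℕ => (n : ℝ)) Filter.atTop Filter.atTop := 
    tendsto_natCast_atTop_atTop
  have t : ∀ s : ℝ, 0 < s → Filter.Tendsto (fun n : ℕ => (n : ℝ) ^ s) Filter.atTop Filter.atTop := 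
    fun s hs => (tendsto_rpow_atTop hs).comp hcast
  have e1 := (t α hα).eventually_gt_atTop 1
  have e2 := (t (α * (2 / 5)) (by positivity)).eventually_ge_atTop 2
  have e3 := (t (α * (σ / 2)) (by positivity)).eventually_ge_atTop C
  have e4 : ∀ᶠ n : ℕ in Filter.atTop, D * Real.log n ≤ (n : ℝ) ^ (α * (2 / 5)) := by
    have h1 := (isLittleO_log_rpow_atTop (r := α * (2 / 5)) (by positivity)).def 
      (c := 1 / (|D| + 1)) (by positivity)
    have h2 := hcast.eventually h1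
    filter_upwards [h2, Filter.eventually_ge_atTop 1] with n hn h1n
    have hn1 : (1 : ℝ) ≤ n := by exact_mod_cast h1n
    rw [Real.norm_of_nonneg (Real.log_nonneg hn1), 
      Real.norm_of_nonneg (Real.rpow_nonneg (by linarith) _)] at hn
    have h3 : (|D| + 1) * Real.log n ≤ (n : ℝ) ^ (α * (2 / 5)) := by
      have h4 := mul_le_mul_of_nonneg_left hn (by positivity : 0 ≤ |D| + 1)
      rw [← mul_assoc, mul_one_div, div_self (by positivity : |D| + 1 ≠ 0), one_mul] at h4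
      exact h4
    refine le_trans ?_ h3
    exact mul_le_mul_of_nonneg_right (by linarith [le_abs_self D]) (Real.log_nonneg hn1)
  have e5 : ∀ᶠ n : ℕ in Filter.atTop, 2 ≤ n := Filter.eventually_ge_atTop 2
  obtain ⟨n₀, h⟩ := Filter.eventually_atTop.1 (e5.and (e1.and (e2.and (e4.and e3))))
  exact ⟨n₀, fun n hn => h n hn⟩

/-- the condition on differences -/
theorem cond_holds (P : ℕ) (hP : 1 ≤ P) (c Q M k : ℕ) (A : ℝ) (hA : 0 ≤ A) (hc : 0 < c) (hQ : Q ≤ c)
    (hM : ∀ j, j < M → P * j < Q - c / 2) :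
    Cond k (fun j => A / ((Q : ℝ) - P * (j : ℝ))) M
      ((k.factorial : ℝ) * (P : ℝ) ^ k * A / (c : ℝ) ^ (k + 1)) (2 ^ (k + 1)) := by
  have hcr : (0 : ℝ) < c := by exact_mod_cast hc
  have hx : ∀ j, j < M → (c : ℝ) / 2 < (Q : ℝ) - P * (j : ℝ) ∧ (Q : ℝ) - P * (j : ℝ) ≤ c := by
    intro j hj
    have h1 := hM j hj
    have h2 : c + 2 * (P * j) < 2 * Q := by omega
    have h3 : (c : ℝ) + 2 * (P * j) < 2 * Q := by exact_mod_cast h2
    have h4 : (Q : ℝ) ≤ c := by exact_mod_cast hQ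
    have h5 : (0 : ℝ) ≤ P * j := by positivity
    constructor <;> linarith
  have hpos : ∀ j, j < M → 0 < (Q : ℝ) - P * (j : ℝ) := fun j hj => by
    linarith [(hx j hj).1]
  have hnum : ∀ k : ℕ, (0 : ℝ) ≤ (k.factorial : ℝ) * (P : ℝ) ^ k * A := fun k => by positivity
  refine ⟨?_, ?_⟩
  · intro n hn
    rw [dd_formula A Q P k n (fun i hi => (hpos (n + i) (by omega)).ne')]
    have hprodpos : 0 < ∏ i ∈ range (k + 1), ((Q : ℝ) - P * ((n + i : ℕ) : ℝ)) := by
      apply Finset.prod_pos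
      intro i hi
      exact hpos (n + i) (by have := Finset.mem_range.1 hi; omega)
    have hup : ∏ i ∈ range (k + 1), ((Q : ℝ) - P * ((n + i : ℕ) : ℝ)) ≤ (c : ℝ) ^ (k + 1) := by
      calc ∏ i ∈ range (k + 1), ((Q : ℝ) - P * ((n + i : ℕ) : ℝ)) ≤ ∏ _i ∈ range (k + 1), (c : ℝ) := by
            apply Finset.prod_le_prod
            · intro i hi
              exact (hpos (n + i) (by have := Finset.mem_range.1 hi; omega)).le
            · intro i hi
              exact (hx (n + i) (by have := Finset.mem_range.1 hi; omega)).2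
        _ = (c : ℝ) ^ (k + 1) := by rw [Finset.prod_const, Finset.card_range]
    have hlo : ((c : ℝ) / 2) ^ (k + 1) ≤ ∏ i ∈ range (k + 1), ((Q : ℝ) - P * ((n + i : ℕ) : ℝ)) := by
      calc ((c : ℝ) / 2) ^ (k + 1) = ∏ _i ∈ range (k + 1), ((c : ℝ) / 2) := by 
            rw [Finset.prod_const, Finset.card_range]
        _ ≤ _ := by
            apply Finset.prod_le_prod
            · intro i hi
              positivity
            · intro i hi
              exact (hx (n + i) (by have := Finset.mem_range.1 hi; omega)).1.le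
    constructor
    · exact div_le_div_of_nonneg_left (hnum k) hprodpos hup
    · calc (k.factorial : ℝ) * (P : ℝ) ^ k * A / ∏ i ∈ range (k + 1), ((Q : ℝ) - P * ((n + i : ℕ) : ℝ)) 
          ≤ (k.factorial : ℝ) * (P : ℝ) ^ k * A / ((c : ℝ) / 2) ^ (k + 1) := 
            div_le_div_of_nonneg_left (hnum k) (by positivity) hlo
        _ = 2 ^ (k + 1) * ((k.factorial : ℝ) * (P : ℝ) ^ k * A / (c : ℝ) ^ (k + 1)) := by
            rw [div_pow]
            field_simp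
  · intro n hn
    rw [dd_formula A Q P (k + 1) n (fun i hi => (hpos (n + i) (by omega)).ne')]
    have hprodpos : 0 < ∏ i ∈ range (k + 1 + 1), ((Q : ℝ) - P * ((n + i : ℕ) : ℝ)) := by
      apply Finset.prod_pos
      intro i hi
      exact hpos (n + i) (by have := Finset.mem_range.1 hi; omega)
    exact div_nonneg (hnum (k + 1)) hprodpos.le

/-- TARGET: exponential sums `∑ e(hm/q)` over `q ∈ (c/2, c]` in a residue class mod `P`. -/
theorem expsum (P : ℕ) (hP : 1 ≤ P) (α : ℝ) (hα : 0 < α) :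
    ∃ σ : ℝ, 0 < σ ∧ ∃ n₀ : ℕ, ∀ n m c h a : ℕ, n₀ ≤ n → n < 2 * m → m ≤ n →
      (n : ℝ) ^ α ≤ c → (c : ℝ) ≤ (n : ℝ) ^ (3 / 5 : ℝ) → 1 ≤ h → (h : ℝ) ≤ Real.log n →
      ‖∑ q ∈ (Ioc (c / 2) c).filter (fun q => q % P = a), ee ((h : ℝ) * m / q)‖
        ≤ (c : ℝ) ^ (1 - σ) := by
  set K : ℕ := ⌈1 / α⌉₊ + 1 with hK
  obtain ⟨σ, hσ, C, hC, hunif⟩ := unif K
  set D : ℝ := (K.factorial : ℝ) * (P : ℝ) ^ K with hD
  obtain ⟨n₀, hn₀⟩ := exists_n0 α σ C D hα hσ
  refine ⟨σ / 2, by positivity, n₀, ?_⟩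
  intro n m c h a hn hnm hmn hc1 hc2 hh1 hh2
  obtain ⟨hn2, hna, hn3, hn4, hn5⟩ := hn₀ n hn
  have hnr : (2 : ℝ) ≤ n := by exact_mod_cast hn2
  have hc1' : (1 : ℝ) < c := lt_of_lt_of_le hna hc1
  have hcpos : (0 : ℝ) < c := by linarith
  have hcN : 1 ≤ c := by
    have : (1 : ℝ) ≤ c := hc1'.le
    exact_mod_cast this
  by_cases hne : ((Ioc (c / 2) c).filter (fun q => q % P = a)).Nonempty
  swap
  · rw [Finset.not_nonempty_iff_eq_empty] at hne
    rw [hne, Finset.sum_empty, norm_zero]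
    positivity
  obtain ⟨Q, M, hQ1, hQ2, hMc, hMj, hsum⟩ := sum_filter_eq P hP c a (fun q => ee ((h : ℝ) * m / q)) hne
  rw [hsum]
  have hsum2 : ∑ j ∈ range M, ee ((h : ℝ) * m / ((Q - P * j : ℕ) : ℝ)) = 
      ∑ j ∈ range M, ee ((fun j : ℕ => ((h : ℝ) * m) / ((Q : ℝ) - P * (j : ℝ))) j) := by
    refine Finset.sum_congr rfl (fun j hj => ?_)
    have h1 := hMj j (Finset.mem_range.1 hj)
    rw [Nat.cast_sub (by omega)]
    push_cast
    rfl
  rw [hsum2]
  -- logarithms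
  have hlogc : 0 < Real.log c := Real.log_pos hc1'
  have hlogn : 0 < Real.log n := Real.log_pos (by linarith)
  have hL1 : α * Real.log n ≤ Real.log c := by
    have := Real.log_le_log (by positivity) hc1
    rwa [Real.log_rpow (by linarith)] at this
  have hL2 : Real.log c ≤ (3 / 5) * Real.log n := by
    have := Real.log_le_log hcpos hc2
    rwa [Real.log_rpow (by linarith)] at this
  set R : ℝ := Real.log n / Real.log c with hR
  have hRc : R * Real.log c = Real.log n := div_mul_cancel₀ _ hlogc.ne'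
  have hR1 : 5 / 3 ≤ R := by
    rw [hR, le_div_iff₀ hlogc]; linarith
  have hR2 : R ≤ 1 / α := by
    rw [hR, div_le_div_iff₀ hlogc hα]; linarith
  set k : ℕ := ⌈R - 1 / 2⌉₊ with hk
  have hk1 : 2 ≤ k := by
    have : 1 < ⌈R - 1 / 2⌉₊ := by
      rw [Nat.lt_ceil]; push_cast; linarith
    omega
  have hk2 : (k : ℝ) < R - 1 / 2 + 1 := Nat.ceil_lt_add_one (by linarith)
  have hk3 : R - 1 / 2 ≤ k := Nat.le_ceil _
  have hkK : k ≤ K := by
    have h1 : (1 : ℝ) / α ≤ (⌈1 / α⌉₊ : ℝ) := Nat.le_ceil _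
    have h2 : (k : ℝ) < (K : ℝ) := by
      rw [hK]; push_cast; linarith
    exact_mod_cast h2.le
  -- powers
  have hp1 : (c : ℝ) ^ ((k : ℝ) - 1 / 2) ≤ n := by
    rw [Real.rpow_le_iff_le_log hcpos (by linarith), ← hRc]
    exact mul_le_mul_of_nonneg_right (by linarith) hlogc.le
  have hp2 : (n : ℝ) ≤ (c : ℝ) ^ ((k : ℝ) + 1 / 2) := by
    rw [Real.le_rpow_iff_log_le (by linarith) hcpos, ← hRc]
    exact mul_le_mul_of_nonneg_right (by linarith) hlogc.le
  have hcpow : (c : ℝ) ^ (k + 1) = (c : ℝ) ^ ((k : ℝ) + 1) := by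
    rw [← Real.rpow_natCast]; push_cast; rfl
  have hc25 : (n : ℝ) ^ (α * (2 / 5)) ≤ (c : ℝ) ^ (2 / 5 : ℝ) := by
    rw [Real.rpow_mul (by linarith)]
    exact Real.rpow_le_rpow (by positivity) hc1 (by norm_num)
  have hcσ : (n : ℝ) ^ (α * (σ / 2)) ≤ (c : ℝ) ^ (σ / 2) := by
    rw [Real.rpow_mul (by linarith)]
    exact Real.rpow_le_rpow (by positivity) hc1 (by positivity)
  set lam : ℝ := (k.factorial : ℝ) * (P : ℝ) ^ k * ((h : ℝ) * m) / (c : ℝ) ^ (k + 1) with hlam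
  have hPr : (1 : ℝ) ≤ P := by exact_mod_cast hP
  have hhr : (1 : ℝ) ≤ h := by exact_mod_cast hh1
  have hmr : (n : ℝ) < 2 * m := by exact_mod_cast hnm
  have hmn' : (m : ℝ) ≤ n := by exact_mod_cast hmn
  have hm0 : (0 : ℝ) < m := by linarith
  have hkf : (1 : ℝ) ≤ k.factorial := by exact_mod_cast Nat.factorial_pos k
  have hPk : (1 : ℝ) ≤ (P : ℝ) ^ k := one_le_pow₀ hPr
  have hlam1 : (c : ℝ) ^ (-2 + (1 / 10 : ℝ)) ≤ lam := by
    have h1 : (m : ℝ) ≤ (k.factorial : ℝ) * (P : ℝ) ^ k * ((h : ℝ) * m) := by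
      have h2 : (1 : ℝ) ≤ (k.factorial : ℝ) * (P : ℝ) ^ k := by nlinarith
      have h3 : (m : ℝ) ≤ (h : ℝ) * m := by nlinarith
      nlinarith
    have h2 : (c : ℝ) ^ ((k : ℝ) - 1 / 2) / 2 ≤ m := by linarith
    have h3 : (c : ℝ) ^ (-2 + (1 / 10 : ℝ)) * (c : ℝ) ^ ((k : ℝ) + 1) * 2 ≤ (c : ℝ) ^ ((k : ℝ) - 1 / 2) := by
      have h4 : (2 : ℝ) ≤ (c : ℝ) ^ (2 / 5 : ℝ) := hn3.trans hc25
      calc (c : ℝ) ^ (-2 + (1 / 10 : ℝ)) * (c : ℝ) ^ ((k : ℝ) + 1) * 2 
          ≤ (c : ℝ) ^ (-2 + (1 / 10 : ℝ)) * (c : ℝ) ^ ((k : ℝ) + 1) * (c : ℝ) ^ (2 / 5 : ℝ) := by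
            apply mul_le_mul_of_nonneg_left h4; positivity
        _ = (c : ℝ) ^ ((k : ℝ) - 1 / 2) := by
            rw [← Real.rpow_add hcpos, ← Real.rpow_add hcpos]
            congr 1; ring
    rw [hlam, hcpow, le_div_iff₀ (by positivity)]
    linarith
  have hlam2 : lam ≤ (c : ℝ) ^ (-(1 / 10 : ℝ)) := by
    have h1 : (k.factorial : ℝ) * (P : ℝ) ^ k * ((h : ℝ) * m) ≤ D * Real.log n * n := by
      have h2 : (k.factorial : ℝ) ≤ K.factorial := by exact_mod_cast Nat.factorial_le hkK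
      have h3 : (P : ℝ) ^ k ≤ (P : ℝ) ^ K := pow_le_pow_right₀ hPr hkK
      have h4 : (k.factorial : ℝ) * (P : ℝ) ^ k ≤ D := by
        rw [hD]; exact mul_le_mul h2 h3 (by positivity) (by positivity)
      have h5 : (h : ℝ) * m ≤ Real.log n * n := mul_le_mul hh2 hmn' hm0.le hlogn.le
      calc (k.factorial : ℝ) * (P : ℝ) ^ k * ((h : ℝ) * m) ≤ D * (Real.log n * n) := 
            mul_le_mul h4 h5 (by positivity) (by positivity)
        _ = D * Real.log n * n := by ring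
    have h2 : D * Real.log n ≤ (c : ℝ) ^ (2 / 5 : ℝ) := hn4.trans hc25
    have h3 : D * Real.log n * n ≤ (c : ℝ) ^ (2 / 5 : ℝ) * (c : ℝ) ^ ((k : ℝ) + 1 / 2) := 
      mul_le_mul h2 hp2 (by linarith) (by positivity)
    rw [hlam, hcpow, div_le_iff₀ (by positivity)]
    refine (h1.trans h3).trans (le_of_eq ?_)
    rw [← Real.rpow_add hcpos, ← Real.rpow_add hcpos]
    congr 1; ring
  have hcond := cond_holds P hP c Q M k ((h : ℝ) * m) (by positivity) (by omega) hQ2 hMj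
  have hfin := hunif k hk1 hkK c M (fun j : ℕ => ((h : ℝ) * m) / ((Q : ℝ) - P * (j : ℝ))) lam 
    hcN hMc hcond hlam1 hlam2
  refine hfin.trans ?_
  calc C * (c : ℝ) ^ (1 - σ) ≤ (c : ℝ) ^ (σ / 2) * (c : ℝ) ^ (1 - σ) := by
        apply mul_le_mul_of_nonneg_right (hn5.trans hcσ); positivity
    _ = (c : ℝ) ^ (1 - σ / 2) := by
        rw [← Real.rpow_add hcpos]; congr 1; ring

end Pool.Agent.Helper153.Vdc
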