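import Mathlib

set_option autoImplicit false

namespace Pool.Agent.Helper153.Fac

open Finset

/-- squarefree part of `n` -/
def sfp (n : ℕ) : ℕ := ∏ p ∈ n.primeFactors.filter (fun p => Odd (n.factorization p)), p

/-- root of the square part of `n` -/
def rtp (n : ℕ) : ℕ := ∏ p ∈ n.primeFactors, p ^ (n.factorization p / 2)

/-- `m! (m-t)! c!` is a square, with block length `t ≥ 2` and `c ≤ m - t` -/
def Bad (m t c : ℕ) : Prop :=
  2 ≤ t ∧ c + t ≤ m ∧ IsSquare (m.factorial * (m - t).factorial * c.factorial)

/-- primes in `(t, c]` with odd exponent in `c!` -/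
def Sq (c t : ℕ) : Finset ℕ :=
  (Ioc t c).filter (fun q => q.Prime ∧ Odd (c.factorial.factorization q))

end Pool.Agent.Helper153.Fac
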