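import Mathlib
import Pool.Agent.Helper153.FacD

set_option autoImplicit false

namespace Pool.Agent.Helper153.Vdc

open Finset

/-- TARGET 1: integers with small totient ratio. -/
theorem exists_totient_small (κ : ℝ) (hκ : 0 < κ) :
    ∃ P : ℕ, 1 ≤ P ∧ (P.totient : ℝ) ≤ κ * P := by
  have h1 := (not_summable_iff_tendsto_nat_atTop_of_nonneg (f := Set.indicator {p | p.Prime}
    (fun n : ℕ ↦ (1 : ℝ) / n)) (by
      intro n
      apply Set.indicator_nonneg
      intro k _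
      positivity)).mp not_summable_one_div_on_primes
  obtain ⟨N, hN⟩ := (h1.eventually_ge_atTop (-Real.log κ)).exists
  have hprod : ∀ p ∈ (range N).filter Nat.Prime, p.Prime := by
    intro p hp
    exact (mem_filter.mp hp).2
  refine ⟨∏ p ∈ (range N).filter Nat.Prime, p, ?_, ?_⟩
  · exact Finset.one_le_prod' (fun p hp => (hprod p hp).one_lt.le)
  · have e := Nat.totient_eq_mul_prod_factors (∏ p ∈ (range N).filter Nat.Prime, p)
    rw [Nat.primeFactors_prod hprod] at e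
    have e' : (((∏ p ∈ (range N).filter Nat.Prime, p).totient : ℕ) : ℝ) =
        ((∏ p ∈ (range N).filter Nat.Prime, p : ℕ) : ℝ) *
          ∏ p ∈ (range N).filter Nat.Prime, (1 - (p : ℝ)⁻¹) := by
      have e2 := congrArg (fun x : ℚ => (x : ℝ)) e
      push_cast at e2
      push_cast
      exact e2
    rw [e', mul_comm κ]
    apply mul_le_mul_of_nonneg_left _ (Nat.cast_nonneg _)
    have h2 : ∏ p ∈ (range N).filter Nat.Prime, (1 - (p : ℝ)⁻¹) ≤
        ∏ p ∈ (range N).filter Nat.Prime, Real.exp (-(p : ℝ)⁻¹) := by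
      apply Finset.prod_le_prod
      · intro p hp
        have := (hprod p hp).one_lt
        have h3 : (1 : ℝ) ≤ p := by exact_mod_cast this.le
        have := inv_le_one_of_one_le₀ h3
        linarith
      · intro p hp
        have := Real.add_one_le_exp (-(p : ℝ)⁻¹)
        linarith
    refine h2.trans ?_
    rw [← Real.exp_sum, ← Real.le_log_iff_exp_le hκ, sum_neg_distrib]
    have h4 : ∑ i ∈ range N, Set.indicator {p | p.Prime} (fun n : ℕ ↦ (1 : ℝ) / n) i =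
        ∑ p ∈ (range N).filter Nat.Prime, (p : ℝ)⁻¹ := by
      rw [sum_filter]
      apply sum_congr rfl
      intro p _
      simp [Set.indicator_apply]
    rw [h4] at hN
    linarith

theorem ee_nat (k : ℕ) : ee (k : ℝ) = 1 := by
  unfold ee
  have : (2 * Real.pi * ((k : ℝ) : ℂ) * Complex.I : ℂ) = (k : ℂ) * (2 * Real.pi * Complex.I) := by
    push_cast; ring
  rw [this]
  exact Complex.exp_nat_mul_two_pi_mul_I k

theorem ee_re (x : ℝ) : (ee x).re = Real.cos (2 * Real.pi * x) := by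
  unfold ee
  have : (2 * Real.pi * x * Complex.I : ℂ) = ((2 * Real.pi * x : ℝ) : ℂ) * Complex.I := by
    push_cast; ring
  rw [this, Complex.exp_ofReal_mul_I_re]

theorem ee_conj (x : ℝ) : ee x * (starRingEnd ℂ) (ee x) = 1 := by
  rw [Complex.mul_conj', norm_ee]; simp

theorem sieve {ι : Type*} (I : Finset ι) (x : ι → ℝ) (H : ℕ) (K : ℝ) (hK : 0 ≤ K)
    (hb : ∀ h : ℕ, 1 ≤ h → h < H → ‖∑ q ∈ I, ee (h * x q)‖ ≤ K) :
    ∑ q ∈ I, ‖∑ h ∈ range H, ee (h * x q)‖ ^ 2 ≤ H * (I.card : ℝ) + (H : ℝ) ^ 2 * K := by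
  have key : (((∑ q ∈ I, ‖∑ h ∈ range H, ee (h * x q)‖ ^ 2 : ℝ)) : ℂ) =
      ∑ h1 ∈ range H, ∑ h2 ∈ range H, ∑ q ∈ I,
        ee (h1 * x q) * (starRingEnd ℂ) (ee (h2 * x q)) := by
    push_cast
    have e1 : ∀ q ∈ I, ((‖∑ h ∈ range H, ee (h * x q)‖ : ℝ) : ℂ) ^ 2 =
        ∑ h1 ∈ range H, ∑ h2 ∈ range H, ee (h1 * x q) * (starRingEnd ℂ) (ee (h2 * x q)) := by
      intro q _
      rw [← Complex.mul_conj', map_sum, sum_mul_sum]
    rw [sum_congr rfl e1, sum_comm]
    apply sum_congr rfl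
    intro h1 _
    rw [sum_comm]
  have hnn : 0 ≤ ∑ q ∈ I, ‖∑ h ∈ range H, ee (h * x q)‖ ^ 2 :=
    sum_nonneg (fun _ _ => by positivity)
  have hlt : ∀ h1 h2 : ℕ, h2 < h1 → h1 < H →
      ‖∑ q ∈ I, ee (h1 * x q) * (starRingEnd ℂ) (ee (h2 * x q))‖ ≤ K := by
    intro h1 h2 hlt hH
    have e : ∑ q ∈ I, ee (h1 * x q) * (starRingEnd ℂ) (ee (h2 * x q)) =
        ∑ q ∈ I, ee ((h1 - h2 : ℕ) * x q) := by
      apply sum_congr rfl
      intro q _
      have : (h1 : ℝ) * x q = ((h1 - h2 : ℕ) : ℝ) * x q + h2 * x q := by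
        rw [Nat.cast_sub hlt.le]; ring
      rw [this, ee_add, mul_assoc, ee_conj, mul_one]
    rw [e]
    exact hb _ (by omega) (by omega)
  calc ∑ q ∈ I, ‖∑ h ∈ range H, ee (h * x q)‖ ^ 2
      = ‖(((∑ q ∈ I, ‖∑ h ∈ range H, ee (h * x q)‖ ^ 2 : ℝ)) : ℂ)‖ := by
        rw [Complex.norm_real, Real.norm_of_nonneg hnn]
    _ = ‖∑ h1 ∈ range H, ∑ h2 ∈ range H, ∑ q ∈ I,
        ee (h1 * x q) * (starRingEnd ℂ) (ee (h2 * x q))‖ := by rw [key]
    _ ≤ ∑ h1 ∈ range H, ‖∑ h2 ∈ range H, ∑ q ∈ I,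
        ee (h1 * x q) * (starRingEnd ℂ) (ee (h2 * x q))‖ := norm_sum_le _ _
    _ ≤ ∑ h1 ∈ range H, ∑ h2 ∈ range H, ‖∑ q ∈ I,
        ee (h1 * x q) * (starRingEnd ℂ) (ee (h2 * x q))‖ :=
          sum_le_sum (fun h1 _ => norm_sum_le _ _)
    _ ≤ ∑ h1 ∈ range H, ∑ h2 ∈ range H, ((if h1 = h2 then (I.card : ℝ) else 0) + K) := by
        apply sum_le_sum
        intro h1 hh1
        apply sum_le_sum
        intro h2 hh2
        rw [mem_range] at hh1 hh2
        rcases lt_trichotomy h1 h2 with h | h | h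
        · rw [if_neg h.ne, zero_add]
          have e : ∑ q ∈ I, ee (h1 * x q) * (starRingEnd ℂ) (ee (h2 * x q)) =
              (starRingEnd ℂ) (∑ q ∈ I, ee (h2 * x q) * (starRingEnd ℂ) (ee (h1 * x q))) := by
            rw [map_sum]
            apply sum_congr rfl
            intro q _
            rw [map_mul, Complex.conj_conj, mul_comm]
          rw [e, Complex.norm_conj]
          exact hlt h2 h1 h hh2
        · subst h
          rw [if_pos rfl]
          have e : ∑ q ∈ I, ee (h1 * x q) * (starRingEnd ℂ) (ee (h1 * x q)) = (I.card : ℂ) := by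
            rw [sum_congr rfl (fun q _ => ee_conj _)]
            simp
          rw [e, Complex.norm_natCast]
          linarith
        · rw [if_neg h.ne', zero_add]
          exact hlt h1 h2 h hh1
    _ = H * (I.card : ℝ) + (H : ℝ) ^ 2 * K := by
        simp only [sum_add_distrib, sum_ite_eq, sum_const, card_range, nsmul_eq_mul]
        rw [sum_congr rfl (fun h1 hh1 => if_pos hh1)]
        simp only [sum_const, card_range, nsmul_eq_mul]
        ring

/-- counting integers coprime to `P` -/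
theorem card_coprime (P c : ℕ) (hP : 1 ≤ P) (κ : ℝ) (hκ : (P.totient : ℝ) ≤ κ * P) :
    (((Ioc (c / 2) c).filter (fun q => P.Coprime q)).card : ℝ) ≤ κ * ((c + 1) / 2 + P) := by
  have h1 := Nat.Ico_filter_coprime_le (c / 2 + 1) (c - c / 2) (show P ≠ 0 by omega)
  have e : Ioc (c / 2) c = Ico (c / 2 + 1) (c / 2 + 1 + (c - c / 2)) := by
    ext q
    simp only [mem_Ioc, mem_Ico]
    omega
  rw [← e] at h1
  have h2 : (((Ioc (c / 2) c).filter (fun q => P.Coprime q)).card : ℝ) ≤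
      (P.totient : ℝ) * (((c - c / 2) / P : ℕ) + 1) := by exact_mod_cast h1
  have hP0 : (0 : ℝ) < P := by exact_mod_cast hP
  have h3 : (((c - c / 2) / P : ℕ) : ℝ) ≤ ((c + 1) / 2) / P := by
    refine Nat.cast_div_le.trans ?_
    apply div_le_div_of_nonneg_right _ hP0.le
    rw [le_div_iff₀ (by norm_num)]
    have : (c - c / 2) * 2 ≤ c + 1 := by omega
    exact_mod_cast this
  refine h2.trans ?_
  have hκP : 0 ≤ κ * P := (Nat.cast_nonneg _).trans hκ
  calc (P.totient : ℝ) * (((c - c / 2) / P : ℕ) + 1) ≤ (κ * P) * (((c + 1) / 2) / P + 1) := by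
        gcongr
    _ = κ * ((c + 1) / 2 + P) := by field_simp

theorem split_classes (P c : ℕ) (hP : 1 ≤ P) (f : ℕ → ℂ) (K : ℝ) (hK : 0 ≤ K)
    (hb : ∀ a : ℕ, ‖∑ q ∈ (Ioc (c / 2) c).filter (fun q => q % P = a), f q‖ ≤ K) :
    ‖∑ q ∈ (Ioc (c / 2) c).filter (fun q => P.Coprime q), f q‖ ≤ P * K := by
  have hmaps : ∀ q ∈ (Ioc (c / 2) c).filter (fun q => P.Coprime q), q % P ∈ range P := by
    intro q _
    exact mem_range.mpr (Nat.mod_lt _ hP)
  rw [← sum_fiberwise_of_maps_to hmaps]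
  refine (norm_sum_le _ _).trans ?_
  have : ∀ a ∈ range P, ‖∑ q ∈ ((Ioc (c / 2) c).filter (fun q => P.Coprime q)).filter
      (fun q => q % P = a), f q‖ ≤ K := by
    intro a _
    by_cases ha : P.Coprime a
    · have e : ((Ioc (c / 2) c).filter (fun q => P.Coprime q)).filter (fun q => q % P = a) =
          (Ioc (c / 2) c).filter (fun q => q % P = a) := by
        ext q
        simp only [mem_filter]
        constructor
        · rintro ⟨⟨h1, _⟩, h3⟩; exact ⟨h1, h3⟩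
        · rintro ⟨h1, h3⟩
          refine ⟨⟨h1, ?_⟩, h3⟩
          rw [← h3] at ha
          have := ha
          unfold Nat.Coprime at this ⊢
          rwa [Nat.gcd_comm, ← Nat.gcd_rec] at this
      rw [e]
      exact hb a
    · have e : ((Ioc (c / 2) c).filter (fun q => P.Coprime q)).filter (fun q => q % P = a) =
          ∅ := by
        rw [Finset.eq_empty_iff_forall_notMem]
        intro q hq
        simp only [mem_filter] at hq
        obtain ⟨⟨h1, h2⟩, h3⟩ := hq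
        apply ha
        rw [← h3]
        unfold Nat.Coprime at h2 ⊢
        rwa [Nat.gcd_comm, ← Nat.gcd_rec]
      rw [e, sum_empty, norm_zero]
      exact hK
  calc _ ≤ ∑ a ∈ range P, K := sum_le_sum this
    _ = P * K := by rw [sum_const, card_range, nsmul_eq_mul]

/-- lower bound for the kernel -/
theorem kernel_low (H q m : ℕ) (hq : 0 < q) (hr : (H : ℝ) * (m % q : ℕ) ≤ q / 12) :
    (H : ℝ) / 2 ≤ ‖∑ h ∈ range H, ee (h * ((m : ℝ) / q))‖ := by
  have hq0 : (0 : ℝ) < q := by exact_mod_cast hq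
  have e : ∀ h ∈ range H, ee (h * ((m : ℝ) / q)) = ee (h * (m % q : ℕ) / q) := by
    intro h _
    have hm : (m : ℝ) = (q : ℝ) * ((m / q : ℕ) : ℝ) + ((m % q : ℕ) : ℝ) := by
      exact_mod_cast (Nat.div_add_mod m q).symm
    have : (h : ℝ) * ((m : ℝ) / q) = ((h * (m / q) : ℕ) : ℝ) + h * (m % q : ℕ) / q := by
      rw [hm]
      push_cast
      field_simp
    rw [this, ee_add, ee_nat, one_mul]
  rw [sum_congr rfl e]
  refine le_trans ?_ (Complex.re_le_norm _)
  rw [Complex.re_sum]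
  have h2 : ∀ h ∈ range H, (1 : ℝ) / 2 ≤ (ee (h * (m % q : ℕ) / q)).re := by
    intro h hh
    rw [ee_re]
    have hhH : (h : ℝ) ≤ H := by exact_mod_cast (mem_range.mp hh).le
    have h3 : 0 ≤ (h : ℝ) * (m % q : ℕ) / q := by positivity
    have h4 : (h : ℝ) * (m % q : ℕ) / q ≤ 1 / 12 := by
      rw [div_le_iff₀ hq0]
      calc (h : ℝ) * (m % q : ℕ) ≤ H * (m % q : ℕ) := by gcongr
        _ ≤ q / 12 := hr
        _ = 1 / 12 * q := by ring
    have hpi := Real.pi_pos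
    rw [← Real.cos_pi_div_three]
    apply Real.cos_le_cos_of_nonneg_of_le_pi
    · positivity
    · linarith
    · nlinarith
  calc (H : ℝ) / 2 = ∑ h ∈ range H, (1 : ℝ) / 2 := by
        rw [sum_const, card_range, nsmul_eq_mul]; ring
    _ ≤ _ := sum_le_sum h2

/-- TARGET 2: it is impossible that every prime `q ∈ (c/2, c]` has a multiple in `(m-t, m]`
when `c ≥ ε₀ t log n`, `t` is at least a power of `n` and `c ≤ n^(3/5)`. -/
theorem not_all_hit
    (hpi : ∃ x₀ : ℕ, ∀ c : ℕ, x₀ ≤ c →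
      (c : ℝ) / 4 ≤ (((Ioc (c / 2) c).filter Nat.Prime).card : ℝ) * Real.log c)
    (ε₀ : ℝ) (hε : 0 < ε₀) (α : ℝ) (hα : 0 < α) :
    ∃ n₀ : ℕ, ∀ n m t c : ℕ, n₀ ≤ n → n < 2 * m → m ≤ n → (n : ℝ) ^ α ≤ t →
      (c : ℝ) ≤ (n : ℝ) ^ (3 / 5 : ℝ) → ε₀ * t * Real.log n ≤ c →
      (∀ q : ℕ, q.Prime → c < 2 * q → q ≤ c → m % q < t) → False := by
  classical
  obtain ⟨x₀, hx₀⟩ := hpi
  -- wlog ε ≤ 1
  obtain ⟨ε, hε0, hε1, hεε⟩ : ∃ ε : ℝ, 0 < ε ∧ ε ≤ 1 ∧ ε ≤ ε₀ :=
    ⟨min ε₀ 1, by positivity, min_le_right _ _, min_le_left _ _⟩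
  obtain ⟨P, hP1, hPκ⟩ := exists_totient_small (ε / 600) (by positivity)
  obtain ⟨σ, hσ, n₁, hn₁⟩ := expsum P hP1 α hα
  have hP0 : (0 : ℝ) < P := by exact_mod_cast hP1
  -- conditions
  have hlog : Filter.Tendsto (fun n : ℕ => Real.log n) Filter.atTop Filter.atTop :=
    Real.tendsto_log_atTop.comp tendsto_natCast_atTop_atTop
  have hpow : Filter.Tendsto (fun n : ℕ => (n : ℝ) ^ α) Filter.atTop Filter.atTop :=
    (tendsto_rpow_atTop hα).comp tendsto_natCast_atTop_atTop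
  have ev1 : ∀ᶠ n : ℕ in Filter.atTop, 600 / ε ≤ Real.log n := hlog.eventually_ge_atTop _
  have ev2 : ∀ᶠ n : ℕ in Filter.atTop, (x₀ : ℝ) + 4 * P + 4 ≤ (n : ℝ) ^ α :=
    hpow.eventually_ge_atTop _
  have ev3 : ∀ᶠ n : ℕ in Filter.atTop, 96 * P * Real.log n ≤ ((n : ℝ) ^ α) ^ σ := by
    have h1 := (isLittleO_log_rpow_atTop (r := α * σ) (by positivity)).bound
      (show (0 : ℝ) < 1 / (96 * P) by positivity)
    have h2 := tendsto_natCast_atTop_atTop (R := ℝ) |>.eventually h1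
    filter_upwards [h2, Filter.eventually_ge_atTop 1] with n hn hn1
    have hn0 : (0 : ℝ) < n := by exact_mod_cast hn1
    rw [Real.norm_eq_abs, Real.norm_of_nonneg (by positivity)] at hn
    have h3 := (le_abs_self _).trans hn
    rw [← Real.rpow_mul hn0.le]
    calc 96 * P * Real.log n ≤ 96 * P * (1 / (96 * P) * (n : ℝ) ^ (α * σ)) := by gcongr
      _ = (n : ℝ) ^ (α * σ) := by field_simp
  obtain ⟨n₀, hn₀⟩ := Filter.eventually_atTop.mp (ev1.and (ev2.and (ev3.and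
    ((Filter.eventually_ge_atTop n₁).and (Filter.eventually_ge_atTop 1)))))
  refine ⟨n₀, ?_⟩
  intro n m t c hn hnm hmn ht hc hct hall
  obtain ⟨c1, c2, c3, c4, c5⟩ := hn₀ n hn
  set L := Real.log n with hL
  have hn1 : (1 : ℝ) ≤ n := by exact_mod_cast c5
  have hL600 : 600 ≤ ε * L := by
    rw [div_le_iff₀ hε0] at c1; linarith
  have hLpos : 0 < L := by
    by_contra hneg
    have : ε * L ≤ 0 := mul_nonpos_of_nonneg_of_nonpos hε0.le (not_lt.mp hneg)
    linarith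
  have ht0 : (0 : ℝ) < t := lt_of_lt_of_le (by positivity) ht
  have hct' : ε * t * L ≤ c := by
    refine le_trans ?_ hct
    gcongr
  have htc : (t : ℝ) ≤ c := by
    refine le_trans ?_ hct'
    nlinarith
  have hcα : (n : ℝ) ^ α ≤ c := ht.trans htc
  have hcbig : (x₀ : ℝ) + 4 * P + 4 ≤ c := c2.trans hcα
  have hc0 : (0 : ℝ) < c := by
    have : (0 : ℝ) ≤ x₀ := Nat.cast_nonneg _
    linarith
  have hcP : 4 * P + 4 ≤ c := by
    have : (0 : ℝ) ≤ x₀ := Nat.cast_nonneg _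
    have h : (4 * P + 4 : ℝ) ≤ c := by linarith
    exact_mod_cast h
  have hcx : x₀ ≤ c := by
    have h : (x₀ : ℝ) ≤ c := by linarith
    exact_mod_cast h
  -- H
  set H := ⌊ε * L / 24⌋₊ with hH
  have hHle : (H : ℝ) ≤ ε * L / 24 := Nat.floor_le (by positivity)
  have hHge : ε * L / 25 ≤ H := by
    have := Nat.lt_floor_add_one (ε * L / 24)
    linarith
  have hHpos : (0 : ℝ) < H := by linarith
  have hHL : (H : ℝ) ≤ L := by nlinarith
  -- the set
  set I := (Ioc (c / 2) c).filter (fun q => P.Coprime q) with hI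
  set B := (Ioc (c / 2) c).filter Nat.Prime with hB
  have hBI : B ⊆ I := by
    intro q hq
    rw [hB, mem_filter, mem_Ioc] at hq
    rw [hI, mem_filter, mem_Ioc]
    refine ⟨hq.1, ?_⟩
    rw [Nat.coprime_comm, hq.2.coprime_iff_not_dvd]
    intro hdvd
    have := Nat.le_of_dvd (by omega) hdvd
    omega
  have hBlow : ∀ q ∈ B, (H : ℝ) ^ 2 / 4 ≤ ‖∑ h ∈ range H, ee (h * ((m : ℝ) / q))‖ ^ 2 := by
    intro q hq
    rw [hB, mem_filter, mem_Ioc] at hq
    obtain ⟨⟨hq1, hq2⟩, hqp⟩ := hq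
    have h2q : c < 2 * q := by omega
    have hmt := hall q hqp h2q hq2
    have h2q' : (c : ℝ) < 2 * q := by exact_mod_cast h2q
    have hmt' : ((m % q : ℕ) : ℝ) ≤ t := by exact_mod_cast hmt.le
    have hk := kernel_low H q m hqp.pos (by
      calc (H : ℝ) * (m % q : ℕ) ≤ (ε * L / 24) * t := by gcongr
        _ = (ε * t * L) / 24 := by ring
        _ ≤ c / 24 := by gcongr
        _ ≤ (2 * q) / 24 := by gcongr
        _ = q / 12 := by ring)
    calc (H : ℝ) ^ 2 / 4 = ((H : ℝ) / 2) ^ 2 := by ring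
      _ ≤ _ := pow_le_pow_left₀ (by positivity) hk 2
  have hcσ0 : 0 ≤ (c : ℝ) ^ (1 - σ) := by positivity
  have hsieve := sieve I (fun q : ℕ => (m : ℝ) / q) H (P * (c : ℝ) ^ (1 - σ)) (by positivity) (by
    intro h hh1 hhH
    refine split_classes P c hP1 (fun q => ee (h * ((m : ℝ) / q))) _ hcσ0 ?_
    intro a
    have := hn₁ n m c h a c4 hnm hmn hcα hc hh1 ((Nat.cast_le.mpr hhH.le).trans hHL)
    simpa only [mul_div_assoc] using this)
  have hsum : (B.card : ℝ) * ((H : ℝ) ^ 2 / 4) ≤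
      ∑ q ∈ I, ‖∑ h ∈ range H, ee (h * ((m : ℝ) / q))‖ ^ 2 := by
    calc (B.card : ℝ) * ((H : ℝ) ^ 2 / 4) = ∑ q ∈ B, (H : ℝ) ^ 2 / 4 := by
          rw [sum_const, nsmul_eq_mul]
      _ ≤ ∑ q ∈ B, ‖∑ h ∈ range H, ee (h * ((m : ℝ) / q))‖ ^ 2 := sum_le_sum hBlow
      _ ≤ _ := sum_le_sum_of_subset_of_nonneg hBI (fun _ _ _ => by positivity)
  have hIcard := card_coprime P c hP1 (ε / 600) hPκ
  rw [← hI] at hIcard
  have hX := hx₀ c hcx
  rw [← hB] at hX
  -- log c ≤ L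
  have hlogc : Real.log c ≤ L := by
    rw [hL]
    apply Real.log_le_log hc0
    refine hc.trans ?_
    calc (n : ℝ) ^ (3 / 5 : ℝ) ≤ (n : ℝ) ^ (1 : ℝ) :=
          Real.rpow_le_rpow_of_exponent_le hn1 (by norm_num)
      _ = n := Real.rpow_one _
  have hXL : (c : ℝ) / 4 ≤ B.card * L := hX.trans (by gcongr)
  -- combine
  set X : ℝ := (B.card : ℝ) with hXdef
  have hXnn : 0 ≤ X := Nat.cast_nonneg _
  set Ic : ℝ := (I.card : ℝ) with hIcdef
  set K : ℝ := (P : ℝ) * (c : ℝ) ^ (1 - σ) with hKdef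
  have h1 : X * ((H : ℝ) ^ 2 / 4) ≤ H * Ic + (H : ℝ) ^ 2 * K := hsum.trans hsieve
  have h2 : X * H ≤ 4 * Ic + 4 * H * K := by
    have : (X * H) * H ≤ (4 * Ic + 4 * H * K) * H := by nlinarith
    exact le_of_mul_le_mul_right this hHpos
  -- multiply by L / H
  have h3 : Ic * L ≤ H * (25 / 600 * ((c + 1) / 2 + P)) := by
    have hY : 0 ≤ ((c : ℝ) + 1) / 2 + P := by positivity
    calc Ic * L ≤ (ε / 600 * ((c + 1) / 2 + P)) * L := by gcongr
      _ = (ε * L / 25) * (25 / 600 * ((c + 1) / 2 + P)) := by ring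
      _ ≤ H * (25 / 600 * ((c + 1) / 2 + P)) := by gcongr
  have h4 : X * L ≤ 4 * (25 / 600 * ((c + 1) / 2 + P)) + 4 * K * L := by
    have : (X * L) * H ≤ (4 * (25 / 600 * ((c + 1) / 2 + P)) + 4 * K * L) * H := by
      nlinarith
    exact le_of_mul_le_mul_right this hHpos
  have h5 : 96 * P * L * (c : ℝ) ^ (1 - σ) ≤ c := by
    have h6 : 96 * P * L ≤ (c : ℝ) ^ σ := by
      refine c3.trans ?_
      exact Real.rpow_le_rpow (by positivity) hcα hσ.le
    calc 96 * P * L * (c : ℝ) ^ (1 - σ) ≤ (c : ℝ) ^ σ * (c : ℝ) ^ (1 - σ) := by gcongr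
      _ = c := by
        rw [← Real.rpow_add hc0]
        have : σ + (1 - σ) = 1 := by ring
        rw [this, Real.rpow_one]
  have h7 : 4 * K * L ≤ c / 24 := by
    rw [hKdef]; nlinarith
  have hcP' : (4 * P + 4 : ℝ) ≤ c := by exact_mod_cast hcP
  linarith

end Pool.Agent.Helper153.Vdc
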