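import Mathlib

set_option autoImplicit false

namespace Pool.Agent.Helper153.Siv

open Finset ArithmeticFunction

lemma card_sq_le (U : Finset ℕ) (q n : ℕ) (h : (U.image (fun u => u % q)).card ≤ n) :
    U.card ^ 2 ≤ n * ((U ×ˢ U).filter (fun p => p.1 % q = p.2 % q)).card := by
  have h1 : U.card = ∑ r ∈ U.image (fun u => u % q), (U.filter (fun u => u % q = r)).card :=
    Finset.card_eq_sum_card_image _ _
  have h2 : ((U ×ˢ U).filter (fun p => p.1 % q = p.2 % q)).card
      = ∑ r ∈ U.image (fun u => u % q), (U.filter (fun u => u % q = r)).card ^ 2 := by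
    rw [Finset.card_eq_sum_card_fiberwise (f := fun p : ℕ × ℕ => p.1 % q)
      (t := U.image (fun u => u % q))]
    · apply Finset.sum_congr rfl
      intro r _
      rw [sq, ← Finset.card_product]
      congr 1
      ext ⟨u, v⟩
      simp only [Finset.mem_filter, Finset.mem_product]
      constructor
      · rintro ⟨⟨⟨hu, hv⟩, he⟩, hr⟩
        exact ⟨⟨hu, hr⟩, ⟨hv, by rw [← he]; exact hr⟩⟩
      · rintro ⟨⟨hu, hr⟩, ⟨hv, hr'⟩⟩
        exact ⟨⟨⟨hu, hv⟩, by rw [hr, hr']⟩, hr⟩
    · rintro ⟨u, v⟩ hp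
      simp only [Finset.coe_filter, Finset.mem_product, Set.mem_setOf_eq] at hp
      simp only [Finset.coe_image, Set.mem_image, Finset.mem_coe]
      exact ⟨u, hp.1.1, rfl⟩
  calc U.card ^ 2 = (∑ r ∈ U.image (fun u => u % q), (U.filter (fun u => u % q = r)).card) ^ 2 := by
        rw [← h1]
    _ ≤ (U.image (fun u => u % q)).card *
        ∑ r ∈ U.image (fun u => u % q), (U.filter (fun u => u % q = r)).card ^ 2 :=
        sq_sum_le_card_mul_sum_sq
    _ ≤ n * ((U ×ˢ U).filter (fun p => p.1 % q = p.2 % q)).card := by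
        rw [← h2]
        exact Nat.mul_le_mul_right _ h

/-- Gallagher's larger sieve. -/
theorem larger_sieve (U : Finset ℕ) (X : ℝ) (hX : 1 ≤ X)
    (hU : ∀ u ∈ U, ∀ v ∈ U, (u : ℝ) ≤ v + X) (Q : Finset ℕ) (ν : ℕ → ℕ)
    (hν : ∀ q ∈ Q, 0 < q ∧ (U.image (fun u => u % q)).card ≤ ν q)
    (hsum : Real.log X + 1 ≤ ∑ q ∈ Q, (vonMangoldt q : ℝ) / ν q) :
    (U.card : ℝ) ≤ ∑ q ∈ Q, (vonMangoldt q : ℝ) := by
  classical
  rcases U.eq_empty_or_nonempty with rfl | hne
  · simp only [Finset.card_empty, Nat.cast_zero]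
    exact Finset.sum_nonneg fun q _ => vonMangoldt_nonneg
  have hlogX : 0 ≤ Real.log X := Real.log_nonneg hX
  have hUpos : 0 < (U.card : ℝ) := by exact_mod_cast hne.card_pos
  -- step 1
  have h1 : ∀ q ∈ Q, (U.card : ℝ) ^ 2 * ((vonMangoldt q : ℝ) / ν q) ≤
      (vonMangoldt q : ℝ) * ((U ×ˢ U).filter (fun p => p.1 % q = p.2 % q)).card := by
    intro q hq
    have hc := card_sq_le U q (ν q) (hν q hq).2
    have hc' : (U.card : ℝ) ^ 2 ≤ (ν q : ℝ) *
        (((U ×ˢ U).filter (fun p => p.1 % q = p.2 % q)).card : ℝ) := by exact_mod_cast hc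
    have hνpos : 0 < (ν q : ℝ) := by
      have : 0 < ν q := lt_of_lt_of_le (hne.image _).card_pos (hν q hq).2
      exact_mod_cast this
    have hΛ : 0 ≤ (vonMangoldt q : ℝ) := vonMangoldt_nonneg
    rw [mul_div_assoc', div_le_iff₀ hνpos]
    calc (U.card : ℝ) ^ 2 * vonMangoldt q ≤ ((ν q : ℝ) *
        (((U ×ˢ U).filter (fun p => p.1 % q = p.2 % q)).card : ℝ)) * vonMangoldt q := by gcongr
      _ = _ := by ring
  -- step 2 : exchange
  have h2 : ∑ q ∈ Q, (vonMangoldt q : ℝ) * ((U ×ˢ U).filter (fun p => p.1 % q = p.2 % q)).card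
      = ∑ p ∈ U ×ˢ U, ∑ q ∈ Q, if p.1 % q = p.2 % q then (vonMangoldt q : ℝ) else 0 := by
    rw [Finset.sum_comm]
    apply Finset.sum_congr rfl
    intro q _
    rw [← Finset.sum_filter, Finset.sum_const, nsmul_eq_mul, mul_comm]
  -- step 3 : bound for off-diagonal pairs
  have h3 : ∀ p ∈ U ×ˢ U, (∑ q ∈ Q, if p.1 % q = p.2 % q then (vonMangoldt q : ℝ) else 0) ≤
      if p.1 = p.2 then ∑ q ∈ Q, (vonMangoldt q : ℝ) else Real.log X := by
    rintro ⟨u, v⟩ hp
    rw [Finset.mem_product] at hp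
    dsimp only at hp ⊢
    split_ifs with huv
    · subst huv
      simp
    · -- d = |u - v|
      set d : ℕ := (u - v) + (v - u) with hd
      have hd0 : d ≠ 0 := by omega
      have hdX : (d : ℝ) ≤ X := by
        rcases lt_or_gt_of_ne huv with h | h
        · have : d = v - u := by omega
          rw [this, Nat.cast_sub h.le]
          linarith [hU v hp.2 u hp.1]
        · have : d = u - v := by omega
          rw [this, Nat.cast_sub h.le]
          linarith [hU u hp.1 v hp.2]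
      rw [← Finset.sum_filter]
      calc ∑ q ∈ Q.filter (fun q => u % q = v % q), (vonMangoldt q : ℝ)
          ≤ ∑ q ∈ d.divisors, (vonMangoldt q : ℝ) := by
            apply Finset.sum_le_sum_of_subset_of_nonneg
            · intro q hq
              rw [Finset.mem_filter] at hq
              rw [Nat.mem_divisors]
              refine ⟨?_, hd0⟩
              have hmod : u ≡ v [MOD q] := hq.2
              rcases lt_or_gt_of_ne huv with h | h
              · have : d = v - u := by omega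
                rw [this]
                exact (Nat.modEq_iff_dvd' h.le).mp hmod
              · have : d = u - v := by omega
                rw [this]
                exact (Nat.modEq_iff_dvd' h.le).mp hmod.symm
            · intro q _ _
              exact vonMangoldt_nonneg
        _ = Real.log d := vonMangoldt_sum
        _ ≤ Real.log X := Real.log_le_log (by exact_mod_cast Nat.pos_of_ne_zero hd0) hdX
  have h4 : ∑ p ∈ U ×ˢ U, (if p.1 = p.2 then ∑ q ∈ Q, (vonMangoldt q : ℝ) else Real.log X)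
      = U.card * ∑ q ∈ Q, (vonMangoldt q : ℝ) + ((U.card : ℝ) ^ 2 - U.card) * Real.log X := by
    rw [Finset.sum_ite, Finset.sum_const, Finset.sum_const, nsmul_eq_mul, nsmul_eq_mul]
    have hdiag : ((U ×ˢ U).filter (fun p => p.1 = p.2)).card = U.card := by
      rw [← Finset.diag_eq_filter, Finset.diag_card]
    have hoff : ((U ×ˢ U).filter (fun p => ¬ p.1 = p.2)).card = U.card * U.card - U.card := by
      have := Finset.offDiag_card U
      rw [← this]
      congr 1
      ext ⟨a, b⟩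
      simp [Finset.mem_offDiag, and_assoc]
    rw [hdiag, hoff, Nat.cast_sub (Nat.le_mul_self _)]
    push_cast
    ring
  have h5 : (U.card : ℝ) ^ 2 * (Real.log X + 1) ≤
      U.card * ∑ q ∈ Q, (vonMangoldt q : ℝ) + ((U.card : ℝ) ^ 2 - U.card) * Real.log X := by
    calc (U.card : ℝ) ^ 2 * (Real.log X + 1)
        ≤ (U.card : ℝ) ^ 2 * ∑ q ∈ Q, (vonMangoldt q : ℝ) / ν q := by gcongr
      _ = ∑ q ∈ Q, (U.card : ℝ) ^ 2 * ((vonMangoldt q : ℝ) / ν q) := by rw [Finset.mul_sum]
      _ ≤ ∑ q ∈ Q, (vonMangoldt q : ℝ) *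
          ((U ×ˢ U).filter (fun p => p.1 % q = p.2 % q)).card := Finset.sum_le_sum h1
      _ = ∑ p ∈ U ×ˢ U, ∑ q ∈ Q, if p.1 % q = p.2 % q then (vonMangoldt q : ℝ) else 0 := h2
      _ ≤ ∑ p ∈ U ×ˢ U, (if p.1 = p.2 then ∑ q ∈ Q, (vonMangoldt q : ℝ) else Real.log X) :=
          Finset.sum_le_sum h3
      _ = _ := h4
  have h6 : (U.card : ℝ) * (U.card + Real.log X) ≤ U.card * ∑ q ∈ Q, (vonMangoldt q : ℝ) := by
    nlinarith [h5]
  have h7 := le_of_mul_le_mul_left h6 hUpos
  linarith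

/-- Larger sieve with a deficit. -/
theorem larger_sieve' (U : Finset ℕ) (N D : ℝ) (hN : 1 ≤ N) (hD : 0 ≤ D)
    (hU : ∀ u ∈ U, (u : ℝ) ≤ N) (Q : Finset ℕ) (ν : ℕ → ℕ)
    (hν : ∀ q ∈ Q, 0 < q ∧ (U.image (fun u => u % q)).card ≤ ν q)
    (hsum : Real.log N - D ≤ ∑ q ∈ Q, (vonMangoldt q : ℝ) / ν q) :
    (U.card : ℝ) ≤ (Real.exp (D + 1) + 1) * (1 + ∑ q ∈ Q, (vonMangoldt q : ℝ)) := by
  classical
  have hΛ : 0 ≤ ∑ q ∈ Q, (vonMangoldt q : ℝ) := Finset.sum_nonneg fun q _ => vonMangoldt_nonneg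
  have hNpos : 0 < N := by linarith
  set X : ℝ := N * Real.exp (-(D + 1)) with hXdef
  have hXpos : 0 < X := by positivity
  have hNX : N = X * Real.exp (D + 1) := by
    rw [hXdef, mul_assoc, ← Real.exp_add]; simp
  rcases lt_or_ge X 1 with hX1 | hX1
  · -- few elements
    have hcard : (U.card : ℝ) ≤ N + 1 := by
      have hsub : U ⊆ Finset.range (⌊N⌋₊ + 1) := by
        intro u hu
        rw [Finset.mem_range, Nat.lt_succ_iff]
        exact Nat.le_floor (hU u hu)
      have h1 := Finset.card_le_card hsub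
      rw [Finset.card_range] at h1
      have h2 : (⌊N⌋₊ : ℝ) ≤ N := Nat.floor_le hNpos.le
      have h3 : (U.card : ℝ) ≤ (⌊N⌋₊ : ℝ) + 1 := by exact_mod_cast h1
      linarith
    have hN' : N ≤ Real.exp (D + 1) := by
      rw [hNX]
      nlinarith [Real.exp_pos (D + 1)]
    calc (U.card : ℝ) ≤ Real.exp (D + 1) + 1 := by linarith
      _ = (Real.exp (D + 1) + 1) * 1 := by ring
      _ ≤ (Real.exp (D + 1) + 1) * (1 + ∑ q ∈ Q, (vonMangoldt q : ℝ)) := by
          apply mul_le_mul_of_nonneg_left _ (by positivity)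
          linarith
  · -- split
    set g : ℕ → ℕ := fun u => ⌊(u : ℝ) / X⌋₊ with hg
    have hgle : ∀ u ∈ U, g u ∈ Finset.range (⌊Real.exp (D + 1)⌋₊ + 1) := by
      intro u hu
      rw [Finset.mem_range, Nat.lt_succ_iff]
      apply Nat.floor_le_floor
      rw [div_le_iff₀ hXpos]
      have := hU u hu
      rw [hNX] at this
      linarith
    have hcard : U.card = ∑ r ∈ Finset.range (⌊Real.exp (D + 1)⌋₊ + 1),
        (U.filter (fun u => g u = r)).card :=
      Finset.card_eq_sum_card_fiberwise hgle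
    have hclass : ∀ r ∈ Finset.range (⌊Real.exp (D + 1)⌋₊ + 1),
        ((U.filter (fun u => g u = r)).card : ℝ) ≤ ∑ q ∈ Q, (vonMangoldt q : ℝ) := by
      intro r _
      apply larger_sieve (U.filter (fun u => g u = r)) X hX1 _ Q ν
      · intro q hq
        refine ⟨(hν q hq).1, le_trans (Finset.card_le_card ?_) (hν q hq).2⟩
        exact Finset.image_subset_image (Finset.filter_subset _ _)
      · have : Real.log X + 1 = Real.log N - D := by
          rw [hXdef, Real.log_mul hNpos.ne' (Real.exp_pos _).ne', Real.log_exp]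
          ring
        rw [this]
        exact hsum
      · intro u hu v hv
        rw [Finset.mem_filter] at hu hv
        have h1 : (u : ℝ) / X < (g u : ℝ) + 1 := Nat.lt_floor_add_one _
        have h2 : (g v : ℝ) ≤ (v : ℝ) / X := Nat.floor_le (by positivity)
        rw [hu.2] at h1
        rw [hv.2] at h2
        have h3 : (u : ℝ) / X < (v : ℝ) / X + 1 := by linarith
        rw [div_lt_iff₀ hXpos] at h3
        have h4 : ((v : ℝ) / X + 1) * X = v + X := by field_simp
        linarith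
    have h1 : (U.card : ℝ) ≤ (⌊Real.exp (D + 1)⌋₊ + 1 : ℝ) * ∑ q ∈ Q, (vonMangoldt q : ℝ) := by
      rw [hcard]
      push_cast
      calc ∑ r ∈ Finset.range (⌊Real.exp (D + 1)⌋₊ + 1), ((U.filter (fun u => g u = r)).card : ℝ)
          ≤ ∑ r ∈ Finset.range (⌊Real.exp (D + 1)⌋₊ + 1), ∑ q ∈ Q, (vonMangoldt q : ℝ) :=
            Finset.sum_le_sum hclass
        _ = _ := by
            rw [Finset.sum_const, Finset.card_range, nsmul_eq_mul]
            push_cast
            ring
    have h2 : (⌊Real.exp (D + 1)⌋₊ : ℝ) ≤ Real.exp (D + 1) := Nat.floor_le (Real.exp_pos _).le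
    calc (U.card : ℝ) ≤ (⌊Real.exp (D + 1)⌋₊ + 1 : ℝ) * ∑ q ∈ Q, (vonMangoldt q : ℝ) := h1
      _ ≤ (Real.exp (D + 1) + 1) * ∑ q ∈ Q, (vonMangoldt q : ℝ) := by gcongr
      _ ≤ (Real.exp (D + 1) + 1) * (1 + ∑ q ∈ Q, (vonMangoldt q : ℝ)) := by
          apply mul_le_mul_of_nonneg_left _ (by positivity)
          linarith

end Pool.Agent.Helper153.Siv
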