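import Mathlib

set_option autoImplicit false

namespace Pool.Agent.Helper153.One

open Finset

theorem not_sq_dvd_fact {q c : ℕ} (hq : q.Prime) (h1 : q ≤ c) (h2 : c < 2 * q) :
    ¬ q ^ 2 ∣ c.factorial := by
  intro h
  have hlog : Nat.log q c < 2 := by
    apply Nat.log_lt_of_lt_pow (by have := hq.pos; omega)
    have := hq.two_le
    nlinarith
  have := (Nat.Prime.pow_dvd_factorial_iff hq hlog).1 h
  have h3 : ∑ i ∈ Ico 1 2, c / q ^ i = c / q := by
    simp
  rw [h3] at this
  have h4 : c / q < 2 := Nat.div_lt_of_lt_mul (by linarith)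
  omega

theorem exists_part (c : ℕ) : ∃ a : ℕ, 0 < a ∧
    (Chebyshev.theta (c : ℝ) - Chebyshev.theta ((c : ℝ) / 2) ≤ Real.log a) ∧
    ∀ m : ℕ, IsSquare (m * c.factorial) → ∃ w : ℕ, m = a * w ^ 2 := by
  obtain ⟨a, b, hab, hsf⟩ := Nat.sq_mul_squarefree c.factorial
  have hapos : 0 < a := by
    rcases Nat.eq_zero_or_pos a with h | h
    · rw [h] at hsf; exact absurd hsf not_squarefree_zero
    · exact h
  have hbpos : 0 < b := by
    rcases Nat.eq_zero_or_pos b with h | h
    · rw [h] at hab
      have := Nat.factorial_pos c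
      simp at hab
      omega
    · exact h
  refine ⟨a, hapos, ?_, ?_⟩
  · have hsplit : Chebyshev.theta (c : ℝ) - Chebyshev.theta ((c : ℝ) / 2)
        = ∑ p ∈ (Finset.Ioc (c / 2) c).filter Nat.Prime, Real.log p := by
      have e1 : Chebyshev.theta (c : ℝ) = ∑ p ∈ (Finset.Ioc 0 c).filter Nat.Prime, Real.log p := by
        rw [Chebyshev.theta]
        simp
      have e2 : Chebyshev.theta ((c : ℝ) / 2) = ∑ p ∈ (Finset.Ioc 0 (c / 2)).filter Nat.Prime, Real.log p := by
        rw [Chebyshev.theta]
        have : ⌊(c : ℝ) / 2⌋₊ = c / 2 := by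
          have := Nat.floor_div_eq_div (K := ℝ) c 2
          simpa using this
        rw [this]
      rw [e1, e2, sub_eq_iff_eq_add, ← Finset.sum_union]
      · congr 1
        ext p
        simp only [Finset.mem_filter, Finset.mem_union, Finset.mem_Ioc]
        constructor
        · rintro ⟨⟨h1, h2⟩, h3⟩
          by_cases h : c / 2 < p
          · exact Or.inl ⟨⟨h, h2⟩, h3⟩
          · exact Or.inr ⟨⟨h1, by omega⟩, h3⟩
        · rintro (⟨⟨h1, h2⟩, h3⟩ | ⟨⟨h1, h2⟩, h3⟩)
          · exact ⟨⟨by omega, h2⟩, h3⟩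
          · exact ⟨⟨h1, by omega⟩, h3⟩
      · rw [Finset.disjoint_left]
        intro p hp hp'
        simp only [Finset.mem_filter, Finset.mem_Ioc] at hp hp'
        omega
    rw [hsplit]
    have hdvd : (∏ p ∈ (Finset.Ioc (c / 2) c).filter Nat.Prime, p) ∣ a := by
      apply Finset.prod_primes_dvd
      · intro p hp
        exact (Finset.mem_filter.1 hp).2.prime
      · intro p hp
        simp only [Finset.mem_filter, Finset.mem_Ioc] at hp
        obtain ⟨⟨h1, h2⟩, h3⟩ := hp
        have hpf : p ∣ c.factorial := (Nat.Prime.dvd_factorial h3).2 h2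
        rw [← hab] at hpf
        rcases (Nat.Prime.dvd_mul h3).1 hpf with h | h
        · exfalso
          have hpb := Nat.Prime.dvd_of_dvd_pow h3 h
          apply not_sq_dvd_fact h3 h2 (by omega)
          rw [← hab]
          exact Dvd.dvd.mul_right (pow_dvd_pow_of_dvd hpb 2) a
        · exact h
    have hle := Nat.le_of_dvd hapos hdvd
    have hpos : 0 < ∏ p ∈ (Finset.Ioc (c / 2) c).filter Nat.Prime, p := by
      apply Finset.prod_pos
      intro p hp
      exact (Finset.mem_filter.1 hp).2.pos
    have : ∑ p ∈ (Finset.Ioc (c / 2) c).filter Nat.Prime, Real.log p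
        = Real.log ((∏ p ∈ (Finset.Ioc (c / 2) c).filter Nat.Prime, p : ℕ) : ℝ) := by
      push_cast
      rw [Real.log_prod]
      intro p hp
      have := (Finset.mem_filter.1 hp).2.pos
      positivity
    rw [this]
    apply Real.log_le_log
    · exact_mod_cast hpos
    · exact_mod_cast hle
  · intro m hm
    obtain ⟨y, hy⟩ := hm
    rw [← hab] at hy
    have hby : b ^ 2 ∣ y ^ 2 := by
      rw [pow_two y, ← hy]
      exact ⟨m * a, by ring⟩
    have hby' : b ∣ y := (Nat.pow_dvd_pow_iff (by norm_num)).1 hby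
    obtain ⟨z, rfl⟩ := hby'
    have h1 : m * a = z ^ 2 := by
      have hb2 : 0 < b ^ 2 := by positivity
      have : b ^ 2 * (m * a) = b ^ 2 * z ^ 2 := by linarith [hy, show m * (b ^ 2 * a) = b ^ 2 * (m * a) by ring, show b * z * (b * z) = b ^ 2 * z ^ 2 by ring]
      exact Nat.eq_of_mul_eq_mul_left hb2 this
    have haz : a ∣ z := by
      have : a ∣ z ^ 2 := ⟨m, by linarith [mul_comm m a]⟩
      exact (hsf.dvd_pow_iff_dvd (by norm_num)).1 this
    obtain ⟨w, rfl⟩ := haz
    refine ⟨w, ?_⟩
    have : a * m = a * (a * w ^ 2) := by linarith [show (a * w) ^ 2 = a * (a * w ^ 2) by ring, mul_comm m a]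
    exact Nat.eq_of_mul_eq_mul_left hapos this

/-- the number of `m ≤ n` such that `m * c!` is a square for some `c` is `O(√n)` -/
theorem count_one
    (hth : ∃ κ : ℝ, 0 < κ ∧ ∃ A : ℕ, ∀ c : ℕ, A ≤ c →
      κ * (c : ℝ) ≤ Chebyshev.theta (c : ℝ) - Chebyshev.theta ((c : ℝ) / 2)) :
    ∃ C : ℝ, 0 < C ∧ ∀ (n : ℕ) (S : Finset ℕ),
      (∀ m ∈ S, 1 ≤ m ∧ m ≤ n ∧ ∃ c : ℕ, IsSquare (m * c.factorial)) →
      (S.card : ℝ) ≤ C * Real.sqrt n := by
  obtain ⟨κ, hκ, A, hA⟩ := hth
  choose a ha hlog hsq using exists_part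
  set r : ℝ := Real.exp (-(κ / 2)) with hr
  have hr0 : 0 ≤ r := (Real.exp_pos _).le
  have hr1 : r < 1 := by
    rw [hr, Real.exp_lt_one_iff]
    linarith
  set f : ℕ → ℝ := fun c => (if c < A then 1 else 0) + r ^ c with hf
  have hfs : Summable f := by
    apply Summable.add
    · apply summable_of_ne_finset_zero (s := Finset.range A)
      intro b hb
      simp only [Finset.mem_range] at hb
      simp [hb]
    · exact summable_geometric_of_lt_one hr0 hr1
  have hf0 : ∀ c, 0 ≤ f c := by
    intro c
    simp only [hf]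
    have : 0 ≤ r ^ c := by positivity
    split_ifs <;> linarith
  refine ⟨∑' c, f c + 1, ?_, ?_⟩
  · have : 0 ≤ ∑' c, f c := tsum_nonneg hf0
    linarith
  · intro n S hS
    have hkey : ∀ c : ℕ, ∀ T : Finset ℕ, (∀ m ∈ T, 1 ≤ m ∧ m ≤ n ∧ IsSquare (m * c.factorial)) →
        (T.card : ℝ) ≤ f c * Real.sqrt n := by
      intro c T hT
      have hcard : T.card ≤ Nat.sqrt (n / a c) := by
        have hsub : T ⊆ (Finset.Icc 1 (Nat.sqrt (n / a c))).image (fun w => a c * w ^ 2) := by
          intro m hm
          obtain ⟨h1, h2, h3⟩ := hT m hm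
          obtain ⟨w, hw⟩ := hsq c m h3
          rw [Finset.mem_image]
          refine ⟨w, ?_, hw.symm⟩
          rw [Finset.mem_Icc]
          constructor
          · rcases Nat.eq_zero_or_pos w with h | h
            · rw [h] at hw; simp at hw; omega
            · exact h
          · rw [Nat.le_sqrt', Nat.le_div_iff_mul_le (ha c)]
            linarith [mul_comm (w ^ 2) (a c)]
        calc T.card ≤ _ := Finset.card_le_card hsub
          _ ≤ _ := Finset.card_image_le
          _ = _ := by simp
      have h1 : (T.card : ℝ) ≤ Real.sqrt ((n : ℝ) / a c) := by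
        calc (T.card : ℝ) ≤ (Nat.sqrt (n / a c) : ℝ) := by exact_mod_cast hcard
          _ ≤ Real.sqrt ((n / a c : ℕ) : ℝ) := Real.nat_sqrt_le_real_sqrt
          _ ≤ _ := Real.sqrt_le_sqrt Nat.cast_div_le
      have hac : (1 : ℝ) ≤ a c := by exact_mod_cast ha c
      have hac0 : (0 : ℝ) < a c := by linarith
      by_cases hc : c < A
      · have h2 : Real.sqrt ((n : ℝ) / a c) ≤ Real.sqrt n := by
          apply Real.sqrt_le_sqrt
          apply div_le_self (by positivity) hac
        have h3 : 1 ≤ f c := by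
          simp only [hf, if_pos hc]
          have : 0 ≤ r ^ c := by positivity
          linarith
        have : Real.sqrt n ≤ f c * Real.sqrt n := by
          have := Real.sqrt_nonneg (n : ℝ)
          nlinarith
        linarith
      · have h2 := hA c (by omega)
        have h3 := hlog c
        have h4 : Real.exp (κ * c) ≤ a c := by
          rw [← Real.exp_log hac0]
          apply Real.exp_le_exp.2
          linarith
        have h5 : f c = r ^ c := by simp [hf, if_neg hc]
        have h6 : r ^ c = Real.sqrt (Real.exp (-(κ * c))) := by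
          rw [hr, ← Real.exp_nat_mul, Real.sqrt_eq_rpow, ← Real.exp_mul]
          congr 1
          ring
        rw [h5, h6, ← Real.sqrt_mul (Real.exp_pos _).le]
        refine h1.trans (Real.sqrt_le_sqrt ?_)
        rw [Real.exp_neg, div_eq_inv_mul]
        apply mul_le_mul_of_nonneg_right _ (by positivity)
        exact inv_anti₀ (Real.exp_pos _) h4
    classical
    have hch : ∀ m : ℕ, ∃ c : ℕ, m ∈ S → IsSquare (m * c.factorial) := by
      intro m
      by_cases hm : m ∈ S
      · obtain ⟨_, _, c, hc⟩ := hS m hm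
        exact ⟨c, fun _ => hc⟩
      · exact ⟨0, fun h => absurd h hm⟩
    choose g hg using hch
    have hcard : S.card = ∑ c ∈ S.image g, (S.filter (fun m => g m = c)).card :=
      Finset.card_eq_sum_card_image g S
    have : (S.card : ℝ) ≤ ∑ c ∈ S.image g, f c * Real.sqrt n := by
      rw [hcard]
      push_cast
      apply Finset.sum_le_sum
      intro c hc
      apply hkey c
      intro m hm
      rw [Finset.mem_filter] at hm
      obtain ⟨h1, h2, _⟩ := hS m hm.1
      refine ⟨h1, h2, ?_⟩
      have := hg m hm.1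
      rwa [hm.2] at this
    rw [← Finset.sum_mul] at this
    have h7 : ∑ c ∈ S.image g, f c ≤ ∑' c, f c := hfs.sum_le_tsum _ (fun c _ => hf0 c)
    have h8 := Real.sqrt_nonneg (n : ℝ)
    nlinarith

end Pool.Agent.Helper153.One
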