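import Mathlib

set_option autoImplicit false

namespace Pool.Agent.Helper153.Pr

open Finset

/-- cross products of two solutions in the same dyadic range are small. -/
theorem cross_lt (a b T Y x y x' y' : ℕ) (ha : 1 ≤ a) (hb : 1 ≤ b) (hT : 1 ≤ T) (hY : 1 ≤ Y)
    (h1 : a * x ^ 2 < b * y ^ 2) (h2 : b * y ^ 2 ≤ a * x ^ 2 + T) (h3 : 2 * T < b * y ^ 2)
    (hy1 : Y ≤ y) (hy2 : y < 2 * Y)
    (h1' : a * x' ^ 2 < b * y' ^ 2) (h2' : b * y' ^ 2 ≤ a * x' ^ 2 + T)
    (h3' : 2 * T < b * y' ^ 2)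
    (hy1' : Y ≤ y') (hy2' : y' < 2 * Y) :
    |(x : ℤ) * y' - x' * y| < 3 * T := by
  have key : ∀ (x y x' y' : ℝ) (a b T Y : ℝ), 1 ≤ a → 1 ≤ b → 1 ≤ T → 1 ≤ Y → 0 ≤ x → 0 ≤ x' →
      a * x ^ 2 < b * y ^ 2 → b * y ^ 2 ≤ a * x ^ 2 + T → 2 * T < b * y ^ 2 → Y ≤ y → y < 2 * Y →
      a * x' ^ 2 < b * y' ^ 2 → b * y' ^ 2 ≤ a * x' ^ 2 + T → 2 * T < b * y' ^ 2 → Y ≤ y' →
      y' < 2 * Y → x * y' - x' * y < 3 * T := by
    intro x y x' y' a b T Y ha hb hT hY hx hx' h1 h2 h3 hy1 hy2 h1' h2' h3' hy1' hy2'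
    by_contra hcon
    push Not at hcon
    have hyp : 0 < y := by linarith
    have hyp' : 0 < y' := by linarith
    have hax : y ^ 2 ≤ 2 * (a * x ^ 2) := by nlinarith [sq_nonneg y]
    have hax' : y' ^ 2 ≤ 2 * (a * x' ^ 2) := by nlinarith [sq_nonneg y']
    -- P = a x y', Q = a x' y
    have hP : ∀ (u v w : ℝ), 0 ≤ u → Y ≤ v → Y ≤ w → v ^ 2 ≤ 2 * (a * u ^ 2) →
        7 / 10 * Y ^ 2 ≤ a * u * w := by
      intro u v w hu hv hw h
      by_contra hc
      push Not at hc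
      have h0 : 0 ≤ a * u * w := mul_nonneg (mul_nonneg (by linarith) hu) (by linarith)
      have e1 : (a * u * w) ^ 2 < (7 / 10 * Y ^ 2) ^ 2 := by
        apply pow_lt_pow_left₀ hc h0 (by norm_num)
      have e2 : a * (v ^ 2 * w ^ 2) ≤ 2 * (a * u * w) ^ 2 := by
        have h9 : a * w ^ 2 * v ^ 2 ≤ a * w ^ 2 * (2 * (a * u ^ 2)) :=
          mul_le_mul_of_nonneg_left h (mul_nonneg (by linarith) (sq_nonneg w))
        calc a * (v ^ 2 * w ^ 2) = a * w ^ 2 * v ^ 2 := by ring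
          _ ≤ a * w ^ 2 * (2 * (a * u ^ 2)) := h9
          _ = 2 * (a * u * w) ^ 2 := by ring
      have e3 : Y ^ 2 * Y ^ 2 ≤ v ^ 2 * w ^ 2 := by
        apply mul_le_mul
        · apply pow_le_pow_left₀ (by linarith) hv
        · apply pow_le_pow_left₀ (by linarith) hw
        · positivity
        · positivity
      have e4 : v ^ 2 * w ^ 2 ≤ a * (v ^ 2 * w ^ 2) := by
        have : 0 ≤ v ^ 2 * w ^ 2 := by positivity
        nlinarith
      have hYp : 0 < Y := by linarith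
      have e5 : 0 < Y ^ 2 * Y ^ 2 := by positivity
      have e6 : (7 / 10 * Y ^ 2) ^ 2 = 49 / 100 * (Y ^ 2 * Y ^ 2) := by ring
      rw [e6] at e1
      linarith
    have hP1 := hP x y y' hx hy1 hy1' hax
    have hP2 := hP x' y' y hx' hy1' hy1 hax'
    -- the identity
    have hid : a * (x * y' - x' * y) * (x * y' + x' * y) =
        (b * y' ^ 2 - a * x' ^ 2) * y ^ 2 - (b * y ^ 2 - a * x ^ 2) * y' ^ 2 := by ring
    have hup : (b * y' ^ 2 - a * x' ^ 2) * y ^ 2 - (b * y ^ 2 - a * x ^ 2) * y' ^ 2 ≤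
        4 * T * Y ^ 2 := by
      have e1 : (b * y' ^ 2 - a * x' ^ 2) * y ^ 2 ≤ T * y ^ 2 :=
        mul_le_mul_of_nonneg_right (by linarith) (by positivity)
      have e2 : 0 ≤ (b * y ^ 2 - a * x ^ 2) * y' ^ 2 := mul_nonneg (by linarith) (by positivity)
      have e3 : y ^ 2 ≤ 4 * Y ^ 2 := by nlinarith
      have e4 : T * y ^ 2 ≤ T * (4 * Y ^ 2) := mul_le_mul_of_nonneg_left e3 (by linarith)
      linarith
    have hlow : 3 * T * (a * (x * y' + x' * y)) ≤ a * (x * y' - x' * y) * (x * y' + x' * y) := by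
      have e1 : 0 ≤ a * (x * y' + x' * y) :=
        mul_nonneg (by linarith) (add_nonneg (mul_nonneg hx hyp'.le) (mul_nonneg hx' hyp.le))
      have e2 := mul_le_mul_of_nonneg_right hcon e1
      calc _ ≤ (x * y' - x' * y) * (a * (x * y' + x' * y)) := e2
        _ = _ := by ring
    have hs : 14 / 10 * Y ^ 2 ≤ a * (x * y' + x' * y) := by
      have : a * (x * y' + x' * y) = a * x * y' + a * x' * y := by ring
      linarith
    have e6 : 3 * T * (14 / 10 * Y ^ 2) ≤ 3 * T * (a * (x * y' + x' * y)) :=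
      mul_le_mul_of_nonneg_left hs (by linarith)
    have hYp : 0 < Y := by linarith
    have hTp : 0 < T := by linarith
    have e7 : 0 < T * Y ^ 2 := by positivity
    have e8 : 3 * T * (14 / 10 * Y ^ 2) = 42 / 10 * (T * Y ^ 2) := by ring
    have e9 : 4 * T * Y ^ 2 = 4 * (T * Y ^ 2) := by ring
    linarith
  have c1 : (1 : ℝ) ≤ a := by exact_mod_cast ha
  have c2 : (1 : ℝ) ≤ b := by exact_mod_cast hb
  have c3 : (1 : ℝ) ≤ T := by exact_mod_cast hT
  have c4 : (1 : ℝ) ≤ Y := by exact_mod_cast hY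
  have k1 := key x y x' y' a b T Y c1 c2 c3 c4 (Nat.cast_nonneg _) (Nat.cast_nonneg _)
    (by exact_mod_cast h1) (by exact_mod_cast h2) (by exact_mod_cast h3) (by exact_mod_cast hy1)
    (by exact_mod_cast hy2) (by exact_mod_cast h1') (by exact_mod_cast h2')
    (by exact_mod_cast h3') (by exact_mod_cast hy1') (by exact_mod_cast hy2')
  have k2 := key x' y' x y a b T Y c1 c2 c3 c4 (Nat.cast_nonneg _) (Nat.cast_nonneg _)
    (by exact_mod_cast h1') (by exact_mod_cast h2') (by exact_mod_cast h3')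
    (by exact_mod_cast hy1') (by exact_mod_cast hy2')
    (by exact_mod_cast h1) (by exact_mod_cast h2) (by exact_mod_cast h3) (by exact_mod_cast hy1)
    (by exact_mod_cast hy2)
  have k1' : (x : ℤ) * y' - x' * y < 3 * T := by exact_mod_cast k1
  have k2' : (x' : ℤ) * y - x * y' < 3 * T := by exact_mod_cast k2
  rw [abs_lt]
  constructor
  · linarith
  · exact k1'

/-- solutions with the same cross product with a fixed solution. -/
theorem fiber_card (a b T Y x0 y0 : ℕ) (hY : 1 ≤ Y) (hx0 : 1 ≤ x0)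
    (h1 : a * x0 ^ 2 < b * y0 ^ 2) (h2 : b * y0 ^ 2 ≤ a * x0 ^ 2 + T) (hy0 : Y ≤ y0)
    (F : Finset (ℕ × ℕ)) (D : ℤ)
    (hF : ∀ z ∈ F, Y ≤ z.2 ∧ z.2 < 2 * Y ∧ (z.1 : ℤ) * y0 - x0 * z.2 = D) : F.card ≤ T := by
  classical
  have hy0p : 0 < y0 := by omega
  obtain ⟨g, hg, x1, y1, hcop, rfl, rfl⟩ : ∃ g, 0 < g ∧ ∃ x1 y1, Nat.Coprime x1 y1 ∧
      x0 = x1 * g ∧ y0 = y1 * g := by
    obtain ⟨g, x1, y1, hg, hc, e1, e2⟩ := Nat.exists_coprime' (m := x0) (n := y0)
      (Nat.gcd_pos_of_pos_right _ hy0p)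
    exact ⟨g, hg, x1, y1, hc, e1, e2⟩
  have hy1 : 0 < y1 := by
    rcases Nat.eq_zero_or_pos y1 with h | h
    · subst h; simp at hy0p
    · exact h
  -- g ≤ T
  have hgT : g ≤ T := by
    have hdvd : g ^ 2 ∣ b * (y1 * g) ^ 2 - a * (x1 * g) ^ 2 := by
      apply Nat.dvd_sub
      · exact ⟨b * y1 ^ 2, by ring⟩
      · exact ⟨a * x1 ^ 2, by ring⟩
    have hpos : 0 < b * (y1 * g) ^ 2 - a * (x1 * g) ^ 2 := by omega
    have hle := Nat.le_of_dvd hpos hdvd
    have : g ≤ g ^ 2 := by nlinarith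
    omega
  refine le_trans ?_ hgT
  rw [← Finset.card_range g]
  apply Finset.card_le_card_of_injOn (fun z => (z.2 - Y) / y1)
  · intro z hz
    obtain ⟨e1, e2, e3⟩ := hF z hz
    simp only [coe_range, Set.mem_Iio]
    rw [Nat.div_lt_iff_lt_mul hy1]
    rw [mul_comm] at hy0
    omega
  · intro z hz z' hz' hzz
    obtain ⟨e1, e2, e3⟩ := hF z hz
    obtain ⟨e1', e2', e3'⟩ := hF z' hz'
    simp only at hzz
    -- y1 divides y - y'
    have hgz : (g : ℤ) ≠ 0 := by exact_mod_cast hg.ne'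
    have hmain : ((z.1 : ℤ) - z'.1) * y1 = x1 * ((z.2 : ℤ) - z'.2) := by
      have : ((z.1 : ℤ) - z'.1) * y1 * g = x1 * ((z.2 : ℤ) - z'.2) * g := by
        push_cast at e3 e3'
        linarith
      exact mul_right_cancel₀ hgz this
    have hdv : (y1 : ℤ) ∣ ((z.2 : ℤ) - z'.2) := by
      have h3 : (y1 : ℤ) ∣ x1 * ((z.2 : ℤ) - z'.2) := ⟨(z.1 : ℤ) - z'.1, by rw [← hmain]; ring⟩
      have h4 : IsCoprime (y1 : ℤ) (x1 : ℤ) := by
        rw [Nat.isCoprime_iff_coprime]; exact hcop.symm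
      exact h4.dvd_of_dvd_mul_left h3
    have hy : z.2 = z'.2 := by
      have q1 := Nat.div_add_mod (z.2 - Y) y1
      have q2 := Nat.div_add_mod (z'.2 - Y) y1
      have q3 := Nat.mod_lt (z.2 - Y) hy1
      have q4 := Nat.mod_lt (z'.2 - Y) hy1
      rw [hzz] at q1
      have habs : |(z.2 : ℤ) - z'.2| < y1 := by
        rw [abs_lt]
        constructor <;> omega
      have := Int.eq_zero_of_abs_lt_dvd hdv habs
      omega
    have hx : z.1 = z'.1 := by
      rw [hy] at hmain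
      simp only [sub_self, mul_zero, mul_eq_zero] at hmain
      rcases hmain with h | h
      · omega
      · exfalso
        have : y1 = 0 := by exact_mod_cast h
        omega
    exact Prod.ext hx hy

/-- Number of solutions of `0 < b y² - a x² ≤ T` with `b y² ≤ n`, for fixed `a`, `b`. -/
theorem pair_fixed (a b T n : ℕ) (ha : 1 ≤ a) (hb : 1 ≤ b) (hT : 1 ≤ T) (hn : 1 ≤ n)
    (S : Finset (ℕ × ℕ))
    (hS : ∀ z ∈ S, 1 ≤ z.1 ∧ 1 ≤ z.2 ∧ a * z.1 ^ 2 < b * z.2 ^ 2 ∧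
      b * z.2 ^ 2 ≤ a * z.1 ^ 2 + T ∧ b * z.2 ^ 2 ≤ n) :
    S.card ≤ 20 * T ^ 2 * (Nat.log 2 n + 1) := by
  classical
  -- the small part
  have hsmall : (S.filter (fun z => b * z.2 ^ 2 ≤ 2 * T)).card ≤ 4 * T ^ 2 := by
    have hsub : S.filter (fun z => b * z.2 ^ 2 ≤ 2 * T) ⊆
        (Finset.Icc 1 (2 * T)) ×ˢ (Finset.Icc 1 (2 * T)) := by
      intro z hz
      rw [mem_filter] at hz
      obtain ⟨h1, h2, h3, h4, h5⟩ := hS z hz.1
      rw [mem_product, mem_Icc, mem_Icc]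
      have e1 : z.2 ≤ b * z.2 ^ 2 := by nlinarith [Nat.mul_le_mul hb (le_refl (z.2 ^ 2))]
      have e2 : z.1 ≤ a * z.1 ^ 2 := by nlinarith [Nat.mul_le_mul ha (le_refl (z.1 ^ 2))]
      have e3 := hz.2
      refine ⟨⟨h1, by omega⟩, ⟨h2, by omega⟩⟩
    calc _ ≤ _ := card_le_card hsub
      _ = 4 * T ^ 2 := by rw [card_product, Nat.card_Icc]; simp; ring
  -- the large part
  set B := S.filter (fun z => ¬ b * z.2 ^ 2 ≤ 2 * T) with hB
  have hclass : ∀ i ∈ B.image (fun z => Nat.log 2 z.2),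
      (B.filter (fun z => Nat.log 2 z.2 = i)).card ≤ 6 * T ^ 2 := by
    intro i _
    rcases (B.filter (fun z => Nat.log 2 z.2 = i)).eq_empty_or_nonempty with h | h
    · rw [h]; simp
    · obtain ⟨z0, hz0⟩ := h
      have hr : ∀ z ∈ B.filter (fun z => Nat.log 2 z.2 = i), 2 ^ i ≤ z.2 ∧ z.2 < 2 * 2 ^ i ∧
          1 ≤ z.1 ∧ a * z.1 ^ 2 < b * z.2 ^ 2 ∧ b * z.2 ^ 2 ≤ a * z.1 ^ 2 + T ∧
          2 * T < b * z.2 ^ 2 := by
        intro z hz
        rw [mem_filter, hB, mem_filter] at hz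
        obtain ⟨⟨hzS, hz1⟩, hz2⟩ := hz
        obtain ⟨h1, h2, h3, h4, h5⟩ := hS z hzS
        refine ⟨?_, ?_, h1, h3, h4, by omega⟩
        · rw [← hz2]; exact Nat.pow_log_le_self 2 (by omega)
        · rw [← hz2]
          have := Nat.lt_pow_succ_log_self (b := 2) (by norm_num) z.2
          rw [pow_succ] at this
          omega
      obtain ⟨p1, p2, p3, p4, p5, p6⟩ := hr z0 hz0
      have hY : 1 ≤ 2 ^ i := Nat.one_le_two_pow
      have h1 : (B.filter (fun z => Nat.log 2 z.2 = i)).card ≤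
          T * ((B.filter (fun z => Nat.log 2 z.2 = i)).image
            (fun z => (z.1 : ℤ) * z0.2 - z0.1 * z.2)).card := by
        refine Finset.card_le_mul_card_image
          (f := fun z : ℕ × ℕ => (z.1 : ℤ) * z0.2 - z0.1 * z.2) _ T ?_
        intro D _
        apply fiber_card a b T (2 ^ i) z0.1 z0.2 hY p3 p4 p5 p1 _ D
        intro z hz
        rw [mem_filter] at hz
        obtain ⟨q1, q2, _⟩ := hr z hz.1
        exact ⟨q1, q2, hz.2⟩
      have h2 : ((B.filter (fun z => Nat.log 2 z.2 = i)).image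
          (fun z => (z.1 : ℤ) * z0.2 - z0.1 * z.2)).card ≤ 6 * T := by
        have hsub : (B.filter (fun z => Nat.log 2 z.2 = i)).image
          (fun z => (z.1 : ℤ) * z0.2 - z0.1 * z.2) ⊆ Finset.Ioo (-(3 * T : ℤ)) (3 * T) := by
          intro D hD
          rw [mem_image] at hD
          obtain ⟨z, hz, rfl⟩ := hD
          obtain ⟨q1, q2, q3, q4, q5, q6⟩ := hr z hz
          have hcl := cross_lt a b T (2 ^ i) z.1 z.2 z0.1 z0.2 ha hb hT hY q4 q5 q6 q1 q2 p4 p5 p6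
            p1 p2
          obtain ⟨c1, c2⟩ := abs_lt.1 hcl
          exact mem_Ioo.2 ⟨c1, c2⟩
        calc _ ≤ _ := card_le_card hsub
          _ ≤ 6 * T := by
            rw [Int.card_Ioo]
            have : (3 * (T : ℤ) - -(3 * T) - 1) = 6 * T - 1 := by ring
            rw [this]
            omega
      calc _ ≤ T * _ := h1
        _ ≤ T * (6 * T) := Nat.mul_le_mul_left _ h2
        _ = 6 * T ^ 2 := by ring
  have hbig : B.card ≤ 6 * T ^ 2 * (Nat.log 2 n + 1) := by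
    have h1 := Finset.card_le_mul_card_image (s := B) (6 * T ^ 2) hclass
    have h2 : (B.image (fun z => Nat.log 2 z.2)).card ≤ Nat.log 2 n + 1 := by
      have hsub : B.image (fun z => Nat.log 2 z.2) ⊆ Finset.range (Nat.log 2 n + 1) := by
        intro i hi
        rw [mem_image] at hi
        obtain ⟨z, hz, rfl⟩ := hi
        rw [hB, mem_filter] at hz
        obtain ⟨h1, h2, h3, h4, h5⟩ := hS z hz.1
        have e1 : z.2 ≤ b * z.2 ^ 2 := by nlinarith [Nat.mul_le_mul hb (le_refl (z.2 ^ 2))]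
        rw [mem_range]
        have : Nat.log 2 z.2 ≤ Nat.log 2 n := Nat.log_mono_right (by omega)
        omega
      calc _ ≤ _ := card_le_card hsub
        _ = _ := card_range _
    calc _ ≤ _ := h1
      _ ≤ _ := Nat.mul_le_mul_left _ h2
  have hsum := Finset.card_filter_add_card_filter_not (s := S) (fun z => b * z.2 ^ 2 ≤ 2 * T)
  have hL : T ^ 2 ≤ T ^ 2 * (Nat.log 2 n + 1) := Nat.le_mul_of_pos_right _ (by omega)
  rw [← hB] at hsum
  have e1 : 6 * T ^ 2 * (Nat.log 2 n + 1) = 6 * (T ^ 2 * (Nat.log 2 n + 1)) := by ring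
  have e2 : 20 * T ^ 2 * (Nat.log 2 n + 1) = 20 * (T ^ 2 * (Nat.log 2 n + 1)) := by ring
  rw [e1] at hbig
  rw [e2]
  omega

end Pool.Agent.Helper153.Pr
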