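import Mathlib

set_option autoImplicit false

namespace Pool.Agent.Helper153.Pr

open Finset

/-- fixed `a`, `b`: pairs `(x, y)` with `a x² < b y² < a x² + T` in a dyadic range and bounded gcd -/
theorem pair_dyadic (a b T n G : ℕ) (ha : 1 ≤ a) (hb : 1 ≤ b) (hT : 1 ≤ T) (hn : 1 ≤ n)
    (hG : 1 ≤ G) (S : Finset (ℕ × ℕ))
    (hS : ∀ z ∈ S, n < 4 * (a * z.1 ^ 2) ∧ a * z.1 ^ 2 < b * z.2 ^ 2 ∧
      b * z.2 ^ 2 < a * z.1 ^ 2 + T ∧ b * z.2 ^ 2 ≤ n ∧ Nat.gcd z.1 z.2 ≤ G) :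
    (S.card : ℝ) ≤ G * (2 + 8 * T / Real.sqrt ((a : ℝ) * b)) := by
  have ha' : (0:ℝ) < a := by exact_mod_cast ha
  have hb' : (0:ℝ) < b := by exact_mod_cast hb
  have hn' : (0:ℝ) < n := by exact_mod_cast hn
  have hT' : (0:ℝ) < T := by exact_mod_cast hT
  set s : ℝ := Real.sqrt ((a : ℝ) * b) with hs
  have hs0 : 0 < s := Real.sqrt_pos.2 (by positivity)
  have hs2 : s ^ 2 = a * b := Real.sq_sqrt (by positivity)
  rcases S.eq_empty_or_nonempty with hE | hNe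
  · rw [hE]; simp; positivity
  have hxy : ∀ z ∈ S, (0:ℝ) < z.1 ∧ (0:ℝ) < z.2 := by
    intro z hz
    obtain ⟨h1, h2, h3, h4, h5⟩ := hS z hz
    have hx : z.1 ≠ 0 := by
      intro h; rw [h] at h1; simp at h1
    have hy : z.2 ≠ 0 := by
      intro h; rw [h] at h2; simp at h2
    exact ⟨by exact_mod_cast Nat.pos_of_ne_zero hx, by exact_mod_cast Nat.pos_of_ne_zero hy⟩
  set f : ℕ × ℕ → ℝ := fun z => (z.1 : ℝ) / z.2 with hf
  have hR : ∀ z ∈ S, (n:ℝ) < 4 * (a * (z.1:ℝ) ^ 2) ∧ a * (z.1:ℝ) ^ 2 < b * (z.2:ℝ) ^ 2 ∧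
      b * (z.2:ℝ) ^ 2 < a * (z.1:ℝ) ^ 2 + T ∧ b * (z.2:ℝ) ^ 2 ≤ n := by
    intro z hz
    obtain ⟨h1, h2, h3, h4, h5⟩ := hS z hz
    refine ⟨by exact_mod_cast h1, by exact_mod_cast h2, by exact_mod_cast h3, by exact_mod_cast h4⟩
  have h1 : ∀ z ∈ S, a * (f z) ^ 2 < b := by
    intro z hz
    obtain ⟨h1, h2, h3, h4⟩ := hR z hz
    obtain ⟨hx, hy⟩ := hxy z hz
    simp only [hf]
    rw [div_pow, ← mul_div_assoc, div_lt_iff₀ (by positivity)]
    exact h2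
  have h2 : ∀ z ∈ S, b - 4 * b * T / n < a * (f z) ^ 2 := by
    intro z hz
    obtain ⟨h1, h2, h3, h4⟩ := hR z hz
    obtain ⟨hx, hy⟩ := hxy z hz
    simp only [hf]
    rw [div_pow, ← mul_div_assoc, lt_div_iff₀ (by positivity), sub_mul]
    have h5 : (T:ℝ) ≤ 4 * b * T / n * (z.2:ℝ) ^ 2 := by
      rw [div_mul_eq_mul_div, le_div_iff₀ hn']
      nlinarith
    linarith
  have h3 : ∀ z ∈ S, s / 2 < a * f z := by
    intro z hz
    obtain ⟨h1, h2, h3, h4⟩ := hR z hz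
    obtain ⟨hx, hy⟩ := hxy z hz
    have hfz : 0 < f z := by simp only [hf]; positivity
    have h6 : (b:ℝ) / 4 < a * (f z) ^ 2 := by
      simp only [hf]
      rw [div_pow, ← mul_div_assoc, lt_div_iff₀ (by positivity)]
      nlinarith
    apply lt_of_pow_lt_pow_left₀ 2 (by positivity)
    rw [div_pow, hs2, mul_pow]
    nlinarith
  have h4 : ∀ z ∈ S, ∀ z' ∈ S, f z < f z' → (b:ℝ) / n ≤ f z' - f z := by
    intro z hz z' hz' hlt
    obtain ⟨hx, hy⟩ := hxy z hz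
    obtain ⟨hx', hy'⟩ := hxy z' hz'
    obtain ⟨-, -, -, k4⟩ := hR z hz
    obtain ⟨-, -, -, k4'⟩ := hR z' hz'
    have h5 : f z' - f z = (z'.1 * z.2 - z.1 * z'.2 : ℝ) / (z.2 * z'.2) := by
      simp only [hf]
      field_simp
    have h6 : (0:ℝ) < z'.1 * z.2 - z.1 * z'.2 := by
      have : 0 < f z' - f z := by linarith
      rw [h5] at this
      by_contra hcon
      push Not at hcon
      have := div_nonpos_of_nonpos_of_nonneg hcon (by positivity : (0:ℝ) ≤ z.2 * z'.2)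
      linarith
    have h7 : (1:ℝ) ≤ z'.1 * z.2 - z.1 * z'.2 := by
      have h8 : z.1 * z'.2 < z'.1 * z.2 := by
        have : (z.1 * z'.2 : ℝ) < z'.1 * z.2 := by linarith
        exact_mod_cast this
      have h9 : z.1 * z'.2 + 1 ≤ z'.1 * z.2 := h8
      have : ((z.1 * z'.2 + 1 : ℕ) : ℝ) ≤ ((z'.1 * z.2 : ℕ) : ℝ) := by exact_mod_cast h9
      push_cast at this
      linarith
    rw [h5, div_le_div_iff₀ hn' (by positivity)]
    have h10 : (b * (z.2 * z'.2) : ℝ) ≤ n := by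
      apply le_of_sq_le_sq _ hn'.le
      have : (b * (z.2 * z'.2) : ℝ) ^ 2 = (b * (z.2:ℝ)^2) * (b * (z'.2:ℝ)^2) := by ring
      rw [this, pow_two (n:ℝ)]
      exact mul_le_mul k4 k4' (by positivity) hn'.le
    nlinarith
  have h5 : ∀ z ∈ S, ∀ z' ∈ S, f z < f z' → (n:ℝ) / b * (f z' - f z) < 4 * T / s := by
    intro z hz z' hz' hlt
    have k1 := h1 z' hz'
    have k2 := h2 z hz
    have k3 := h3 z hz
    have k4 := h3 z' hz'
    have k5 : (f z' - f z) * s ≤ (f z' - f z) * (a * f z' + a * f z) := by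
      apply mul_le_mul_of_nonneg_left _ (by linarith)
      linarith
    have k6 : (f z' - f z) * (a * f z' + a * f z) < 4 * b * T / n := by nlinarith
    rw [lt_div_iff₀ hs0]
    have k7 : (f z' - f z) * s < 4 * b * T / n := lt_of_le_of_lt k5 k6
    calc (n:ℝ) / b * (f z' - f z) * s = (n:ℝ) / b * ((f z' - f z) * s) := by ring
      _ < (n:ℝ) / b * (4 * b * T / n) := mul_lt_mul_of_pos_left k7 (by positivity)
      _ = 4 * T := by field_simp
  obtain ⟨z0, hz0, hmin⟩ := S.exists_min_image f hNe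
  set g : ℕ × ℕ → ℕ × ℕ := fun z => (Nat.gcd z.1 z.2, ⌊(n:ℝ) / b * (f z - f z0)⌋₊) with hg
  have hinj : Set.InjOn g S := by
    intro z hz z' hz' he
    have he1 : Nat.gcd z.1 z.2 = Nat.gcd z'.1 z'.2 := congrArg Prod.fst he
    have he2 : ⌊(n:ℝ) / b * (f z - f z0)⌋₊ = ⌊(n:ℝ) / b * (f z' - f z0)⌋₊ := congrArg Prod.snd he
    have aux : ∀ z ∈ S, ∀ z' ∈ S, ⌊(n:ℝ) / b * (f z - f z0)⌋₊ = ⌊(n:ℝ) / b * (f z' - f z0)⌋₊ →
        ¬ f z < f z' := by
      intro z hz z' hz' he2 hlt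
      have k1 := h4 z hz z' hz' hlt
      have k2 : (1:ℝ) ≤ (n:ℝ) / b * (f z' - f z) := by
        calc (1:ℝ) = (n:ℝ) / b * (b / n) := by field_simp
          _ ≤ _ := mul_le_mul_of_nonneg_left k1 (by positivity)
      have k3 : (0:ℝ) ≤ (n:ℝ) / b * (f z - f z0) :=
        mul_nonneg (by positivity) (by linarith [hmin z hz])
      have k4 := Nat.floor_le k3
      have k5 := Nat.lt_floor_add_one ((n:ℝ) / b * (f z' - f z0))
      rw [← he2] at k5
      have k6 : (n:ℝ) / b * (f z' - f z) = (n:ℝ) / b * (f z' - f z0) - (n:ℝ) / b * (f z - f z0) := by ring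
      linarith
    have hfe : f z = f z' := by
      rcases lt_trichotomy (f z) (f z') with h | h | h
      · exact absurd h (aux z hz z' hz' he2)
      · exact h
      · exact absurd h (aux z' hz' z hz he2.symm)
    obtain ⟨hx, hy⟩ := hxy z hz
    obtain ⟨hx', hy'⟩ := hxy z' hz'
    have hc : z.1 * z'.2 = z'.1 * z.2 := by
      simp only [hf] at hfe
      rw [div_eq_div_iff hy.ne' hy'.ne'] at hfe
      exact_mod_cast hfe
    have hgpos : 0 < Nat.gcd z.1 z.2 := Nat.gcd_pos_of_pos_left _ (by exact_mod_cast hx)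
    obtain ⟨u, v, huv, e1, e2⟩ := Nat.exists_coprime z.1 z.2
    obtain ⟨u', v', huv', e1', e2'⟩ := Nat.exists_coprime z'.1 z'.2
    rw [← he1] at e1' e2'
    set gg := Nat.gcd z.1 z.2 with hgg
    have hc2 : u * v' = u' * v := by
      have h : (gg * gg) * (u * v') = (gg * gg) * (u' * v) := by
        calc (gg * gg) * (u * v') = (u * gg) * (v' * gg) := by ring
          _ = z.1 * z'.2 := by rw [← e1, ← e2']
          _ = z'.1 * z.2 := hc
          _ = (u' * gg) * (v * gg) := by rw [← e1', ← e2]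
          _ = _ := by ring
      exact Nat.eq_of_mul_eq_mul_left (Nat.mul_pos hgpos hgpos) h
    have d1 : u ∣ u' := huv.dvd_of_dvd_mul_right (Dvd.intro _ hc2)
    have d2 : u' ∣ u := huv'.dvd_of_dvd_mul_right (Dvd.intro _ hc2.symm)
    have hu : u = u' := Nat.dvd_antisymm d1 d2
    have hu0 : 0 < u := by
      rcases Nat.eq_zero_or_pos u with h | h
      · rw [h] at e1; rw [e1] at hx; simp at hx
      · exact h
    have hv : v = v' := by
      rw [← hu] at hc2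
      exact (Nat.eq_of_mul_eq_mul_left hu0 hc2).symm
    apply Prod.ext
    · rw [e1, e1', hu]
    · rw [e2, e2', hv]
  have hmaps : ∀ z ∈ S, g z ∈ Finset.Icc 1 G ×ˢ Finset.range (⌊4 * T / s⌋₊ + 1) := by
    intro z hz
    obtain ⟨hx, hy⟩ := hxy z hz
    simp only [hg, Finset.mem_product, Finset.mem_Icc, Finset.mem_range]
    refine ⟨⟨Nat.gcd_pos_of_pos_left _ (by exact_mod_cast hx), (hS z hz).2.2.2.2⟩, ?_⟩
    apply Nat.lt_succ_of_le
    apply Nat.floor_le_floor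
    rcases (hmin z hz).eq_or_lt with h | h
    · rw [h, sub_self, mul_zero]; positivity
    · exact (h5 z0 hz0 z hz h).le
  have hcard := Finset.card_le_card_of_injOn g hmaps hinj
  rw [Finset.card_product, Nat.card_Icc, Finset.card_range] at hcard
  have hcard2 : (S.card : ℝ) ≤ G * (⌊4 * T / s⌋₊ + 1) := by
    have : (S.card : ℝ) ≤ ((G + 1 - 1) * (⌊4 * T / s⌋₊ + 1) : ℕ) := by exact_mod_cast hcard
    rw [Nat.add_sub_cancel] at this
    push_cast at this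
    exact this
  refine hcard2.trans ?_
  apply mul_le_mul_of_nonneg_left _ (by positivity)
  have hfl := Nat.floor_le (show (0:ℝ) ≤ 4 * T / s by positivity)
  have : 8 * T / s = 2 * (4 * T / s) := by ring
  have h0 : (0:ℝ) ≤ 4 * T / s := by positivity
  linarith

theorem sum_inv_sqrt (D : ℕ) : ∑ a ∈ Icc 1 D, 1 / Real.sqrt a ≤ 2 * Real.sqrt D := by
  induction D with
  | zero => simp
  | succ k ih =>
    rw [Finset.sum_Icc_succ_top (by omega)]
    have h1 : (0:ℝ) < Real.sqrt ((k+1 : ℕ):ℝ) := Real.sqrt_pos.2 (by positivity)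
    have h2 : (0:ℝ) ≤ Real.sqrt (k:ℝ) := Real.sqrt_nonneg _
    have h3 : Real.sqrt ((k+1 : ℕ):ℝ) ^ 2 = k + 1 := by
      rw [Real.sq_sqrt (by positivity)]; push_cast; ring
    have h4 : Real.sqrt (k:ℝ) ^ 2 = k := Real.sq_sqrt (by positivity)
    have h5 : 1 / Real.sqrt ((k+1 : ℕ):ℝ) ≤ 2 * (Real.sqrt ((k+1 : ℕ):ℝ) - Real.sqrt (k:ℝ)) := by
      rw [div_le_iff₀ h1]
      nlinarith [sq_nonneg (Real.sqrt ((k+1 : ℕ):ℝ) - Real.sqrt (k:ℝ))]
    linarith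

/-- all `a, b ≤ D` -/
theorem quad_dyadic (D T n G : ℕ) (hD : 1 ≤ D) (hT : 1 ≤ T) (hn : 1 ≤ n) (hG : 1 ≤ G)
    (S : Finset ((ℕ × ℕ) × (ℕ × ℕ)))
    (hS : ∀ z ∈ S, 1 ≤ z.1.1 ∧ z.1.1 ≤ D ∧ 1 ≤ z.1.2 ∧ z.1.2 ≤ D ∧
      n < 4 * (z.1.1 * z.2.1 ^ 2) ∧ z.1.1 * z.2.1 ^ 2 < z.1.2 * z.2.2 ^ 2 ∧
      z.1.2 * z.2.2 ^ 2 < z.1.1 * z.2.1 ^ 2 + T ∧ z.1.2 * z.2.2 ^ 2 ≤ n ∧
      Nat.gcd z.2.1 z.2.2 ≤ G) :
    (S.card : ℝ) ≤ G * (2 * (D : ℝ) ^ 2 + 32 * T * D) := by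
  classical
  have hmaps : ∀ z ∈ S, z.1 ∈ Icc 1 D ×ˢ Icc 1 D := by
    intro z hz
    obtain ⟨h1, h2, h3, h4, -⟩ := hS z hz
    simp only [Finset.mem_product, Finset.mem_Icc]
    exact ⟨⟨h1, h2⟩, h3, h4⟩
  have hcard := Finset.card_eq_sum_card_fiberwise hmaps
  have hfib : ∀ p ∈ Icc 1 D ×ˢ Icc 1 D, ((S.filter (fun z => z.1 = p)).card : ℝ) ≤
      G * (2 + 8 * T / Real.sqrt ((p.1 : ℝ) * p.2)) := by
    intro p hp
    simp only [Finset.mem_product, Finset.mem_Icc] at hp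
    have hinj : Set.InjOn (fun z : (ℕ × ℕ) × (ℕ × ℕ) => z.2) (S.filter (fun z => z.1 = p)) := by
      intro z hz z' hz' he
      simp only [Finset.coe_filter, Set.mem_ofPred_eq] at hz hz'
      exact Prod.ext (hz.2.trans hz'.2.symm) he
    rw [← Finset.card_image_of_injOn hinj]
    apply pair_dyadic p.1 p.2 T n G hp.1.1 hp.2.1 hT hn hG
    intro z hz
    simp only [Finset.mem_image, Finset.mem_filter] at hz
    obtain ⟨w, ⟨hw, hwp⟩, rfl⟩ := hz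
    have := (hS w hw).2.2.2.2
    rw [hwp] at this
    exact this
  have hs1 : (S.card : ℝ) ≤ ∑ p ∈ Icc 1 D ×ˢ Icc 1 D, (G * (2 + 8 * T / Real.sqrt ((p.1 : ℝ) * p.2)) : ℝ) := by
    rw [hcard]
    push_cast
    exact Finset.sum_le_sum hfib
  refine hs1.trans ?_
  rw [← Finset.mul_sum]
  apply mul_le_mul_of_nonneg_left _ (by positivity)
  rw [Finset.sum_add_distrib]
  have e1 : ∑ p ∈ Icc 1 D ×ˢ Icc 1 D, (2:ℝ) = 2 * (D:ℝ) ^ 2 := by
    simp [Finset.card_product]; ring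
  have e2 : ∑ p ∈ Icc 1 D ×ˢ Icc 1 D, (8 * T / Real.sqrt ((p.1 : ℝ) * p.2) : ℝ) =
      8 * T * ((∑ a ∈ Icc 1 D, 1 / Real.sqrt a) * (∑ a ∈ Icc 1 D, 1 / Real.sqrt a)) := by
    rw [Finset.sum_mul_sum, Finset.sum_product, Finset.mul_sum]
    apply Finset.sum_congr rfl
    intro x hx
    rw [Finset.mul_sum]
    apply Finset.sum_congr rfl
    intro y hy
    rw [Real.sqrt_mul (by positivity)]
    have : (0:ℝ) < Real.sqrt x := Real.sqrt_pos.2 (by
      simp only [Finset.mem_Icc] at hx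
      exact_mod_cast hx.1)
    have : (0:ℝ) < Real.sqrt y := Real.sqrt_pos.2 (by
      simp only [Finset.mem_Icc] at hy
      exact_mod_cast hy.1)
    field_simp
  rw [e1, e2]
  have h1 := sum_inv_sqrt D
  have h0 : (0:ℝ) ≤ ∑ a ∈ Icc 1 D, 1 / Real.sqrt (a:ℝ) := Finset.sum_nonneg (fun i _ => by positivity)
  have h2 : (∑ a ∈ Icc 1 D, 1 / Real.sqrt (a:ℝ)) * (∑ a ∈ Icc 1 D, 1 / Real.sqrt (a:ℝ)) ≤ 4 * D := by
    calc _ ≤ (2 * Real.sqrt D) * (2 * Real.sqrt D) := mul_le_mul h1 h1 h0 (by positivity)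
      _ = 4 * (Real.sqrt D) ^ 2 := by ring
      _ = 4 * D := by rw [Real.sq_sqrt (by positivity)]
  have h3 : 8 * (T:ℝ) * ((∑ a ∈ Icc 1 D, 1 / Real.sqrt (a:ℝ)) * (∑ a ∈ Icc 1 D, 1 / Real.sqrt (a:ℝ))) ≤
      8 * T * (4 * D) := mul_le_mul_of_nonneg_left h2 (by positivity)
  linarith

end Pool.Agent.Helper153.Pr
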