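import Mathlib
import Pool.Agent.Helper153.FacDef

set_option autoImplicit false

namespace Pool.Agent.Helper153.Fac

open Finset

theorem sfp_pos (n : ℕ) : 1 ≤ sfp n := by
  show 0 < ∏ p ∈ n.primeFactors.filter (fun p => Odd (n.factorization p)), p
  apply Finset.prod_pos
  intro p hp
  exact (Nat.prime_of_mem_primeFactors (Finset.mem_filter.1 hp).1).pos

theorem rtp_pos (n : ℕ) : 1 ≤ rtp n := by
  show 0 < ∏ p ∈ n.primeFactors, p ^ (n.factorization p / 2)
  apply Finset.prod_pos
  intro p hp
  exact pow_pos (Nat.prime_of_mem_primeFactors hp).pos _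

theorem sfp_mul (n : ℕ) (hn : n ≠ 0) : sfp n * rtp n ^ 2 = n := by
  unfold sfp rtp
  rw [Finset.prod_filter, ← Finset.prod_pow, ← Finset.prod_mul_distrib]
  conv_rhs => rw [← Nat.prod_factorization_pow_eq_self hn]
  rw [Nat.prod_factorization_eq_prod_primeFactors]
  apply Finset.prod_congr rfl
  intro p hp
  split_ifs with h
  · obtain ⟨k, hk⟩ := h
    rw [hk, ← pow_mul, ← pow_succ']
    congr 1
    omega
  · rw [Nat.not_odd_iff_even] at h
    obtain ⟨k, hk⟩ := h
    rw [hk, ← pow_mul, one_mul]
    congr 1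
    omega

theorem dvd_sfp (n p : ℕ) (hp : p.Prime) : p ∣ sfp n ↔ Odd (n.factorization p) := by
  unfold sfp
  rw [hp.prime.dvd_finsetProd_iff]
  constructor
  · rintro ⟨q, hq, hd⟩
    rw [Finset.mem_filter] at hq
    have := (Nat.prime_dvd_prime_iff_eq hp (Nat.prime_of_mem_primeFactors hq.1)).1 hd
    rw [this]
    exact hq.2
  · intro h
    refine ⟨p, ?_, dvd_rfl⟩
    rw [Finset.mem_filter]
    refine ⟨?_, h⟩
    rw [← Nat.support_factorization, Finsupp.mem_support_iff]
    intro h0
    rw [h0] at h
    simp at h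

theorem sfp_sqf (n : ℕ) : Squarefree (sfp n) := by
  unfold sfp
  refine Finset.squarefree_prod_of_pairwise_isCoprime (fun p hp q hq hpq => ?_) ?_
  · have h1 := Nat.prime_of_mem_primeFactors (Finset.mem_filter.1 (Finset.mem_coe.1 hp)).1
    have h2 := Nat.prime_of_mem_primeFactors (Finset.mem_filter.1 (Finset.mem_coe.1 hq)).1
    have := (Nat.coprime_primes h1 h2).2 hpq
    exact Nat.coprime_iff_isRelPrime.1 this
  · intro p hp
    exact (Nat.prime_of_mem_primeFactors (Finset.mem_filter.1 hp).1).prime.squarefree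

/-- factorial as product over the block -/
theorem fact_block (m t : ℕ) (h : t ≤ m) :
    m.factorial = (m - t).factorial * ∏ u ∈ Ioc (m - t) m, u := by
  induction t with
  | zero => simp
  | succ t ih =>
    rw [ih (by omega)]
    have h1 : m - t = (m - (t + 1)) + 1 := by omega
    have h2 : Ioc (m - (t + 1)) m = insert (m - t) (Ioc (m - t) m) := by
      ext x
      simp only [Finset.mem_Ioc, Finset.mem_insert]
      omega
    rw [h2, Finset.prod_insert (by simp), h1, Nat.factorial_succ]
    ring

theorem parity (m t c q : ℕ) (h : Bad m t c) :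
    Even (∑ u ∈ Ioc (m - t) m, u.factorization q + c.factorial.factorization q) := by
  obtain ⟨h1, h2, r, hr⟩ := h
  have hne1 : (m - t).factorial ≠ 0 := Nat.factorial_ne_zero _
  have hne2 : c.factorial ≠ 0 := Nat.factorial_ne_zero _
  have hne3 : ∏ u ∈ Ioc (m - t) m, u ≠ 0 := by
    rw [Finset.prod_ne_zero_iff]
    intro u hu
    rw [Finset.mem_Ioc] at hu
    omega
  have hr0 : r ≠ 0 := by
    rintro rfl
    have : m.factorial * (m - t).factorial * c.factorial ≠ 0 :=
      mul_ne_zero (mul_ne_zero (Nat.factorial_ne_zero _) hne1) hne2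
    exact this (by simpa using hr)
  rw [fact_block m t (by omega)] at hr
  have h3 : ((m - t).factorial * ∏ u ∈ Ioc (m - t) m, u) * (m - t).factorial * c.factorial =
      r * r := hr
  have h3 := congrArg (fun n : ℕ => n.factorization q) h3
  beta_reduce at h3
  rw [Nat.factorization_mul (mul_ne_zero (mul_ne_zero hne1 hne3) hne1) hne2,
    Nat.factorization_mul (mul_ne_zero hne1 hne3) hne1, Nat.factorization_mul hne1 hne3,
    Nat.factorization_mul hr0 hr0, Nat.factorization_prod] at h3
  · simp only [Finsupp.add_apply, Finsupp.coe_finsetSum, Finset.sum_apply] at h3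
    refine ⟨r.factorization q - (m - t).factorial.factorization q, ?_⟩
    omega
  · intro u hu
    rw [Finset.mem_Ioc] at hu
    omega

theorem bad_hit (m t c q : ℕ) (h : Bad m t c) (hq : q ∈ Sq c t) : m % q < t := by
  have h0 := parity m t c q h
  unfold Sq at hq
  rw [Finset.mem_filter, Finset.mem_Ioc] at hq
  obtain ⟨⟨h1, h2⟩, h3, h4⟩ := hq
  obtain ⟨h5, h6, -⟩ := h
  have h7 : ∃ u ∈ Ioc (m - t) m, q ∣ u := by
    by_contra hcon
    push Not at hcon
    have : ∑ u ∈ Ioc (m - t) m, u.factorization q = 0 := by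
      apply Finset.sum_eq_zero
      intro u hu
      exact Nat.factorization_eq_zero_of_not_dvd (hcon u hu)
    rw [this, zero_add] at h0
    exact (Nat.not_even_iff_odd.2 h4) h0
  obtain ⟨u, hu, k, hk⟩ := h7
  rw [Finset.mem_Ioc] at hu
  have h8 : m = (m - u) + q * k := by omega
  rw [h8, Nat.add_mul_mod_self_left]
  have : (m - u) % q ≤ m - u := Nat.mod_le _ _
  omega

theorem bad_prime (m t c q : ℕ) (h : Bad m t c) (hq : q.Prime) (h1 : c < 2 * q) (h2 : q ≤ c) :
    m % q < t := by
  by_cases hqt : q ≤ t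
  · exact lt_of_lt_of_le (Nat.mod_lt _ hq.pos) hqt
  · apply bad_hit m t c q h
    unfold Sq
    rw [Finset.mem_filter, Finset.mem_Ioc]
    refine ⟨⟨by omega, h2⟩, hq, ?_⟩
    have h3 : Nat.log q c < 2 := by
      apply Nat.log_lt_of_lt_pow
      · have := hq.pos
        omega
      · have := hq.two_le
        nlinarith
    rw [Nat.factorization_factorial hq h3]
    have h4 : c / q = 1 := by
      apply Nat.div_eq_of_lt_le <;> omega
    simp [h4]

theorem bad_large (m t c u p : ℕ) (h : Bad m t c) (hu : u ∈ Ioc (m - t) m) (hp : p.Prime)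
    (hpt : t < p) (hd : p ∣ sfp u) : p ∈ Sq c t := by
  have h0 := parity m t c p h
  rw [dvd_sfp u p hp] at hd
  have hpu : p ∣ u := by
    by_contra hcon
    rw [Nat.factorization_eq_zero_of_not_dvd hcon] at hd
    simp at hd
  have h1 : ∑ v ∈ Ioc (m - t) m, v.factorization p = u.factorization p := by
    apply Finset.sum_eq_single_of_mem u hu
    intro v hv hvu
    apply Nat.factorization_eq_zero_of_not_dvd
    intro hpv
    rw [Finset.mem_Ioc] at hu hv
    obtain ⟨a, ha⟩ := hpu
    obtain ⟨b, hb⟩ := hpv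
    rcases lt_trichotomy a b with hab | hab | hab
    · have : p * (a + 1) ≤ p * b := Nat.mul_le_mul_left _ hab
      rw [mul_add, mul_one] at this
      omega
    · exact hvu (by rw [ha, hb, hab])
    · have : p * (b + 1) ≤ p * a := Nat.mul_le_mul_left _ hab
      rw [mul_add, mul_one] at this
      omega
  rw [h1] at h0
  have h2 : Odd (c.factorial.factorization p) := by
    by_contra hcon
    rw [Nat.not_odd_iff_even] at hcon
    have := (Nat.even_add.1 h0).2 hcon
    exact (Nat.not_even_iff_odd.2 hd) this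
  have h3 : p ∣ c.factorial := by
    by_contra hcon
    rw [Nat.factorization_eq_zero_of_not_dvd hcon] at h2
    simp at h2
  unfold Sq
  rw [Finset.mem_filter, Finset.mem_Ioc]
  exact ⟨⟨hpt, (hp.dvd_factorial).1 h3⟩, hp, h2⟩

theorem log_sfp (u : ℕ) : Real.log (sfp u) =
    ∑ p ∈ u.primeFactors.filter (fun p => Odd (u.factorization p)), Real.log p := by
  unfold sfp
  rw [Nat.cast_prod, Real.log_prod]
  intro p hp
  have := (Nat.prime_of_mem_primeFactors (Finset.mem_filter.1 hp).1).pos
  positivity

theorem card_block (m t p : ℕ) (h : t ≤ m) (hp : 0 < p) :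
    (((Ioc (m - t) m).filter (fun u => p ∣ u)).card : ℝ) ≤ t / p + 1 := by
  have h1 := Nat.Ioc_filter_dvd_card_eq_div m p
  have h2 := Nat.Ioc_filter_dvd_card_eq_div (m - t) p
  have h3 : (Ioc 0 m).filter (fun u => p ∣ u) =
      ((Ioc 0 (m - t)).filter (fun u => p ∣ u)) ∪ ((Ioc (m - t) m).filter (fun u => p ∣ u)) := by
    rw [← Finset.filter_union]
    congr 1
    ext x
    simp only [Finset.mem_Ioc, Finset.mem_union]
    omega
  have h4 : Disjoint ((Ioc 0 (m - t)).filter (fun u => p ∣ u))
      ((Ioc (m - t) m).filter (fun u => p ∣ u)) := by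
    apply Finset.disjoint_filter_filter
    rw [Finset.disjoint_left]
    intro x hx hy
    rw [Finset.mem_Ioc] at hx hy
    omega
  rw [h3, Finset.card_union_of_disjoint h4, h2] at h1
  have h5 : ((((m - t) / p : ℕ) : ℝ) + ((Ioc (m - t) m).filter (fun u => p ∣ u)).card) =
      ((m / p : ℕ) : ℝ) := by exact_mod_cast h1
  have h6 : ((m / p : ℕ) : ℝ) ≤ m / p := Nat.cast_div_le
  have h7 : (((m - t : ℕ) : ℝ) / p) < (((m - t) / p : ℕ) : ℝ) + 1 := by
    rw [div_lt_iff₀ (by exact_mod_cast hp)]
    have h9 : (m - t) < ((m - t) / p + 1) * p := by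
      have := Nat.div_add_mod (m - t) p
      have := Nat.mod_lt (m - t) hp
      nlinarith
    exact_mod_cast h9
  have h8 : ((m - t : ℕ) : ℝ) = m - t := by
    push_cast [h]
    ring
  rw [h8, sub_div] at h7
  linarith

theorem mass
    (hM : ∃ C : ℝ, ∀ N : ℕ, 1 ≤ N →
      |∑ p ∈ (Finset.Icc 1 N).filter Nat.Prime, Real.log p / p - Real.log N| ≤ C) :
    ∃ C : ℝ, 0 < C ∧ ∀ m t c : ℕ, Bad m t c →
      ∑ u ∈ Ioc (m - t) m, Real.log (sfp u) ≤
        t * Real.log t + C * t + ∑ q ∈ Sq c t, Real.log q := by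
  obtain ⟨C, hC⟩ := hM
  refine ⟨|C| + Real.log 4 + 1, ?_, ?_⟩
  · have := abs_nonneg C
    have := Real.log_nonneg (show (1 : ℝ) ≤ 4 by norm_num)
    linarith
  intro m t c h
  have h0 := h
  obtain ⟨h1, h2, -⟩ := h0
  set F : ℕ → Finset ℕ := fun u => u.primeFactors.filter (fun p => Odd (u.factorization p)) with hF
  have hsplit : ∀ u, Real.log (sfp u) = ∑ p ∈ (F u).filter (fun p => p ≤ t), Real.log p +
      ∑ p ∈ (F u).filter (fun p => ¬ p ≤ t), Real.log p := by
    intro u
    rw [log_sfp, Finset.sum_filter_add_sum_filter_not]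
  have hlog : ∀ p : ℕ, 0 ≤ Real.log p := fun p => Real.log_natCast_nonneg p
  -- small primes
  have hsmall : ∑ u ∈ Ioc (m - t) m, ∑ p ∈ (F u).filter (fun p => p ≤ t), Real.log p ≤
      t * Real.log t + (|C| + Real.log 4) * t := by
    have a1 : ∀ u ∈ Ioc (m - t) m, ∑ p ∈ (F u).filter (fun p => p ≤ t), Real.log p ≤
        ∑ p ∈ (Finset.Icc 1 t).filter Nat.Prime, if p ∣ u then Real.log p else 0 := by
      intro u hu
      rw [← Finset.sum_filter]
      apply Finset.sum_le_sum_of_subset_of_nonneg
      · intro p hp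
        simp only [hF, Finset.mem_filter, Finset.mem_Icc, Nat.mem_primeFactors] at hp ⊢
        have := hp.1.1.1.pos
        tauto
      · intro p _ _
        exact hlog p
    refine (Finset.sum_le_sum a1).trans ?_
    rw [Finset.sum_comm]
    have a2 : ∀ p ∈ (Finset.Icc 1 t).filter Nat.Prime,
        (∑ u ∈ Ioc (m - t) m, if p ∣ u then Real.log p else 0) ≤
          t * (Real.log p / p) + Real.log p := by
      intro p hp
      rw [← Finset.sum_filter, Finset.sum_const, nsmul_eq_mul]
      have hp0 : 0 < p := (Finset.mem_filter.1 hp).2.pos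
      have := mul_le_mul_of_nonneg_right (card_block m t p (by omega) hp0) (hlog p)
      refine this.trans (le_of_eq ?_)
      ring
    refine (Finset.sum_le_sum a2).trans ?_
    rw [Finset.sum_add_distrib, ← Finset.mul_sum]
    have a3 := (abs_le.1 (hC t (by omega))).2
    have a4 : ∑ p ∈ (Finset.Icc 1 t).filter Nat.Prime, Real.log p ≤ Real.log 4 * t := by
      have b1 : Real.log (primorial t) = ∑ p ∈ (Finset.Icc 1 t).filter Nat.Prime, Real.log p := by
        unfold primorial
        rw [Nat.cast_prod, Real.log_prod]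
        · apply Finset.sum_congr _ (fun _ _ => rfl)
          ext p
          simp only [Finset.mem_filter, Finset.mem_range, Finset.mem_Icc]
          constructor
          · rintro ⟨h1, h2⟩
            have := h2.pos
            exact ⟨by omega, h2⟩
          · rintro ⟨h1, h2⟩
            exact ⟨by omega, h2⟩
        · intro p hp
          have := (Finset.mem_filter.1 hp).2.pos
          positivity
      rw [← b1]
      have b2 := primorial_le_four_pow t
      have b3 : (primorial t : ℝ) ≤ 4 ^ t := by exact_mod_cast b2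
      have b4 : (0 : ℝ) < primorial t := by exact_mod_cast primorial_pos t
      have b5 := Real.log_le_log b4 b3
      rw [Real.log_pow] at b5
      linarith
    have a5 := mul_le_mul_of_nonneg_left a3 (Nat.cast_nonneg (α := ℝ) t)
    have a6 := mul_le_mul_of_nonneg_left (le_abs_self C) (Nat.cast_nonneg (α := ℝ) t)
    nlinarith
  have hlarge : ∑ u ∈ Ioc (m - t) m, ∑ p ∈ (F u).filter (fun p => ¬ p ≤ t), Real.log p ≤
      ∑ q ∈ Sq c t, Real.log q := by
    rw [← Finset.sum_biUnion]
    · apply Finset.sum_le_sum_of_subset_of_nonneg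
      · intro p hp
        rw [Finset.mem_biUnion] at hp
        obtain ⟨u, hu, hp⟩ := hp
        simp only [hF, Finset.mem_filter, Nat.mem_primeFactors] at hp
        exact bad_large m t c u p h hu hp.1.1.1 (by omega) ((dvd_sfp u p hp.1.1.1).2 hp.1.2)
      · intro p _ _
        exact hlog p
    · intro u hu v hv huv
      rw [Function.onFun, Finset.disjoint_left]
      intro p hp hq
      simp only [hF, Finset.mem_filter, Nat.mem_primeFactors] at hp hq
      obtain ⟨a, ha⟩ := hp.1.1.2.1
      obtain ⟨b, hb⟩ := hq.1.1.2.1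
      have h3 := Finset.mem_Ioc.1 (Finset.mem_coe.1 hu)
      have h4 := Finset.mem_Ioc.1 (Finset.mem_coe.1 hv)
      have h5 := hp.2
      rcases lt_trichotomy a b with hab | hab | hab
      · have : p * (a + 1) ≤ p * b := Nat.mul_le_mul_left _ hab
        rw [mul_add, mul_one] at this
        omega
      · exact huv (by rw [ha, hb, hab])
      · have : p * (b + 1) ≤ p * a := Nat.mul_le_mul_left _ hab
        rw [mul_add, mul_one] at this
        omega
  have ht : (0 : ℝ) ≤ t := Nat.cast_nonneg t
  calc ∑ u ∈ Ioc (m - t) m, Real.log (sfp u)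
      = ∑ u ∈ Ioc (m - t) m, ∑ p ∈ (F u).filter (fun p => p ≤ t), Real.log p +
        ∑ u ∈ Ioc (m - t) m, ∑ p ∈ (F u).filter (fun p => ¬ p ≤ t), Real.log p := by
        rw [← Finset.sum_add_distrib]
        exact Finset.sum_congr rfl (fun u _ => hsplit u)
    _ ≤ t * Real.log t + (|C| + Real.log 4) * t + ∑ q ∈ Sq c t, Real.log q := by linarith
    _ ≤ _ := by nlinarith

end Pool.Agent.Helper153.Fac
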