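import Mathlib
import Pool.Agent.Helper153.FacJ

set_option autoImplicit false

namespace Pool.Agent.Helper153.Fac

open Finset

theorem sq_le (c t : ℕ) : ∑ q ∈ Sq c t, Real.log q ≤ 1.4 * c := by
  have h1 : ∑ q ∈ Sq c t, Real.log q ≤ Chebyshev.theta (c : ℝ) := by
    unfold Chebyshev.theta
    rw [Nat.floor_natCast]
    refine Finset.sum_le_sum_of_subset_of_nonneg ?_ ?_
    · intro q hq
      unfold Sq at hq
      rw [mem_filter, mem_Ioc] at hq
      rw [mem_filter, mem_Ioc]
      exact ⟨⟨by omega, hq.1.2⟩, hq.2.1⟩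
    · intro q hq _
      exact Real.log_natCast_nonneg q
  have h2 := Chebyshev.theta_le_log4_mul_x (x := (c : ℝ)) (Nat.cast_nonneg c)
  have h3 : Real.log 4 ≤ 1.4 := by
    have : Real.log 4 = 2 * Real.log 2 := by
      rw [show (4 : ℝ) = 2 ^ 2 by norm_num, Real.log_pow]; norm_num
    rw [this]
    have := Real.log_two_lt_d9
    linarith
  have h4 := mul_le_mul_of_nonneg_right h3 (Nat.cast_nonneg (α := ℝ) c)
  linarith

/-- TARGET: if `c ≤ ε₀ t log n` then a positive proportion of the block elements have a small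
squarefree part. -/
theorem many_small
    (hM : ∃ C : ℝ, ∀ N : ℕ, 1 ≤ N →
      |∑ p ∈ (Finset.Icc 1 N).filter Nat.Prime, Real.log p / p - Real.log N| ≤ C) :
    ∃ n₀ : ℕ, ∀ n m t c : ℕ, n₀ ≤ n → m ≤ n → Bad m t c → (t : ℝ) ≤ n →
      (c : ℝ) ≤ (1 / 16000 : ℝ) * t * Real.log n →
      (t : ℝ) / 3000 ≤
        (((Ioc (m - t) m).filter (fun u => (sfp u : ℝ) ≤ t * (n : ℝ) ^ (1 / 1000 : ℝ))).card : ℝ) := by
  obtain ⟨C, hC, hmass⟩ := mass hM
  obtain ⟨n₀, hn₀⟩ := exists_nat_gt (Real.exp (200000 * C))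
  refine ⟨n₀, fun n m t c hn hmn hbad htn hc => ?_⟩
  have hn1 : Real.exp (200000 * C) < n := lt_of_lt_of_le hn₀ (by exact_mod_cast hn)
  have hn0 : (0 : ℝ) < n := (Real.exp_pos _).trans hn1
  set L := Real.log n with hL
  have hCL : 200000 * C < L := by
    rw [hL, Real.lt_log_iff_exp_lt hn0]; exact hn1
  have hL0 : 0 < L := by nlinarith
  have ht2 : 2 ≤ t := hbad.1
  have htm : t ≤ m := by have := hbad.2.1; omega
  have ht0 : (0 : ℝ) < t := by exact_mod_cast (by omega : 0 < t)
  have hlt : Real.log t ≤ L := Real.log_le_log ht0 htn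
  have hlt0 : 0 ≤ Real.log t := Real.log_natCast_nonneg t
  have hsum : ∑ u ∈ Ioc (m - t) m, Real.log (sfp u) ≤ t * (Real.log t + L / 10000) := by
    have h1 := hmass m t c hbad
    have h2 := sq_le c t
    have h3 : (0 : ℝ) < t * L := mul_pos ht0 hL0
    have h4 : C * t ≤ t * L / 200000 := by nlinarith
    nlinarith
  set S := Ioc (m - t) m with hS
  have hcard : (S.card : ℝ) = t := by
    rw [hS, Nat.card_Ioc]
    congr 1
    omega
  set G := S.filter (fun u => (sfp u : ℝ) ≤ t * (n : ℝ) ^ (1 / 1000 : ℝ)) with hG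
  set Z := S.filter (fun u => ¬ (sfp u : ℝ) ≤ t * (n : ℝ) ^ (1 / 1000 : ℝ)) with hZ
  have hGZ : (G.card : ℝ) + Z.card = t := by
    rw [← hcard]
    exact_mod_cast Finset.card_filter_add_card_filter_not (s := S)
      (fun u => (sfp u : ℝ) ≤ t * (n : ℝ) ^ (1 / 1000 : ℝ))
  have hlow : (Z.card : ℝ) * (Real.log t + L / 1000) ≤ ∑ u ∈ S, Real.log (sfp u) := by
    calc (Z.card : ℝ) * (Real.log t + L / 1000) = ∑ u ∈ Z, (Real.log t + L / 1000) := by
          rw [Finset.sum_const, nsmul_eq_mul]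
      _ ≤ ∑ u ∈ Z, Real.log (sfp u) := by
          refine Finset.sum_le_sum fun u hu => ?_
          rw [hZ, mem_filter, not_le] at hu
          have h1 : Real.log (t * (n : ℝ) ^ (1 / 1000 : ℝ)) = Real.log t + L / 1000 := by
            rw [Real.log_mul ht0.ne' (by positivity), Real.log_rpow hn0]
            ring
          rw [← h1]
          exact Real.log_le_log (by positivity) hu.2.le
      _ ≤ ∑ u ∈ S, Real.log (sfp u) := by
          refine Finset.sum_le_sum_of_subset_of_nonneg (Finset.filter_subset _ _) fun u _ _ => ?_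
          exact Real.log_natCast_nonneg _
  by_contra hcon
  push Not at hcon
  have hZ1 : (t : ℝ) * (1 - 1 / 3000) ≤ Z.card := by linarith
  have h5 : (t : ℝ) * (1 - 1 / 3000) * (Real.log t + L / 1000) ≤ t * (Real.log t + L / 10000) := by
    refine le_trans ?_ (hlow.trans hsum)
    exact mul_le_mul_of_nonneg_right hZ1 (by positivity)
  have h6 : (1 - 1 / 3000 : ℝ) * (Real.log t + L / 1000) ≤ Real.log t + L / 10000 := by
    rw [mul_assoc] at h5
    exact le_of_mul_le_mul_left h5 ht0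
  linarith

end Pool.Agent.Helper153.Fac
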