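import Mathlib
import Pool.Agent.Helper153.FacJ
import Pool.Agent.Helper153.FacI

set_option autoImplicit false

namespace Pool.Agent.Helper153.Fac

open Finset Pool.Agent.Helper153.Pr

theorem sum_inv_four (G : ℕ) (hG : 1 ≤ G) (N : ℕ) (hN : G ≤ N) :
    ∑ g ∈ Ioc G N, 1 / (g : ℝ) ^ 4 ≤ 1 / (G : ℝ) ^ 3 - 1 / (N : ℝ) ^ 3 := by
  induction N, hN using Nat.le_induction with
  | base => simp
  | succ N hN ih =>
    rw [Finset.sum_Ioc_succ_top (by omega)]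
    have hN0 : (1 : ℝ) ≤ N := by exact_mod_cast hG.trans hN
    have h1 : 1 / ((N + 1 : ℕ) : ℝ) ^ 4 ≤ 1 / (N : ℝ) ^ 3 - 1 / ((N + 1 : ℕ) : ℝ) ^ 3 := by
      push_cast
      have hN1 : (0 : ℝ) < N := by linarith
      rw [div_sub_div _ _ (by positivity) (by positivity), div_le_div_iff₀ (by positivity)
        (by positivity)]
      have : (N : ℝ) ^ 3 * ((N : ℝ) + 1) ^ 3 ≤ ((3 * (N : ℝ) ^ 2 + 3 * N + 1)) * ((N : ℝ) + 1) ^ 4 := by
        have h3 : (N : ℝ) ^ 3 ≤ (3 * (N : ℝ) ^ 2 + 3 * N + 1) * ((N : ℝ) + 1) := by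
          have : 0 ≤ (N : ℝ) ^ 3 := by positivity
          nlinarith [sq_nonneg (N : ℝ)]
        calc (N : ℝ) ^ 3 * ((N : ℝ) + 1) ^ 3 ≤
            ((3 * (N : ℝ) ^ 2 + 3 * N + 1) * ((N : ℝ) + 1)) * ((N : ℝ) + 1) ^ 3 := by gcongr
          _ = _ := by ring
      nlinarith
    linarith

theorem card_dvd_block (m t d : ℕ) (htm : t ≤ m) (hd : 1 ≤ d) :
    (((Ioc (m - t) m).filter (fun u => d ∣ u)).card : ℝ) ≤ (t : ℝ) / d + 1 := by
  have h1 : ((Ioc (m - t) m).filter (fun u => d ∣ u)).card ≤ (Ioc ((m - t) / d) (m / d)).card := by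
    apply Finset.card_le_card_of_injOn (fun u => u / d)
    · intro u hu
      simp only [coe_filter, Set.mem_ofPred_eq, mem_Ioc] at hu
      obtain ⟨⟨h1, h2⟩, k, rfl⟩ := hu
      simp only [coe_Ioc, Set.mem_Ioc]
      rw [Nat.mul_div_cancel_left _ (by omega)]
      constructor
      · rw [Nat.div_lt_iff_lt_mul (by omega), mul_comm]
        exact h1
      · rw [Nat.le_div_iff_mul_le (by omega), mul_comm]
        exact h2
    · intro u hu v hv huv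
      simp only [coe_filter, Set.mem_ofPred_eq] at hu hv
      obtain ⟨-, k, rfl⟩ := hu
      obtain ⟨-, l, rfl⟩ := hv
      simp only at huv
      rw [Nat.mul_div_cancel_left _ (by omega), Nat.mul_div_cancel_left _ (by omega)] at huv
      rw [huv]
  rw [Nat.card_Ioc] at h1
  have hd0 : (0 : ℝ) < d := by exact_mod_cast hd
  have h2 : ((m / d : ℕ) : ℝ) ≤ (m : ℝ) / d := Nat.cast_div_le
  have h3 : ((m - t : ℕ) : ℝ) / d < ((m - t) / d : ℕ) + 1 := by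
    rw [div_lt_iff₀ hd0]
    have := Nat.lt_div_mul_add (a := m - t) (b := d) (by omega)
    have h4 : ((m - t : ℕ) : ℝ) < ((m - t) / d * d + d : ℕ) := by exact_mod_cast this
    push_cast at h4
    push_cast
    linarith
  have h5 : ((m / d - (m - t) / d : ℕ) : ℝ) = ((m / d : ℕ) : ℝ) - ((m - t) / d : ℕ) := by
    rw [Nat.cast_sub (Nat.div_le_div_right (by omega))]
  have h6 : ((m - t : ℕ) : ℝ) = m - t := Nat.cast_sub htm
  have h1' : (((Ioc (m - t) m).filter (fun u => d ∣ u)).card : ℝ) ≤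
    ((m / d - (m - t) / d : ℕ) : ℝ) := by exact_mod_cast h1
  rw [h5] at h1'
  rw [h6] at h3
  have h7 : ((m : ℝ) - t) / d = (m : ℝ) / d - t / d := by ring
  linarith

/-- pairs in a block with large gcd of the roots -/
def badP (m t G : ℕ) : Finset (ℕ × ℕ) :=
  ((Ioc (m - t) m) ×ˢ (Ioc (m - t) m)).filter
    (fun z => z.1 < z.2 ∧ G < Nat.gcd (rtp z.1) (rtp z.2))

theorem card_badP (m t G T : ℕ) (htm : t ≤ m) (htT : t ≤ T) (hG : 1 ≤ G) :
    ((badP m t G).card : ℝ) ≤ 4 * (T : ℝ) ^ 2 / (G : ℝ) ^ 3 := by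
  classical
  set E : ℕ → Finset ℕ := fun g => (Ioc (m - t) m).filter (fun u => g ^ 2 ∣ u) with hE
  set R : Finset ℕ := (Ioc G T).filter (fun g => g ^ 2 < T) with hR
  have hsub : badP m t G ⊆ R.biUnion (fun g => E g ×ˢ E g) := by
    intro z hz
    simp only [badP, mem_filter, mem_product, mem_Ioc] at hz
    obtain ⟨⟨⟨h1, h2⟩, h3, h4⟩, h5, h6⟩ := hz
    set g := Nat.gcd (rtp z.1) (rtp z.2) with hg
    have hd1 : g ^ 2 ∣ z.1 := by
      conv_rhs => rw [← sfp_mul z.1 (by omega)]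
      exact Dvd.dvd.mul_left (pow_dvd_pow_of_dvd (Nat.gcd_dvd_left _ _) 2) _
    have hd2 : g ^ 2 ∣ z.2 := by
      conv_rhs => rw [← sfp_mul z.2 (by omega)]
      exact Dvd.dvd.mul_left (pow_dvd_pow_of_dvd (Nat.gcd_dvd_right _ _) 2) _
    have hd3 : g ^ 2 ∣ z.2 - z.1 := Nat.dvd_sub hd2 hd1
    have hle : g ^ 2 ≤ z.2 - z.1 := Nat.le_of_dvd (by omega) hd3
    have hg2 : g ^ 2 < T := by omega
    have hgT : g ≤ T := by nlinarith
    simp only [mem_biUnion, mem_product, hE, hR, mem_filter, mem_Ioc]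
    exact ⟨g, ⟨⟨h6, hgT⟩, hg2⟩, ⟨⟨h1, h2⟩, hd1⟩, ⟨h3, h4⟩, hd2⟩
  have hcard : ∀ g ∈ R, ((E g ×ˢ E g).card : ℝ) ≤ 4 * (T : ℝ) ^ 2 * (1 / (g : ℝ) ^ 4) := by
    intro g hg
    simp only [hR, mem_filter, mem_Ioc] at hg
    obtain ⟨⟨h1, -⟩, h2⟩ := hg
    have hg0 : (0 : ℝ) < g := by exact_mod_cast (by omega : 0 < g)
    have h3 := card_dvd_block m t (g ^ 2) htm (Nat.one_le_pow _ _ (by omega))
    have h4 : (t : ℝ) / ((g ^ 2 : ℕ) : ℝ) + 1 ≤ 2 * T / (g : ℝ) ^ 2 := by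
      push_cast
      have h5 : (t : ℝ) ≤ T := by exact_mod_cast htT
      have h6 : (g : ℝ) ^ 2 ≤ T := by exact_mod_cast h2.le
      have h7 : (1 : ℝ) ≤ T / (g : ℝ) ^ 2 := by
        rw [le_div_iff₀ (by positivity)]; linarith
      have h8 : (t : ℝ) / (g : ℝ) ^ 2 ≤ T / (g : ℝ) ^ 2 := by gcongr
      have h9 : 2 * (T : ℝ) / (g : ℝ) ^ 2 = T / (g : ℝ) ^ 2 + T / (g : ℝ) ^ 2 := by ring
      linarith
    have h5 : ((E g).card : ℝ) ≤ 2 * T / (g : ℝ) ^ 2 := h3.trans h4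
    rw [card_product]
    push_cast
    calc ((E g).card : ℝ) * (E g).card ≤ (2 * T / (g : ℝ) ^ 2) * (2 * T / (g : ℝ) ^ 2) := by gcongr
      _ = 4 * (T : ℝ) ^ 2 * (1 / (g : ℝ) ^ 4) := by field_simp; ring
  have h1 : ((badP m t G).card : ℝ) ≤ ∑ g ∈ R, ((E g ×ˢ E g).card : ℝ) := by
    have := (card_le_card hsub).trans card_biUnion_le
    exact_mod_cast this
  have h2 : ∑ g ∈ R, ((E g ×ˢ E g).card : ℝ) ≤ 4 * (T : ℝ) ^ 2 * ∑ g ∈ R, 1 / (g : ℝ) ^ 4 := by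
    rw [mul_sum]
    exact sum_le_sum hcard
  have h3 : ∑ g ∈ R, 1 / (g : ℝ) ^ 4 ≤ 1 / (G : ℝ) ^ 3 := by
    rcases le_or_gt G T with hGT | hGT
    · have h4 : ∑ g ∈ R, 1 / (g : ℝ) ^ 4 ≤ ∑ g ∈ Ioc G T, 1 / (g : ℝ) ^ 4 :=
        sum_le_sum_of_subset_of_nonneg (filter_subset _ _) (fun _ _ _ => by positivity)
      have h5 := sum_inv_four G hG T hGT
      have h6 : (0 : ℝ) ≤ 1 / (T : ℝ) ^ 3 := by positivity
      linarith
    · have : R = ∅ := by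
        rw [hR, Finset.Ioc_eq_empty (by omega), filter_empty]
      rw [this, sum_empty]
      positivity
  calc ((badP m t G).card : ℝ) ≤ 4 * (T : ℝ) ^ 2 * ∑ g ∈ R, 1 / (g : ℝ) ^ 4 := h1.trans h2
    _ ≤ 4 * (T : ℝ) ^ 2 * (1 / (G : ℝ) ^ 3) := by gcongr
    _ = _ := by ring

theorem card_lt_pairs (A : Finset ℕ) :
    (A.card : ℝ) * (A.card - 1) / 2 = (((A ×ˢ A).filter (fun z => z.1 < z.2)).card : ℝ) := by
  classical
  set F1 := (A ×ˢ A).filter (fun z => z.1 < z.2) with hF1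
  set F2 := (A ×ˢ A).filter (fun z => z.2 < z.1) with hF2
  have h1 : A.offDiag = F1 ∪ F2 := by
    ext z
    simp only [mem_offDiag, hF1, hF2, mem_union, mem_filter, mem_product]
    constructor
    · rintro ⟨h1, h2, h3⟩
      rcases lt_or_gt_of_ne h3 with h | h
      · exact Or.inl ⟨⟨h1, h2⟩, h⟩
      · exact Or.inr ⟨⟨h1, h2⟩, h⟩
    · rintro (⟨⟨h1, h2⟩, h⟩ | ⟨⟨h1, h2⟩, h⟩)
      · exact ⟨h1, h2, h.ne⟩
      · exact ⟨h1, h2, h.ne'⟩
  have h2 : Disjoint F1 F2 := by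
    rw [Finset.disjoint_left]
    intro z hz1 hz2
    simp only [hF1, hF2, mem_filter] at hz1 hz2
    omega
  have h3 : F2.card = F1.card := by
    apply Finset.card_bij (fun z _ => z.swap)
    · intro z hz
      simp only [hF1, hF2, mem_filter, mem_product, Prod.fst_swap, Prod.snd_swap] at hz ⊢
      exact ⟨⟨hz.1.2, hz.1.1⟩, hz.2⟩
    · intro z _ w _ h
      exact Prod.swap_injective h
    · intro z hz
      refine ⟨z.swap, ?_, Prod.swap_swap z⟩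
      simp only [hF1, hF2, mem_filter, mem_product, Prod.fst_swap, Prod.snd_swap] at hz ⊢
      exact ⟨⟨hz.1.2, hz.1.1⟩, hz.2⟩
  have h4 : A.card * A.card - A.card = F1.card + F1.card := by
    rw [← offDiag_card, h1, card_union_of_disjoint h2, h3]
  have h5 : A.card ≤ A.card * A.card := Nat.le_mul_self _
  have h6 : (A.card * A.card : ℝ) - A.card = F1.card + F1.card := by
    have : ((A.card * A.card - A.card : ℕ) : ℝ) = ((F1.card + F1.card : ℕ) : ℝ) := by rw [h4]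
    rw [Nat.cast_sub h5] at this
    push_cast at this
    exact this
  have : (A.card : ℝ) * (A.card - 1) / 2 = ((A.card * A.card : ℝ) - A.card) / 2 := by ring
  rw [this, h6]
  ring

/-- the good pairs of a block -/
def goodP (m t D G : ℕ) : Finset (ℕ × ℕ) :=
  ((((Ioc (m - t) m).filter (fun u => sfp u ≤ D)) ×ˢ
    ((Ioc (m - t) m).filter (fun u => sfp u ≤ D))).filter (fun z => z.1 < z.2)).filter
      (fun z => Nat.gcd (rtp z.1) (rtp z.2) ≤ G)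

theorem card_goodP (m t D T : ℕ) (htm : t ≤ m) (htT : t ≤ T) (hT2 : T < 2 * t) (hT : 24000 ≤ T)
    (hA : (t : ℝ) / 3000 ≤ (((Ioc (m - t) m).filter (fun u => sfp u ≤ D)).card : ℝ)) :
    (T : ℝ) ^ 2 / (2.88 * 10 ^ 8) ≤ ((goodP m t D 2000).card : ℝ) := by
  classical
  set A := (Ioc (m - t) m).filter (fun u => sfp u ≤ D) with hAdef
  set F := (A ×ˢ A).filter (fun z => z.1 < z.2) with hF
  have h1 : F.card ≤ (goodP m t D 2000).card + (badP m t 2000).card := by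
    have : F ⊆ goodP m t D 2000 ∪ badP m t 2000 := by
      intro z hz
      by_cases hg : Nat.gcd (rtp z.1) (rtp z.2) ≤ 2000
      · exact mem_union_left _ (mem_filter.2 ⟨hz, hg⟩)
      · apply mem_union_right
        simp only [hF, hAdef, mem_filter, mem_product] at hz
        simp only [badP, mem_filter, mem_product]
        exact ⟨⟨hz.1.1.1, hz.1.2.1⟩, hz.2, not_le.1 hg⟩
    exact (card_le_card this).trans (card_union_le _ _)
  have h2 := card_lt_pairs A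
  have h3 := card_badP m t 2000 T htm htT (by norm_num)
  have h4 : (T : ℝ) / 6000 ≤ A.card := by
    have : (T : ℝ) < 2 * t := by exact_mod_cast hT2
    linarith
  have h5 : (24000 : ℝ) ≤ T := by exact_mod_cast hT
  have h6 : (F.card : ℝ) ≤ (goodP m t D 2000).card + (badP m t 2000).card := by exact_mod_cast h1
  have h7 : (T : ℝ) ^ 2 / (9.6 * 10 ^ 7) ≤ (A.card : ℝ) * (A.card - 1) / 2 := by
    set x : ℝ := (A.card : ℝ)
    have hx4 : 4 ≤ x := by linarith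
    have : (3 / 8) * x ^ 2 ≤ x * (x - 1) / 2 := by nlinarith
    have h8 : ((T : ℝ) / 6000) ^ 2 ≤ x ^ 2 := by gcongr
    have h9 : (T : ℝ) ^ 2 / (9.6 * 10 ^ 7) = (3 / 8) * ((T : ℝ) / 6000) ^ 2 := by ring
    rw [h9]
    linarith
  rw [h2] at h7
  have h10 : (4 : ℝ) * (T : ℝ) ^ 2 / ((2000 : ℕ) : ℝ) ^ 3 = (T : ℝ) ^ 2 / (2 * 10 ^ 9) := by
    push_cast; ring
  rw [h10] at h3
  have h11 : (T : ℝ) ^ 2 / (2.88 * 10 ^ 8) ≤ (T : ℝ) ^ 2 / (9.6 * 10 ^ 7) - (T : ℝ) ^ 2 / (2 * 10 ^ 9) := by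
    have : 0 ≤ (T : ℝ) ^ 2 := by positivity
    have e1 : (T : ℝ) ^ 2 / (2.88 * 10 ^ 8) = (T : ℝ) ^ 2 * (1 / (2.88 * 10 ^ 8)) := by ring
    have e2 : (T : ℝ) ^ 2 / (9.6 * 10 ^ 7) = (T : ℝ) ^ 2 * (1 / (9.6 * 10 ^ 7)) := by ring
    have e3 : (T : ℝ) ^ 2 / (2 * 10 ^ 9) = (T : ℝ) ^ 2 * (1 / (2 * 10 ^ 9)) := by ring
    rw [e1, e2, e3, ← mul_sub]
    gcongr
    norm_num
  linarith

/-- TARGET: the number of `m` whose block `(m-t, m]` (`t ∈ (T/2, T]`) has at least `t/3000`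
elements with squarefree part at most `D`. -/
theorem count_dense :
    ∃ C : ℝ, 0 < C ∧ ∃ T₀ : ℕ, ∀ n T D : ℕ, T₀ ≤ T → 8 * T ≤ n → 1 ≤ D →
      ∀ M : Finset ℕ, (∀ m ∈ M, n < 2 * m ∧ m ≤ n ∧ ∃ t : ℕ, T < 2 * t ∧ t ≤ T ∧
        (t : ℝ) / 3000 ≤ (((Ioc (m - t) m).filter (fun u => sfp u ≤ D)).card : ℝ)) →
      (M.card : ℝ) ≤ C * ((D : ℝ) ^ 2 / T + D) := by
  classical
  refine ⟨2.88 * 10 ^ 8 * 2000 * 32, by norm_num, 24000, ?_⟩
  intro n T D hT hn hD M hM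
  choose! t ht1 ht2 ht3 using fun m hm => (hM m hm).2.2
  have hTR : (24000 : ℝ) ≤ T := by exact_mod_cast hT
  set P : Finset (ℕ × ℕ) := M.biUnion (fun m => goodP m (t m) D 2000) with hP
  have hmem : ∀ m ∈ M, ∀ z ∈ goodP m (t m) D 2000,
      m - t m < z.1 ∧ z.1 ≤ m ∧ m - t m < z.2 ∧ z.2 ≤ m ∧ sfp z.1 ≤ D ∧ sfp z.2 ≤ D ∧ z.1 < z.2 ∧
        Nat.gcd (rtp z.1) (rtp z.2) ≤ 2000 := by
    intro m _ z hz
    simp only [goodP, mem_filter, mem_product, mem_Ioc] at hz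
    obtain ⟨⟨⟨⟨⟨h1, h2⟩, h3⟩, ⟨h4, h5⟩, h6⟩, h7⟩, h8⟩ := hz
    exact ⟨h1, h2, h4, h5, h3, h6, h7, h8⟩
  -- the pairs
  have hPcard : (P.card : ℝ) ≤ 2000 * (2 * (D : ℝ) ^ 2 + 32 * T * D) := by
    set φ : ℕ × ℕ → (ℕ × ℕ) × (ℕ × ℕ) := fun z => ((sfp z.1, sfp z.2), (rtp z.1, rtp z.2)) with hφ
    have hq := quad_dyadic D T n 2000 hD (by omega) (by omega) (by norm_num) (P.image φ) (by
      intro w hw
      obtain ⟨z, hz, rfl⟩ := mem_image.1 hw
      obtain ⟨m, hm, hzm⟩ := mem_biUnion.1 hz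
      obtain ⟨h1, h2, h3, h4, h5, h6, h7, h8⟩ := hmem m hm z hzm
      obtain ⟨e1, e2, -⟩ := hM m hm
      have e3 := ht2 m hm
      have f1 := sfp_mul z.1 (by omega)
      have f2 := sfp_mul z.2 (by omega)
      simp only [hφ]
      rw [f1, f2]
      refine ⟨sfp_pos _, h5, sfp_pos _, h6, ?_, h7, ?_, ?_, h8⟩ <;> omega)
    rw [card_image_of_injOn] at hq
    · exact_mod_cast hq
    · intro z hz w hw hzw
      obtain ⟨m, hm, hzm⟩ := mem_biUnion.1 (mem_coe.1 hz)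
      obtain ⟨m', hm', hwm⟩ := mem_biUnion.1 (mem_coe.1 hw)
      have a1 := hmem m hm z hzm
      have a2 := hmem m' hm' w hwm
      simp only [hφ, Prod.mk.injEq] at hzw
      obtain ⟨⟨b1, b2⟩, b3, b4⟩ := hzw
      ext
      · rw [← sfp_mul z.1 (by omega), ← sfp_mul w.1 (by omega), b1, b3]
      · rw [← sfp_mul z.2 (by omega), ← sfp_mul w.2 (by omega), b2, b4]
  -- double counting
  have hdc : ∑ m ∈ M, (goodP m (t m) D 2000).card ≤ P.card * T := by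
    rw [← card_sigma]
    have : (P ×ˢ range T).card = P.card * T := by rw [card_product, card_range]
    rw [← this]
    apply Finset.card_le_card_of_injOn (fun x => (x.2, x.1 - x.2.2))
    · intro x hx
      simp only [coe_sigma, Set.mem_sigma_iff, mem_coe] at hx
      obtain ⟨hx1, hx2⟩ := hx
      have a1 := hmem x.1 hx1 x.2 hx2
      have a2 := ht2 x.1 hx1
      simp only [coe_product, Set.mem_prod, mem_coe, mem_range]
      refine ⟨mem_biUnion.2 ⟨x.1, hx1, hx2⟩, ?_⟩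
      omega
    · intro x hx y hy hxy
      simp only [coe_sigma, Set.mem_sigma_iff, mem_coe] at hx hy
      have a1 := hmem x.1 hx.1 x.2 hx.2
      have a2 := hmem y.1 hy.1 y.2 hy.2
      simp only [Prod.mk.injEq] at hxy
      obtain ⟨b1, b2⟩ := hxy
      obtain ⟨x1, x2⟩ := x
      obtain ⟨y1, y2⟩ := y
      simp only at a1 a2 b1 b2
      subst b1
      have : x1 = y1 := by omega
      subst this
      rfl
  have hlow : ∀ m ∈ M, (T : ℝ) ^ 2 / (2.88 * 10 ^ 8) ≤ ((goodP m (t m) D 2000).card : ℝ) := by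
    intro m hm
    obtain ⟨e1, e2, -⟩ := hM m hm
    have e3 := ht2 m hm
    exact card_goodP m (t m) D T (by omega) e3 (ht1 m hm) hT (ht3 m hm)
  have hsum : (M.card : ℝ) * ((T : ℝ) ^ 2 / (2.88 * 10 ^ 8)) ≤ P.card * T := by
    calc (M.card : ℝ) * ((T : ℝ) ^ 2 / (2.88 * 10 ^ 8)) = ∑ m ∈ M, (T : ℝ) ^ 2 / (2.88 * 10 ^ 8) := by
          rw [sum_const, nsmul_eq_mul]
      _ ≤ ∑ m ∈ M, ((goodP m (t m) D 2000).card : ℝ) := sum_le_sum hlow
      _ ≤ P.card * T := by exact_mod_cast hdc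
  have hT0 : (0 : ℝ) < T := by linarith
  have h1 : (M.card : ℝ) * ((T : ℝ) ^ 2 / (2.88 * 10 ^ 8)) ≤
      2000 * (2 * (D : ℝ) ^ 2 + 32 * T * D) * T :=
    hsum.trans (by gcongr)
  have h2 : (M.card : ℝ) ≤ 2.88 * 10 ^ 8 * 2000 * (2 * ((D : ℝ) ^ 2 / T) + 32 * D) := by
    have h3 : 2.88 * 10 ^ 8 * 2000 * (2 * ((D : ℝ) ^ 2 / T) + 32 * D) * ((T : ℝ) ^ 2 / (2.88 * 10 ^ 8)) =
      2000 * (2 * (D : ℝ) ^ 2 + 32 * T * D) * T := by
      field_simp
    rw [← h3] at h1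
    exact le_of_mul_le_mul_right h1 (by positivity)
  have h4 : (0 : ℝ) ≤ (D : ℝ) ^ 2 / T := by positivity
  nlinarith

end Pool.Agent.Helper153.Fac
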