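import Mathlib
import Pool.Agent.Helper153.FacJ

set_option autoImplicit false

namespace Pool.Agent.Helper153.Fac

open Finset

theorem count_dvd (a b d : ℕ) (hab : a ≤ b) (hd : 0 < d) :
    (((Ioc a b).filter (fun u => d ∣ u)).card : ℝ) ≤ ((b : ℝ) - a) / d + 1 := by
  have h1 : ((Ioc a b).filter (fun u => d ∣ u)).card ≤ (Ioc (a / d) (b / d)).card := by
    refine Finset.card_le_card_of_injOn (fun u => u / d) ?_ ?_
    · intro u hu
      simp only [Finset.coe_filter, Finset.mem_Ioc, Set.mem_ofPred_eq] at hu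
      obtain ⟨⟨h1, h2⟩, k, rfl⟩ := hu
      simp only [Finset.coe_Ioc, Set.mem_Ioc]
      rw [Nat.mul_div_cancel_left k hd]
      refine ⟨?_, ?_⟩
      · exact (Nat.div_lt_iff_lt_mul hd).2 (by rw [mul_comm]; exact h1)
      · exact (Nat.le_div_iff_mul_le hd).2 (by rw [mul_comm]; exact h2)
    · intro u hu v hv huv
      simp only [Finset.coe_filter, Finset.mem_Ioc, Set.mem_ofPred_eq] at hu hv
      obtain ⟨-, k, rfl⟩ := hu
      obtain ⟨-, l, rfl⟩ := hv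
      simp only [Nat.mul_div_cancel_left _ hd] at huv
      rw [huv]
  have h2 : (((Ioc (a / d) (b / d)).card : ℕ) : ℝ) = ((b / d : ℕ) : ℝ) - ((a / d : ℕ) : ℝ) := by
    rw [Nat.card_Ioc, Nat.cast_sub (Nat.div_le_div_right hab)]
  have hd' : (0 : ℝ) < d := by exact_mod_cast hd
  have h3 : ((b / d : ℕ) : ℝ) ≤ (b : ℝ) / d := Nat.cast_div_le
  have h4 : (a : ℝ) / d ≤ ((a / d : ℕ) : ℝ) + 1 := by
    rw [div_le_iff₀ hd']
    have := Nat.lt_div_mul_add (a := a) hd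
    have h5 : a ≤ (a / d + 1) * d := by
      rw [add_mul, one_mul]; exact this.le
    exact_mod_cast h5
  have h6 : ((((Ioc a b).filter (fun u => d ∣ u)).card : ℕ) : ℝ) ≤
      (((Ioc (a / d) (b / d)).card : ℕ) : ℝ) := by exact_mod_cast h1
  rw [h2] at h6
  rw [sub_div]
  linarith

/-- count of the elements of the block with root of the square part in a medium range -/
theorem count_medium (m t : ℕ) (htm : t ≤ m) (L : ℝ) (hL : 144000000 ≤ L) :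
    ((((Ioc (m - t) m).filter (fun u => L ^ 20 ≤ (rtp u : ℝ) ∧ (rtp u : ℝ) ≤ t / 12000)).card : ℕ) : ℝ)
      ≤ t / 12000 + t / 12000 := by
  classical
  have hL1 : (1 : ℝ) ≤ L := by linarith
  have hX0 : (144000000 : ℝ) ≤ L ^ 20 := hL.trans (le_self_pow₀ hL1 (by norm_num))
  set k := ⌈L ^ 20⌉₊ - 1 with hk
  set M := ⌊(t : ℝ) / 12000⌋₊ + 1 with hM
  have hceil : 1 ≤ ⌈L ^ 20⌉₊ := Nat.one_le_iff_ne_zero.2 (by
    rw [Nat.ne_zero_iff_zero_lt, Nat.ceil_pos]; linarith)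
  have hsub : (Ioc (m - t) m).filter (fun u => L ^ 20 ≤ (rtp u : ℝ) ∧ (rtp u : ℝ) ≤ t / 12000) ⊆
      (Ioo k M).biUnion (fun x => (Ioc (m - t) m).filter (fun u => x ^ 2 ∣ u)) := by
    intro u hu
    rw [Finset.mem_filter] at hu
    obtain ⟨hu1, hu2, hu3⟩ := hu
    rw [Finset.mem_biUnion]
    refine ⟨rtp u, ?_, ?_⟩
    · rw [Finset.mem_Ioo]
      constructor
      · have : ⌈L ^ 20⌉₊ ≤ rtp u := Nat.ceil_le.2 hu2
        omega
      · have : rtp u ≤ ⌊(t : ℝ) / 12000⌋₊ := Nat.le_floor hu3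
        omega
    · rw [Finset.mem_filter]
      refine ⟨hu1, ?_⟩
      have h0 : u ≠ 0 := by
        have := (Finset.mem_Ioc.1 hu1).1
        omega
      exact ⟨sfp u, by rw [mul_comm]; exact (sfp_mul u h0).symm⟩
  have h1 : ((((Ioc (m - t) m).filter (fun u => L ^ 20 ≤ (rtp u : ℝ) ∧
      (rtp u : ℝ) ≤ t / 12000)).card : ℕ) : ℝ) ≤
      ∑ x ∈ Ioo k M, (((Ioc (m - t) m).filter (fun u => x ^ 2 ∣ u)).card : ℝ) := by
    have := (Finset.card_le_card hsub).trans Finset.card_biUnion_le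
    exact_mod_cast this
  have h2 : ∀ x ∈ Ioo k M, (((Ioc (m - t) m).filter (fun u => x ^ 2 ∣ u)).card : ℝ) ≤
      t * ((x : ℝ) ^ 2)⁻¹ + 1 := by
    intro x hx
    have hx0 : 0 < x := by
      have := (Finset.mem_Ioo.1 hx).1
      omega
    have h3 := count_dvd (m - t) m (x ^ 2) (Nat.sub_le _ _) (by positivity)
    have h4 : ((m : ℝ) - ((m - t : ℕ) : ℝ)) = t := by
      rw [Nat.cast_sub htm]; ring
    rw [h4] at h3
    push_cast at h3
    rw [div_eq_mul_inv] at h3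
    exact h3
  have h3 : ∑ x ∈ Ioo k M, (t * ((x : ℝ) ^ 2)⁻¹ + 1) =
      t * ∑ x ∈ Ioo k M, ((x : ℝ) ^ 2)⁻¹ + ((Ioo k M).card : ℝ) := by
    rw [Finset.sum_add_distrib, ← Finset.mul_sum]
    simp
  have h4 : ∑ x ∈ Ioo k M, ((x : ℝ) ^ 2)⁻¹ ≤ 2 / ((k : ℝ) + 1) := sum_Ioo_inv_sq_le k M
  have h5 : (L ^ 20 : ℝ) ≤ (k : ℝ) + 1 := by
    have h6 : k + 1 = ⌈L ^ 20⌉₊ := by omega
    have h7 : ((k : ℝ) + 1) = ((⌈L ^ 20⌉₊ : ℕ) : ℝ) := by rw [← h6]; push_cast; ring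
    rw [h7]
    exact Nat.le_ceil _
  have h6 : (2 : ℝ) / ((k : ℝ) + 1) ≤ 1 / 12000 := by
    rw [div_le_div_iff₀ (by linarith) (by norm_num)]
    linarith
  have h7 : ((Ioo k M).card : ℝ) ≤ t / 12000 := by
    have h8 : (Ioo k M).card ≤ ⌊(t : ℝ) / 12000⌋₊ := by
      rw [Nat.card_Ioo]; omega
    have h9 : ((⌊(t : ℝ) / 12000⌋₊ : ℕ) : ℝ) ≤ (t : ℝ) / 12000 := Nat.floor_le (by positivity)
    exact le_trans (by exact_mod_cast h8) h9
  have ht0 : (0 : ℝ) ≤ t := Nat.cast_nonneg _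
  calc _ ≤ ∑ x ∈ Ioo k M, (((Ioc (m - t) m).filter (fun u => x ^ 2 ∣ u)).card : ℝ) := h1
    _ ≤ ∑ x ∈ Ioo k M, (t * ((x : ℝ) ^ 2)⁻¹ + 1) := Finset.sum_le_sum h2
    _ = t * ∑ x ∈ Ioo k M, ((x : ℝ) ^ 2)⁻¹ + ((Ioo k M).card : ℝ) := h3
    _ ≤ t * (1 / 12000) + t / 12000 := by
        gcongr
        exact h4.trans h6
    _ = t / 12000 + t / 12000 := by ring

/-- elements of the block with a given small squarefree part -/
theorem count_fixed (m t a : ℕ) (htm : t ≤ m) (L : ℝ) (hL : 144000000 ≤ L)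
    (hm : L ^ 100 / 4 ≤ ((m - t : ℕ) : ℝ)) (ha : (a : ℝ) ≤ L ^ 3) :
    ((((Ioc (m - t) m).filter (fun u => sfp u = a)).card : ℕ) : ℝ) ≤ t / L ^ 48 + 1 := by
  classical
  have hL1 : (1 : ℝ) ≤ L := by linarith
  have hL0 : (0 : ℝ) < L := by linarith
  set S := (Ioc (m - t) m).filter (fun u => sfp u = a) with hS
  have hmem : ∀ u ∈ S, m - t < u ∧ u ≤ m ∧ a * rtp u ^ 2 = u ∧ u ≠ 0 := by
    intro u hu
    rw [hS, Finset.mem_filter, Finset.mem_Ioc] at hu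
    have h0 : u ≠ 0 := by have := hu.1.1; omega
    refine ⟨hu.1.1, hu.1.2, ?_, h0⟩
    rw [← hu.2]
    exact sfp_mul u h0
  rcases S.eq_empty_or_nonempty with hE | hne
  · rw [hE]
    simp only [Finset.card_empty, Nat.cast_zero]
    positivity
  have ha1 : 1 ≤ a := by
    obtain ⟨u, hu⟩ := hne
    rw [hS, Finset.mem_filter] at hu
    rw [← hu.2]
    exact sfp_pos u
  -- lower bound for the roots
  have hlow : ∀ u ∈ S, L ^ 48 ≤ (rtp u : ℝ) := by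
    intro u hu
    obtain ⟨h1, h2, h3, h4⟩ := hmem u hu
    have h5 : ((m - t : ℕ) : ℝ) ≤ (u : ℝ) := by exact_mod_cast h1.le
    have h6 : (u : ℝ) = a * (rtp u : ℝ) ^ 2 := by exact_mod_cast h3.symm
    have h7 : L ^ 100 / 4 ≤ L ^ 3 * (rtp u : ℝ) ^ 2 := by
      calc L ^ 100 / 4 ≤ (u : ℝ) := hm.trans h5
        _ = a * (rtp u : ℝ) ^ 2 := h6
        _ ≤ L ^ 3 * (rtp u : ℝ) ^ 2 := by gcongr
    have h8 : L ^ 96 ≤ (rtp u : ℝ) ^ 2 := by
      have h9 : L ^ 3 * L ^ 96 ≤ L ^ 3 * (rtp u : ℝ) ^ 2 := by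
        refine le_trans ?_ h7
        have : L ^ 100 = L ^ 3 * L ^ 96 * L := by ring
        rw [this]
        have h10 : 0 ≤ L ^ 3 * L ^ 96 := by positivity
        nlinarith
      exact le_of_mul_le_mul_left h9 (by positivity)
    have h11 : (L ^ 48) ^ 2 ≤ (rtp u : ℝ) ^ 2 := by
      calc (L ^ 48) ^ 2 = L ^ 96 := by ring
        _ ≤ _ := h8
    exact le_of_sq_le_sq h11 (by positivity)
  obtain ⟨u0, hu0, hmin⟩ := S.exists_min_image rtp hne
  have hgap : ∀ u ∈ S, (rtp u : ℝ) - rtp u0 ≤ t / L ^ 48 := by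
    intro u hu
    obtain ⟨h1, h2, h3, h4⟩ := hmem u hu
    obtain ⟨h1', h2', h3', h4'⟩ := hmem u0 hu0
    have h5 : ((u : ℝ)) - u0 ≤ t := by
      have h6 : u ≤ u0 + t := by omega
      have h7 : (u : ℝ) ≤ u0 + t := by exact_mod_cast h6
      linarith
    have h6 : (u : ℝ) = a * (rtp u : ℝ) ^ 2 := by exact_mod_cast h3.symm
    have h7 : (u0 : ℝ) = a * (rtp u0 : ℝ) ^ 2 := by exact_mod_cast h3'.symm
    have h8 : (rtp u0 : ℝ) ≤ rtp u := by exact_mod_cast hmin u hu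
    have h9 := hlow u hu
    have ha1' : (1 : ℝ) ≤ a := by exact_mod_cast ha1
    rw [le_div_iff₀ (by positivity)]
    have h10 : (0 : ℝ) ≤ (rtp u : ℝ) - rtp u0 := by linarith
    have h11 : (0 : ℝ) ≤ (rtp u0 : ℝ) := Nat.cast_nonneg _
    calc ((rtp u : ℝ) - rtp u0) * L ^ 48 ≤ ((rtp u : ℝ) - rtp u0) * ((rtp u : ℝ) + rtp u0) := by
          gcongr
          linarith
      _ = 1 * ((rtp u : ℝ) ^ 2 - (rtp u0 : ℝ) ^ 2) := by ring
      _ ≤ a * ((rtp u : ℝ) ^ 2 - (rtp u0 : ℝ) ^ 2) := by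
          have h12 : 0 ≤ (rtp u : ℝ) ^ 2 - (rtp u0 : ℝ) ^ 2 := by nlinarith
          gcongr
      _ = u - u0 := by rw [h6, h7]; ring
      _ ≤ t := h5
  have hcard : S.card ≤ (Icc (rtp u0) (rtp u0 + ⌊(t : ℝ) / L ^ 48⌋₊)).card := by
    refine Finset.card_le_card_of_injOn rtp ?_ ?_
    · intro u hu
      rw [Finset.coe_Icc, Set.mem_Icc]
      refine ⟨hmin u hu, ?_⟩
      have h1 := hgap u hu
      have h2 : rtp u0 ≤ rtp u := hmin u hu
      have h3 : ((rtp u - rtp u0 : ℕ) : ℝ) ≤ t / L ^ 48 := by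
        rw [Nat.cast_sub h2]; exact h1
      have h4 := Nat.le_floor h3
      omega
    · intro u hu v hv huv
      obtain ⟨-, -, h3, -⟩ := hmem u hu
      obtain ⟨-, -, h3', -⟩ := hmem v hv
      rw [← h3, ← h3', huv]
  rw [Nat.card_Icc] at hcard
  have h1 : S.card ≤ ⌊(t : ℝ) / L ^ 48⌋₊ + 1 := by omega
  have h2 : ((⌊(t : ℝ) / L ^ 48⌋₊ : ℕ) : ℝ) ≤ t / L ^ 48 := Nat.floor_le (by positivity)
  calc ((S.card : ℕ) : ℝ) ≤ ((⌊(t : ℝ) / L ^ 48⌋₊ + 1 : ℕ) : ℝ) := by exact_mod_cast h1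
    _ = ((⌊(t : ℝ) / L ^ 48⌋₊ : ℕ) : ℝ) + 1 := by push_cast; ring
    _ ≤ t / L ^ 48 + 1 := by gcongr

/-- TARGET: a long block cannot have a positive proportion of elements with small
squarefree part. -/
theorem not_dense : ∃ n₀ : ℕ, ∀ n m t : ℕ, n₀ ≤ n → n < 2 * m → m ≤ n →
    (n : ℝ) ^ (49 / 100 : ℝ) ≤ t → (t : ℝ) ≤ (n : ℝ) ^ (55 / 100 : ℝ) →
    (t : ℝ) / 3000 ≤
      (((Ioc (m - t) m).filter (fun u => (sfp u : ℝ) ≤ t * (n : ℝ) ^ (1 / 1000 : ℝ))).card : ℝ) →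
    False := by
  classical
  obtain ⟨n0, hn0⟩ : ∃ n0 : ℕ, ∀ n : ℕ, n0 ≤ n → (144000000 : ℝ) ≤ (n : ℝ) ^ (1 / 100 : ℝ) := by
    have h := ((tendsto_rpow_atTop (by norm_num : (0 : ℝ) < 1 / 100)).comp
      tendsto_natCast_atTop_atTop).eventually_ge_atTop (144000000 : ℝ)
    obtain ⟨n0, h0⟩ := Filter.eventually_atTop.1 h
    exact ⟨n0, h0⟩
  refine ⟨max n0 1, fun n m t hn hnm hmn ht1 ht2 hA => ?_⟩
  have hL := hn0 n ((le_max_left _ _).trans hn)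
  have hn1 : 1 ≤ n := (le_max_right _ _).trans hn
  have hN0 : (0 : ℝ) ≤ n := Nat.cast_nonneg _
  have hN1 : (1 : ℝ) ≤ n := by exact_mod_cast hn1
  set L : ℝ := (n : ℝ) ^ (1 / 100 : ℝ) with hLdef
  have hpow : ∀ k : ℕ, L ^ k = (n : ℝ) ^ ((k : ℝ) / 100) := by
    intro k
    rw [hLdef, ← Real.rpow_natCast, ← Real.rpow_mul hN0]
    congr 1
    ring
  have hL1 : (1 : ℝ) ≤ L := by linarith
  have hL0 : (0 : ℝ) < L := by linarith
  have hN : (n : ℝ) = L ^ 100 := by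
    rw [hpow]
    norm_num
  have ht1' : L ^ 49 ≤ t := by
    rw [hpow]
    exact_mod_cast ht1
  have ht2' : (t : ℝ) ≤ L ^ 55 := by
    rw [hpow]
    exact_mod_cast ht2
  have hmR : L ^ 100 < 2 * (m : ℝ) := by
    rw [← hN]
    exact_mod_cast hnm
  have hmR' : (m : ℝ) ≤ L ^ 100 := by
    rw [← hN]
    exact_mod_cast hmn
  have h55 : L ^ 55 ≤ L ^ 100 / 8 := by
    have h1 : L ^ 100 = L ^ 55 * L ^ 44 * L := by ring
    have h2 : (1 : ℝ) ≤ L ^ 44 := one_le_pow₀ hL1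
    have h3 : 0 < L ^ 55 := by positivity
    rw [h1, le_div_iff₀ (by norm_num)]
    nlinarith [mul_le_mul h2 hL (by norm_num) (by positivity)]
  have htm : t ≤ m := by
    have h1 : (t : ℝ) ≤ m := by
      have h2 : 0 < L ^ 100 := by positivity
      linarith
    exact_mod_cast h1
  have hmt : L ^ 100 / 4 ≤ ((m - t : ℕ) : ℝ) := by
    rw [Nat.cast_sub htm]
    have h2 : 0 < L ^ 100 := by positivity
    linarith
  have hsmall : (n : ℝ) ^ (1 / 1000 : ℝ) ≤ L := by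
    rw [hLdef]
    exact Real.rpow_le_rpow_of_exponent_le hN1 (by norm_num)
  have ht0 : (0 : ℝ) < t := lt_of_lt_of_le (by positivity) ht1'
  set A := (Ioc (m - t) m).filter (fun u => (sfp u : ℝ) ≤ t * (n : ℝ) ^ (1 / 1000 : ℝ)) with hAdef
  have hsub : A ⊆ (Ioc (m - t) m).filter (fun u => L ^ 20 ≤ (rtp u : ℝ) ∧
      (rtp u : ℝ) ≤ t / 12000) ∪ (Icc 1 ⌊L ^ 3⌋₊).biUnion
        (fun a => (Ioc (m - t) m).filter (fun u => sfp u = a)) := by
    intro u hu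
    rw [hAdef, Finset.mem_filter] at hu
    obtain ⟨hu1, hu2⟩ := hu
    have hu1' := Finset.mem_Ioc.1 hu1
    have h0 : u ≠ 0 := by omega
    have h1 : (u : ℝ) = (sfp u : ℝ) * (rtp u : ℝ) ^ 2 := by exact_mod_cast (sfp_mul u h0).symm
    have h2 : L ^ 100 / 4 ≤ (u : ℝ) := hmt.trans (by exact_mod_cast hu1'.1.le)
    have h3 : (u : ℝ) ≤ L ^ 100 := le_trans (by exact_mod_cast hu1'.2) hmR'
    have h4 : (sfp u : ℝ) ≤ L ^ 56 := by
      calc (sfp u : ℝ) ≤ t * (n : ℝ) ^ (1 / 1000 : ℝ) := hu2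
        _ ≤ L ^ 55 * L := by gcongr
        _ = L ^ 56 := by ring
    have h5 : L ^ 40 ≤ (rtp u : ℝ) ^ 2 := by
      have h6 : L ^ 56 * L ^ 40 ≤ L ^ 56 * (rtp u : ℝ) ^ 2 := by
        calc L ^ 56 * L ^ 40 ≤ L ^ 100 / 4 := by
              have h7 : L ^ 100 = L ^ 56 * L ^ 40 * (L ^ 3 * L) := by ring
              have h8 : (1 : ℝ) ≤ L ^ 3 := one_le_pow₀ hL1
              have h9 : 0 ≤ L ^ 56 * L ^ 40 := by positivity
              rw [h7, le_div_iff₀ (by norm_num)]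
              have h10 : (4 : ℝ) ≤ L ^ 3 * L := by nlinarith
              gcongr
          _ ≤ (u : ℝ) := h2
          _ = (sfp u : ℝ) * (rtp u : ℝ) ^ 2 := h1
          _ ≤ L ^ 56 * (rtp u : ℝ) ^ 2 := by gcongr
      exact le_of_mul_le_mul_left h6 (by positivity)
    have h6 : L ^ 20 ≤ (rtp u : ℝ) := by
      have h7 : (L ^ 20) ^ 2 ≤ (rtp u : ℝ) ^ 2 := by
        calc (L ^ 20) ^ 2 = L ^ 40 := by ring
          _ ≤ _ := h5
      exact le_of_sq_le_sq h7 (by positivity)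
    rw [Finset.mem_union]
    by_cases h7 : (rtp u : ℝ) ≤ t / 12000
    · left
      rw [Finset.mem_filter]
      exact ⟨hu1, h6, h7⟩
    · right
      push Not at h7
      rw [Finset.mem_biUnion]
      refine ⟨sfp u, ?_, Finset.mem_filter.2 ⟨hu1, rfl⟩⟩
      rw [Finset.mem_Icc]
      refine ⟨sfp_pos u, Nat.le_floor ?_⟩
      have h8 : L ^ 49 / 12000 ≤ (rtp u : ℝ) := by
        refine le_trans ?_ h7.le
        gcongr
      have h9 : (L ^ 49 / 12000) ^ 2 ≤ (rtp u : ℝ) ^ 2 := by gcongr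
      have h10 : (sfp u : ℝ) * (L ^ 49 / 12000) ^ 2 ≤ L ^ 100 := by
        calc (sfp u : ℝ) * (L ^ 49 / 12000) ^ 2 ≤ (sfp u : ℝ) * (rtp u : ℝ) ^ 2 := by gcongr
          _ = (u : ℝ) := h1.symm
          _ ≤ L ^ 100 := h3
      have h11 : (sfp u : ℝ) * L ^ 98 ≤ 144000000 * L ^ 100 := by
        have h12 : (sfp u : ℝ) * (L ^ 49 / 12000) ^ 2 = (sfp u : ℝ) * L ^ 98 / 144000000 := by ring
        rw [h12, div_le_iff₀ (by norm_num)] at h10
        linarith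
      have h12 : (sfp u : ℝ) * L ^ 98 ≤ L ^ 3 * L ^ 98 := by
        calc (sfp u : ℝ) * L ^ 98 ≤ 144000000 * L ^ 100 := h11
          _ ≤ L * L ^ 100 := by gcongr
          _ = L ^ 3 * L ^ 98 := by ring
      exact le_of_mul_le_mul_right h12 (by positivity)
  have hc1 := count_medium m t htm L hL
  have hc2 : (((Icc 1 ⌊L ^ 3⌋₊).biUnion
      (fun a => (Ioc (m - t) m).filter (fun u => sfp u = a))).card : ℝ) ≤
      L ^ 3 * (t / L ^ 48 + 1) := by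
    have h1 : (((Icc 1 ⌊L ^ 3⌋₊).biUnion
      (fun a => (Ioc (m - t) m).filter (fun u => sfp u = a))).card : ℝ) ≤
        ∑ a ∈ Icc 1 ⌊L ^ 3⌋₊, (((Ioc (m - t) m).filter (fun u => sfp u = a)).card : ℝ) := by
      exact_mod_cast Finset.card_biUnion_le
    refine h1.trans ?_
    have h2 : ∀ a ∈ Icc 1 ⌊L ^ 3⌋₊, (((Ioc (m - t) m).filter (fun u => sfp u = a)).card : ℝ) ≤
        t / L ^ 48 + 1 := by
      intro a ha
      refine count_fixed m t a htm L hL hmt ?_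
      exact (Nat.le_floor_iff (by positivity)).1 (Finset.mem_Icc.1 ha).2
    refine (Finset.sum_le_sum h2).trans ?_
    rw [Finset.sum_const, Nat.card_Icc, nsmul_eq_mul, Nat.add_sub_cancel]
    gcongr
    exact Nat.floor_le (by positivity)
  have hc : (A.card : ℝ) ≤ (t / 12000 + t / 12000) + L ^ 3 * (t / L ^ 48 + 1) := by
    have h1 := (Finset.card_le_card hsub).trans (Finset.card_union_le _ _)
    have h2 : (A.card : ℝ) ≤ ((((Ioc (m - t) m).filter (fun u => L ^ 20 ≤ (rtp u : ℝ) ∧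
        (rtp u : ℝ) ≤ t / 12000)).card : ℕ) : ℝ) + (((Icc 1 ⌊L ^ 3⌋₊).biUnion
        (fun a => (Ioc (m - t) m).filter (fun u => sfp u = a))).card : ℝ) := by exact_mod_cast h1
    exact h2.trans (add_le_add hc1 hc2)
  have h3 : L ^ 3 * (t / L ^ 48 + 1) ≤ t / 24000 + t / 24000 := by
    have h4 : L ^ 3 * (t / L ^ 48) ≤ t / 24000 := by
      have h5 : L ^ 3 * (t / L ^ 48) = t / L ^ 45 := by
        field_simp
      rw [h5]
      have h6 : (24000 : ℝ) ≤ L ^ 45 := by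
        refine le_trans ?_ (le_self_pow₀ hL1 (by norm_num : (45 : ℕ) ≠ 0))
        linarith
      gcongr
    have h7 : L ^ 3 ≤ t / 24000 := by
      rw [le_div_iff₀ (by norm_num)]
      calc L ^ 3 * 24000 ≤ L ^ 3 * L := by gcongr; linarith
        _ = L ^ 4 := by ring
        _ ≤ L ^ 49 := pow_le_pow_right₀ hL1 (by norm_num)
        _ ≤ t := ht1'
    calc L ^ 3 * (t / L ^ 48 + 1) = L ^ 3 * (t / L ^ 48) + L ^ 3 := by ring
      _ ≤ _ := add_le_add h4 h7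
  have h4 : (t : ℝ) / 3000 ≤ (t / 12000 + t / 12000) + (t / 24000 + t / 24000) :=
    hA.trans (hc.trans (by linarith))
  linarith

end Pool.Agent.Helper153.Fac

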