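import Mathlib
import Pool.Agent.Helper153.FacJ
import Pool.Agent.Helper153.FacF

set_option autoImplicit false

namespace Pool.Agent.Helper153.Fac

open Finset Pool.Agent.Helper153.Siv

/-- TARGET 1 -/
theorem vonMangoldt_div_sum_ge (t : ℕ) (ht : 1 ≤ t) :
    Real.log t - 1 ≤ ∑ q ∈ Icc 1 t, (ArithmeticFunction.vonMangoldt q : ℝ) / q := by
  have ht0 : (0 : ℝ) < t := by exact_mod_cast ht
  have h1 : (t : ℝ) * Real.log t - t ≤ Real.log t.factorial := by
    have h := Stirling.le_log_factorial_stirling (n := t) (by omega)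
    have h2 : 0 ≤ Real.log t := Real.log_natCast_nonneg t
    have h3 : 0 ≤ Real.log (2 * Real.pi) := Real.log_nonneg (by linarith [Real.pi_gt_three])
    linarith
  have h2 : Real.log t.factorial = ∑ n ∈ Icc 1 t, Real.log n := by
    clear h1 ht0 ht
    induction t with
    | zero => simp
    | succ t ih =>
      rw [Nat.factorial_succ, Nat.cast_mul, Real.log_mul, ih, sum_Icc_succ_top (by omega)]
      · ring
      · exact_mod_cast (by omega : t + 1 ≠ 0)
      · exact_mod_cast Nat.factorial_ne_zero t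
  have h3 : ∑ n ∈ Icc 1 t, Real.log n =
      ∑ n ∈ Icc 1 t, ∑ d ∈ Icc 1 t, if d ∣ n then (ArithmeticFunction.vonMangoldt d : ℝ) else 0 := by
    apply sum_congr rfl
    intro n hn
    rw [mem_Icc] at hn
    rw [← ArithmeticFunction.vonMangoldt_sum, ← sum_filter]
    apply sum_congr _ (fun _ _ => rfl)
    ext d
    rw [Nat.mem_divisors, mem_filter, mem_Icc]
    constructor
    · rintro ⟨hd, h0⟩
      exact ⟨⟨Nat.pos_of_dvd_of_pos hd (by omega), (Nat.le_of_dvd (by omega) hd).trans hn.2⟩, hd⟩
    · rintro ⟨-, hd⟩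
      exact ⟨hd, by omega⟩
  have h4 : ∑ n ∈ Icc 1 t, ∑ d ∈ Icc 1 t,
      (if d ∣ n then (ArithmeticFunction.vonMangoldt d : ℝ) else 0) ≤
      ∑ d ∈ Icc 1 t, t * ((ArithmeticFunction.vonMangoldt d : ℝ) / d) := by
    rw [sum_comm]
    apply sum_le_sum
    intro d hd
    rw [mem_Icc] at hd
    rw [← sum_filter, sum_const, nsmul_eq_mul]
    have h5 : ((Icc 1 t).filter (fun n => d ∣ n)).card = t / d := by
      rw [← Nat.Ioc_filter_dvd_card_eq_div]
      congr 1
    rw [h5]
    have h6 : ((t / d : ℕ) : ℝ) ≤ t / d := Nat.cast_div_le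
    calc ((t / d : ℕ) : ℝ) * (ArithmeticFunction.vonMangoldt d : ℝ)
        ≤ (t / d) * (ArithmeticFunction.vonMangoldt d : ℝ) :=
          mul_le_mul_of_nonneg_right h6 ArithmeticFunction.vonMangoldt_nonneg
      _ = _ := by ring
  rw [← mul_sum] at h4
  have h7 : (t : ℝ) * (Real.log t - 1) ≤
      t * ∑ q ∈ Icc 1 t, (ArithmeticFunction.vonMangoldt q : ℝ) / q := by
    rw [mul_sub, mul_one]
    linarith
  exact le_of_mul_le_mul_left h7 ht0

theorem sum_log_dvd (x : ℕ) (hx : 1 ≤ x) (S : Finset ℕ) (hS : ∀ q ∈ S, q.Prime ∧ q ∣ x) :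
    ∑ q ∈ S, Real.log q ≤ Real.log x := by
  have h1 : ∑ q ∈ S, Real.log q ≤ ∑ q ∈ x.primeFactors, Real.log q := by
    apply sum_le_sum_of_subset_of_nonneg
    · intro q hq
      exact Nat.mem_primeFactors.2 ⟨(hS q hq).1, (hS q hq).2, by omega⟩
    · intro q _ _
      exact Real.log_natCast_nonneg q
  refine h1.trans ?_
  rw [← Real.log_prod, ← Nat.cast_prod]
  · apply Real.log_le_log
    · exact_mod_cast Nat.pos_of_dvd_of_pos (Nat.prod_primeFactors_dvd x) (by omega)
    · exact_mod_cast Nat.le_of_dvd (by omega) (Nat.prod_primeFactors_dvd x)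
  · intro q hq
    exact_mod_cast (Nat.prime_of_mem_primeFactors hq).ne_zero

/-- TARGET 2: larger sieve in the progression `j mod x²`. -/
theorem sieve_ap (n t c j x : ℕ) (E : ℝ) (hn : 2 ≤ n) (ht : 2 ≤ t) (htn : t ≤ n) (hcn : c ≤ n)
    (hx : 1 ≤ x) (hxn : x ^ 2 ≤ n) (hE : 0 ≤ E)
    (hΘ : Real.log n - Real.log t - 2 * Real.log x - E ≤ (∑ q ∈ Sq c t, Real.log q) / t)
    (M : Finset ℕ) (hM : ∀ m ∈ M, m ≤ n ∧ j ≤ m ∧ x ^ 2 ∣ m - j ∧ ∀ q ∈ Sq c t, m % q < t) :
    (M.card : ℝ) ≤ (Real.exp (E + Real.log n / t + 2) + 1) *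
      (1 + ((t : ℝ) + c) * Real.log n) := by
  have hx2 : 0 < x ^ 2 := by positivity
  have hx0 : (0 : ℝ) < x := by exact_mod_cast hx
  have ht0 : (0 : ℝ) < t := by exact_mod_cast (by omega : 0 < t)
  have hn0 : (0 : ℝ) < n := by exact_mod_cast (by omega : 0 < n)
  have hlogn : 0 ≤ Real.log n := Real.log_natCast_nonneg n
  have hmw : ∀ m ∈ M, j + x ^ 2 * ((m - j) / x ^ 2) = m := by
    intro m hm
    obtain ⟨-, h1, h2, -⟩ := hM m hm
    rw [Nat.mul_div_cancel' h2]
    omega
  have hinj : Set.InjOn (fun m => (m - j) / x ^ 2) (M : Set ℕ) := by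
    intro m hm m' hm' h
    simp only at h
    rw [← hmw m hm, ← hmw m' hm', h]
  set U := M.image (fun m => (m - j) / x ^ 2) with hU
  have hcard : U.card = M.card := card_image_of_injOn hinj
  set Q2 := (Sq c t).filter (fun q => ¬ q ∣ x) with hQ2
  set Q := Icc 1 t ∪ Q2 with hQ
  have hSq : ∀ q ∈ Sq c t, t < q ∧ q ≤ c ∧ q.Prime := by
    intro q hq
    unfold Sq at hq
    rw [mem_filter, mem_Ioc] at hq
    exact ⟨hq.1.1, hq.1.2, hq.2.1⟩
  have hdisj : Disjoint (Icc 1 t) Q2 := by
    rw [Finset.disjoint_left]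
    intro q h1 h2
    rw [mem_Icc] at h1
    have := hSq q (mem_filter.1 h2).1
    omega
  have hN1 : (1 : ℝ) ≤ (n : ℝ) / x ^ 2 := by
    rw [le_div_iff₀ (by positivity), one_mul]
    exact_mod_cast hxn
  have hlogx : Real.log x ≤ Real.log n := by
    apply Real.log_le_log hx0
    have : x ≤ n := le_trans (by nlinarith) hxn
    exact_mod_cast this
  have hlogN : Real.log ((n : ℝ) / x ^ 2) = Real.log n - 2 * Real.log x := by
    rw [Real.log_div hn0.ne' (by positivity), Real.log_pow]
    norm_num
  have key := larger_sieve' U ((n : ℝ) / x ^ 2) (E + Real.log n / t + 1) hN1 (by positivity) ?_ Q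
    (fun q => if q ≤ t then q else t) ?_ ?_
  · have hsumQ : ∑ q ∈ Q, (ArithmeticFunction.vonMangoldt q : ℝ) ≤ ((t : ℝ) + c) * Real.log n := by
      have h1 : ∑ q ∈ Q, (ArithmeticFunction.vonMangoldt q : ℝ) ≤ ∑ q ∈ Q, Real.log n := by
        apply sum_le_sum
        intro q hq
        refine ArithmeticFunction.vonMangoldt_le_log.trans ?_
        rw [hQ, mem_union, mem_Icc] at hq
        have hq' : 1 ≤ q ∧ q ≤ n := by
          rcases hq with h | h
          · exact ⟨h.1, h.2.trans htn⟩
          · have := hSq q (mem_filter.1 h).1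
            exact ⟨by omega, this.2.1.trans hcn⟩
        apply Real.log_le_log
        · exact_mod_cast hq'.1
        · exact_mod_cast hq'.2
      refine h1.trans ?_
      rw [sum_const, nsmul_eq_mul]
      apply mul_le_mul_of_nonneg_right _ hlogn
      have h2 : Q.card ≤ t + c := by
        refine (card_union_le _ _).trans ?_
        have h3 : Q2.card ≤ c := by
          calc Q2.card ≤ (Icc 1 c).card := by
                apply card_le_card
                intro q hq
                have := hSq q (mem_filter.1 hq).1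
                rw [mem_Icc]
                omega
            _ = c := by simp
        have h4 : (Icc 1 t).card = t := by simp
        omega
      exact_mod_cast h2
    rw [hcard] at key
    refine key.trans ?_
    have e : E + Real.log n / t + 1 + 1 = E + Real.log n / t + 2 := by ring
    rw [e]
    apply mul_le_mul_of_nonneg_left _ (by positivity)
    linarith
  · intro u hu
    obtain ⟨m, hm, rfl⟩ := mem_image.1 hu
    have h1 : (m - j) / x ^ 2 ≤ n / x ^ 2 := by
      apply Nat.div_le_div_right
      have := (hM m hm).1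
      omega
    calc (((m - j) / x ^ 2 : ℕ) : ℝ) ≤ ((n / x ^ 2 : ℕ) : ℝ) := by exact_mod_cast h1
      _ ≤ (n : ℝ) / ((x ^ 2 : ℕ) : ℝ) := Nat.cast_div_le
      _ = (n : ℝ) / x ^ 2 := by push_cast; rfl
  · intro q hq
    rw [hQ, mem_union, mem_Icc] at hq
    rcases hq with h | h
    · refine ⟨h.1, ?_⟩
      simp only [h.2, if_true]
      calc (U.image (fun u => u % q)).card ≤ (range q).card := by
            apply card_le_card
            intro r hr
            obtain ⟨u, -, rfl⟩ := mem_image.1 hr
            exact mem_range.2 (Nat.mod_lt _ h.1)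
        _ = q := card_range q
    · obtain ⟨h1, h2⟩ := mem_filter.1 h
      obtain ⟨h3, h4, h5⟩ := hSq q h1
      refine ⟨h5.pos, ?_⟩
      simp only [not_le.2 h3, if_false]
      have hcop : Nat.Coprime q (x ^ 2) := by
        apply Nat.Coprime.pow_right
        exact (Nat.Prime.coprime_iff_not_dvd h5).2 h2
      calc (U.image (fun u => u % q)).card
          = ((U.image (fun u => u % q)).image (fun r => (j + x ^ 2 * r) % q)).card := by
            refine (card_image_of_injOn ?_).symm
            intro r hr r' hr' he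
            simp only [coe_image, Set.mem_image, mem_coe] at hr hr'
            obtain ⟨u, -, rfl⟩ := hr
            obtain ⟨u', -, rfl⟩ := hr'
            simp only at he
            have h6 : j + x ^ 2 * (u % q) ≡ j + x ^ 2 * (u' % q) [MOD q] := he
            have h7 := Nat.ModEq.add_left_cancel' j h6
            have h8 : u % q ≡ u' % q [MOD q] := Nat.ModEq.cancel_left_of_coprime hcop h7
            have h9 : (u % q) % q = (u' % q) % q := h8
            rwa [Nat.mod_mod, Nat.mod_mod] at h9
        _ ≤ (range t).card := by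
            apply card_le_card
            intro r hr
            obtain ⟨r', hr', rfl⟩ := mem_image.1 hr
            obtain ⟨u, hu, rfl⟩ := mem_image.1 hr'
            obtain ⟨m, hm, rfl⟩ := mem_image.1 hu
            rw [mem_range]
            have h10 : (j + x ^ 2 * ((m - j) / x ^ 2 % q)) % q = m % q := by
              conv_rhs => rw [← hmw m hm]
              rw [Nat.add_mod, Nat.mul_mod, Nat.mod_mod, ← Nat.mul_mod, ← Nat.add_mod]
            rw [h10]
            exact (hM m hm).2.2.2 q h1
        _ = t := card_range t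
  · rw [hlogN, hQ, sum_union hdisj]
    have s1 : ∑ q ∈ Icc 1 t, (ArithmeticFunction.vonMangoldt q : ℝ) /
        ((if q ≤ t then q else t : ℕ) : ℝ) =
        ∑ q ∈ Icc 1 t, (ArithmeticFunction.vonMangoldt q : ℝ) / q := by
      apply sum_congr rfl
      intro q hq
      rw [mem_Icc] at hq
      rw [if_pos hq.2]
    have s2 : ∑ q ∈ Q2, (ArithmeticFunction.vonMangoldt q : ℝ) /
        ((if q ≤ t then q else t : ℕ) : ℝ) = (∑ q ∈ Q2, Real.log q) / t := by
      rw [sum_div]
      apply sum_congr rfl
      intro q hq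
      obtain ⟨h3, h4, h5⟩ := hSq q (mem_filter.1 hq).1
      rw [if_neg (not_le.2 h3), ArithmeticFunction.vonMangoldt_apply_prime h5]
    have s3 : ∑ q ∈ Sq c t, Real.log q =
        ∑ q ∈ (Sq c t).filter (fun q => q ∣ x), Real.log q + ∑ q ∈ Q2, Real.log q :=
      (sum_filter_add_sum_filter_not _ _ _).symm
    have s4 : ∑ q ∈ (Sq c t).filter (fun q => q ∣ x), Real.log q ≤ Real.log x := by
      apply sum_log_dvd x hx
      intro q hq
      rw [mem_filter] at hq
      exact ⟨(hSq q hq.1).2.2, hq.2⟩
    have s5 := vonMangoldt_div_sum_ge t (by omega)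
    rw [s1, s2]
    have s6 : (∑ q ∈ Sq c t, Real.log q) / t ≤
        Real.log n / t + (∑ q ∈ Q2, Real.log q) / t := by
      rw [← add_div]
      apply div_le_div_of_nonneg_right _ ht0.le
      linarith
    linarith

end Pool.Agent.Helper153.Fac
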