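import Mathlib
import Pool.Agent.Helper153.FacN
import Pool.Agent.Helper153.FacH

set_option autoImplicit false

namespace Pool.Agent.Helper153.Fac

open Finset Pool.Agent.Helper153.Pr

theorem countA (n T D : ℕ) (hT : 1 ≤ T) (hn : 1 ≤ n) (M : Finset ℕ)
    (h : ∀ m ∈ M, m ≤ n ∧ ∃ u v : ℕ, m < u + T ∧ 1 ≤ u ∧ u < v ∧ v ≤ m ∧ sfp u ≤ D ∧ sfp v ≤ D) :
    M.card ≤ D * (D * ((20 * T ^ 2 * (Nat.log 2 n + 1)) * T)) := by
  classical
  let S : ℕ → ℕ → Finset (ℕ × ℕ) := fun a b => ((Icc 1 n) ×ˢ (Icc 1 n)).filter (fun z =>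
    a * z.1 ^ 2 < b * z.2 ^ 2 ∧ b * z.2 ^ 2 ≤ a * z.1 ^ 2 + T ∧ b * z.2 ^ 2 ≤ n)
  have hsub : M ⊆ (Icc 1 D).biUnion fun a => (Icc 1 D).biUnion fun b =>
      (S a b).biUnion fun z => Ico (b * z.2 ^ 2) (b * z.2 ^ 2 + T) := by
    intro m hm
    obtain ⟨hmn, u, v, h1, h2, h3, h4, h5, h6⟩ := h m hm
    have hu := sfp_mul u (by omega)
    have hv := sfp_mul v (by omega)
    have hsu := sfp_pos u
    have hsv := sfp_pos v
    have hru := rtp_pos u
    have hrv := rtp_pos v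
    have hru' : rtp u ≤ u := by
      calc rtp u ≤ rtp u ^ 2 := Nat.le_self_pow (by norm_num) _
        _ ≤ sfp u * rtp u ^ 2 := Nat.le_mul_of_pos_left _ hsu
        _ = u := hu
    have hrv' : rtp v ≤ v := by
      calc rtp v ≤ rtp v ^ 2 := Nat.le_self_pow (by norm_num) _
        _ ≤ sfp v * rtp v ^ 2 := Nat.le_mul_of_pos_left _ hsv
        _ = v := hv
    simp only [mem_biUnion, mem_Icc, mem_Ico]
    refine ⟨sfp u, ⟨hsu, h5⟩, sfp v, ⟨hsv, h6⟩, (rtp u, rtp v), ?_, ?_⟩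
    · simp only [S, mem_filter, mem_product, mem_Icc]
      refine ⟨⟨⟨hru, by omega⟩, ⟨hrv, by omega⟩⟩, ?_, ?_, ?_⟩
      · rw [hu, hv]; exact h3
      · rw [hu, hv]; omega
      · rw [hv]; omega
    · simp only
      rw [hv]
      omega
  refine (card_le_card hsub).trans ?_
  refine (card_biUnion_le_card_mul _ _ (D * ((20 * T ^ 2 * (Nat.log 2 n + 1)) * T)) ?_).trans (by
    rw [Nat.card_Icc, Nat.add_sub_cancel])
  intro a ha
  refine (card_biUnion_le_card_mul _ _ ((20 * T ^ 2 * (Nat.log 2 n + 1)) * T) ?_).trans (by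
    rw [Nat.card_Icc, Nat.add_sub_cancel])
  intro b hb
  rw [mem_Icc] at ha hb
  refine (card_biUnion_le_card_mul _ _ T ?_).trans ?_
  · intro z _
    rw [Nat.card_Ico]
    omega
  · refine Nat.mul_le_mul_right _ ?_
    refine pair_fixed a b T n ha.1 hb.1 hT hn (S a b) ?_
    intro z hz
    simp only [S, mem_filter, mem_product, mem_Icc] at hz
    exact ⟨hz.1.1.1, hz.1.2.1, hz.2.1, hz.2.2.1, hz.2.2.2⟩

theorem log_decomp (u : ℕ) (hu : 1 ≤ u) :
    Real.log u = Real.log (sfp u) + 2 * Real.log (rtp u) := by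
  have h1 := sfp_mul u (by omega)
  have h2 : (0 : ℝ) < sfp u := by exact_mod_cast sfp_pos u
  have h3 : (0 : ℝ) < rtp u := by exact_mod_cast rtp_pos u
  have h4 : (u : ℝ) = sfp u * (rtp u : ℝ) ^ 2 := by exact_mod_cast h1.symm
  conv_lhs => rw [h4]
  rw [Real.log_mul h2.ne' (by positivity), Real.log_pow]
  norm_num

theorem exists_data (n m t c T D : ℕ) (C : ℝ) (hmass : ∀ m t c : ℕ, Bad m t c →
      ∑ u ∈ Ioc (m - t) m, Real.log (sfp u) ≤
        t * Real.log t + C * t + ∑ q ∈ Sq c t, Real.log q)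
    (hL : 0 ≤ Real.log n)
    (hnm : n < 2 * m) (hmn : m ≤ n) (ht : 100 ≤ t) (htT : t ≤ T) (hT : 4 * T ≤ n)
    (hbad : Bad m t c)
    (hno : ∀ u v : ℕ, m < u + T → 1 ≤ u → u < v → v ≤ m → sfp u ≤ D → ¬ sfp v ≤ D) :
    ∃ j x : ℕ, j < T ∧ 1 ≤ x ∧ x ^ 2 * (D + 1) ≤ n ∧ j ≤ m ∧ x ^ 2 ∣ m - j ∧
      Real.log n - Real.log t - 2 * Real.log x - (2 + C + Real.log n / 100) ≤
        (∑ q ∈ Sq c t, Real.log q) / t := by
  classical
  have htm : t ≤ m := by have := hbad.2.1; omega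
  set blk := Ioc (m - t) m with hblk
  have hcard : blk.card = t := by rw [hblk, Nat.card_Ioc]; omega
  set Big := blk.filter (fun u => D < sfp u) with hBig
  set Sm := blk.filter (fun u => ¬ D < sfp u) with hSm
  have hmem : ∀ u ∈ blk, m - t < u ∧ u ≤ m := by
    intro u hu; rw [hblk, mem_Ioc] at hu; exact hu
  have hSm1 : Sm.card ≤ 1 := by
    rw [Finset.card_le_one]
    intro u hu v hv
    rw [hSm, mem_filter] at hu hv
    have h1 := hmem u hu.1
    have h2 := hmem v hv.1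
    by_contra hne
    rcases lt_or_gt_of_ne hne with h | h
    · exact hno u v (by omega) (by omega) h (by omega) (by omega) (by omega)
    · exact hno v u (by omega) (by omega) h (by omega) (by omega) (by omega)
  have hsplit : Big.card + Sm.card = t := by
    rw [← hcard]
    exact Finset.card_filter_add_card_filter_not (s := blk) (fun u => D < sfp u)
  have hne : Big.Nonempty := by
    rw [← Finset.card_pos]; omega
  obtain ⟨w, hw, hmax⟩ := Finset.exists_max_image Big rtp hne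
  have hw' := hw
  rw [hBig, mem_filter] at hw'
  obtain ⟨hwb, hwD⟩ := hw'
  have hwm := hmem w hwb
  have hwmul := sfp_mul w (by omega)
  have hx1 := rtp_pos w
  refine ⟨m - w, rtp w, by omega, hx1, ?_, by omega, ?_, ?_⟩
  · calc rtp w ^ 2 * (D + 1) ≤ rtp w ^ 2 * sfp w := Nat.mul_le_mul_left _ hwD
      _ = w := by rw [mul_comm]; exact hwmul
      _ ≤ n := by omega
  · have : m - (m - w) = w := by omega
    rw [this]
    exact ⟨sfp w, by rw [mul_comm]; exact hwmul.symm⟩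
  · have ht0 : (0 : ℝ) < t := by exact_mod_cast (by omega : 0 < t)
    have hm := hmass m t c hbad
    rw [le_div_iff₀ ht0]
    have hn0 : (0 : ℝ) < n := by exact_mod_cast (by omega : 0 < n)
    have hlx : 0 ≤ Real.log (rtp w) := Real.log_natCast_nonneg _
    have h1 : ∑ u ∈ blk, Real.log u = ∑ u ∈ blk, Real.log (sfp u) +
        ∑ u ∈ blk, 2 * Real.log (rtp u) := by
      rw [← Finset.sum_add_distrib]
      refine Finset.sum_congr rfl fun u hu => ?_
      exact log_decomp u (by have := hmem u hu; omega)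
    have h2 : (t : ℝ) * (Real.log n - 2) ≤ ∑ u ∈ blk, Real.log u := by
      have h3 : ∑ u ∈ blk, (Real.log n - 2) ≤ ∑ u ∈ blk, Real.log u := by
        refine Finset.sum_le_sum fun u hu => ?_
        have h4 := hmem u hu
        have h5 : (n : ℝ) ≤ 4 * u := by exact_mod_cast (by omega : n ≤ 4 * u)
        have hu0 : (0 : ℝ) < u := by exact_mod_cast (by omega : 0 < u)
        have h6 := Real.log_le_log hn0 h5
        rw [Real.log_mul (by norm_num) hu0.ne'] at h6
        have h7 : Real.log 4 ≤ 2 := by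
          have : Real.log 4 = 2 * Real.log 2 := by
            rw [show (4 : ℝ) = 2 ^ 2 by norm_num, Real.log_pow]; norm_num
          rw [this]
          have := Real.log_two_lt_d9
          linarith
        linarith
      rw [Finset.sum_const, hcard, nsmul_eq_mul] at h3
      exact h3
    have h3 : ∑ u ∈ blk, 2 * Real.log (rtp u) ≤ Real.log n + t * (2 * Real.log (rtp w)) := by
      rw [← Finset.sum_filter_add_sum_filter_not blk (fun u => D < sfp u)]
      have h4 : ∑ u ∈ Big, 2 * Real.log (rtp u) ≤ t * (2 * Real.log (rtp w)) := by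
        calc ∑ u ∈ Big, 2 * Real.log (rtp u) ≤ ∑ u ∈ Big, 2 * Real.log (rtp w) := by
              refine Finset.sum_le_sum fun u hu => ?_
              have h5 : Real.log (rtp u) ≤ Real.log (rtp w) :=
                Real.log_le_log (by exact_mod_cast rtp_pos u) (by exact_mod_cast hmax u hu)
              linarith
          _ = Big.card * (2 * Real.log (rtp w)) := by rw [Finset.sum_const, nsmul_eq_mul]
          _ ≤ t * (2 * Real.log (rtp w)) := by
              refine mul_le_mul_of_nonneg_right ?_ (by linarith)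
              exact_mod_cast (by omega : Big.card ≤ t)
      have h6 : ∑ u ∈ Sm, 2 * Real.log (rtp u) ≤ Real.log n := by
        calc ∑ u ∈ Sm, 2 * Real.log (rtp u) ≤ ∑ u ∈ Sm, Real.log n := by
              refine Finset.sum_le_sum fun u hu => ?_
              rw [hSm, mem_filter] at hu
              have h7 := hmem u hu.1
              have h8 := log_decomp u (by omega)
              have h9 : 0 ≤ Real.log (sfp u) := Real.log_natCast_nonneg _
              have h10 : Real.log u ≤ Real.log n :=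
                Real.log_le_log (by exact_mod_cast (by omega : 0 < u))
                  (by exact_mod_cast (by omega : u ≤ n))
              linarith
          _ = Sm.card * Real.log n := by rw [Finset.sum_const, nsmul_eq_mul]
          _ ≤ 1 * Real.log n := by
              refine mul_le_mul_of_nonneg_right ?_ hL
              exact_mod_cast hSm1
          _ = Real.log n := one_mul _
      linarith
    have h4 : Real.log n ≤ Real.log n / 100 * t := by
      have : (100 : ℝ) ≤ t := by exact_mod_cast ht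
      nlinarith
    nlinarith


theorem countB (n T D X Cc : ℕ) (C Bd : ℝ) (hC : 0 < C) (hn : 2 ≤ n) (hTn : T ≤ n)
    (hL : 0 ≤ Real.log n)
    (hX : ∀ x : ℕ, x ^ 2 * (D + 1) ≤ n → x ≤ X)
    (hBd0 : 0 ≤ Bd)
    (hBd : ∀ t c : ℕ, 100 ≤ t → t ≤ T → c ≤ Cc →
      (Real.exp ((2 + C + Real.log n / 100) + Real.log n / t + 2) + 1) *
        (1 + ((t : ℝ) + c) * Real.log n) ≤ Bd)
    (M : Finset ℕ) (hM : ∀ m ∈ M, m ≤ n ∧ ∃ t c j x : ℕ, 100 ≤ t ∧ t ≤ T ∧ c ≤ Cc ∧ Bad m t c ∧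
      j < T ∧ 1 ≤ x ∧ x ^ 2 * (D + 1) ≤ n ∧ j ≤ m ∧ x ^ 2 ∣ m - j ∧
      Real.log n - Real.log t - 2 * Real.log x - (2 + C + Real.log n / 100) ≤
        (∑ q ∈ Sq c t, Real.log q) / t) :
    (M.card : ℝ) ≤ T * ((Cc + 1) * (T * (X * Bd))) := by
  classical
  let P : ℕ → ℕ → ℕ → ℕ → Finset ℕ := fun t c j x => M.filter (fun m => 100 ≤ t ∧ t ≤ T ∧ c ≤ Cc ∧
    Bad m t c ∧ j < T ∧ 1 ≤ x ∧ x ^ 2 * (D + 1) ≤ n ∧ j ≤ m ∧ x ^ 2 ∣ m - j ∧
      Real.log n - Real.log t - 2 * Real.log x - (2 + C + Real.log n / 100) ≤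
        (∑ q ∈ Sq c t, Real.log q) / t)
  have hP : ∀ t c j x, (P t c j x).card ≤ ⌊Bd⌋₊ := by
    intro t c j x
    rcases (P t c j x).eq_empty_or_nonempty with h | ⟨m₀, hm₀⟩
    · rw [h]; simp
    · refine Nat.le_floor ?_
      simp only [P, mem_filter] at hm₀
      obtain ⟨hm0, h1, h2, h3, h4, h5, h6, h7, h8, h9, h10⟩ := hm₀
      have hmn := (hM m₀ hm0).1
      refine le_trans ?_ (hBd t c h1 h2 h3)
      refine sieve_ap n t c j x (2 + C + Real.log n / 100) hn (by omega) (by omega)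
        (by have := h4.2.1; omega) h6 ?_ (by positivity) h10 (P t c j x) ?_
      · calc x ^ 2 ≤ x ^ 2 * (D + 1) := Nat.le_mul_of_pos_right _ (by omega)
          _ ≤ n := h7
      · intro m hm
        simp only [P, mem_filter] at hm
        obtain ⟨hmM, -, -, -, k4, -, -, -, k8, k9, -⟩ := hm
        exact ⟨(hM m hmM).1, k8, k9, fun q hq => bad_hit m t c q k4 hq⟩
  have hsub : M ⊆ (Icc 1 T).biUnion fun t => (range (Cc + 1)).biUnion fun c =>
      (range T).biUnion fun j => (Icc 1 X).biUnion fun x => P t c j x := by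
    intro m hm
    obtain ⟨hmn, t, c, j, x, h1, h2, h3, h4, h5, h6, h7, h8, h9, h10⟩ := hM m hm
    simp only [mem_biUnion, mem_Icc, mem_range]
    refine ⟨t, ⟨by omega, h2⟩, c, by omega, j, h5, x, ⟨h6, hX x h7⟩, ?_⟩
    simp only [P, mem_filter]
    exact ⟨hm, h1, h2, h3, h4, h5, h6, h7, h8, h9, h10⟩
  have hcard : M.card ≤ T * ((Cc + 1) * (T * (X * ⌊Bd⌋₊))) := by
    refine (card_le_card hsub).trans ?_
    refine (card_biUnion_le_card_mul _ _ ((Cc + 1) * (T * (X * ⌊Bd⌋₊))) fun t _ => ?_).trans (by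
      rw [Nat.card_Icc, Nat.add_sub_cancel])
    refine (card_biUnion_le_card_mul _ _ (T * (X * ⌊Bd⌋₊)) fun c _ => ?_).trans (by
      rw [card_range])
    refine (card_biUnion_le_card_mul _ _ (X * ⌊Bd⌋₊) fun j _ => ?_).trans (by
      rw [card_range])
    exact (card_biUnion_le_card_mul _ _ (⌊Bd⌋₊) fun x _ => hP t c j x).trans (by
      rw [Nat.card_Icc, Nat.add_sub_cancel])
  have h1 : (M.card : ℝ) ≤ T * (((Cc : ℝ) + 1) * (T * (X * (⌊Bd⌋₊ : ℝ)))) := by exact_mod_cast hcard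
  refine h1.trans ?_
  have h2 := Nat.floor_le hBd0
  gcongr

theorem mulA {D T l Y80 Y4 z : ℝ} (hD0 : 0 ≤ D) (hT0 : 0 ≤ T) (hl0 : 0 ≤ l) (hD : D ≤ Y80)
    (hT : T ≤ Y4) (hl : l ≤ z) :
    D * (D * ((20 * T ^ 2 * l) * T)) ≤ Y80 * (Y80 * ((20 * Y4 ^ 2 * z) * Y4)) := by
  have h1 : 0 ≤ Y80 := hD0.trans hD
  have h2 : 0 ≤ Y4 := hT0.trans hT
  have h3 : 0 ≤ z := hl0.trans hl
  gcongr

theorem mulB {T c X B Y4 Y6 Y160 : ℝ} (hT0 : 0 ≤ T) (hc0 : 0 ≤ c) (hX0 : 0 ≤ X) (hB0 : 0 ≤ B)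
    (hT : T ≤ Y4) (hc : c ≤ Y6) (hX : X ≤ Y160) :
    T * (c * (T * (X * B))) ≤ Y4 * (Y6 * (Y4 * (Y160 * B))) := by
  have h1 : 0 ≤ Y4 := hT0.trans hT
  have h2 : 0 ≤ Y6 := hc0.trans hc
  have h3 : 0 ≤ Y160 := hX0.trans hX
  gcongr

theorem ev_y (K : ℝ) : ∃ n₀ : ℕ, ∀ n : ℕ, n₀ ≤ n →
    Real.log n ≤ Real.exp (Real.log n / 400) ∧ 1 ≤ Real.log n ∧
      K ≤ Real.exp (Real.log n / 400) := by
  have hlog : Filter.Tendsto (fun n : ℕ => Real.log (n : ℝ)) Filter.atTop Filter.atTop :=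
    Real.tendsto_log_atTop.comp tendsto_natCast_atTop_atTop
  have h1 : ∀ᶠ x : ℝ in Filter.atTop, x ≤ Real.exp (x / 400) := by
    have h3 : Filter.Tendsto (fun x : ℝ => Real.exp x / x ^ 1) Filter.atTop Filter.atTop :=
      Real.tendsto_exp_div_pow_atTop 1
    have h4 : Filter.Tendsto (fun x : ℝ => x / 400) Filter.atTop Filter.atTop :=
      Filter.tendsto_id.atTop_div_const (by norm_num)
    have h5 := (h3.comp h4).eventually_ge_atTop 400
    filter_upwards [h5, Filter.eventually_gt_atTop 0] with x hx hx0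
    simp only [Function.comp_apply, pow_one] at hx
    rw [le_div_iff₀ (by positivity)] at hx
    linarith
  have h2 : ∀ᶠ x : ℝ in Filter.atTop, K ≤ Real.exp (x / 400) := by
    have h4 : Filter.Tendsto (fun x : ℝ => Real.exp (x / 400)) Filter.atTop Filter.atTop :=
      Real.tendsto_exp_atTop.comp (Filter.tendsto_id.atTop_div_const (by norm_num))
    exact h4.eventually_ge_atTop K
  have h3 := (hlog.eventually h1).and ((hlog.eventually_ge_atTop 1).and (hlog.eventually h2))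
  obtain ⟨n₀, hn₀⟩ := Filter.eventually_atTop.1 h3
  exact ⟨n₀, fun n hn => hn₀ n hn⟩

/-- TARGET: block length between `100` and `n^(1/100)`. -/
theorem regimeB
    (hM : ∃ C : ℝ, ∀ N : ℕ, 1 ≤ N →
      |∑ p ∈ (Finset.Icc 1 N).filter Nat.Prime, Real.log p / p - Real.log N| ≤ C)
    (hc : ∃ C : ℝ, 0 < C ∧ ∀ m t c : ℕ, Bad m t c → (c : ℝ) ≤ C * t * Real.log m) :
    ∃ n₀ : ℕ, ∀ n : ℕ, n₀ ≤ n → ∀ M : Finset ℕ,
      (∀ m ∈ M, n < 2 * m ∧ m ≤ n ∧ ∃ t c : ℕ, 100 ≤ t ∧ (t : ℝ) ≤ (n : ℝ) ^ (1 / 100 : ℝ) ∧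
        Bad m t c) →
      (M.card : ℝ) ≤ (n : ℝ) ^ (49 / 100 : ℝ) := by
  classical
  obtain ⟨C, hC, hmass⟩ := mass hM
  obtain ⟨C1, hC1, hcb⟩ := hc
  obtain ⟨n₀, hn₀⟩ := ev_y (1000 + C1 + Real.exp (4 + C))
  refine ⟨max n₀ 2, fun n hn M hMM => ?_⟩
  obtain ⟨hLy, hL1, hKy⟩ := hn₀ n ((le_max_left _ _).trans hn)
  have hn2 : 2 ≤ n := (le_max_right _ _).trans hn
  set L := Real.log n with hL
  set y := Real.exp (L / 400) with hy
  have hy0 : 0 < y := Real.exp_pos _
  have hexp0 : 0 < Real.exp (4 + C) := Real.exp_pos _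
  have hy1000 : 1000 ≤ y := by linarith
  have hy1 : 1 ≤ y := by linarith
  have hn0 : (0 : ℝ) < n := by exact_mod_cast (by omega : 0 < n)
  have hyk : ∀ k : ℕ, y ^ k = Real.exp (k * (L / 400)) := fun k => (Real.exp_nat_mul _ _).symm
  have hny : (n : ℝ) = y ^ 400 := by
    rw [hyk, hL]
    push_cast
    rw [mul_div_cancel₀ _ (by norm_num), Real.exp_log hn0]
  have hn100 : (n : ℝ) ^ (1 / 100 : ℝ) = y ^ 4 := by
    rw [hyk, Real.rpow_def_of_pos hn0]
    congr 1
    push_cast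
    ring
  have hn49 : (n : ℝ) ^ (49 / 100 : ℝ) = y ^ 196 := by
    rw [hyk, Real.rpow_def_of_pos hn0]
    congr 1
    push_cast
    ring
  have hpow : ∀ {a b : ℕ}, a ≤ b → y ^ a ≤ y ^ b := fun h => pow_le_pow_right₀ hy1 h
  set T := ⌊y ^ 4⌋₊ with hT
  set D := ⌊y ^ 80⌋₊ with hD
  set X := ⌊y ^ 160⌋₊ with hX
  have hTy : (T : ℝ) ≤ y ^ 4 := Nat.floor_le (by positivity)
  have hDy : (D : ℝ) ≤ y ^ 80 := Nat.floor_le (by positivity)
  have hXy : (X : ℝ) ≤ y ^ 160 := Nat.floor_le (by positivity)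
  have hDy' : y ^ 80 < (D : ℝ) + 1 := Nat.lt_floor_add_one _
  have hT1 : 1 ≤ T := Nat.le_floor (by simpa using one_le_pow₀ hy1)
  have hTn : 4 * T ≤ n := by
    have : (4 * T : ℝ) ≤ n := by
      calc (4 * T : ℝ) ≤ y * y ^ 4 := by nlinarith [pow_pos hy0 4]
        _ = y ^ 5 := by ring
        _ ≤ y ^ 400 := pow_le_pow_right₀ hy1 (by norm_num)
        _ = n := hny.symm
    exact_mod_cast this
  set Cc := ⌊C1 * T * L⌋₊ with hCc
  have hCcy : (Cc : ℝ) ≤ C1 * T * L := Nat.floor_le (by positivity)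
  -- splitting
  let PA : ℕ → Prop := fun m => ∃ u v : ℕ, m < u + T ∧ 1 ≤ u ∧ u < v ∧ v ≤ m ∧ sfp u ≤ D ∧ sfp v ≤ D
  have hsplit : (M.card : ℝ) = (M.filter PA).card + (M.filter (fun m => ¬ PA m)).card := by
    exact_mod_cast (Finset.card_filter_add_card_filter_not (s := M) PA).symm
  have hA : ((M.filter PA).card : ℝ) ≤ y ^ 175 := by
    have h1 := countA n T D hT1 (by omega) (M.filter PA) (fun m hm => by
      rw [mem_filter] at hm
      exact ⟨(hMM m hm.1).2.1, hm.2⟩)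
    have h2 : ((M.filter PA).card : ℝ) ≤
        D * (D * ((20 * (T : ℝ) ^ 2 * ((Nat.log 2 n : ℝ) + 1)) * T)) := by exact_mod_cast h1
    have h3 : (Nat.log 2 n : ℝ) + 1 ≤ 3 * y := by
      have h4 : (2 : ℝ) ^ (Nat.log 2 n) ≤ n := by exact_mod_cast Nat.pow_log_le_self 2 (by omega)
      have h5 := Real.log_le_log (by positivity) h4
      rw [Real.log_pow] at h5
      have h6 := Real.log_two_gt_d9
      have h7 : (0 : ℝ) ≤ Nat.log 2 n := Nat.cast_nonneg _
      nlinarith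
    calc ((M.filter PA).card : ℝ) ≤
        D * (D * ((20 * (T : ℝ) ^ 2 * ((Nat.log 2 n : ℝ) + 1)) * T)) := h2
      _ ≤ y ^ 80 * (y ^ 80 * ((20 * (y ^ 4) ^ 2 * (3 * y)) * y ^ 4)) :=
          mulA (Nat.cast_nonneg _) (Nat.cast_nonneg _) (by positivity) hDy hTy h3
      _ = 60 * y ^ 173 := by ring
      _ ≤ y * y ^ 173 := by gcongr; linarith
      _ = y ^ 174 := by ring
      _ ≤ y ^ 175 := hpow (by norm_num)
  have hB : ((M.filter (fun m => ¬ PA m)).card : ℝ) ≤ y ^ 191 := by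
    have hXX : ∀ x : ℕ, x ^ 2 * (D + 1) ≤ n → x ≤ X := by
      intro x hx
      refine Nat.le_floor ?_
      have h1 : (x : ℝ) ^ 2 * ((D : ℝ) + 1) ≤ n := by exact_mod_cast hx
      have h2 : (x : ℝ) ^ 2 * y ^ 80 ≤ y ^ 400 := by
        rw [← hny]
        refine le_trans ?_ h1
        gcongr
      have h3 : y ^ 400 = (y ^ 160) ^ 2 * y ^ 80 := by ring
      rw [h3] at h2
      have h4 := le_of_mul_le_mul_right h2 (by positivity)
      exact le_of_sq_le_sq h4 (by positivity)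
    have hCc6 : (Cc : ℝ) + 1 ≤ y ^ 6 := by
      calc (Cc : ℝ) + 1 ≤ C1 * y ^ 4 * y + 1 * y ^ 4 * y := by
            have h5 : C1 * T * L ≤ C1 * y ^ 4 * y := by gcongr
            have h6 : 1 ≤ 1 * y ^ 4 * y := by
              have := one_le_pow₀ hy1 (n := 5)
              calc 1 ≤ y ^ 5 := this
                _ = 1 * y ^ 4 * y := by ring
            linarith
        _ = (C1 + 1) * y ^ 5 := by ring
        _ ≤ y * y ^ 5 := by gcongr; linarith
        _ = y ^ 6 := by ring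
    have hBdy : (Real.exp (4 + C + L / 50) + 1) * (1 + ((T : ℝ) + Cc) * L) ≤ y ^ 17 := by
      have h1 : Real.exp (4 + C + L / 50) + 1 ≤ y ^ 9 := by
        have h2 : Real.exp (4 + C + L / 50) = Real.exp (4 + C) * y ^ 8 := by
          rw [hyk, ← Real.exp_add]
          congr 1
          push_cast
          ring
        rw [h2]
        calc Real.exp (4 + C) * y ^ 8 + 1 ≤ Real.exp (4 + C) * y ^ 8 + 1 * y ^ 8 := by
              have := one_le_pow₀ hy1 (n := 8)
              linarith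
          _ = (Real.exp (4 + C) + 1) * y ^ 8 := by ring
          _ ≤ y * y ^ 8 := by gcongr; linarith
          _ = y ^ 9 := by ring
      have h3 : 1 + ((T : ℝ) + Cc) * L ≤ y ^ 8 := by
        calc 1 + ((T : ℝ) + Cc) * L ≤ 1 + (y ^ 4 + y ^ 6) * y := by
              have : (Cc : ℝ) ≤ y ^ 6 := by linarith
              gcongr
          _ ≤ y ^ 7 + (y ^ 6 + y ^ 6) * y := by
              have h4 := one_le_pow₀ hy1 (n := 7)
              have h5 : y ^ 4 ≤ y ^ 6 := hpow (by norm_num)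
              gcongr
          _ = 3 * y ^ 7 := by ring
          _ ≤ y * y ^ 7 := by gcongr; linarith
          _ = y ^ 8 := by ring
      calc _ ≤ y ^ 9 * y ^ 8 := by
            refine mul_le_mul h1 h3 (by positivity) (by positivity)
        _ = y ^ 17 := by ring
    have h1 := countB n T D X Cc C (y ^ 17) hC hn2 (by omega) (by linarith) hXX (by positivity)
      (fun t c ht1 ht2 hc2 => by
        refine le_trans ?_ hBdy
        have ht0 : (100 : ℝ) ≤ t := by exact_mod_cast ht1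
        have ht3 : (t : ℝ) ≤ T := by exact_mod_cast ht2
        have hc3 : (c : ℝ) ≤ Cc := by exact_mod_cast hc2
        have h2 : L / t ≤ L / 100 := by
          apply div_le_div_of_nonneg_left (by linarith) (by norm_num) ht0
        have h3 : (2 + C + L / 100) + L / t + 2 ≤ 4 + C + L / 50 := by linarith
        have hL0 : 0 ≤ L := by linarith
        gcongr)
      (M.filter (fun m => ¬ PA m)) (fun m hm => by
        rw [mem_filter] at hm
        obtain ⟨hmM, hno⟩ := hm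
        obtain ⟨k1, k2, t, c, ht1, ht2, hbad⟩ := hMM m hmM
        rw [hn100] at ht2
        have htT : t ≤ T := Nat.le_floor ht2
        refine ⟨k2, ?_⟩
        obtain ⟨j, x, e1, e2, e3, e4, e5, e6⟩ := exists_data n m t c T D C hmass (by linarith)
          k1 k2 ht1 htT hTn hbad (fun u v p1 p2 p3 p4 p5 p6 =>
            hno ⟨u, v, p1, p2, p3, p4, p5, p6⟩)
        refine ⟨t, c, j, x, ht1, htT, ?_, hbad, e1, e2, e3, e4, e5, e6⟩
        refine Nat.le_floor ?_
        have h2 := hcb m t c hbad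
        have hm0 : (0 : ℝ) < m := by exact_mod_cast (by omega : 0 < m)
        have h3 : Real.log m ≤ L := Real.log_le_log hm0 (by exact_mod_cast k2)
        have h4 : (t : ℝ) ≤ T := by exact_mod_cast htT
        refine h2.trans ?_
        have h5 : 0 ≤ Real.log m := Real.log_natCast_nonneg m
        gcongr)
    calc ((M.filter (fun m => ¬ PA m)).card : ℝ) ≤ T * ((Cc + 1) * (T * (X * y ^ 17))) := h1
      _ ≤ y ^ 4 * (y ^ 6 * (y ^ 4 * (y ^ 160 * y ^ 17))) :=
          mulB (Nat.cast_nonneg _) (by positivity) (Nat.cast_nonneg _) (by positivity) hTy hCc6 hXy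
      _ = y ^ 191 := by ring
  rw [hsplit, hn49]
  calc ((M.filter PA).card : ℝ) + (M.filter (fun m => ¬ PA m)).card ≤ y ^ 175 + y ^ 191 :=
        add_le_add hA hB
    _ ≤ y ^ 191 + y ^ 191 := add_le_add (hpow (by norm_num)) le_rfl
    _ = 2 * y ^ 191 := by ring
    _ ≤ y * y ^ 191 := by gcongr; linarith
    _ = y ^ 192 := by ring
    _ ≤ y ^ 196 := hpow (by norm_num)

end Pool.Agent.Helper153.Fac
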