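import Mathlib
import Pool.Agent.Helper153.FacJ
import Pool.Agent.Helper153.FacH

set_option autoImplicit false

namespace Pool.Agent.Helper153.Fac

open Finset Pool.Agent.Helper153.Pr

/-- counting part -/
theorem count_part (n Y : ℕ) (hn : 1 ≤ n) (M : Finset ℕ)
    (hM : ∀ m ∈ M, 2 ≤ m ∧ m ≤ n ∧ (∀ p : ℕ, p.Prime → p ∣ sfp (m - 1) → p ≤ Y) ∧
      (∀ p : ℕ, p.Prime → p ∣ sfp m → p ≤ Y)) :
    M.card ≤ (2 ^ ((Finset.Icc 1 Y).filter Nat.Prime).card *
      2 ^ ((Finset.Icc 1 Y).filter Nat.Prime).card) * (20 * (Nat.log 2 n + 1)) := by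
  set PY := (Finset.Icc 1 Y).filter Nat.Prime with hPY
  have hmap : ∀ m ∈ M, ((sfp (m - 1)).primeFactors, (sfp m).primeFactors) ∈
      PY.powerset ×ˢ PY.powerset := by
    intro m hm
    obtain ⟨h1, h2, h3, h4⟩ := hM m hm
    rw [Finset.mem_product, Finset.mem_powerset, Finset.mem_powerset]
    constructor
    · intro p hp
      have hpp := Nat.prime_of_mem_primeFactors hp
      rw [hPY, Finset.mem_filter, Finset.mem_Icc]
      exact ⟨⟨hpp.one_lt.le, h3 p hpp (Nat.dvd_of_mem_primeFactors hp)⟩, hpp⟩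
    · intro p hp
      have hpp := Nat.prime_of_mem_primeFactors hp
      rw [hPY, Finset.mem_filter, Finset.mem_Icc]
      exact ⟨⟨hpp.one_lt.le, h4 p hpp (Nat.dvd_of_mem_primeFactors hp)⟩, hpp⟩
  have hcard : (PY.powerset ×ˢ PY.powerset).card = 2 ^ PY.card * 2 ^ PY.card := by
    rw [Finset.card_product, Finset.card_powerset]
  rw [← hcard, mul_comm]
  apply Finset.card_le_mul_card_image_of_maps_to hmap
  rintro ⟨A, B⟩ _
  -- fibre
  set Fb := M.filter (fun m => ((sfp (m - 1)).primeFactors, (sfp m).primeFactors) = (A, B)) with hFb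
  have hprod : ∀ k, ∏ p ∈ (sfp k).primeFactors, p = sfp k :=
    fun k => Nat.prod_primeFactors_of_squarefree (sfp_sqf k)
  have hfib : ∀ m ∈ Fb, 2 ≤ m ∧ m ≤ n ∧ sfp (m - 1) = ∏ p ∈ A, p ∧ sfp m = ∏ p ∈ B, p := by
    intro m hm
    rw [hFb, Finset.mem_filter] at hm
    obtain ⟨hm1, hm2⟩ := hm
    obtain ⟨h1, h2, -, -⟩ := hM m hm1
    rw [Prod.mk.injEq] at hm2
    refine ⟨h1, h2, ?_, ?_⟩
    · rw [← hm2.1, hprod]
    · rw [← hm2.2, hprod]
  rcases Fb.eq_empty_or_nonempty with hem | ⟨m0, hm0⟩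
  · rw [hem]; simp
  have ha : 1 ≤ ∏ p ∈ A, p := by rw [← (hfib m0 hm0).2.2.1]; exact sfp_pos _
  have hb : 1 ≤ ∏ p ∈ B, p := by rw [← (hfib m0 hm0).2.2.2]; exact sfp_pos _
  have hS := pair_fixed (∏ p ∈ A, p) (∏ p ∈ B, p) 1 n ha hb le_rfl hn
    (Fb.image (fun m => (rtp (m - 1), rtp m))) (by
      intro z hz
      rw [Finset.mem_image] at hz
      obtain ⟨m, hm, rfl⟩ := hz
      obtain ⟨h1, h2, h3, h4⟩ := hfib m hm
      have e1 := sfp_mul (m - 1) (by omega)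
      have e2 := sfp_mul m (by omega)
      rw [h3] at e1
      rw [h4] at e2
      refine ⟨rtp_pos _, rtp_pos _, ?_, ?_, ?_⟩
      · show _ * rtp (m - 1) ^ 2 < _ * rtp m ^ 2
        rw [e1, e2]; omega
      · show _ * rtp m ^ 2 ≤ _ * rtp (m - 1) ^ 2 + 1
        rw [e1, e2]; omega
      · show _ * rtp m ^ 2 ≤ n
        rw [e2]; exact h2)
  have hinj : (Fb.image (fun m => (rtp (m - 1), rtp m))).card = Fb.card := by
    apply Finset.card_image_of_injOn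
    intro m hm m' hm' h
    have hm := Finset.mem_coe.1 hm
    have hm' := Finset.mem_coe.1 hm'
    have h' : rtp m = rtp m' := congrArg Prod.snd h
    have e2 := sfp_mul m (by have := (hfib m hm).1; omega)
    have e2' := sfp_mul m' (by have := (hfib m' hm').1; omega)
    rw [(hfib m hm).2.2.2] at e2
    rw [(hfib m' hm').2.2.2] at e2'
    rw [← e2, ← e2', h']
  rw [hinj] at hS
  simpa using hS

/-- analytic part -/
theorem analytic_part (C₀ C₁ : ℝ) (hC₀ : 1 ≤ C₀) (hC₁ : 0 < C₁)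
    (hpi : ∀ z : ℕ, 2 ≤ z → (((Finset.Icc 1 z).filter Nat.Prime).card : ℝ) * Real.log z ≤ C₀ * z) :
    ∃ n₀ : ℕ, ∀ n : ℕ, n₀ ≤ n → 3 ≤ n ∧
      (((2 ^ ((Finset.Icc 1 (max 100 ⌈100 * C₁ * Real.log n⌉₊)).filter Nat.Prime).card *
      2 ^ ((Finset.Icc 1 (max 100 ⌈100 * C₁ * Real.log n⌉₊)).filter Nat.Prime).card) *
        (20 * (Nat.log 2 n + 1)) : ℕ) : ℝ) ≤ (n : ℝ) ^ (1 / 4 : ℝ) := by
  have hL : Filter.Tendsto (fun n : ℕ => Real.log (n : ℝ)) Filter.atTop Filter.atTop :=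
    Real.tendsto_log_atTop.comp tendsto_natCast_atTop_atTop
  have hLL : Filter.Tendsto (fun n : ℕ => Real.log (100 * C₁ * Real.log (n : ℝ)))
      Filter.atTop Filter.atTop :=
    Real.tendsto_log_atTop.comp (hL.const_mul_atTop (by positivity))
  set C₂ : ℝ := 101 + 100 * C₁ with hC₂
  have E2 := hLL.eventually_ge_atTop (8 * Real.log 4 * C₀ * C₂)
  have E1 := hL.eventually_ge_atTop 1
  have E3 : ∀ᶠ n : ℕ in Filter.atTop, Real.log (n : ℝ) ≤ 1 / 60 * (n : ℝ) ^ (1 / 8 : ℝ) := by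
    have h := (isLittleO_log_rpow_atTop (show (0 : ℝ) < 1 / 8 by norm_num)).def
      (show (0 : ℝ) < 1 / 60 by norm_num)
    have h' := tendsto_natCast_atTop_atTop.eventually h
    filter_upwards [h', E1] with n h1 h2
    have h3 : (0 : ℝ) ≤ (n : ℝ) ^ (1 / 8 : ℝ) := by positivity
    rw [Real.norm_of_nonneg (by linarith), Real.norm_of_nonneg h3] at h1
    exact h1
  obtain ⟨n₀, hn₀⟩ := Filter.eventually_atTop.1 (E1.and (E2.and (E3.and
    (Filter.eventually_ge_atTop 3))))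
  refine ⟨n₀, fun n hn => ?_⟩
  obtain ⟨e1, e2, e3, e4⟩ := hn₀ n hn
  refine ⟨e4, ?_⟩
  set L := Real.log (n : ℝ) with hLdef
  set Y := max 100 ⌈100 * C₁ * L⌉₊ with hY
  set π := ((Finset.Icc 1 Y).filter Nat.Prime).card with hπ
  have hnpos : (0 : ℝ) < n := by exact_mod_cast (by omega : 0 < n)
  have hlog4 : 0 < Real.log 4 := Real.log_pos (by norm_num)
  have hYge : (100 * C₁ * L) ≤ Y := by
    have h1 := Nat.le_ceil (100 * C₁ * L)
    have h2 : ((⌈100 * C₁ * L⌉₊ : ℕ) : ℝ) ≤ (Y : ℝ) := by exact_mod_cast le_max_right _ _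
    linarith
  have hYle : (Y : ℝ) ≤ C₂ * L := by
    have h1 : ((⌈100 * C₁ * L⌉₊ : ℕ) : ℝ) < 100 * C₁ * L + 1 := Nat.ceil_lt_add_one (by positivity)
    have h2 : (Y : ℝ) ≤ 100 + ((⌈100 * C₁ * L⌉₊ : ℕ) : ℝ) := by
      have : Y ≤ 100 + ⌈100 * C₁ * L⌉₊ := by rw [hY]; omega
      exact_mod_cast this
    rw [hC₂]
    nlinarith
  have hY100 : 100 ≤ Y := le_max_left _ _
  have hlogY : 8 * Real.log 4 * C₀ * C₂ ≤ Real.log Y :=
    e2.trans (Real.log_le_log (by positivity) hYge)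
  have hC₂pos : 0 < C₂ := by rw [hC₂]; positivity
  have hC₀pos : 0 < C₀ := by linarith
  have hlogYpos : 0 < Real.log Y := by
    have : 0 < 8 * Real.log 4 * C₀ * C₂ := by positivity
    linarith
  have hp1 := hpi Y (by omega)
  have hπ8 : (π : ℝ) * Real.log 4 ≤ L / 8 := by
    have h1 : (π : ℝ) * (8 * Real.log 4 * C₀ * C₂) ≤ C₀ * (C₂ * L) := by
      calc (π : ℝ) * (8 * Real.log 4 * C₀ * C₂) ≤ (π : ℝ) * Real.log Y := by gcongr
        _ ≤ C₀ * Y := hp1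
        _ ≤ C₀ * (C₂ * L) := by gcongr
    have h2 : (C₀ * C₂) * ((π : ℝ) * Real.log 4 * 8) ≤ (C₀ * C₂) * L := by linarith
    have h3 := le_of_mul_le_mul_left h2 (by positivity)
    linarith
  have h4 : (2 ^ π * 2 ^ π : ℝ) ≤ (n : ℝ) ^ (1 / 8 : ℝ) := by
    have e5 : (2 ^ π * 2 ^ π : ℝ) = Real.exp ((π : ℝ) * Real.log 4) := by
      rw [← mul_pow, show (2 : ℝ) * 2 = 4 by norm_num, mul_comm (π : ℝ), Real.exp_mul,
        Real.exp_log (by norm_num), Real.rpow_natCast]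
    rw [e5, Real.rpow_def_of_pos hnpos]
    apply Real.exp_le_exp.2
    rw [← hLdef]
    linarith
  have h5 : ((20 * (Nat.log 2 n + 1) : ℕ) : ℝ) ≤ (n : ℝ) ^ (1 / 8 : ℝ) := by
    have h6 : (Nat.log 2 n : ℝ) ≤ L / Real.log 2 := by
      have := Real.natLog_le_logb n 2
      rw [Real.logb] at this
      exact_mod_cast this
    have h7 : L / Real.log 2 ≤ 2 * L := by
      have h8 : (1 : ℝ) / 2 ≤ Real.log 2 := by
        have := Real.log_two_gt_d9; linarith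
      rw [div_le_iff₀ (by linarith)]
      nlinarith
    push_cast
    nlinarith
  have h9 : (n : ℝ) ^ (1 / 4 : ℝ) = (n : ℝ) ^ (1 / 8 : ℝ) * (n : ℝ) ^ (1 / 8 : ℝ) := by
    rw [← Real.rpow_add hnpos]; norm_num
  rw [h9, Nat.cast_mul]
  have h10 : (((2 ^ π * 2 ^ π : ℕ)) : ℝ) ≤ (n : ℝ) ^ (1 / 8 : ℝ) := by
    push_cast
    exact h4
  exact mul_le_mul h10 h5 (by positivity) (by positivity)

/-- TARGET: bounded block length. -/
theorem regimeA
    (hpi : ∃ C : ℝ, 1 ≤ C ∧ ∀ z : ℕ, 2 ≤ z →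
      (((Finset.Icc 1 z).filter Nat.Prime).card : ℝ) * Real.log z ≤ C * z)
    (hc : ∃ C : ℝ, 0 < C ∧ ∀ m t c : ℕ, Bad m t c → (c : ℝ) ≤ C * t * Real.log m) :
    ∃ n₀ : ℕ, ∀ n : ℕ, n₀ ≤ n → ∀ M : Finset ℕ,
      (∀ m ∈ M, n < 2 * m ∧ m ≤ n ∧ ∃ t c : ℕ, t < 100 ∧ Bad m t c) →
      (M.card : ℝ) ≤ (n : ℝ) ^ (1 / 4 : ℝ) := by
  obtain ⟨C₀, hC₀, hpi⟩ := hpi
  obtain ⟨C₁, hC₁, hc⟩ := hc
  obtain ⟨n₀, hn₀⟩ := analytic_part C₀ C₁ hC₀ hC₁ hpi
  refine ⟨n₀, fun n hn M hM => ?_⟩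
  obtain ⟨hn3, hbound⟩ := hn₀ n hn
  refine le_trans ?_ hbound
  have := count_part n (max 100 ⌈100 * C₁ * Real.log n⌉₊) (by omega) M (by
    intro m hm
    obtain ⟨h1, h2, t, c, ht, hbad⟩ := hM m hm
    obtain ⟨b1, b2, b3⟩ := id hbad
    have hm2 : 2 ≤ m := by omega
    have hcY : c ≤ ⌈100 * C₁ * Real.log n⌉₊ := by
      have h3 : (c : ℝ) ≤ 100 * C₁ * Real.log n := by
        refine (hc m t c hbad).trans ?_
        have h4 : Real.log m ≤ Real.log n := by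
          apply Real.log_le_log
          · exact_mod_cast (by omega : 0 < m)
          · exact_mod_cast h2
        have h5 : 0 ≤ Real.log m := Real.log_natCast_nonneg m
        have h6 : (t : ℝ) ≤ 100 := by exact_mod_cast ht.le
        calc C₁ * t * Real.log m ≤ C₁ * 100 * Real.log n := by gcongr
          _ = 100 * C₁ * Real.log n := by ring
      exact_mod_cast h3.trans (Nat.le_ceil _)
    have key : ∀ u ∈ Ioc (m - t) m, ∀ p : ℕ, p.Prime → p ∣ sfp u →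
        p ≤ max 100 ⌈100 * C₁ * Real.log n⌉₊ := by
      intro u hu p hp hpd
      rcases le_or_gt p t with h | h
      · exact le_max_of_le_left (by omega)
      · have := bad_large m t c u p hbad hu hp h hpd
        rw [Sq, Finset.mem_filter, Finset.mem_Ioc] at this
        exact le_max_of_le_right (this.1.2.trans hcY)
    refine ⟨hm2, h2, key (m - 1) ?_, key m ?_⟩
    · rw [Finset.mem_Ioc]; omega
    · rw [Finset.mem_Ioc]; omega)
  exact_mod_cast this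

end Pool.Agent.Helper153.Fac
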