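import Mathlib
import Pool.Agent.Helper153.FacK
import Pool.Agent.Helper153.FacL
import Pool.Agent.Helper153.FacM
import Pool.Agent.Helper153.FacE


set_option autoImplicit false

namespace Pool.Agent.Helper153.Fac

open Finset

theorem rpow_large (C e : ℝ) (he : 0 < e) : ∃ n₀ : ℕ, ∀ n : ℕ, n₀ ≤ n → C ≤ (n : ℝ) ^ e := by
  have h := (tendsto_rpow_atTop he).comp tendsto_natCast_atTop_atTop
  have h2 := h.eventually (Filter.eventually_ge_atTop C)
  obtain ⟨n₀, hn₀⟩ := Filter.eventually_atTop.1 h2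
  exact ⟨n₀, fun n hn => hn₀ n hn⟩

theorem log_small (C e : ℝ) (he : 0 < e) : ∃ n₀ : ℕ, ∀ n : ℕ, n₀ ≤ n →
    C * (Real.log n + 1) ≤ (n : ℝ) ^ e := by
  have he2 : 0 < e / 2 := by linarith
  obtain ⟨n₁, h1⟩ := rpow_large (|C| * (2 / e + 1)) (e / 2) he2
  refine ⟨max n₁ 1, fun n hn => ?_⟩
  have hn1 : 1 ≤ n := (le_max_right _ _).trans hn
  have hnr : (1 : ℝ) ≤ n := by exact_mod_cast hn1
  have h2 : Real.log n ≤ (n : ℝ) ^ (e / 2) / (e / 2) := Real.log_le_rpow_div (by positivity) he2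
  have h3 : 1 ≤ (n : ℝ) ^ (e / 2) := Real.one_le_rpow hnr he2.le
  have h4 := h1 n ((le_max_left _ _).trans hn)
  have h5 : (n : ℝ) ^ e = (n : ℝ) ^ (e / 2) * (n : ℝ) ^ (e / 2) := by
    rw [← Real.rpow_add (by linarith)]; congr 1; ring
  have h6 : 0 ≤ Real.log n := Real.log_nonneg hnr
  calc C * (Real.log n + 1) ≤ |C| * (Real.log n + 1) :=
        mul_le_mul_of_nonneg_right (le_abs_self C) (by linarith)
    _ ≤ |C| * ((n : ℝ) ^ (e / 2) / (e / 2) + (n : ℝ) ^ (e / 2)) := by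
        apply mul_le_mul_of_nonneg_left _ (abs_nonneg C); linarith
    _ = |C| * (2 / e + 1) * (n : ℝ) ^ (e / 2) := by field_simp
    _ ≤ (n : ℝ) ^ (e / 2) * (n : ℝ) ^ (e / 2) := mul_le_mul_of_nonneg_right h4 (by linarith)
    _ = (n : ℝ) ^ e := h5.symm

theorem regimeC
    (hM : ∃ C : ℝ, ∀ N : ℕ, 1 ≤ N →
      |∑ p ∈ (Finset.Icc 1 N).filter Nat.Prime, Real.log p / p - Real.log N| ≤ C)
    (hpi : ∃ x₀ : ℕ, ∀ c : ℕ, x₀ ≤ c →
      (c : ℝ) / 4 ≤ (((Ioc (c / 2) c).filter Nat.Prime).card : ℝ) * Real.log c)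
    (hA : ∃ m₀ : ℕ, ∀ m t c : ℕ, m₀ ≤ m → Bad m t c →
      (t : ℝ) < (m : ℝ) ^ (55 / 100 : ℝ) ∧ (c : ℝ) < (m : ℝ) ^ (3 / 5 : ℝ)) :
    ∃ n₀ : ℕ, ∀ n : ℕ, n₀ ≤ n → ∀ M : Finset ℕ,
      (∀ m ∈ M, n < 2 * m ∧ m ≤ n ∧ ∃ t c : ℕ, (n : ℝ) ^ (1 / 100 : ℝ) ≤ t ∧ Bad m t c) →
      (M.card : ℝ) ≤ (n : ℝ) ^ (497 / 1000 : ℝ) := by
  classical
  obtain ⟨m₀, hA⟩ := hA
  obtain ⟨n₁, hT6⟩ := Vdc.not_all_hit hpi (1 / 16000) (by norm_num) (1 / 100) (by norm_num)
  obtain ⟨n₂, hms⟩ := many_small hM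
  obtain ⟨n₃, hnd⟩ := not_dense
  obtain ⟨C, hC, T₀, hcd⟩ := count_dense
  obtain ⟨n₄, hT₀⟩ := rpow_large (T₀ : ℝ) (1 / 100) (by norm_num)
  obtain ⟨n₅, hn₅⟩ := rpow_large 16 (51 / 100) (by norm_num)
  obtain ⟨n₆, hn₆⟩ := log_small (100 * C) (5 / 1000) (by norm_num)
  refine ⟨2 * m₀ + n₁ + n₂ + n₃ + n₄ + n₅ + n₆ + 2, ?_⟩
  intro n hn M hMn
  have hn2 : 2 ≤ n := by omega
  have hnr : (2 : ℝ) ≤ n := by exact_mod_cast hn2
  have hn0 : (0 : ℝ) < n := by linarith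
  have hn1 : (1 : ℝ) ≤ n := by linarith
  -- every `m` in `M` has a dense block of length below `n^0.49`
  have key : ∀ m ∈ M, ∃ t : ℕ, n < 2 * m ∧ m ≤ n ∧ (n : ℝ) ^ (1 / 100 : ℝ) ≤ t ∧
      (t : ℝ) < (n : ℝ) ^ (49 / 100 : ℝ) ∧ (t : ℝ) / 3000 ≤
        (((Ioc (m - t) m).filter
          (fun u => (sfp u : ℝ) ≤ t * (n : ℝ) ^ (1 / 1000 : ℝ))).card : ℝ) := by
    intro m hm
    obtain ⟨h1, h2, t, c, ht, hbad⟩ := hMn m hm
    refine ⟨t, h1, h2, ht, ?_⟩
    obtain ⟨ht55, hc60⟩ := hA m t c (by omega) hbad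
    have hmn : (m : ℝ) ≤ n := by exact_mod_cast h2
    have ht55' : (t : ℝ) ≤ (n : ℝ) ^ (55 / 100 : ℝ) :=
      ht55.le.trans (Real.rpow_le_rpow (by positivity) hmn (by norm_num))
    have hc60' : (c : ℝ) ≤ (n : ℝ) ^ (3 / 5 : ℝ) :=
      hc60.le.trans (Real.rpow_le_rpow (by positivity) hmn (by norm_num))
    have htn : (t : ℝ) ≤ n := by
      obtain ⟨h3, h4, -⟩ := hbad
      exact_mod_cast (by omega : t ≤ n)
    have hcs : (c : ℝ) ≤ (1 / 16000 : ℝ) * t * Real.log n := by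
      by_contra hcon
      push Not at hcon
      exact hT6 n m t c (by omega) h1 h2 ht hc60' hcon.le
        (fun q hq h5 h6 => bad_prime m t c q hbad hq h5 h6)
    have hmany := hms n m t c (by omega) h2 hbad htn hcs
    refine ⟨?_, hmany⟩
    by_contra hcon
    push Not at hcon
    exact hnd n m t (by omega) h1 h2 hcon ht55' hmany
  choose! f hf using key
  -- dyadic decomposition
  set g : ℕ → ℕ := fun m => Nat.clog 2 (f m) with hg
  set I : Finset ℕ := M.image g with hI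
  have hsum : (M.card : ℝ) = ∑ i ∈ I, ((M.filter (fun m => g m = i)).card : ℝ) := by
    rw [Finset.card_eq_sum_card_image g M]
    push_cast
    rfl
  have hIcard : (I.card : ℝ) ≤ 2 * (Real.log n + 1) := by
    have h1 : I ⊆ range (Nat.log 2 n + 2) := by
      intro i hi
      rw [hI, Finset.mem_image] at hi
      obtain ⟨m, hm, rfl⟩ := hi
      obtain ⟨-, h2, h3, h4, h5⟩ := hf m hm
      rw [Finset.mem_range, hg]
      simp only
      have h6 : f m ≤ n := by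
        have : (f m : ℝ) ≤ n := by
          refine h4.le.trans ?_
          calc (n : ℝ) ^ (49 / 100 : ℝ) ≤ (n : ℝ) ^ (1 : ℝ) :=
                Real.rpow_le_rpow_of_exponent_le hn1 (by norm_num)
            _ = n := Real.rpow_one _
        exact_mod_cast this
      have h7 : Nat.clog 2 (f m) ≤ Nat.clog 2 n := Nat.clog_mono_right 2 h6
      have h8 : Nat.clog 2 n ≤ Nat.log 2 n + 1 := by
        rw [Nat.clog_le_iff_le_pow (by norm_num)]
        exact (Nat.lt_pow_succ_log_self (by norm_num) n).le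
      omega
    have h2 : I.card ≤ Nat.log 2 n + 2 := by
      calc I.card ≤ (range (Nat.log 2 n + 2)).card := Finset.card_le_card h1
        _ = _ := Finset.card_range _
    have h3 : (Nat.log 2 n : ℝ) ≤ 2 * Real.log n := by
      have h4 : ((2 : ℝ) ^ Nat.log 2 n) ≤ n := by
        exact_mod_cast Nat.pow_log_le_self 2 (by omega)
      have h5 := Real.log_le_log (by positivity) h4
      rw [Real.log_pow] at h5
      have h6 : (1 : ℝ) / 2 ≤ Real.log 2 := by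
        have := Real.log_two_gt_d9; linarith
      have h7 : (0 : ℝ) ≤ Nat.log 2 n := Nat.cast_nonneg _
      nlinarith
    have h4 : (I.card : ℝ) ≤ Nat.log 2 n + 2 := by exact_mod_cast h2
    linarith
  have hfib : ∀ i ∈ I, ((M.filter (fun m => g m = i)).card : ℝ) ≤
      12 * C * (n : ℝ) ^ (492 / 1000 : ℝ) := by
    intro i hi
    rw [hI, Finset.mem_image] at hi
    obtain ⟨m₁, hm₁, him₁⟩ := hi
    -- size of `2^i`
    have hpow : ∀ m ∈ M, g m = i → 2 ^ i < 2 * f m ∧ f m ≤ 2 ^ i := by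
      intro m hm hgm
      obtain ⟨-, h2, h3, h4, h5⟩ := hf m hm
      have h6 : 2 ≤ f m ∨ f m < 2 := by omega
      have h7 : f m ≤ 2 ^ i := by
        rw [← hgm, hg]; exact Nat.le_pow_clog (by norm_num) _
      refine ⟨?_, h7⟩
      have hf1 : 0 < f m := by
        have : (0 : ℝ) < f m := lt_of_lt_of_le (by positivity) h3
        exact_mod_cast this
      rcases h6 with h6 | h6
      · have h8 : 2 ^ (Nat.clog 2 (f m) - 1) < f m :=
          Nat.pow_pred_clog_lt_self (by norm_num) (by omega)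
        have h9 : 0 < Nat.clog 2 (f m) := Nat.clog_pos (by norm_num) h6
        have h10 : Nat.clog 2 (f m) = i := hgm
        rw [h10] at h8 h9
        obtain ⟨k, rfl⟩ : ∃ k, i = k + 1 := ⟨i - 1, by omega⟩
        rw [Nat.add_sub_cancel] at h8
        rw [pow_succ]; omega
      · have h8 : f m = 1 := by omega
        have h10 : Nat.clog 2 (f m) = i := hgm
        rw [h8, Nat.clog_one_right] at h10
        rw [← h10, h8]; norm_num
    obtain ⟨hp1, hp2⟩ := hpow m₁ hm₁ him₁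
    obtain ⟨q1, q2, q3, q4, q5⟩ := hf m₁ hm₁
    have hT1 : T₀ ≤ 2 ^ i := by
      have h1 : (T₀ : ℝ) ≤ ((2 ^ i : ℕ) : ℝ) := by
        calc (T₀ : ℝ) ≤ (n : ℝ) ^ (1 / 100 : ℝ) := hT₀ n (by omega)
          _ ≤ f m₁ := q3
          _ ≤ _ := by exact_mod_cast hp2
      exact_mod_cast h1
    have hTub : ((2 ^ i : ℕ) : ℝ) ≤ 2 * (n : ℝ) ^ (49 / 100 : ℝ) := by
      have h1 : ((2 ^ i : ℕ) : ℝ) ≤ 2 * f m₁ := by exact_mod_cast hp1.le
      linarith
    have hT8 : 8 * 2 ^ i ≤ n := by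
      have h1 : (8 : ℝ) * ((2 ^ i : ℕ) : ℝ) ≤ n := by
        have h2 : (n : ℝ) = (n : ℝ) ^ (51 / 100 : ℝ) * (n : ℝ) ^ (49 / 100 : ℝ) := by
          rw [← Real.rpow_add hn0]; norm_num
        have h3 := hn₅ n (by omega)
        have h4 : 0 < (n : ℝ) ^ (49 / 100 : ℝ) := by positivity
        nlinarith
      exact_mod_cast h1
    set T : ℕ := 2 ^ i with hT
    have hTpos : 0 < T := by rw [hT]; positivity
    have hTr : (1 : ℝ) ≤ T := by exact_mod_cast hTpos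
    set X : ℝ := (n : ℝ) ^ (1 / 1000 : ℝ) with hX
    have hX1 : 1 ≤ X := Real.one_le_rpow hn1 (by norm_num)
    set D : ℕ := ⌊(T : ℝ) * X⌋₊ with hD
    have hD1 : 1 ≤ D := by
      rw [hD, Nat.one_le_floor_iff]; nlinarith
    have hDle : (D : ℝ) ≤ T * X := Nat.floor_le (by positivity)
    have h1 := hcd n T D hT1 hT8 hD1 (M.filter (fun m => g m = i)) (by
      intro m hm
      rw [Finset.mem_filter] at hm
      obtain ⟨hmM, hgm⟩ := hm
      obtain ⟨r1, r2⟩ := hpow m hmM hgm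
      obtain ⟨s1, s2, s3, s4, s5⟩ := hf m hmM
      refine ⟨s1, s2, f m, r1, r2, s5.trans ?_⟩
      norm_cast
      apply Finset.card_le_card
      intro u hu
      rw [Finset.mem_filter] at hu ⊢
      refine ⟨hu.1, ?_⟩
      apply Nat.le_floor
      refine hu.2.trans ?_
      apply mul_le_mul_of_nonneg_right _ (by positivity)
      exact_mod_cast r2)
    refine h1.trans ?_
    have hD0 : (0 : ℝ) ≤ D := Nat.cast_nonneg _
    have h2 : (D : ℝ) ^ 2 / T ≤ T * X ^ 2 := by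
      rw [div_le_iff₀ (by linarith)]
      calc (D : ℝ) ^ 2 ≤ (T * X) ^ 2 := by gcongr
        _ = T * X ^ 2 * T := by ring
    have h3 : (D : ℝ) ≤ T * X ^ 2 := by
      refine hDle.trans ?_
      apply mul_le_mul_of_nonneg_left _ (by positivity)
      nlinarith
    have h4 : X ^ 2 = (n : ℝ) ^ (2 / 1000 : ℝ) := by
      rw [hX, ← Real.rpow_natCast, ← Real.rpow_mul hn0.le]; norm_num
    have h5 : (T : ℝ) * X ^ 2 ≤ 2 * (n : ℝ) ^ (492 / 1000 : ℝ) := by
      rw [h4]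
      have h6 : (n : ℝ) ^ (492 / 1000 : ℝ) = (n : ℝ) ^ (49 / 100 : ℝ) * (n : ℝ) ^ (2 / 1000 : ℝ) := by
        rw [← Real.rpow_add hn0]; norm_num
      rw [h6, ← mul_assoc]
      exact mul_le_mul_of_nonneg_right hTub (by positivity)
    calc C * ((D : ℝ) ^ 2 / T + D) ≤ C * (2 * (2 * (n : ℝ) ^ (492 / 1000 : ℝ))) := by
          apply mul_le_mul_of_nonneg_left _ hC.le; linarith
      _ ≤ 12 * C * (n : ℝ) ^ (492 / 1000 : ℝ) := by
          have : 0 ≤ C * (n : ℝ) ^ (492 / 1000 : ℝ) := by positivity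
          linarith
  have h1 : (M.card : ℝ) ≤ I.card * (12 * C * (n : ℝ) ^ (492 / 1000 : ℝ)) := by
    rw [hsum, ← nsmul_eq_mul]
    exact Finset.sum_le_card_nsmul _ _ _ hfib
  have h2 := hn₆ n (by omega)
  have h3 : (n : ℝ) ^ (497 / 1000 : ℝ) =
      (n : ℝ) ^ (5 / 1000 : ℝ) * (n : ℝ) ^ (492 / 1000 : ℝ) := by
    rw [← Real.rpow_add hn0]; norm_num
  have hlog : 0 ≤ Real.log n := Real.log_nonneg hn1
  calc (M.card : ℝ) ≤ I.card * (12 * C * (n : ℝ) ^ (492 / 1000 : ℝ)) := h1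
    _ ≤ (2 * (Real.log n + 1)) * (12 * C * (n : ℝ) ^ (492 / 1000 : ℝ)) :=
        mul_le_mul_of_nonneg_right hIcard (by positivity)
    _ = (24 * C * (Real.log n + 1)) * (n : ℝ) ^ (492 / 1000 : ℝ) := by ring
    _ ≤ (n : ℝ) ^ (5 / 1000 : ℝ) * (n : ℝ) ^ (492 / 1000 : ℝ) := by
        apply mul_le_mul_of_nonneg_right _ (by positivity)
        refine le_trans ?_ h2
        apply mul_le_mul_of_nonneg_right _ (by linarith)
        linarith
    _ = _ := h3.symm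

end Pool.Agent.Helper153.Fac
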