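import Mathlib
import Pool.Agent.Helper153.FacQ
import Pool.Agent.Helper153.FacO
import Pool.Agent.Helper153.FacP
import Pool.Agent.Helper601.PartA3
import Pool.Agent.Helper601.Density
import Pool.Agent.Helper601.JobI

set_option autoImplicit false

namespace Pool.Agent.Helper153.Fac

open Finset

theorem c_bound : ∃ C : ℝ, 0 < C ∧ ∀ m t c : ℕ, Bad m t c → (c : ℝ) ≤ C * t * Real.log m := by
  obtain ⟨C, hC, h⟩ := Helper601.JobI.a_bound Helper601.theta_half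
  refine ⟨C, hC, fun m t c hbad => ?_⟩
  obtain ⟨h1, h2, h3⟩ := hbad
  have h4 := h m m (m - t) (m - t) (m - t) c (by omega) le_rfl (by omega) le_rfl le_rfl (by omega)
    (by
      obtain ⟨r, hr⟩ := h3
      refine ⟨r * (m - t).factorial, ?_⟩
      calc m.factorial * (m - t).factorial * (m - t).factorial * (m - t).factorial * c.factorial
          = (m.factorial * (m - t).factorial * c.factorial) * ((m - t).factorial * (m - t).factorial) := by ring
        _ = _ := by rw [hr]; ring)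
  have h5 : ((m - t : ℕ) : ℝ) = (m : ℝ) - t := by
    rw [Nat.cast_sub (by omega)]
  rw [h5] at h4
  calc (c : ℝ) ≤ C * ((m : ℝ) - ((m : ℝ) - t) + ((m : ℝ) - t - ((m : ℝ) - t))) * Real.log m := h4
    _ = C * t * Real.log m := by ring

theorem bad_size : ∃ m₀ : ℕ, ∀ m t c : ℕ, m₀ ≤ m → Bad m t c →
      (t : ℝ) < (m : ℝ) ^ (55 / 100 : ℝ) ∧ (c : ℝ) < (m : ℝ) ^ (3 / 5 : ℝ) := by
  obtain ⟨m₀, -, h⟩ := Helper601.partA (1 / 20) (by norm_num)
  refine ⟨m₀, fun m t c hm hbad => ?_⟩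
  obtain ⟨h1, h2, h3⟩ := hbad
  have h4 := h m hm (m - t) (m - t) (m - t) c ⟨by omega, le_rfl, le_rfl, by omega, by
      obtain ⟨r, hr⟩ := h3
      refine ⟨r * (m - t).factorial, ?_⟩
      calc m.factorial * (m - t).factorial * (m - t).factorial * (m - t).factorial * c.factorial
          = (m.factorial * (m - t).factorial * c.factorial) * ((m - t).factorial * (m - t).factorial) := by ring
        _ = _ := by rw [hr]; ring⟩
  obtain ⟨h5, -, h6⟩ := h4
  rw [show m - (m - t) = t by omega] at h5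
  constructor
  · convert h5 using 2; norm_num
  · convert h6 using 2; norm_num

theorem bad_dyadic : ∃ n₀ : ℕ, ∀ n : ℕ, n₀ ≤ n → ∀ M : Finset ℕ,
    (∀ m ∈ M, n < 2 * m ∧ m ≤ n ∧ ∃ t c : ℕ, Bad m t c) →
    (M.card : ℝ) ≤ (n : ℝ) ^ (499 / 1000 : ℝ) := by
  classical
  have hM := Helper601.Mertens.mertens_log
  have hpiA : ∃ C : ℝ, 1 ≤ C ∧ ∀ z : ℕ, 2 ≤ z →
      (((Finset.Icc 1 z).filter Nat.Prime).card : ℝ) * Real.log z ≤ C * z := Helper601.card_PP_le
  have hpi : ∃ x₀ : ℕ, ∀ c : ℕ, x₀ ≤ c →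
      (c : ℝ) / 4 ≤ (((Ioc (c / 2) c).filter Nat.Prime).card : ℝ) * Real.log c := by
    obtain ⟨x₀, hx⟩ := Helper601.pnt_count (1 / 2) (by norm_num)
    refine ⟨x₀, fun c hc => ?_⟩
    have h1 : ((c / 2 : ℕ) : ℝ) ≤ (c : ℝ) / 2 := Nat.cast_div_le
    have h2 := hx (c / 2) c hc (by linarith)
    refine le_trans ?_ h2
    linarith
  obtain ⟨n₁, hA⟩ := regimeA hpiA c_bound
  obtain ⟨n₂, hB⟩ := regimeB hM c_bound
  obtain ⟨n₃, hC⟩ := regimeC hM hpi bad_size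
  obtain ⟨n₄, h4⟩ := rpow_large 3 (2 / 1000) (by norm_num)
  refine ⟨n₁ + n₂ + n₃ + n₄ + 1, fun n hn M hMn => ?_⟩
  have hn1 : (1 : ℝ) ≤ n := by exact_mod_cast (by omega : 1 ≤ n)
  set MA := M.filter (fun m => ∃ t c : ℕ, t < 100 ∧ Bad m t c) with hMA
  set MB := M.filter (fun m => ∃ t c : ℕ, 100 ≤ t ∧ (t : ℝ) ≤ (n : ℝ) ^ (1 / 100 : ℝ) ∧ Bad m t c)
    with hMB
  set MC := M.filter (fun m => ∃ t c : ℕ, (n : ℝ) ^ (1 / 100 : ℝ) ≤ t ∧ Bad m t c) with hMC
  have hsub : M ⊆ MA ∪ MB ∪ MC := by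
    intro m hm
    obtain ⟨-, -, t, c, hb⟩ := hMn m hm
    rw [Finset.mem_union, Finset.mem_union]
    by_cases h1 : t < 100
    · left; left
      exact Finset.mem_filter.2 ⟨hm, t, c, h1, hb⟩
    · rcases le_total (t : ℝ) ((n : ℝ) ^ (1 / 100 : ℝ)) with h2 | h2
      · left; right
        exact Finset.mem_filter.2 ⟨hm, t, c, by omega, h2, hb⟩
      · right
        exact Finset.mem_filter.2 ⟨hm, t, c, h2, hb⟩
  have h1 : M.card ≤ MA.card + MB.card + MC.card :=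
    (Finset.card_le_card hsub).trans ((Finset.card_union_le _ _).trans
      (Nat.add_le_add_right (Finset.card_union_le _ _) _))
  have h1r : (M.card : ℝ) ≤ MA.card + MB.card + MC.card := by exact_mod_cast h1
  have a1 := hA n (by omega) MA (fun m hm => by
    rw [hMA, Finset.mem_filter] at hm
    obtain ⟨h2, h3, -⟩ := hMn m hm.1
    exact ⟨h2, h3, hm.2⟩)
  have a2 := hB n (by omega) MB (fun m hm => by
    rw [hMB, Finset.mem_filter] at hm
    obtain ⟨h2, h3, -⟩ := hMn m hm.1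
    exact ⟨h2, h3, hm.2⟩)
  have a3 := hC n (by omega) MC (fun m hm => by
    rw [hMC, Finset.mem_filter] at hm
    obtain ⟨h2, h3, -⟩ := hMn m hm.1
    exact ⟨h2, h3, hm.2⟩)
  have b1 : (n : ℝ) ^ (1 / 4 : ℝ) ≤ (n : ℝ) ^ (497 / 1000 : ℝ) :=
    Real.rpow_le_rpow_of_exponent_le hn1 (by norm_num)
  have b2 : (n : ℝ) ^ (49 / 100 : ℝ) ≤ (n : ℝ) ^ (497 / 1000 : ℝ) :=
    Real.rpow_le_rpow_of_exponent_le hn1 (by norm_num)
  have b3 : (n : ℝ) ^ (499 / 1000 : ℝ) = (n : ℝ) ^ (2 / 1000 : ℝ) * (n : ℝ) ^ (497 / 1000 : ℝ) := by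
    rw [← Real.rpow_add (by linarith)]; norm_num
  have b4 := h4 n (by omega)
  rw [b3]
  calc (M.card : ℝ) ≤ 3 * (n : ℝ) ^ (497 / 1000 : ℝ) := by linarith
    _ ≤ _ := mul_le_mul_of_nonneg_right b4 (by positivity)

theorem bad_count : ∃ C : ℝ, 0 < C ∧ ∀ n : ℕ, ∀ M : Finset ℕ,
    (∀ m ∈ M, 1 ≤ m ∧ m ≤ n ∧ ∃ t c : ℕ, Bad m t c) →
    (M.card : ℝ) ≤ C * (n : ℝ) ^ (499 / 1000 : ℝ) := by
  classical
  obtain ⟨n₀, h₀⟩ := bad_dyadic
  refine ⟨n₀ + 8, by positivity, ?_⟩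
  intro n
  induction n using Nat.strong_induction_on with
  | _ n ih =>
    intro M hM
    rcases Nat.eq_zero_or_pos n with hn0 | hn0
    · have : M = ∅ := by
        rw [Finset.eq_empty_iff_forall_notMem]
        intro m hm
        obtain ⟨h1, h2, -⟩ := hM m hm
        omega
      rw [this, Finset.card_empty, Nat.cast_zero]
      positivity
    have hn1 : (1 : ℝ) ≤ n := by exact_mod_cast hn0
    have hpow1 : 1 ≤ (n : ℝ) ^ (499 / 1000 : ℝ) := Real.one_le_rpow hn1 (by norm_num)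
    by_cases hn : n < n₀
    · have h1 : M.card ≤ n := by
        have : M ⊆ Icc 1 n := fun m hm => by
          obtain ⟨h1, h2, -⟩ := hM m hm
          exact Finset.mem_Icc.2 ⟨h1, h2⟩
        calc M.card ≤ (Icc 1 n).card := Finset.card_le_card this
          _ = n := by rw [Nat.card_Icc]; omega
      have h2 : (M.card : ℝ) ≤ n₀ := by exact_mod_cast (by omega : M.card ≤ n₀)
      have h3 : (0 : ℝ) ≤ n₀ := Nat.cast_nonneg _
      nlinarith
    push Not at hn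
    have h1 := h₀ n hn (M.filter (fun m => n < 2 * m)) (fun m hm => by
      rw [Finset.mem_filter] at hm
      obtain ⟨-, h3, h4⟩ := hM m hm.1
      exact ⟨hm.2, h3, h4⟩)
    have h2 := ih (n / 2) (by omega) (M.filter (fun m => ¬ n < 2 * m)) (fun m hm => by
      rw [Finset.mem_filter] at hm
      obtain ⟨h2, h3, h4⟩ := hM m hm.1
      exact ⟨h2, by omega, h4⟩)
    have h3 : M.card = (M.filter (fun m => n < 2 * m)).card +
        (M.filter (fun m => ¬ n < 2 * m)).card := (Finset.card_filter_add_card_filter_not _).symm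
    have h4 : (M.card : ℝ) = ((M.filter (fun m => n < 2 * m)).card : ℝ) +
        ((M.filter (fun m => ¬ n < 2 * m)).card : ℝ) := by exact_mod_cast h3
    have h5 : ((n / 2 : ℕ) : ℝ) ^ (499 / 1000 : ℝ) ≤ 7 / 8 * (n : ℝ) ^ (499 / 1000 : ℝ) := by
      have e1 : ((n / 2 : ℕ) : ℝ) ≤ (n : ℝ) / 2 := Nat.cast_div_le
      have e2 : ((n / 2 : ℕ) : ℝ) ^ (499 / 1000 : ℝ) ≤ ((n : ℝ) / 2) ^ (499 / 1000 : ℝ) :=
        Real.rpow_le_rpow (by positivity) e1 (by norm_num)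
      refine e2.trans ?_
      rw [Real.div_rpow (by positivity) (by norm_num), div_le_iff₀ (by positivity)]
      have e3 : (8 : ℝ) / 7 ≤ (2 : ℝ) ^ (499 / 1000 : ℝ) := by
        have e4 : (2 : ℝ) ^ (1 / 4 : ℝ) ≤ (2 : ℝ) ^ (499 / 1000 : ℝ) :=
          Real.rpow_le_rpow_of_exponent_le (by norm_num) (by norm_num)
        refine le_trans ?_ e4
        have e5 : ((8 : ℝ) / 7) = (((8 : ℝ) / 7) ^ (4 : ℕ)) ^ (1 / 4 : ℝ) := by
          rw [← Real.rpow_natCast, ← Real.rpow_mul (by norm_num)]; norm_num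
        rw [e5]
        exact Real.rpow_le_rpow (by norm_num) (by norm_num) (by norm_num)
      nlinarith
    have h6 : (0 : ℝ) ≤ n₀ := Nat.cast_nonneg _
    calc (M.card : ℝ) ≤ (n : ℝ) ^ (499 / 1000 : ℝ) +
          (n₀ + 8) * ((n / 2 : ℕ) : ℝ) ^ (499 / 1000 : ℝ) := by rw [h4]; exact add_le_add h1 h2
      _ ≤ (n : ℝ) ^ (499 / 1000 : ℝ) + (n₀ + 8) * (7 / 8 * (n : ℝ) ^ (499 / 1000 : ℝ)) := by
          have := mul_le_mul_of_nonneg_left h5 (by positivity : (0 : ℝ) ≤ n₀ + 8)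
          linarith
      _ ≤ (n₀ + 8) * (n : ℝ) ^ (499 / 1000 : ℝ) := by nlinarith

end Pool.Agent.Helper153.Fac
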