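import Mathlib
set_option autoImplicit false
namespace FrA

theorem choose_neg_nat (n k : ℕ) (hn : 0 < n) :
    Ring.choose (-(n : ℤ)) k = (-1) ^ k * ((n + k - 1).choose k : ℤ) := by
  have h := Ring.choose_neg (R := ℤ) (n : ℤ) k
  rw [h]
  have e : ((n : ℤ) + k - 1) = ((n + k - 1 : ℕ) : ℤ) := by
    push_cast [Nat.cast_sub (show 1 ≤ n + k by omega)]
    ring
  rw [e, Ring.choose_natCast]
  simp [Int.negOnePow, Units.smul_def]

theorem kernel_int (r μ x : ℕ) (hμ : r < μ) (hx : x ≤ μ) (hr : μ ≤ x + r) :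
    ∑ i ∈ Finset.range (r + 1),
      (-1 : ℤ) ^ (r - i) * ((μ - i - 1).choose (r - i) : ℤ) * (x.choose i : ℤ)
      = if x = μ then 1 else 0 := by
  have h := Ring.add_choose_eq (R := ℤ) (r := (x : ℤ)) (s := -((μ - r : ℕ) : ℤ)) r (Commute.all _ _)
  rw [Finset.Nat.sum_antidiagonal_eq_sum_range_succ (fun a b => Ring.choose (x : ℤ) a * Ring.choose (-((μ - r : ℕ) : ℤ)) b)] at h
  have e1 : (x : ℤ) + -((μ - r : ℕ) : ℤ) = ((x + r - μ : ℕ) : ℤ) := by
    push_cast [Nat.cast_sub hμ.le, Nat.cast_sub hr]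
    ring
  rw [e1, Ring.choose_natCast] at h
  have e2 : ∀ i ∈ Finset.range (r + 1), Ring.choose (x : ℤ) i * Ring.choose (-((μ - r : ℕ) : ℤ)) (r - i) =
      (-1 : ℤ) ^ (r - i) * ((μ - i - 1).choose (r - i) : ℤ) * (x.choose i : ℤ) := by
    intro i hi
    have hi' : i ≤ r := by have := Finset.mem_range.1 hi; omega
    rw [Ring.choose_natCast, choose_neg_nat _ _ (by omega)]
    have e3 : μ - r + (r - i) - 1 = μ - i - 1 := by omega
    rw [e3]
    ring
  rw [Finset.sum_congr rfl e2] at h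
  rw [← h]
  split_ifs with hc
  · subst hc
    have : x + r - x = r := by omega
    rw [this, Nat.choose_self]; simp
  · rw [Nat.choose_eq_zero_of_lt (by omega)]; simp

/-- kernel identity -/
theorem kernel_id (r μ x : ℕ) (hμ : r < μ) (hx : x ≤ μ) (hr : μ ≤ x + r) :
    ∑ i ∈ Finset.range (r + 1),
      (-1 : ℝ) ^ (r - i) * ((μ - i - 1).choose (r - i) : ℝ) * (x.choose i : ℝ)
      = if x = μ then 1 else 0 := by
  have h := kernel_int r μ x hμ hx hr
  have h2 := congrArg (fun z : ℤ => (z : ℝ)) h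
  push_cast at h2
  rw [h2]
end FrA

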