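import Mathlib
import Pool.Agent.Helper153.FrkA
set_option autoImplicit false
open Finset
namespace FrB
open FrA
theorem hs (e z : ℕ) : ((e + z).choose (e + 1) : ℝ) = ∑ t ∈ Finset.range z, ((e + t).choose e : ℝ) := by
  induction z with
  | zero => simp
  | succ z ih =>
    rw [Finset.sum_range_succ, ← ih, ← add_assoc, Nat.choose_succ_succ]
    push_cast
    ring

theorem lemA (r h e a b : ℕ) (ha : a ≤ r + h) :
    ((e + (min a b - r)).choose (e + 1) : ℝ) = ∑ t ∈ Finset.range h, ((e + t).choose e : ℝ) *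
      ((if r + t < a then (1 : ℝ) else 0) * (if r + t < b then (1 : ℝ) else 0)) := by
  rw [hs]
  have h1 : ∀ t, ((if r + t < a then (1 : ℝ) else 0) * (if r + t < b then (1 : ℝ) else 0)) =
      if t < min a b - r then (1 : ℝ) else 0 := by
    intro t
    by_cases h1 : r + t < a
    · by_cases h2 : r + t < b
      · rw [if_pos h1, if_pos h2, if_pos (show t < min a b - r by omega), one_mul]
      · rw [if_neg h2, if_neg (show ¬ t < min a b - r by omega), mul_zero]
    · rw [if_neg h1, if_neg (show ¬ t < min a b - r by omega), zero_mul]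
  simp only [h1, mul_ite, mul_one, mul_zero]
  rw [← Finset.sum_filter]
  refine Finset.sum_congr ?_ fun _ _ => rfl
  ext t
  simp only [Finset.mem_range, Finset.mem_filter]
  omega

theorem lemB (n i : ℕ) (A B : Finset (Fin n)) :
    (((A ∩ B).card.choose i : ℕ) : ℝ) = ∑ S ∈ (univ : Finset (Fin n)).powersetCard i,
      (if S ⊆ A then (1 : ℝ) else 0) * (if S ⊆ B then (1 : ℝ) else 0) := by
  have h1 : ∀ S : Finset (Fin n), (if S ⊆ A then (1 : ℝ) else 0) * (if S ⊆ B then (1 : ℝ) else 0) =
      if S ⊆ A ∩ B then (1 : ℝ) else 0 := by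
    intro S
    by_cases h1 : S ⊆ A
    · by_cases h2 : S ⊆ B
      · rw [if_pos h1, if_pos h2, if_pos (show S ⊆ A ∩ B from subset_inter h1 h2), one_mul]
      · rw [if_neg h2, if_neg (show ¬ S ⊆ A ∩ B from fun h => h2 (h.trans inter_subset_right)), mul_zero]
    · rw [if_neg h1, if_neg (show ¬ S ⊆ A ∩ B from fun h => h1 (h.trans inter_subset_left)), zero_mul]
  simp only [h1]
  rw [← Finset.sum_filter, Finset.sum_const, nsmul_eq_mul, mul_one, ← Finset.card_powersetCard]
  congr 2
  ext S
  simp only [Finset.mem_powersetCard, Finset.mem_filter, subset_univ, true_and]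
  tauto

theorem lemC {ι κ : Type*} (F : Finset ι) (T : Finset ℕ) (P : Finset κ) (y : ι → ℝ) (c : ℕ → ℝ)
    (α : ℕ → ι → ℝ) (β : κ → ι → ℝ) :
    ∑ A ∈ F, ∑ B ∈ F, y A * y B * ((∑ t ∈ T, c t * (α t A * α t B)) * (∑ S ∈ P, β S A * β S B)) =
      ∑ t ∈ T, c t * ∑ S ∈ P, (∑ A ∈ F, α t A * β S A * y A) ^ 2 := by
  have hR : ∀ t ∈ T, c t * ∑ S ∈ P, (∑ A ∈ F, α t A * β S A * y A) ^ 2 =
      ∑ S ∈ P, ∑ A ∈ F, ∑ B ∈ F, y A * y B * ((c t * (α t A * α t B)) * (β S A * β S B)) := by
    intro t _
    rw [Finset.mul_sum]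
    refine Finset.sum_congr rfl fun S _ => ?_
    rw [sq, Finset.sum_mul_sum, Finset.mul_sum]
    refine Finset.sum_congr rfl fun A _ => ?_
    rw [Finset.mul_sum]
    refine Finset.sum_congr rfl fun B _ => ?_
    ring
  rw [Finset.sum_congr rfl hR]
  have hL : ∀ A ∈ F, ∀ B ∈ F,
      y A * y B * ((∑ t ∈ T, c t * (α t A * α t B)) * (∑ S ∈ P, β S A * β S B)) =
      ∑ t ∈ T, ∑ S ∈ P, y A * y B * ((c t * (α t A * α t B)) * (β S A * β S B)) := by
    intro A _ B _
    rw [Finset.sum_mul_sum, Finset.mul_sum]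
    refine Finset.sum_congr rfl fun t _ => ?_
    rw [Finset.mul_sum]
  rw [Finset.sum_congr rfl fun A hA => Finset.sum_congr rfl fun B hB => hL A hA B hB]
  calc ∑ A ∈ F, ∑ B ∈ F, ∑ t ∈ T, ∑ S ∈ P, y A * y B * ((c t * (α t A * α t B)) * (β S A * β S B))
      = ∑ A ∈ F, ∑ t ∈ T, ∑ B ∈ F, ∑ S ∈ P, y A * y B * ((c t * (α t A * α t B)) * (β S A * β S B)) :=
        Finset.sum_congr rfl fun A _ => Finset.sum_comm
    _ = ∑ t ∈ T, ∑ A ∈ F, ∑ B ∈ F, ∑ S ∈ P, y A * y B * ((c t * (α t A * α t B)) * (β S A * β S B)) :=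
        Finset.sum_comm
    _ = ∑ t ∈ T, ∑ A ∈ F, ∑ S ∈ P, ∑ B ∈ F, y A * y B * ((c t * (α t A * α t B)) * (β S A * β S B)) :=
        Finset.sum_congr rfl fun t _ => Finset.sum_congr rfl fun A _ => Finset.sum_comm
    _ = _ := Finset.sum_congr rfl fun t _ => Finset.sum_comm

/-- the partial sums -/
noncomputable def W {n : ℕ} (r : ℕ) (F : Finset (Finset (Fin n))) (y : Finset (Fin n) → ℝ) (t : ℕ)
    (S : Finset (Fin n)) : ℝ :=
  ∑ A ∈ F, (if r + t < A.card then (1 : ℝ) else 0) * (if S ⊆ A then (1 : ℝ) else 0) * y A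

theorem W_zero_of {n : ℕ} (r h : ℕ) (F : Finset (Finset (Fin n)))
    (hsize : ∀ A ∈ F, r + 1 ≤ A.card ∧ A.card ≤ r + h) (y : Finset (Fin n) → ℝ) (t : ℕ)
    (S : Finset (Fin n)) (hS : ∀ s : ℕ, ∑ A ∈ F with S ⊆ A ∧ A.card = s, y A = 0) :
    W r F y t S = 0 := by
  unfold W
  rw [← Finset.sum_fiberwise_of_maps_to (t := Finset.range (r + h + 1)) (g := Finset.card)
    (fun A hA => by
      have := (hsize A hA).2
      simp only [Finset.mem_range]
      omega)]
  refine Finset.sum_eq_zero fun s _ => ?_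
  have : ∑ A ∈ F with A.card = s, (if r + t < A.card then (1 : ℝ) else 0) *
      (if S ⊆ A then (1 : ℝ) else 0) * y A = (if r + t < s then (1 : ℝ) else 0) *
      ∑ A ∈ F with S ⊆ A ∧ A.card = s, y A := by
    rw [Finset.mul_sum, Finset.sum_filter, Finset.sum_filter]
    refine Finset.sum_congr rfl fun A _ => ?_
    by_cases h1 : A.card = s
    · by_cases h2 : S ⊆ A
      · rw [if_pos h1, if_pos h2, if_pos (show S ⊆ A ∧ A.card = s from ⟨h2, h1⟩), h1, mul_one]
      · rw [if_pos h1, if_neg h2, if_neg (show ¬ (S ⊆ A ∧ A.card = s) from fun h => h2 h.1), mul_zero,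
          zero_mul]
    · rw [if_neg h1, if_neg (show ¬ (S ⊆ A ∧ A.card = s) from fun h => h1 h.2)]
  rw [this, hS, mul_zero]

theorem form_bound (n r h : ℕ) (hr : 1 ≤ r) (F : Finset (Finset (Fin n)))
    (hsize : ∀ A ∈ F, r + 1 ≤ A.card ∧ A.card ≤ r + h)
    (hedge : ∀ A ∈ F, ∀ B ∈ F, A ≠ B → A.card ≤ B.card →
      1 ≤ (A \ B).card ∧ (A \ B).card ≤ r)
    (y : Finset (Fin n) → ℝ)
    (hy : ∀ l, 1 ≤ l → 2 * l ≤ r → ∀ s : ℕ, ∀ S : Finset (Fin n), S.card = r - 2 * l →
      ∑ A ∈ F with S ⊆ A ∧ A.card = s, y A = 0) :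
    ((h : ℝ) + 3) * ∑ A ∈ F, (y A) ^ 2 +
      ∑ S ∈ (univ : Finset (Fin n)).powersetCard (r - 1),
        (∑ A ∈ F with S ⊆ A, ((A.card : ℝ) - r + 1) * y A) ^ 2 ≤
    ((h : ℝ) + 3) * ∑ T ∈ (univ : Finset (Fin n)).powersetCard r,
        (∑ A ∈ F with T ⊆ A, y A) ^ 2 := by
  set Q : ℕ → ℝ := fun i => ∑ A ∈ F, ∑ B ∈ F, y A * y B *
    (((min A.card B.card - i - 1).choose (r - i) : ℝ) * ((A ∩ B).card.choose i : ℝ)) with hQ
  -- the kernel identity on F
  have hker : ∀ A ∈ F, ∀ B ∈ F, ∑ i ∈ Finset.range (r + 1), (-1 : ℝ) ^ (r - i) *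
      (((min A.card B.card - i - 1).choose (r - i) : ℝ) * ((A ∩ B).card.choose i : ℝ)) =
      if A = B then 1 else 0 := by
    intro A hA B hB
    have sA := hsize A hA
    have sB := hsize B hB
    by_cases hAB : A = B
    · subst hAB
      have := kernel_id r A.card A.card (by omega) le_rfl (by omega)
      rw [if_pos rfl] at this ⊢
      refine Eq.trans (Finset.sum_congr rfl fun i _ => ?_) this
      rw [min_self, inter_self]
      ring
    · rw [if_neg hAB]
      have cI : (A ∩ B).card + (A \ B).card = A.card := by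
        rw [add_comm]; exact Finset.card_sdiff_add_card_inter A B
      have cI2 : (A ∩ B).card + (B \ A).card = B.card := by
        rw [add_comm, inter_comm]; exact Finset.card_sdiff_add_card_inter B A
      have hx : (A ∩ B).card < min A.card B.card ∧ min A.card B.card ≤ (A ∩ B).card + r := by
        rcases le_total A.card B.card with hle | hle
        · have := hedge A hA B hB hAB hle
          rw [min_eq_left hle]
          omega
        · have := hedge B hB A hA (Ne.symm hAB) hle
          rw [min_eq_right hle]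
          omega
      have := kernel_id r (min A.card B.card) (A ∩ B).card (by omega) hx.1.le hx.2
      rw [if_neg (show ¬ (A ∩ B).card = min A.card B.card from hx.1.ne)] at this
      refine Eq.trans (Finset.sum_congr rfl fun i _ => ?_) this
      ring
  have hsum : ∑ A ∈ F, (y A) ^ 2 = ∑ i ∈ Finset.range (r + 1), (-1 : ℝ) ^ (r - i) * Q i := by
    have h1 : ∑ A ∈ F, (y A) ^ 2 = ∑ A ∈ F, ∑ B ∈ F, y A * y B * (if A = B then (1 : ℝ) else 0) := by
      refine Finset.sum_congr rfl fun A hA => ?_
      simp only [mul_ite, mul_one, mul_zero]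
      rw [Finset.sum_ite_eq F A, if_pos hA, sq]
    rw [h1]
    rw [Finset.sum_congr rfl fun A hA => Finset.sum_congr rfl fun B hB => by rw [← hker A hA B hB]]
    simp only [hQ, Finset.mul_sum]
    calc _ = ∑ A ∈ F, ∑ i ∈ Finset.range (r + 1), ∑ B ∈ F, y A * y B * ((-1 : ℝ) ^ (r - i) *
          (((min A.card B.card - i - 1).choose (r - i) : ℝ) * ((A ∩ B).card.choose i : ℝ))) :=
          Finset.sum_congr rfl fun A _ => Finset.sum_comm
      _ = ∑ i ∈ Finset.range (r + 1), ∑ A ∈ F, ∑ B ∈ F, y A * y B * ((-1 : ℝ) ^ (r - i) *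
          (((min A.card B.card - i - 1).choose (r - i) : ℝ) * ((A ∩ B).card.choose i : ℝ))) :=
          Finset.sum_comm
      _ = _ := by
        refine Finset.sum_congr rfl fun i _ => Finset.sum_congr rfl fun A _ =>
          Finset.sum_congr rfl fun B _ => ?_
        ring
  -- the quadratic forms for i < r
  have hQi : ∀ i, i < r → Q i = ∑ t ∈ Finset.range h, (((r - i - 1) + t).choose (r - i - 1) : ℝ) *
      ∑ S ∈ (univ : Finset (Fin n)).powersetCard i, (W r F y t S) ^ 2 := by
    intro i hi
    unfold W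
    rw [← lemC F (Finset.range h) ((univ : Finset (Fin n)).powersetCard i) y
      (fun t => (((r - i - 1) + t).choose (r - i - 1) : ℝ))
      (fun t A => if r + t < A.card then (1 : ℝ) else 0) (fun S A => if S ⊆ A then (1 : ℝ) else 0)]
    simp only [hQ]
    refine Finset.sum_congr rfl fun A hA => Finset.sum_congr rfl fun B hB => ?_
    have sA := hsize A hA
    have sB := hsize B hB
    rw [← lemA r h (r - i - 1) A.card B.card sA.2, ← lemB n i A B]
    have e1 : min A.card B.card - i - 1 = (r - i - 1) + (min A.card B.card - r) := by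
      have : r + 1 ≤ min A.card B.card := le_min sA.1 sB.1
      omega
    have e2 : r - i = r - i - 1 + 1 := by omega
    rw [e1]
    congr 3
    rw [← e2]
  have hQr : Q r = ∑ T ∈ (univ : Finset (Fin n)).powersetCard r, (∑ A ∈ F with T ⊆ A, y A) ^ 2 := by
    have := lemC F (Finset.range 1) ((univ : Finset (Fin n)).powersetCard r) y
      (fun _ => 1) (fun _ _ => (1 : ℝ)) (fun S A => if S ⊆ A then (1 : ℝ) else 0)
    simp only [Finset.sum_range_one, one_mul, mul_one] at this
    simp only [hQ]
    have e : ∀ T : Finset (Fin n), ∑ A ∈ F with T ⊆ A, y A = ∑ A ∈ F, (if T ⊆ A then (1 : ℝ) else 0) * y A := by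
      intro T
      rw [Finset.sum_filter]
      refine Finset.sum_congr rfl fun A _ => ?_
      by_cases h1 : T ⊆ A
      · rw [if_pos h1, if_pos h1, one_mul]
      · rw [if_neg h1, if_neg h1, zero_mul]
    simp only [e]
    rw [← this]
    refine Finset.sum_congr rfl fun A hA => Finset.sum_congr rfl fun B hB => ?_
    rw [← lemB n r A B, Nat.sub_self, Nat.choose_zero_right]
    simp
  have hQnn : ∀ i, i < r → 0 ≤ Q i := by
    intro i hi
    rw [hQi i hi]
    refine Finset.sum_nonneg fun t _ => mul_nonneg (Nat.cast_nonneg _) ?_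
    exact Finset.sum_nonneg fun S _ => sq_nonneg _
  have hterm : ∀ i, i + 1 < r → (-1 : ℝ) ^ (r - i) * Q i ≤ 0 := by
    intro i hi
    rcases Nat.even_or_odd (r - i) with hev | hod
    · obtain ⟨l, hl⟩ := hev
      have hz : Q i = 0 := by
        rw [hQi i (by omega)]
        refine Finset.sum_eq_zero fun t _ => ?_
        rw [Finset.sum_eq_zero, mul_zero]
        intro S hS
        rw [Finset.mem_powersetCard] at hS
        rw [W_zero_of r h F hsize y t S (fun s => hy l (by omega) (by omega) s S (by omega))]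
        norm_num
      rw [hz, mul_zero]
    · rw [hod.neg_one_pow]
      have := hQnn i (by omega)
      linarith
  have hmain : ∑ A ∈ F, (y A) ^ 2 ≤ Q r - Q (r - 1) := by
    obtain ⟨r', rfl⟩ : ∃ r', r = r' + 1 := ⟨r - 1, by omega⟩
    rw [hsum, Finset.sum_range_succ, Finset.sum_range_succ]
    have h0 : ∑ i ∈ Finset.range r', (-1 : ℝ) ^ (r' + 1 - i) * Q i ≤ 0 :=
      Finset.sum_nonpos fun i hi => hterm i (by
        have := Finset.mem_range.1 hi
        omega)
    have h1 : (-1 : ℝ) ^ (r' + 1 - r') * Q r' = - Q r' := by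
      rw [show r' + 1 - r' = 1 by omega]; ring
    have h2 : (-1 : ℝ) ^ (r' + 1 - (r' + 1)) * Q (r' + 1) = Q (r' + 1) := by
      rw [Nat.sub_self]; ring
    rw [h1, h2, show r' + 1 - 1 = r' by omega]
    linarith
  -- the last form
  have hlast : ∑ S ∈ (univ : Finset (Fin n)).powersetCard (r - 1),
        (∑ A ∈ F with S ⊆ A, ((A.card : ℝ) - r + 1) * y A) ^ 2 ≤ ((h : ℝ) + 3) * Q (r - 1) := by
    have hq := hQi (r - 1) (by omega)
    have e0 : r - (r - 1) - 1 = 0 := by omega
    rw [e0] at hq
    simp only [Nat.choose_zero_right, Nat.cast_one, one_mul] at hq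
    rw [hq, Finset.sum_comm, Finset.mul_sum]
    refine Finset.sum_le_sum fun S _ => ?_
    rcases Nat.eq_zero_or_pos h with h0 | hpos
    · subst h0
      have hF : F = ∅ := by
        rw [Finset.eq_empty_iff_forall_notMem]
        intro A hA
        have := hsize A hA
        omega
      subst hF
      simp
    · have e1 : ∑ A ∈ F with S ⊆ A, ((A.card : ℝ) - r + 1) * y A =
          ∑ t ∈ Finset.range h, (if t = 0 then (2 : ℝ) else 1) * W r F y t S := by
        have e2 : ∑ t ∈ Finset.range h, (if t = 0 then (2 : ℝ) else 1) * W r F y t S =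
            W r F y 0 S + ∑ t ∈ Finset.range h, W r F y t S := by
          have : ∀ t ∈ Finset.range h, (if t = 0 then (2 : ℝ) else 1) * W r F y t S =
              (if t = 0 then W r F y t S else 0) + W r F y t S := by
            intro t _
            split_ifs <;> ring
          rw [Finset.sum_congr rfl this, Finset.sum_add_distrib, Finset.sum_ite_eq' (Finset.range h) 0,
            if_pos (Finset.mem_range.2 hpos)]
        rw [e2]
        unfold W
        rw [Finset.sum_comm, ← Finset.sum_add_distrib, Finset.sum_filter]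
        refine Finset.sum_congr rfl fun A hA => ?_
        have sA := hsize A hA
        by_cases h1 : S ⊆ A
        · simp only [if_pos h1, mul_one, add_zero]
          rw [if_pos (by omega : r < A.card), ← Finset.sum_mul]
          have h2 : ∑ t ∈ Finset.range h, (if r + t < A.card then (1 : ℝ) else 0) = (A.card : ℝ) - r := by
            rw [← Finset.sum_filter]
            have : (Finset.range h).filter (fun t => r + t < A.card) = Finset.range (A.card - r) := by
              ext t
              simp only [Finset.mem_filter, Finset.mem_range]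
              omega
            rw [this, Finset.sum_const, Finset.card_range, nsmul_eq_mul, mul_one, Nat.cast_sub (by omega)]
          rw [h2]
          ring
        · simp only [if_neg h1, mul_zero, zero_mul, Finset.sum_const_zero, add_zero]
      rw [e1]
      have cs := Finset.sum_mul_sq_le_sq_mul_sq (Finset.range h)
        (fun t => if t = 0 then (2 : ℝ) else 1) (fun t => W r F y t S)
      refine cs.trans (le_of_eq ?_)
      congr 1
      obtain ⟨h', rfl⟩ : ∃ h', h = h' + 1 := ⟨h - 1, by omega⟩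
      rw [Finset.sum_range_succ']
      simp
      ring
  have hh : (0 : ℝ) ≤ (h : ℝ) + 3 := by positivity
  have := mul_le_mul_of_nonneg_left hmain hh
  rw [← hQr]
  linarith
end FrB

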