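import Mathlib
set_option autoImplicit false
open Finset
namespace FrC

theorem sq_expand {α β : Type*} (A : Finset α) (P : Finset β) (r : α → β → Prop)
    [∀ a b, Decidable (r a b)] (h : β → ℝ) :
    ∑ T ∈ A, (∑ S ∈ P, (if r T S then h S else 0)) ^ 2 =
      ∑ S ∈ P, ∑ S' ∈ P, ((A.filter (fun T => r T S ∧ r T S')).card : ℝ) * (h S * h S') := by
  have h1 : ∀ T ∈ A, (∑ S ∈ P, (if r T S then h S else 0)) ^ 2 =
      ∑ S ∈ P, ∑ S' ∈ P, (if r T S ∧ r T S' then h S * h S' else 0) := by
    intro T _
    rw [sq, Finset.sum_mul_sum]
    refine Finset.sum_congr rfl fun S _ => Finset.sum_congr rfl fun S' _ => ?_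
    by_cases hS : r T S <;> by_cases hS' : r T S' <;> simp [hS, hS']
  rw [Finset.sum_congr rfl h1, Finset.sum_comm]
  refine Finset.sum_congr rfl fun S _ => ?_
  rw [Finset.sum_comm]
  refine Finset.sum_congr rfl fun S' _ => ?_
  rw [← Finset.sum_filter, Finset.sum_const, nsmul_eq_mul]

theorem count_c (n k : ℕ) (S S' : Finset (Fin n)) (hS : S.card = k) (hS' : S'.card = k) :
    ((((univ : Finset (Fin n)).powersetCard (k + 1)).filter (fun T => S ⊆ T ∧ S' ⊆ T)).card : ℝ) =
      (((univ : Finset (Finset (Fin n))).filter (fun R => R.card + 1 = k)).filter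
        (fun R => R ⊆ S ∧ R ⊆ S')).card + (if S = S' then (n : ℝ) - 2 * k else 0) := by
  by_cases heq : S = S'
  · subst heq
    rw [if_pos rfl]
    have hkn : k ≤ n := by
      rw [← hS]; simpa using Finset.card_le_univ S
    have h1 : (((univ : Finset (Fin n)).powersetCard (k + 1)).filter (fun T => S ⊆ T ∧ S ⊆ T)) =
        Sᶜ.image (fun a => insert a S) := by
      ext T
      simp only [mem_filter, mem_powersetCard, subset_univ, true_and, and_self, mem_image, mem_compl]
      constructor
      · rintro ⟨hT, hST⟩
        have h2 : (T \ S).card = 1 := by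
          rw [Finset.card_sdiff_of_subset hST]; omega
        obtain ⟨a, ha⟩ := Finset.card_eq_one.1 h2
        have haT : a ∈ T \ S := by rw [ha]; simp
        rw [mem_sdiff] at haT
        refine ⟨a, haT.2, ?_⟩
        ext x
        rw [mem_insert]
        constructor
        · rintro (rfl | hx)
          · exact haT.1
          · exact hST hx
        · intro hx
          by_cases hxS : x ∈ S
          · exact Or.inr hxS
          · have : x ∈ T \ S := mem_sdiff.2 ⟨hx, hxS⟩
            rw [ha, mem_singleton] at this
            exact Or.inl this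
      · rintro ⟨a, ha, rfl⟩
        exact ⟨by rw [card_insert_of_notMem ha, hS], subset_insert _ _⟩
    have h2 : (((univ : Finset (Finset (Fin n))).filter (fun R => R.card + 1 = k)).filter
        (fun R => R ⊆ S ∧ R ⊆ S)) = S.image (fun a => S.erase a) := by
      ext R
      simp only [mem_filter, mem_univ, true_and, and_self, mem_image]
      constructor
      · rintro ⟨hR, hRS⟩
        have h2 : (S \ R).card = 1 := by
          rw [Finset.card_sdiff_of_subset hRS]; omega
        obtain ⟨a, ha⟩ := Finset.card_eq_one.1 h2
        have haT : a ∈ S \ R := by rw [ha]; simp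
        rw [mem_sdiff] at haT
        refine ⟨a, haT.1, ?_⟩
        ext x
        rw [mem_erase]
        constructor
        · rintro ⟨hxa, hx⟩
          by_contra hxR
          have : x ∈ S \ R := mem_sdiff.2 ⟨hx, hxR⟩
          rw [ha, mem_singleton] at this
          exact hxa this
        · intro hx
          refine ⟨?_, hRS hx⟩
          rintro rfl
          exact haT.2 hx
      · rintro ⟨a, ha, rfl⟩
        exact ⟨by rw [card_erase_of_mem ha, hS]; have := card_pos.2 ⟨a, ha⟩; omega, erase_subset _ _⟩
    rw [h1, h2, Finset.card_image_of_injOn, Finset.card_image_of_injOn, Finset.card_compl, hS,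
      Fintype.card_fin, Nat.cast_sub hkn]
    · ring
    · intro a ha b hb hab
      simp only at hab
      by_contra hne
      have : a ∈ S.erase b := mem_erase.2 ⟨hne, ha⟩
      rw [← hab] at this
      simp at this
    · intro a ha b hb hab
      simp only [coe_compl, Set.mem_compl_iff, mem_coe] at ha hb
      simp only at hab
      have : a ∈ insert b S := by rw [← hab]; exact mem_insert_self _ _
      rw [mem_insert] at this
      exact this.resolve_right ha
  · rw [if_neg heq, add_zero]
    have hcard := Finset.card_union_add_card_inter S S'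
    have hinter : (S ∩ S').card + 1 ≤ k := by
      by_contra hcon
      have h1 : (S ∩ S').card = k := by
        have := Finset.card_le_card (inter_subset_left : S ∩ S' ⊆ S)
        omega
      have h2 : S ∩ S' = S := Finset.eq_of_subset_of_card_le inter_subset_left (by omega)
      have h3 : S ∩ S' = S' := Finset.eq_of_subset_of_card_le inter_subset_right (by omega)
      exact heq (h2.symm.trans h3)
    by_cases hk : (S ∩ S').card + 1 = k
    · have h1 : (((univ : Finset (Fin n)).powersetCard (k + 1)).filter (fun T => S ⊆ T ∧ S' ⊆ T)) =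
          {S ∪ S'} := by
        ext T
        simp only [mem_filter, mem_powersetCard, subset_univ, true_and, mem_singleton]
        constructor
        · rintro ⟨hT, h1, h2⟩
          exact (Finset.eq_of_subset_of_card_le (union_subset h1 h2) (by omega)).symm
        · rintro rfl
          exact ⟨by omega, subset_union_left, subset_union_right⟩
      have h2 : (((univ : Finset (Finset (Fin n))).filter (fun R => R.card + 1 = k)).filter
          (fun R => R ⊆ S ∧ R ⊆ S')) = {S ∩ S'} := by
        ext R
        simp only [mem_filter, mem_univ, true_and, mem_singleton]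
        constructor
        · rintro ⟨hR, h1, h2⟩
          exact Finset.eq_of_subset_of_card_le (subset_inter h1 h2) (by omega)
        · rintro rfl
          exact ⟨hk, inter_subset_left, inter_subset_right⟩
      rw [h1, h2]
      try simp
    · have h1 : (((univ : Finset (Fin n)).powersetCard (k + 1)).filter (fun T => S ⊆ T ∧ S' ⊆ T)) =
          ∅ := by
        rw [Finset.filter_eq_empty_iff]
        rintro T hT ⟨h1, h2⟩
        rw [mem_powersetCard] at hT
        have := Finset.card_le_card (union_subset h1 h2)
        omega
      have h2 : (((univ : Finset (Finset (Fin n))).filter (fun R => R.card + 1 = k)).filter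
          (fun R => R ⊆ S ∧ R ⊆ S')) = ∅ := by
        rw [Finset.filter_eq_empty_iff]
        rintro R hR ⟨h1, h2⟩
        rw [mem_filter] at hR
        have := Finset.card_le_card (subset_inter h1 h2)
        omega
      rw [h1, h2]
      try simp

/-- up operator between level k and level k+1 of the Boolean lattice is bounded below by n-2k -/
theorem up_bound (n k : ℕ) (h : Finset (Fin n) → ℝ) :
    ((n : ℝ) - 2 * k) * ∑ S ∈ (univ : Finset (Fin n)).powersetCard k, (h S) ^ 2 ≤
      ∑ T ∈ (univ : Finset (Fin n)).powersetCard (k + 1),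
        (∑ S ∈ T.powersetCard k, h S) ^ 2 := by
  have h1 : ∀ T ∈ (univ : Finset (Fin n)).powersetCard (k + 1),
      (∑ S ∈ T.powersetCard k, h S) ^ 2 =
      (∑ S ∈ (univ : Finset (Fin n)).powersetCard k, (if S ⊆ T then h S else 0)) ^ 2 := by
    intro T _
    rw [← Finset.sum_filter]
    congr 2
    ext S
    simp only [mem_filter, mem_powersetCard, subset_univ, true_and]
    tauto
  have h6 := sq_expand ((univ : Finset (Fin n)).powersetCard (k + 1))
    ((univ : Finset (Fin n)).powersetCard k) (fun T S => S ⊆ T) h
  rw [Finset.sum_congr rfl h1]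
  refine le_of_le_of_eq ?_ h6.symm
  have h2 : ∑ S ∈ (univ : Finset (Fin n)).powersetCard k, ∑ S' ∈ (univ : Finset (Fin n)).powersetCard k,
      ((((univ : Finset (Fin n)).powersetCard (k + 1)).filter (fun T => S ⊆ T ∧ S' ⊆ T)).card : ℝ) * (h S * h S')
      = ∑ S ∈ (univ : Finset (Fin n)).powersetCard k, ∑ S' ∈ (univ : Finset (Fin n)).powersetCard k,
        ((((univ : Finset (Finset (Fin n))).filter (fun R => R.card + 1 = k)).filter
        (fun R => R ⊆ S ∧ R ⊆ S')).card : ℝ) * (h S * h S') +
        ((n : ℝ) - 2 * k) * ∑ S ∈ (univ : Finset (Fin n)).powersetCard k, (h S) ^ 2 := by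
    rw [Finset.mul_sum, ← Finset.sum_add_distrib]
    refine Finset.sum_congr rfl fun S hS => ?_
    have h3 : ((n : ℝ) - 2 * k) * (h S) ^ 2 = ∑ S' ∈ (univ : Finset (Fin n)).powersetCard k,
        (if S = S' then (n : ℝ) - 2 * k else 0) * (h S * h S') := by
      rw [Finset.sum_eq_single_of_mem S hS]
      · rw [if_pos rfl]; ring
      · intro b _ hb
        rw [if_neg (Ne.symm hb), zero_mul]
    rw [h3, ← Finset.sum_add_distrib]
    refine Finset.sum_congr rfl fun S' hS' => ?_
    rw [mem_powersetCard] at hS hS'
    rw [count_c n k S S' hS.2 hS'.2]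
    ring
  rw [h2]
  have h4 := sq_expand ((univ : Finset (Finset (Fin n))).filter (fun R => R.card + 1 = k))
    ((univ : Finset (Fin n)).powersetCard k) (fun R S => R ⊆ S) h
  rw [← h4]
  have h5 : 0 ≤ ∑ T ∈ (univ : Finset (Finset (Fin n))).filter (fun R => R.card + 1 = k),
      (∑ S ∈ (univ : Finset (Fin n)).powersetCard k, (if T ⊆ S then h S else 0)) ^ 2 :=
    Finset.sum_nonneg fun _ _ => sq_nonneg _
  linarith
end FrC

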