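import Mathlib
set_option autoImplicit false
open Finset
namespace FrD
/-- a matrix with small Hilbert-Schmidt norm is small on a subspace of small codimension -/
theorem spectral_subspace {ι κ : Type} [Fintype ι] [Fintype κ] [DecidableEq ι] [DecidableEq κ]
    (B : Matrix ι κ ℝ) (τ : ℝ) (hτ : 0 < τ) :
    ∃ Z : Submodule ℝ (κ → ℝ),
      (Fintype.card κ : ℝ) ≤ Module.finrank ℝ Z + (∑ i, ∑ j, (B i j) ^ 2) / τ ∧
      ∀ z ∈ Z, ∑ i, (B.mulVec z i) ^ 2 ≤ τ * ∑ j, (z j) ^ 2 := by
  classical
  have hM := Matrix.posSemidef_conjTranspose_mul_self B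
  set M : Matrix κ κ ℝ := B.conjTranspose * B with hMd
  have hH : M.IsHermitian := hM.1
  set lam := hH.eigenvalues with hlam
  have hlam0 : ∀ j, 0 ≤ lam j := fun j => hM.eigenvalues_nonneg j
  set U : Matrix κ κ ℝ := (hH.eigenvectorUnitary : Matrix κ κ ℝ) with hU
  have hUU : U * star U = 1 := Unitary.coe_mul_star_self hH.eigenvectorUnitary
  have hspec : M = U * Matrix.diagonal lam * star U := by
    have h := hH.spectral_theorem
    rw [Unitary.conjStarAlgAut_apply] at h
    exact h
  have htr : ∑ i, ∑ j, (B i j) ^ 2 = ∑ j, lam j := by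
    have h := hH.trace_eq_sum_eigenvalues
    have h2 : M.trace = ∑ i, ∑ j, (B i j) ^ 2 := by
      rw [hMd, Matrix.trace]
      simp only [Matrix.diag_apply, Matrix.mul_apply, Matrix.conjTranspose_apply, star_trivial]
      rw [Finset.sum_comm]
      refine Finset.sum_congr rfl fun i _ => Finset.sum_congr rfl fun j _ => ?_
      ring
    rw [← h2, h]
    simp [hlam]
  let L : (κ → ℝ) →ₗ[ℝ] ({j : κ // ¬ (lam j ≤ τ)} → ℝ) :=
    { toFun := fun z j => (Matrix.mulVec (star U) z) j.1
      map_add' := by
        intro x y; funext j; simp [Matrix.mulVec_add]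
      map_smul' := by
        intro c x; funext j; simp [Matrix.mulVec_smul] }
  refine ⟨LinearMap.ker L, ?_, ?_⟩
  · have h1 := LinearMap.finrank_range_add_finrank_ker L
    have h2 : Module.finrank ℝ (LinearMap.range L) ≤ Fintype.card {j : κ // ¬ (lam j ≤ τ)} := by
      have := Submodule.finrank_le (LinearMap.range L)
      rwa [Module.finrank_fintype_fun_eq_card] at this
    rw [Module.finrank_fintype_fun_eq_card] at h1
    have h3 : (Fintype.card {j : κ // ¬ (lam j ≤ τ)} : ℝ) * τ ≤ ∑ j, lam j := by
      rw [Fintype.card_subtype]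
      calc ((Finset.univ.filter (fun j => ¬ (lam j ≤ τ))).card : ℝ) * τ
          = ∑ j ∈ Finset.univ.filter (fun j => ¬ (lam j ≤ τ)), τ := by
            rw [Finset.sum_const, nsmul_eq_mul]
        _ ≤ ∑ j ∈ Finset.univ.filter (fun j => ¬ (lam j ≤ τ)), lam j := by
            apply Finset.sum_le_sum
            intro j hj
            exact (not_le.mp (Finset.mem_filter.mp hj).2).le
        _ ≤ ∑ j, lam j := Finset.sum_le_sum_of_subset_of_nonneg (Finset.subset_univ _)
            (fun j _ _ => hlam0 j)
    rw [htr]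
    have h4 : (Fintype.card {j : κ // ¬ (lam j ≤ τ)} : ℝ) ≤ (∑ j, lam j) / τ := by
      rw [le_div_iff₀ hτ]; exact h3
    have h5 : (Fintype.card κ : ℝ) = Module.finrank ℝ (LinearMap.range L) +
        Module.finrank ℝ (LinearMap.ker L) := by
      rw [← h1]; push_cast; ring
    have h6 : (Module.finrank ℝ (LinearMap.range L) : ℝ) ≤
        (Fintype.card {j : κ // ¬ (lam j ≤ τ)} : ℝ) := by exact_mod_cast h2
    rw [h5]
    linarith
  · intro z hz
    have hz' : ∀ j, ¬ (lam j ≤ τ) → (Matrix.mulVec (star U) z) j = 0 := by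
      intro j hj
      exact congrFun (LinearMap.mem_ker.mp hz) ⟨j, hj⟩
    set w := Matrix.mulVec (star U) z with hw
    have hUw : Matrix.vecMul z U = w := by
      rw [hw]
      funext j
      simp only [Matrix.vecMul, Matrix.mulVec, dotProduct, Matrix.star_apply, star_trivial]
      exact Finset.sum_congr rfl fun i _ => by ring
    have e1 : ∑ i, (B.mulVec z i) ^ 2 = ∑ j, lam j * (w j) ^ 2 := by
      have : ∑ i, (B.mulVec z i) ^ 2 = dotProduct z (M.mulVec z) := by
        rw [hMd, ← Matrix.mulVec_mulVec, Matrix.dotProduct_mulVec]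
        have : Matrix.vecMul z B.conjTranspose = B.mulVec z := by
          funext i
          simp only [Matrix.vecMul, Matrix.mulVec, dotProduct, Matrix.conjTranspose_apply,
            star_trivial]
          exact Finset.sum_congr rfl fun i _ => by ring
        rw [this, dotProduct]
        exact Finset.sum_congr rfl fun i _ => by ring
      rw [this, hspec, ← Matrix.mulVec_mulVec, ← Matrix.mulVec_mulVec, Matrix.dotProduct_mulVec,
        hUw, ← hw, dotProduct]
      refine Finset.sum_congr rfl fun j _ => ?_
      rw [Matrix.mulVec_diagonal]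
      ring
    have e2 : ∑ j, (z j) ^ 2 = ∑ j, (w j) ^ 2 := by
      have h1 : ∑ j, (z j) ^ 2 = dotProduct z z := by
        rw [dotProduct]; exact Finset.sum_congr rfl fun i _ => by ring
      have h2 : dotProduct z z = dotProduct w w := by
        have : z = U.mulVec w := by
          rw [hw, Matrix.mulVec_mulVec, hUU, Matrix.one_mulVec]
        calc dotProduct z z = dotProduct z (U.mulVec w) := by rw [← this]
          _ = dotProduct (Matrix.vecMul z U) w := Matrix.dotProduct_mulVec _ _ _
          _ = dotProduct w w := by rw [hUw]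
      rw [h1, h2, dotProduct]
      exact Finset.sum_congr rfl fun i _ => by ring
    rw [e1, e2, Finset.mul_sum]
    apply Finset.sum_le_sum
    intro j _
    by_cases hj : lam j ≤ τ
    · exact mul_le_mul_of_nonneg_right hj (sq_nonneg _)
    · rw [hz' j hj]; simp
end FrD

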