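import Mathlib
import Pool.Agent.Helper153.FrkC
import Pool.Agent.Helper153.FrkD
set_option autoImplicit false
open Finset
namespace FrD2
open FrC FrD
/-- functions supported on a finset -/
def suppOn {α : Type} (A : Finset α) : Submodule ℝ (α → ℝ) where
  carrier := {f | ∀ x, x ∉ A → f x = 0}
  add_mem' := by
    intro f g hf hg x hx
    rw [Pi.add_apply, hf x hx, hg x hx, add_zero]
  zero_mem' := by intro x _; rfl
  smul_mem' := by
    intro c f hf x hx
    rw [Pi.smul_apply, hf x hx, smul_zero]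

theorem suppOn_finrank {α : Type} [Fintype α] (A : Finset α) :
    Module.finrank ℝ (suppOn A) ≤ A.card := by
  let R : suppOn A →ₗ[ℝ] (A → ℝ) :=
    { toFun := fun f i => f.1 i.1
      map_add' := fun _ _ => rfl
      map_smul' := fun _ _ => rfl }
  have hR : Function.Injective R := by
    intro f g hfg
    apply Subtype.ext
    funext x
    by_cases hx : x ∈ A
    · exact congrFun hfg ⟨x, hx⟩
    · rw [f.2 x hx, g.2 x hx]
  have h1 := LinearMap.finrank_le_finrank_of_injective hR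
  simpa using h1

theorem filt_pow (n k : ℕ) (T : Finset (Fin n)) :
    ((univ : Finset (Fin n)).powersetCard k).filter (fun S => S ⊆ T) = T.powersetCard k := by
  ext S
  simp only [Finset.mem_filter, Finset.mem_powersetCard, Finset.subset_univ, true_and]
  exact and_comm

theorem dim_core (n k : ℕ) (D : Finset (Finset (Fin n)))
    (hD : ∀ T ∈ D, T.card = k + 1) (c τ : ℝ) (hc : 0 < c) (hτ : 0 < τ)
    (hcτ : c + τ ≤ (n : ℝ) - 2 * k)
    (U : Submodule ℝ (Finset (Fin n) → ℝ))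
    (hU1 : ∀ u ∈ U, ∀ T, (T.card ≠ k + 1 ∨ T ∈ D) → u T = 0)
    (hU2 : ∀ u ∈ U, u ≠ 0 →
      ∑ S ∈ (univ : Finset (Fin n)).powersetCard k,
        (∑ T ∈ (univ : Finset (Fin n)).powersetCard (k + 1) with S ⊆ T, u T) ^ 2 <
      c * ∑ T ∈ (univ : Finset (Fin n)).powersetCard (k + 1), (u T) ^ 2) :
    (Module.finrank ℝ U : ℝ) + n.choose k ≤ n.choose (k + 1) - D.card + (k + 1) * D.card / τ := by
  classical
  obtain ⟨P, hPdef⟩ : ∃ P, P = (univ : Finset (Fin n)).powersetCard k := ⟨_, rfl⟩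
  obtain ⟨Q, hQdef⟩ : ∃ Q, Q = (univ : Finset (Fin n)).powersetCard (k + 1) := ⟨_, rfl⟩
  have hfilt : ∀ T : Finset (Fin n), P.filter (fun S => S ⊆ T) = T.powersetCard k := by
    intro T; rw [hPdef]; exact filt_pow n k T
  have hup : ∀ h : Finset (Fin n) → ℝ, ((n : ℝ) - 2 * k) * ∑ S ∈ P, (h S) ^ 2 ≤
      ∑ T ∈ Q, (∑ S ∈ T.powersetCard k, h S) ^ 2 := by
    intro h; rw [hPdef, hQdef]; exact up_bound n k h
  have hPcard : P.card = n.choose k := by rw [hPdef]; simp
  have hQcard : Q.card = n.choose (k + 1) := by rw [hQdef]; simp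
  have hDQ : D ⊆ Q := by
    intro T hT
    rw [hQdef, Finset.mem_powersetCard]
    exact ⟨Finset.subset_univ _, hD T hT⟩
  have hmemQ : ∀ T, T ∈ Q ↔ T.card = k + 1 := by
    intro T; rw [hQdef, Finset.mem_powersetCard]; simp
  rw [← hPdef, ← hQdef] at hU2
  -- extension by zero
  let e : ({S // S ∈ P} → ℝ) →ₗ[ℝ] (Finset (Fin n) → ℝ) :=
    { toFun := fun z S => if h : S ∈ P then z ⟨S, h⟩ else 0
      map_add' := by
        intro x y; funext S
        by_cases h : S ∈ P <;> simp [h]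
      map_smul' := by
        intro a x; funext S
        by_cases h : S ∈ P <;> simp [h] }
  have he : ∀ (z : {S // S ∈ P} → ℝ) (j : {S // S ∈ P}), e z j.1 = z j := by
    intro z j
    show (if h : j.1 ∈ P then z ⟨j.1, h⟩ else 0) = z j
    rw [dif_pos j.2]
  let B : Matrix {T // T ∈ D} {S // S ∈ P} ℝ := fun i j => if j.1 ⊆ i.1 then 1 else 0
  obtain ⟨Z, hZ1, hZ2⟩ := spectral_subspace B τ hτ
  have hsq : ∀ z : {S // S ∈ P} → ℝ, ∑ j, (z j) ^ 2 = ∑ S ∈ P, (e z S) ^ 2 := by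
    intro z
    rw [← Finset.sum_coe_sort P]
    exact Finset.sum_congr rfl fun j _ => by rw [he]
  have hBz : ∀ (z : {S // S ∈ P} → ℝ) (i : {T // T ∈ D}),
      B.mulVec z i = ∑ S ∈ i.1.powersetCard k, e z S := by
    intro z i
    rw [← hfilt, Finset.sum_filter, ← Finset.sum_coe_sort P]
    unfold Matrix.mulVec dotProduct
    refine Finset.sum_congr rfl fun j _ => ?_
    rw [he]
    show (if j.1 ⊆ i.1 then (1:ℝ) else 0) * z j = _
    split_ifs <;> simp
  have hBsq : ∑ i, ∑ j, (B i j) ^ 2 = (k + 1) * (D.card : ℝ) := by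
    have h1 : ∀ i : {T // T ∈ D}, ∑ j, (B i j) ^ 2 = (k : ℝ) + 1 := by
      intro i
      have h2 : ∑ j, (B i j) ^ 2 = ∑ S ∈ P, (if S ⊆ i.1 then (1:ℝ) else 0) := by
        rw [← Finset.sum_coe_sort P]
        refine Finset.sum_congr rfl fun j _ => ?_
        show (if j.1 ⊆ i.1 then (1:ℝ) else 0) ^ 2 = _
        split_ifs <;> simp
      rw [h2, ← Finset.sum_filter, hfilt, Finset.sum_const, Finset.card_powersetCard, hD i.1 i.2,
        Nat.choose_succ_self_right, nsmul_eq_mul, mul_one]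
      push_cast; ring
    rw [Finset.sum_congr rfl fun i _ => h1 i, Finset.sum_const, Finset.card_univ,
      Fintype.card_coe, nsmul_eq_mul]
    ring
  rw [hBsq, Fintype.card_coe, hPcard] at hZ1
  -- the map z ↦ u_z
  let Φ : ({S // S ∈ P} → ℝ) →ₗ[ℝ] (Finset (Fin n) → ℝ) :=
    { toFun := fun z T => if T ∈ Q \ D then ∑ S ∈ T.powersetCard k, e z S else 0
      map_add' := by
        intro x y; funext T
        by_cases h : T ∈ Q \ D
        · simp only [if_pos h, map_add, Pi.add_apply, Finset.sum_add_distrib]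
        · simp only [if_neg h, Pi.add_apply, add_zero]
      map_smul' := by
        intro a x; funext T
        by_cases h : T ∈ Q \ D
        · simp only [if_pos h, map_smul, Pi.smul_apply, smul_eq_mul, Finset.mul_sum,
            RingHom.id_apply]
        · simp only [if_neg h, Pi.smul_apply, smul_zero, RingHom.id_apply] }
  have hΦ : ∀ z T, Φ z T = if T ∈ Q \ D then ∑ S ∈ T.powersetCard k, e z S else 0 := fun _ _ => rfl
  have hE : ∀ z : {S // S ∈ P} → ℝ, ∑ T ∈ Q, (Φ z T) ^ 2 =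
      ∑ T ∈ Q \ D, (∑ S ∈ T.powersetCard k, e z S) ^ 2 := by
    intro z
    rw [← Finset.sum_sdiff (s₁ := D) (s₂ := Q) hDQ (f := fun T => (Φ z T) ^ 2)]
    have h1 : ∑ T ∈ D, (Φ z T) ^ 2 = 0 := by
      apply Finset.sum_eq_zero
      intro T hT
      rw [hΦ, if_neg]
      · norm_num
      · rw [Finset.mem_sdiff]; exact fun h => h.2 hT
    rw [h1, add_zero]
    refine Finset.sum_congr rfl fun T hT => ?_
    rw [hΦ, if_pos hT]
  have hlow : ∀ z ∈ Z, c * ∑ S ∈ P, (e z S) ^ 2 ≤ ∑ T ∈ Q, (Φ z T) ^ 2 := by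
    intro z hz
    have h1 := hup (e z)
    have h2 := hZ2 z hz
    rw [hsq] at h2
    have h3 : ∑ i, (B.mulVec z i) ^ 2 = ∑ T ∈ D, (∑ S ∈ T.powersetCard k, e z S) ^ 2 := by
      rw [← Finset.sum_coe_sort D]
      exact Finset.sum_congr rfl fun i _ => by rw [hBz]
    rw [h3] at h2
    rw [hE, Finset.sum_sdiff_eq_sub hDQ]
    have h4 : 0 ≤ ∑ S ∈ P, (e z S) ^ 2 := Finset.sum_nonneg fun _ _ => sq_nonneg _
    have h5 := mul_le_mul_of_nonneg_right hcτ h4
    linarith
  have hpos : ∀ z : {S // S ∈ P} → ℝ, z ≠ 0 → 0 < ∑ S ∈ P, (e z S) ^ 2 := by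
    intro z hz
    rw [← hsq]
    obtain ⟨j, hj⟩ := Function.ne_iff.1 hz
    apply Finset.sum_pos' (fun _ _ => sq_nonneg _)
    exact ⟨j, Finset.mem_univ j, by have := sq_pos_of_ne_zero hj; simpa using this⟩
  have hnotU : ∀ z ∈ Z, z ≠ 0 → Φ z ∉ U := by
    intro z hz hz0 hU
    have hA := hpos z hz0
    have hEz := hlow z hz
    have hEpos : 0 < ∑ T ∈ Q, (Φ z T) ^ 2 := lt_of_lt_of_le (by positivity) hEz
    have hne : Φ z ≠ 0 := by
      intro h0
      rw [h0] at hEpos
      simp at hEpos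
    have hlt := hU2 (Φ z) hU hne
    have hdual : ∑ S ∈ P, e z S * (∑ T ∈ Q with S ⊆ T, Φ z T) = ∑ T ∈ Q, (Φ z T) ^ 2 := by
      have h1 : ∑ S ∈ P, e z S * (∑ T ∈ Q with S ⊆ T, Φ z T) =
          ∑ S ∈ P, ∑ T ∈ Q, (if S ⊆ T then e z S * Φ z T else 0) := by
        refine Finset.sum_congr rfl fun S _ => ?_
        rw [Finset.sum_filter, Finset.mul_sum]
        refine Finset.sum_congr rfl fun T _ => ?_
        split_ifs <;> simp
      rw [h1, Finset.sum_comm]
      refine Finset.sum_congr rfl fun T hT => ?_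
      rw [← Finset.sum_filter, hfilt, ← Finset.sum_mul]
      by_cases hTD : T ∈ Q \ D
      · have h2 : Φ z T = ∑ S ∈ T.powersetCard k, e z S := by rw [hΦ, if_pos hTD]
        rw [← h2]; ring
      · have h2 : Φ z T = 0 := by rw [hΦ, if_neg hTD]
        rw [h2]; ring
    have hCS := Finset.sum_mul_sq_le_sq_mul_sq P (fun S => e z S)
      (fun S => ∑ T ∈ Q with S ⊆ T, Φ z T)
    rw [hdual] at hCS
    generalize (∑ S ∈ P, (e z S) ^ 2) = A at *
    generalize (∑ T ∈ Q, (Φ z T) ^ 2) = E at *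
    generalize (∑ S ∈ P, (∑ T ∈ Q with S ⊆ T, Φ z T) ^ 2) = G at *
    have h6 : A * G < A * (c * E) := mul_lt_mul_of_pos_left hlt hA
    have h7 : A * (c * E) ≤ E * E := by
      calc A * (c * E) = (c * A) * E := by ring
        _ ≤ E * E := mul_le_mul_of_nonneg_right hEz hEpos.le
    nlinarith
  have hinj : ∀ z ∈ Z, Φ z = 0 → z = 0 := by
    intro z hz h0
    by_contra hz0
    exact hnotU z hz hz0 (by rw [h0]; exact U.zero_mem)
  have hNfin : Module.finrank ℝ (Z.map Φ) = Module.finrank ℝ Z := by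
    have h1 : Function.Injective (Φ.domRestrict Z) := by
      rw [injective_iff_map_eq_zero]
      intro z hz
      apply Subtype.ext
      exact hinj z.1 z.2 hz
    have h2 : LinearMap.range (Φ.domRestrict Z) = Z.map Φ := by
      ext x
      constructor
      · rintro ⟨z, rfl⟩; exact ⟨z.1, z.2, rfl⟩
      · rintro ⟨z, hz, rfl⟩; exact ⟨⟨z, hz⟩, rfl⟩
    rw [← h2]
    exact LinearMap.finrank_range_of_inj h1
  have hdisj : Z.map Φ ⊓ U = ⊥ := by
    rw [eq_bot_iff]
    rintro x ⟨⟨z, hz, rfl⟩, hxU⟩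
    by_contra hx
    have hz0 : z ≠ 0 := by
      rintro rfl
      apply hx
      rw [map_zero]; exact Submodule.zero_mem _
    exact hnotU z hz hz0 hxU
  have hsup : Z.map Φ ⊔ U ≤ suppOn (Q \ D) := by
    apply sup_le
    · rintro x ⟨z, _, rfl⟩ T hT
      rw [hΦ, if_neg hT]
    · intro u hu T hT
      apply hU1 u hu
      by_cases hTD : T ∈ D
      · exact Or.inr hTD
      · left
        intro hcard
        exact hT (Finset.mem_sdiff.2 ⟨(hmemQ T).2 hcard, hTD⟩)
  have h1 := Submodule.finrank_sup_add_finrank_inf_eq (Z.map Φ) U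
  rw [hdisj, finrank_bot, add_zero, hNfin] at h1
  have h2 := Submodule.finrank_mono hsup
  have h3 := suppOn_finrank (Q \ D)
  have h4 : (Q \ D).card = Q.card - D.card := Finset.card_sdiff_of_subset hDQ
  have h5 : D.card ≤ Q.card := Finset.card_le_card hDQ
  have h6 : Module.finrank ℝ Z + Module.finrank ℝ U + D.card ≤ n.choose (k + 1) := by
    rw [← hQcard]; omega
  have h7 : (Module.finrank ℝ Z : ℝ) + Module.finrank ℝ U + D.card ≤ n.choose (k + 1) := by
    exact_mod_cast h6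
  linarith

theorem dim_bound (n r : ℕ) (hr : 1 ≤ r) (D : Finset (Finset (Fin n)))
    (hD : ∀ T ∈ D, T.card = r) (c τ : ℝ) (hc : 0 < c) (hτ : 0 < τ)
    (hcτ : c + τ ≤ (n : ℝ) - 2 * r + 2)
    (U : Submodule ℝ (Finset (Fin n) → ℝ))
    (hU1 : ∀ u ∈ U, ∀ T, (T.card ≠ r ∨ T ∈ D) → u T = 0)
    (hU2 : ∀ u ∈ U, u ≠ 0 →
      ∑ S ∈ (univ : Finset (Fin n)).powersetCard (r - 1),
        (∑ T ∈ (univ : Finset (Fin n)).powersetCard r with S ⊆ T, u T) ^ 2 <
      c * ∑ T ∈ (univ : Finset (Fin n)).powersetCard r, (u T) ^ 2) :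
    (Module.finrank ℝ U : ℝ) + n.choose (r - 1) ≤ n.choose r - D.card + r * D.card / τ := by
  obtain ⟨k, rfl⟩ : ∃ k, r = k + 1 := ⟨r - 1, by omega⟩
  simp only [Nat.add_sub_cancel] at hU2 ⊢
  have h := dim_core n k D hD c τ hc hτ (by push_cast at hcτ; linarith) U hU1 hU2
  push_cast
  exact h
end FrD2

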