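import Mathlib
set_option autoImplicit false
open Finset
namespace FrF

theorem choose_mono_half (n r : ℕ) (hn : 2 * r ≤ n) : ∀ q, q ≤ r → n.choose q ≤ n.choose r := by
  intro q hq
  obtain ⟨d, rfl⟩ := Nat.exists_eq_add_of_le hq
  clear hq
  induction d with
  | zero => exact le_rfl
  | succ d ih =>
    refine (ih (by omega)).trans ?_
    exact Nat.choose_le_succ_of_lt_half_left (by omega)

/-- an antichain of sets of size at most r, 2 r ≤ n, has an upper shadow on level r which is at least as big -/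
theorem up_family (n r : ℕ) (hn : 2 * r ≤ n) (𝒜 : Finset (Finset (Fin n)))
    (hA : IsAntichain (· ⊆ ·) (𝒜 : Set (Finset (Fin n)))) (hr : ∀ A ∈ 𝒜, A.card ≤ r) :
    ∃ D : Finset (Finset (Fin n)), D.card = 𝒜.card ∧ ∀ T ∈ D, T.card = r ∧ ∃ A ∈ 𝒜, A ⊆ T := by
  classical
  let ℬ : Finset (Finset (Fin n)) := 𝒜.image compl
  have hBcard : ℬ.card = 𝒜.card := card_image_of_injective _ compl_injective
  have hB : IsAntichain (· ⊆ ·) (ℬ : Set (Finset (Fin n))) := by
    intro s hs t ht hst hsub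
    rw [mem_coe, mem_image] at hs ht
    obtain ⟨a, ha, rfl⟩ := hs
    obtain ⟨b, hb, rfl⟩ := ht
    have hba : b ⊆ a := compl_subset_compl.mp hsub
    exact hA hb ha (fun h => hst (by rw [h])) hba
  have hBsize : ∀ B ∈ ℬ, ∃ q, q ≤ r ∧ B.card = n - q := by
    intro B hB'
    obtain ⟨a, ha, rfl⟩ := mem_image.mp hB'
    exact ⟨a.card, hr a ha, by rw [card_compl, Fintype.card_fin]⟩
  have hLYM := le_card_falling_div_choose (𝕜 := ℚ) (k := r) (α := Fin n)
    (by rw [Fintype.card_fin]; omega) hB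
  rw [Fintype.card_fin] at hLYM
  have hcpos : (0 : ℚ) < (n.choose r : ℚ) := by
    exact_mod_cast Nat.choose_pos (by omega)
  have h1 : (𝒜.card : ℚ) / n.choose r ≤
      ∑ q ∈ range (r + 1), (#(ℬ # (n - q)) : ℚ) / n.choose (n - q) := by
    have h2 : (𝒜.card : ℚ) ≤ ∑ q ∈ range (r + 1), (#(ℬ # (n - q)) : ℚ) := by
      rw [← hBcard]
      have h3 : ℬ.card ≤ ∑ q ∈ range (r + 1), #(ℬ # (n - q)) := by
        have h4 : ℬ ⊆ (range (r + 1)).biUnion (fun q => ℬ # (n - q)) := by
          intro B hB'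
          obtain ⟨q, hq, hq2⟩ := hBsize B hB'
          rw [mem_biUnion]
          exact ⟨q, mem_range.mpr (by omega), mem_slice.mpr ⟨hB', hq2⟩⟩
        exact (card_le_card h4).trans card_biUnion_le
      exact_mod_cast h3
    calc (𝒜.card : ℚ) / n.choose r ≤ (∑ q ∈ range (r + 1), (#(ℬ # (n - q)) : ℚ)) / n.choose r :=
          div_le_div_of_nonneg_right h2 hcpos.le
      _ = ∑ q ∈ range (r + 1), (#(ℬ # (n - q)) : ℚ) / n.choose r := by rw [sum_div]
      _ ≤ _ := by
          refine sum_le_sum (fun q hq => ?_)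
          have hq' : q ≤ r := by have := mem_range.mp hq; omega
          rw [Nat.choose_symm (show q ≤ n by omega)]
          refine div_le_div_of_nonneg_left (by positivity) ?_ ?_
          · exact_mod_cast Nat.choose_pos (show q ≤ n by omega)
          · exact_mod_cast choose_mono_half n r hn q hq'
  have h2 := h1.trans hLYM
  rw [Nat.choose_symm (show r ≤ n by omega), div_le_div_iff_of_pos_right hcpos] at h2
  have h3 : 𝒜.card ≤ (falling (n - r) ℬ).card := by exact_mod_cast h2
  have h4 : 𝒜.card ≤ ((falling (n - r) ℬ).image compl).card := by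
    rwa [card_image_of_injective _ compl_injective]
  obtain ⟨D, hD, hDc⟩ := exists_subset_card_eq h4
  refine ⟨D, hDc, fun T hT => ?_⟩
  obtain ⟨s, hs, rfl⟩ := mem_image.mp (hD hT)
  obtain ⟨⟨B, hB', hsB⟩, hsc⟩ := mem_falling.mp hs
  obtain ⟨a, ha, rfl⟩ := mem_image.mp hB'
  refine ⟨?_, a, ha, ?_⟩
  · rw [card_compl, Fintype.card_fin, hsc]
    omega
  · have := compl_subset_compl.mpr hsB
    rwa [compl_compl] at this
end FrF

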