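import Mathlib
set_option autoImplicit false
open Finset
namespace FrG

theorem geo_le (m : ℕ) : ∑ l ∈ Finset.Icc 1 m, (1 / 4 : ℝ) ^ (l - 1) = 4 / 3 * (1 - (1 / 4) ^ m) := by
  induction m with
  | zero => simp
  | succ m ih =>
    rw [Finset.sum_Icc_succ_top (by omega), ih, Nat.add_sub_cancel, pow_succ]
    ring

theorem ch_half (n k : ℕ) (h : 3 * k + 2 ≤ n) : (n.choose k : ℝ) ≤ (n.choose (k + 1) : ℝ) / 2 := by
  have h1 := Nat.choose_succ_right_eq n k
  have h2 : (n.choose (k + 1) : ℝ) * (k + 1) = n.choose k * ((n : ℝ) - k) := by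
    have h3 : ((n.choose (k + 1) * (k + 1) : ℕ) : ℝ) = ((n.choose k * (n - k) : ℕ) : ℝ) := by
      rw [h1]
    push_cast [Nat.cast_sub (by omega : k ≤ n)] at h3
    exact h3
  have h4 : (3 * k + 2 : ℝ) ≤ n := by exact_mod_cast h
  have h5 : (0 : ℝ) ≤ n.choose k := Nat.cast_nonneg _
  have h6 : (0 : ℝ) < k + 1 := by positivity
  have h7 : (n.choose k : ℝ) * (2 * (k + 1)) ≤ n.choose (k + 1) * (k + 1) := by
    rw [h2]
    exact mul_le_mul_of_nonneg_left (by linarith) h5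
  have h8 : (2 * (n.choose k : ℝ)) * (k + 1) ≤ n.choose (k + 1) * (k + 1) := by linarith
  have := le_of_mul_le_mul_right h8 h6
  linarith

theorem ch_pow (n r : ℕ) (hn : 3 * r + 2 ≤ n) (l : ℕ) (hl : 1 ≤ l) (h2 : 2 * l ≤ r) :
    (n.choose (r - 2 * l) : ℝ) ≤ (n.choose (r - 2) : ℝ) * (1 / 4) ^ (l - 1) := by
  induction l, hl using Nat.le_induction with
  | base => simp
  | succ l hl ih =>
    have h3 := ih (by omega)
    obtain ⟨k, hk⟩ : ∃ k, r = k + 2 * (l + 1) := ⟨r - 2 * (l + 1), by omega⟩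
    have e1 : r - 2 * (l + 1) = k := by omega
    have e2 : r - 2 * l = k + 1 + 1 := by omega
    rw [e1]
    rw [e2] at h3
    have h4 := ch_half n k (by omega)
    have h5 := ch_half n (k + 1) (by omega)
    obtain ⟨l', rfl⟩ : ∃ l', l = l' + 1 := ⟨l - 1, by omega⟩
    rw [Nat.add_sub_cancel] at h3
    rw [Nat.add_sub_cancel, pow_succ]
    linarith

theorem binom_large (n r : ℕ) (hr : 1 ≤ r) (hn : 6 * r ^ 2 + 4 * r ≤ n) :
    (r : ℝ) * (3 * r * (n.choose (r - 1) : ℝ)) / ((n : ℝ) - 4 * r) +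
      2 * r * ∑ l ∈ Finset.Icc 1 (r / 2), (n.choose (r - 2 * l) : ℝ) ≤ (n.choose (r - 1) : ℝ) := by
  have hr' : (1 : ℝ) ≤ r := by exact_mod_cast hr
  have hn' : (6 : ℝ) * r ^ 2 + 4 * r ≤ n := by exact_mod_cast hn
  have hD : (0 : ℝ) < (n : ℝ) - 4 * r := by nlinarith
  have ha : (0 : ℝ) ≤ n.choose (r - 1) := Nat.cast_nonneg _
  have h1 : (r : ℝ) * (3 * r * (n.choose (r - 1) : ℝ)) / ((n : ℝ) - 4 * r) ≤
      (n.choose (r - 1) : ℝ) / 2 := by
    rw [div_le_iff₀ hD]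
    have : (n.choose (r - 1) : ℝ) * (6 * r ^ 2) ≤ n.choose (r - 1) * ((n : ℝ) - 4 * r) :=
      mul_le_mul_of_nonneg_left (by linarith) ha
    nlinarith
  have hnr : 3 * r + 2 ≤ n := by nlinarith
  by_cases hr2 : r = 1
  · subst hr2
    have h2 : Finset.Icc 1 (1 / 2) = (∅ : Finset ℕ) := by simp
    rw [h2, Finset.sum_empty, mul_zero, add_zero]
    linarith
  · have h2 : ∑ l ∈ Finset.Icc 1 (r / 2), (n.choose (r - 2 * l) : ℝ) ≤
        4 / 3 * (n.choose (r - 2) : ℝ) := by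
      calc ∑ l ∈ Finset.Icc 1 (r / 2), (n.choose (r - 2 * l) : ℝ)
          ≤ ∑ l ∈ Finset.Icc 1 (r / 2), (n.choose (r - 2) : ℝ) * (1 / 4) ^ (l - 1) := by
            refine Finset.sum_le_sum fun l hl => ?_
            rw [Finset.mem_Icc] at hl
            exact ch_pow n r hnr l hl.1 (by omega)
        _ = (n.choose (r - 2) : ℝ) * (4 / 3 * (1 - (1 / 4) ^ (r / 2))) := by
            rw [← Finset.mul_sum, geo_le]
        _ ≤ 4 / 3 * (n.choose (r - 2) : ℝ) := by
            have h3 : (0 : ℝ) ≤ (1 / 4) ^ (r / 2) := by positivity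
            have h4 : (0 : ℝ) ≤ n.choose (r - 2) := Nat.cast_nonneg _
            nlinarith [mul_nonneg h4 h3]
    have h3 : 6 * (r : ℝ) * (n.choose (r - 2) : ℝ) ≤ n.choose (r - 1) := by
      obtain ⟨k, rfl⟩ : ∃ k, r = k + 2 := ⟨r - 2, by omega⟩
      have e1 : k + 2 - 2 = k := by omega
      have e2 : k + 2 - 1 = k + 1 := by omega
      rw [e1, e2]
      have h4 := Nat.choose_succ_right_eq n k
      have h5 : (n.choose (k + 1) : ℝ) * (k + 1) = n.choose k * ((n : ℝ) - k) := by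
        have h6 : ((n.choose (k + 1) * (k + 1) : ℕ) : ℝ) = ((n.choose k * (n - k) : ℕ) : ℝ) := by
          rw [h4]
        push_cast [Nat.cast_sub (by omega : k ≤ n)] at h6
        exact h6
      have h7 : (0 : ℝ) ≤ n.choose k := Nat.cast_nonneg _
      have h8 : (0 : ℝ) ≤ n.choose (k + 1) := Nat.cast_nonneg _
      push_cast at hn' ⊢
      have hk : (0 : ℝ) ≤ k := Nat.cast_nonneg _
      have h9 : (n.choose k : ℝ) * (6 * (k + 2) ^ 2) ≤ n.choose (k + 1) * (k + 2) := by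
        have h10 : (n.choose k : ℝ) * (6 * (k + 2) ^ 2) ≤ n.choose k * ((n : ℝ) - k) :=
          mul_le_mul_of_nonneg_left (by nlinarith) h7
        nlinarith
      have h11 : (6 * ((k : ℝ) + 2) * n.choose k) * (k + 2) ≤ n.choose (k + 1) * (k + 2) := by
        nlinarith
      exact le_of_mul_le_mul_right h11 (by positivity)
    have h4 := mul_le_mul_of_nonneg_left h2 (by positivity : (0 : ℝ) ≤ 2 * r)
    linarith

end FrG

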