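import Mathlib
set_option autoImplicit false
open Finset
namespace FrH

lemma single_sum {X : Type*} [DecidableEq X] (F : Finset X) (P : X → Prop) [DecidablePred P] (w : X → ℕ)
    (h : ∀ A ∈ F, ∀ B ∈ F, P A → P B → A = B) :
    (∑ A ∈ F, if P A then w A else 0) = 0 ∨
      ∃ A ∈ F, P A ∧ (∑ A ∈ F, if P A then w A else 0) = w A := by
  by_cases hA : ∃ A ∈ F, P A
  · obtain ⟨A, hAF, hPA⟩ := hA
    right
    refine ⟨A, hAF, hPA, ?_⟩
    rw [Finset.sum_eq_single_of_mem A hAF]
    · rw [if_pos hPA]
    · intro B hB hBA
      rw [if_neg]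
      intro hPB
      exact hBA (h B hB A hAF hPB hPA)
  · left
    push Not at hA
    exact Finset.sum_eq_zero fun A hAF => if_neg (hA A hAF)

/-- double counting of chains for F and its complement family -/
theorem chain_bound (n k M : ℕ) (hk : 1 ≤ k) (hkn : k ≤ n) (F : Finset (Finset (Fin n)))
    (hF : IsAntichain (· ⊆ ·) (F : Set (Finset (Fin n))))
    (hd : ∀ A ∈ F, ∀ B ∈ F, (symmDiff A B).card ≤ n - k)
    (h1 : ∀ i, i ≤ n → n.choose i ≤ M)
    (h2 : ∀ i j, i + k ≤ j → j ≤ n → n.choose i + n.choose j ≤ M) :
    2 * F.card ≤ M := by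
  classical
  have hcard : ∀ A : Finset (Fin n), A.card ≤ n := fun A => by
    simpa using A.card_le_univ
  have hcompl : ∀ A : Finset (Fin n), Aᶜ.card = n - A.card := fun A => by
    rw [Finset.card_compl, Fintype.card_fin]
  have hcont : ∀ A : Finset (Fin n), (Numbering.prefixed A).card * n.choose A.card = n.factorial := by
    intro A
    rw [Numbering.card_prefixed, Fintype.card_fin,
      ← Nat.choose_mul_factorial_mul_factorial (hcard A)]
    ring
  have hper : ∀ f : Numbering (Fin n),
      (∑ A ∈ F, if Numbering.IsPrefix f A then n.choose A.card else 0) +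
      (∑ A ∈ F, if Numbering.IsPrefix f Aᶜ then n.choose (Aᶜ).card else 0) ≤ M := by
    intro f
    have s1 := single_sum F (fun A => Numbering.IsPrefix f A) (fun A => n.choose A.card) (by
      intro A hA B hB hPA hPB
      rcases le_total A.card B.card with h | h
      · exact hF.eq hA hB (hPA.subset_of_card_le_card hPB h)
      · exact (hF.eq hB hA (hPB.subset_of_card_le_card hPA h)).symm)
    have s2 := single_sum F (fun A => Numbering.IsPrefix f Aᶜ) (fun A => n.choose (Aᶜ).card) (by
      intro A hA B hB hPA hPB
      rcases le_total (Aᶜ).card (Bᶜ).card with h | h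
      · exact (hF.eq hB hA (Finset.compl_subset_compl.1 (hPA.subset_of_card_le_card hPB h))).symm
      · exact hF.eq hA hB (Finset.compl_subset_compl.1 (hPB.subset_of_card_le_card hPA h)))
    rcases s1 with s1 | ⟨A, hA, hPA, s1⟩ <;> rcases s2 with s2 | ⟨B, hB, hPB, s2⟩
    · rw [s1, s2]; exact Nat.zero_le _
    · rw [s1, s2, zero_add]; exact h1 _ (hcard _)
    · rw [s1, s2, add_zero]; exact h1 _ (hcard _)
    · rw [s1, s2]
      have hAB := hd A hA B hB
      have hA' := hcard A
      have hB' := hcard B
      rcases le_total A.card (Bᶜ).card with h | h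
      · have hs := hPA.subset_of_card_le_card hPB h
        have hdis : Disjoint A B := by
          rw [Finset.disjoint_left]
          intro x hx hxB
          exact Finset.mem_compl.1 (hs hx) hxB
        rw [hdis.symmDiff_eq_sup, Finset.sup_eq_union, Finset.card_union_of_disjoint hdis] at hAB
        have := hcompl B
        exact h2 _ _ (by omega) (hcard _)
      · have hs := hPB.subset_of_card_le_card hPA h
        have hdis : Disjoint Aᶜ Bᶜ := by
          rw [Finset.disjoint_left]
          intro x hx hxB
          exact Finset.mem_compl.1 hx (hs hxB)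
        rw [← compl_symmDiff_compl, hdis.symmDiff_eq_sup, Finset.sup_eq_union,
          Finset.card_union_of_disjoint hdis] at hAB
        have e1 := hcompl A
        have e2 := hcompl B
        rw [add_comm]
        exact h2 _ _ (by omega) (hcard _)
  have hsum := Finset.sum_le_card_nsmul (Finset.univ : Finset (Numbering (Fin n))) _ M
    (fun f _ => hper f)
  rw [Finset.sum_add_distrib, Finset.sum_comm, Finset.sum_comm (s := Finset.univ) (t := F)
    (f := fun f A => if Numbering.IsPrefix f Aᶜ then n.choose (Aᶜ).card else 0)] at hsum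
  have e1 : ∀ A : Finset (Fin n),
      (∑ f : Numbering (Fin n), if Numbering.IsPrefix f A then n.choose A.card else 0) =
      n.factorial := by
    intro A
    rw [← hcont A, ← Finset.sum_filter, Finset.sum_const, smul_eq_mul]
    rfl
  simp only [e1, Finset.sum_const, smul_eq_mul] at hsum
  rw [Finset.card_univ, Fintype.card_numbering, Fintype.card_fin] at hsum
  have hpos := Nat.factorial_pos n
  refine Nat.le_of_mul_le_mul_left ?_ hpos
  calc n.factorial * (2 * F.card) = F.card * n.factorial + F.card * n.factorial := by ring
    _ ≤ n.factorial * M := hsum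
end FrH

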