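import Mathlib
set_option autoImplicit false
open Finset
namespace FrI

/-- main ratio inequality -/
theorem ratio (k N : ℕ) (h : k ^ 2 + 1 ≤ N) : ∀ (d p : ℕ), N = 2 * p + k + d →
    ((k : ℤ) - d) * (N.choose (p + d) : ℤ) ≤ ((k : ℤ) + d) * (N.choose p : ℤ) := by
  intro d
  induction d using Nat.twoStepInduction with
  | zero => intro p _; simp
  | one =>
    intro p hN
    have h1 : N.choose (p + 1) * (p + 1) = N.choose p * (p + k + 1) := by
      have := Nat.choose_succ_right_eq N p
      rw [this]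
      congr 1
      omega
    have h1' : (N.choose (p + 1) : ℤ) * (p + 1) = (N.choose p : ℤ) * (p + k + 1) := by
      exact_mod_cast h1
    have hk : (k : ℤ) ^ 2 ≤ 2 * p + k := by
      have : k ^ 2 ≤ 2 * p + k := by omega
      exact_mod_cast this
    have hc : (0 : ℤ) ≤ (N.choose p : ℤ) := by positivity
    have hpos : (0 : ℤ) < (p : ℤ) + 1 := by positivity
    refine le_of_mul_le_mul_right ?_ hpos
    have e1 : ((k : ℤ) - (1 : ℕ)) * (N.choose (p + 1) : ℤ) * ((p : ℤ) + 1) =
        ((k : ℤ) - 1) * (p + k + 1) * (N.choose p : ℤ) := by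
      push_cast
      rw [mul_assoc, h1']; ring
    rw [e1]
    push_cast
    nlinarith [mul_nonneg hc (sub_nonneg.2 hk)]
  | more d ih _ =>
    intro p hN
    have ih' := ih (p + 1) (by omega)
    have e0 : p + 1 + d = p + d + 1 := by ring
    rw [e0] at ih'
    have h1 : N.choose (p + d + 1 + 1) * (p + d + 1 + 1) = N.choose (p + d + 1) * (p + k + 1) := by
      have := Nat.choose_succ_right_eq N (p + d + 1)
      rw [this]
      congr 1
      omega
    have h2 : N.choose (p + 1) * (p + 1) = N.choose p * (p + k + d + 2) := by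
      have := Nat.choose_succ_right_eq N p
      rw [this]
      congr 1
      omega
    have e1 : p + (d + 2) = p + d + 1 + 1 := by ring
    rw [e1]
    set X : ℤ := (N.choose (p + d + 1 + 1) : ℤ) with hX
    set Y : ℤ := (N.choose (p + d + 1) : ℤ) with hY
    set Z : ℤ := (N.choose (p + 1) : ℤ) with hZ
    set W : ℤ := (N.choose p : ℤ) with hW
    have h1' : X * (p + d + 1 + 1) = Y * (p + k + 1) := by
      rw [hX, hY]; exact_mod_cast h1
    have h2' : Z * (p + 1) = W * (p + k + d + 2) := by
      rw [hZ, hW]; exact_mod_cast h2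
    have hX0 : 0 ≤ X := by rw [hX]; positivity
    have hW0 : 0 ≤ W := by rw [hW]; positivity
    have hZ0 : 0 ≤ Z := by rw [hZ]; positivity
    push_cast
    rcases Nat.lt_or_ge (d + 2) k with hdk | hdk
    · have hd1 : (0 : ℤ) < (k : ℤ) - (d + 2) := by
        have : ((d + 2 : ℕ) : ℤ) < (k : ℤ) := by exact_mod_cast hdk
        push_cast at this
        linarith
      have hk : (k : ℤ) ^ 2 ≤ 2 * p + k + d + 1 := by
        have : k ^ 2 ≤ 2 * p + k + d + 1 := by omega
        exact_mod_cast this
      have hp0 : (0 : ℤ) ≤ p := by positivity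
      have hd0 : (0 : ℤ) ≤ d := by positivity
      have hk0 : (0 : ℤ) ≤ k := by positivity
      have hpos : (0 : ℤ) < ((p : ℤ) + d + 1 + 1) * (p + 1) * (k - d) := by
        have : (0 : ℤ) < (k : ℤ) - d := by linarith
        positivity
      refine le_of_mul_le_mul_right ?_ hpos
      have s1 : ((k : ℤ) - (d + 2)) * X * (((p : ℤ) + d + 1 + 1) * (p + 1) * (k - d)) =
          (k - (d + 2)) * (p + 1) * (p + k + 1) * ((k - d) * Y) := by
        calc ((k : ℤ) - (d + 2)) * X * (((p : ℤ) + d + 1 + 1) * (p + 1) * (k - d))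
            = (k - (d + 2)) * (p + 1) * (k - d) * (X * (p + d + 1 + 1)) := by ring
          _ = _ := by rw [h1']; ring
      have s2 : ((k : ℤ) - (d + 2)) * (p + 1) * (p + k + 1) * ((k - d) * Y) ≤
          (k - (d + 2)) * (p + 1) * (p + k + 1) * ((k + d) * Z) := by
        refine mul_le_mul_of_nonneg_left ih' ?_
        positivity
      have s3 : ((k : ℤ) - (d + 2)) * (p + 1) * (p + k + 1) * ((k + d) * Z) =
          (k - (d + 2)) * (p + k + 1) * (k + d) * (p + k + d + 2) * W := by
        calc ((k : ℤ) - (d + 2)) * (p + 1) * (p + k + 1) * ((k + d) * Z)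
            = (k - (d + 2)) * (p + k + 1) * (k + d) * (Z * (p + 1)) := by ring
          _ = _ := by rw [h2']; ring
      have s4 : ((k : ℤ) - (d + 2)) * (p + k + 1) * (k + d) * (p + k + d + 2) ≤
          (k + (d + 2)) * ((p + d + 1 + 1) * (p + 1) * (k - d)) := by
        have key : ((k : ℤ) + (d + 2)) * ((p + d + 1 + 1) * (p + 1) * (k - d)) -
            (k - (d + 2)) * (p + k + 1) * (k + d) * (p + k + d + 2) =
            k * (2 * p + k + d + 2) * ((2 * p + k + d + 3) + (d + 1) ^ 2 - k ^ 2) := by ring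
        have h3 : (0 : ℤ) ≤ (2 * p + k + d + 3) + (d + 1) ^ 2 - k ^ 2 := by
          nlinarith [sq_nonneg ((d : ℤ) + 1)]
        have : (0 : ℤ) ≤ k * (2 * p + k + d + 2) * ((2 * p + k + d + 3) + (d + 1) ^ 2 - k ^ 2) := by
          positivity
        linarith
      rw [s1]
      refine s2.trans ?_
      rw [s3]
      calc ((k : ℤ) - (d + 2)) * (p + k + 1) * (k + d) * (p + k + d + 2) * W
          ≤ (k + (d + 2)) * ((p + d + 1 + 1) * (p + 1) * (k - d)) * W :=
            mul_le_mul_of_nonneg_right s4 hW0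
        _ = _ := by ring
    · have hd1 : (k : ℤ) - (d + 2) ≤ 0 := by
        have : (k : ℤ) ≤ ((d + 2 : ℕ) : ℤ) := by exact_mod_cast hdk
        push_cast at this
        linarith
      have hk0 : (0 : ℤ) ≤ k := by positivity
      have hd0 : (0 : ℤ) ≤ d := by positivity
      have l1 : ((k : ℤ) - (d + 2)) * X ≤ 0 := mul_nonpos_of_nonpos_of_nonneg hd1 hX0
      have l2 : 0 ≤ ((k : ℤ) + (d + 2)) * W := by positivity
      linarith

theorem dif (n q : ℕ) : ((n : ℤ) + 1) * ((n.choose (q + 1) : ℤ) - (n.choose q : ℤ)) =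
    ((n : ℤ) + 1 - 2 * (q + 1)) * ((n + 1).choose (q + 1) : ℤ) := by
  have h1 : (n + 1) * n.choose q = (n + 1).choose (q + 1) * (q + 1) := Nat.add_one_mul_choose_eq n q
  have h2 : (n + 1).choose (q + 1) = n.choose q + n.choose (q + 1) := Nat.choose_succ_succ n q
  have h1' : ((n : ℤ) + 1) * (n.choose q : ℤ) = ((n + 1).choose (q + 1) : ℤ) * (q + 1) := by
    exact_mod_cast h1
  have h2' : ((n + 1).choose (q + 1) : ℤ) = (n.choose q : ℤ) + (n.choose (q + 1) : ℤ) := by
    exact_mod_cast h2
  have h3 : (n.choose (q + 1) : ℤ) = ((n + 1).choose (q + 1) : ℤ) - (n.choose q : ℤ) := by linarith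
  rw [h3]
  linear_combination (-2 : ℤ) * h1'

theorem step (n k x y : ℕ) (h : k ^ 2 ≤ n) (hxy : x ≤ y) (hs : x + y + k + 1 = n) :
    n.choose x + n.choose (y + 1) ≤ n.choose (x + 1) + n.choose y := by
  obtain ⟨d, rfl⟩ := Nat.exists_eq_add_of_le hxy
  have hr := ratio k (n + 1) (by omega) d (x + 1) (by omega)
  have d1 := dif n x
  have d2 := dif n (x + d)
  have e : x + 1 + d = x + d + 1 := by ring
  rw [e] at hr
  have hn : (n : ℤ) = x + (x + d) + k + 1 := by
    rw [← hs]; push_cast; ring
  have c1 : (n : ℤ) + 1 - 2 * ((x : ℤ) + 1) = k + d := by rw [hn]; ring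
  have c2 : (n : ℤ) + 1 - 2 * (((x + d : ℕ) : ℤ) + 1) = k - d := by rw [hn]; push_cast; ring
  rw [c1] at d1
  rw [c2] at d2
  have hpos : (0 : ℤ) < (n : ℤ) + 1 := by positivity
  have : ((n.choose (x + d + 1) : ℤ) - (n.choose (x + d) : ℤ)) ≤
      (n.choose (x + 1) : ℤ) - (n.choose x : ℤ) := by
    refine le_of_mul_le_mul_left ?_ hpos
    rw [d1, d2]
    exact hr
  have h2 : (n.choose x : ℤ) + (n.choose (x + d + 1) : ℤ) ≤
      (n.choose (x + 1) : ℤ) + (n.choose (x + d) : ℤ) := by linarith
  exact_mod_cast h2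

theorem conv (n k a b : ℕ) (h : k ^ 2 ≤ n) (hab : a ≤ b) (hs : a + b + k = n) :
    ∀ t, t ≤ a → n.choose (a - t) + n.choose (b + t) ≤ n.choose a + n.choose b := by
  intro t
  induction t with
  | zero => intro _; simp
  | succ t ih =>
    intro ht
    refine le_trans ?_ (ih (by omega))
    have := step n k (a - (t + 1)) (b + t) h (by omega) (by omega)
    have e : a - (t + 1) + 1 = a - t := by omega
    rw [e] at this
    exact this

theorem mono (n : ℕ) {p q : ℕ} (hpq : p ≤ q) : q ≤ n / 2 → n.choose p ≤ n.choose q := by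
  induction q, hpq using Nat.le_induction with
  | base => intro _; exact le_rfl
  | succ q hq ih =>
    intro h
    exact (ih (by omega)).trans (Nat.choose_le_succ_of_lt_half_left (by omega))

theorem core (n k p q : ℕ) (hk : 1 ≤ k) (h : k ^ 2 ≤ n) (hpq : p ≤ q) (hs : p + q + k ≤ n) :
    n.choose p + n.choose q ≤ n.choose ((n - k) / 2) + n.choose ((n - k + 1) / 2) := by
  rcases Nat.le_or_ge q ((n - k + 1) / 2) with hq | hq
  · have h1 : n.choose p ≤ n.choose ((n - k) / 2) := mono n (by omega) (by omega)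
    have h2 : n.choose q ≤ n.choose ((n - k + 1) / 2) := mono n hq (by omega)
    omega
  · have hc := conv n k ((n - k) / 2) ((n - k + 1) / 2) h (by omega) (by omega)
      (q - (n - k + 1) / 2) (by omega)
    have e : (n - k + 1) / 2 + (q - (n - k + 1) / 2) = q := by omega
    rw [e] at hc
    have h1 : n.choose p ≤ n.choose ((n - k) / 2 - (q - (n - k + 1) / 2)) :=
      mono n (by omega) (by omega)
    omega

theorem pair_bound (n k : ℕ) (hk : 1 ≤ k) (hkn : k ≤ n) (h : k ^ 2 ≤ n) (i j : ℕ)
    (hij : i + k ≤ j) (hj : j ≤ n) :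
    n.choose i + n.choose j ≤ n.choose ((n - k) / 2) + n.choose ((n - k + 1) / 2) := by
  rw [← Nat.choose_symm hj]
  rcases Nat.le_total i (n - j) with hle | hle
  · exact core n k i (n - j) hk h hle (by omega)
  · rw [add_comm (n.choose i)]
    exact core n k (n - j) i hk h hle (by omega)
theorem single_bound (n k : ℕ) (hk : 1 ≤ k) (hkn : k ≤ n) (h : k ^ 2 ≤ n) (i : ℕ) (hi : i ≤ n) :
    n.choose i ≤ n.choose ((n - k) / 2) + n.choose ((n - k + 1) / 2) := by
  rcases Nat.lt_or_ge n (i + k) with h1 | h1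
  swap
  · exact (Nat.le_add_right _ _).trans (pair_bound n k hk hkn h i (i + k) le_rfl h1)
  · rw [← Nat.choose_symm hi]
    have hki : k ≤ i := by
      rcases Nat.lt_or_ge k 2 with h2 | h2
      · have : k = 1 := by omega
        subst this
        rcases Nat.eq_zero_or_pos i with h3 | h3
        · subst h3; omega
        · exact h3
      · have : 2 * k ≤ n := by nlinarith
        omega
    exact (Nat.le_add_right _ _).trans
      (pair_bound n k hk hkn h (n - i) (n - i + k) le_rfl (by omega))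
end FrI

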