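import Mathlib
set_option autoImplicit false
open Finset
namespace FrJ

def j7195_m {n : ℕ} (T : Finset (Fin n)) : Finset (Fin n) → ℚ := fun x => if T ⊆ x then 1 else 0

def j7195_W (n i : ℕ) : Submodule ℚ (Finset (Fin n) → ℚ) :=
  Submodule.span ℚ (j7195_m '' {T : Finset (Fin n) | T.card ≤ i})

theorem j7195_one (n i : ℕ) : (fun _ => 1 : Finset (Fin n) → ℚ) ∈ j7195_W n i := by
  apply Submodule.subset_span
  exact ⟨∅, by simp, by funext x; simp [j7195_m]⟩

theorem j7195_mono (n i : ℕ) : j7195_W n i ≤ j7195_W n (i + 1) := by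
  apply Submodule.span_mono
  apply Set.image_mono
  intro T hT
  simp only [Set.mem_setOf_eq] at hT ⊢
  omega

theorem j7195_mulj (n i : ℕ) (j : Fin n) (f : Finset (Fin n) → ℚ) (hf : f ∈ j7195_W n i) :
    (fun x => f x * (if j ∈ x then 1 else 0)) ∈ j7195_W n (i + 1) := by
  have : (fun x => f x * (if j ∈ x then 1 else 0)) =
      (LinearMap.mulRight ℚ (fun x : Finset (Fin n) => if j ∈ x then (1:ℚ) else 0)) f := by
    funext x; simp [LinearMap.mulRight]
  rw [this]
  unfold j7195_W at hf
  induction hf using Submodule.span_induction with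
  | mem f hf =>
    obtain ⟨T, hT, rfl⟩ := hf
    apply Submodule.subset_span
    refine ⟨insert j T, ?_, ?_⟩
    · simp only [Set.mem_setOf_eq] at hT ⊢
      exact (Finset.card_insert_le j T).trans (by omega)
    · funext x
      simp only [j7195_m, LinearMap.mulRight_apply, Pi.mul_apply, Finset.insert_subset_iff]
      by_cases h1 : j ∈ x <;> by_cases h2 : T ⊆ x <;> simp [h1, h2]
  | zero => rw [map_zero]; exact Submodule.zero_mem _
  | add f g _ _ hf hg =>
    rw [map_add]
    refine Submodule.add_mem _ (hf ?_) (hg ?_)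
    · funext x; simp [LinearMap.mulRight]
    · funext x; simp [LinearMap.mulRight]
  | smul c f _ hf =>
    rw [map_smul]
    exact Submodule.smul_mem _ _ (hf (by funext x; simp [LinearMap.mulRight]))

theorem j7195_mulA (n i : ℕ) (A : Finset (Fin n)) (a b : ℚ) (f : Finset (Fin n) → ℚ)
    (hf : f ∈ j7195_W n i) :
    (fun x => f x * (a + b * ((x \ A).card : ℚ))) ∈ j7195_W n (i + 1) := by
  have h1 : ∀ x : Finset (Fin n), ((x \ A).card : ℚ) = ∑ j ∈ Aᶜ, (if j ∈ x then (1:ℚ) else 0) := by
    intro x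
    rw [Finset.sum_boole]
    congr 2
    ext j
    simp [and_comm]
  have h2 : (fun x => f x * (a + b * ((x \ A).card : ℚ))) =
      a • f + b • ∑ j ∈ Aᶜ, (fun x => f x * (if j ∈ x then (1:ℚ) else 0)) := by
    funext x
    simp only [Pi.add_apply, Pi.smul_apply, smul_eq_mul, Finset.sum_apply]
    rw [h1, ← Finset.mul_sum]
    ring
  rw [h2]
  refine Submodule.add_mem _ (Submodule.smul_mem _ _ (j7195_mono n i hf))
    (Submodule.smul_mem _ _ (Submodule.sum_mem _ fun j _ => j7195_mulj n i j f hf))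

def j7195_p {n : ℕ} (r : ℕ) (A : Finset (Fin n)) : Finset (Fin n) → ℚ :=
  fun x => ∏ s ∈ range r, (1 + (-(1 / ((s : ℚ) + 1))) * ((x \ A).card : ℚ))

theorem j7195_p_mem (n r : ℕ) (A : Finset (Fin n)) : j7195_p r A ∈ j7195_W n r := by
  induction r with
  | zero =>
    have : j7195_p 0 A = (fun _ => 1 : Finset (Fin n) → ℚ) := by
      funext x; simp [j7195_p]
    rw [this]; exact j7195_one n 0
  | succ r ih =>
    have : j7195_p (r + 1) A = fun x => j7195_p r A x *
        (1 + (-(1 / ((r : ℚ) + 1))) * ((x \ A).card : ℚ)) := by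
      funext x
      simp only [j7195_p, Finset.prod_range_succ]
    rw [this]
    exact j7195_mulA n r A _ _ _ ih

theorem j7195_p_self {n : ℕ} (r : ℕ) (A : Finset (Fin n)) : j7195_p r A A = 1 := by
  simp [j7195_p]

theorem j7195_p_zero {n : ℕ} (r : ℕ) (A B : Finset (Fin n)) (h1 : 1 ≤ (B \ A).card)
    (h2 : (B \ A).card ≤ r) : j7195_p r A B = 0 := by
  unfold j7195_p
  apply Finset.prod_eq_zero (i := (B \ A).card - 1)
  · rw [Finset.mem_range]; omega
  · have : (((B \ A).card - 1 : ℕ) : ℚ) + 1 = ((B \ A).card : ℚ) := by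
      rw [Nat.cast_sub h1]; simp
    rw [this]
    have h0 : ((B \ A).card : ℚ) ≠ 0 := by
      have : (B \ A).card ≠ 0 := by omega
      exact_mod_cast this
    field_simp
    ring

theorem general_bound (n r : ℕ) (F : Finset (Finset (Fin n)))
    (hF : IsAntichain (· ⊆ ·) (F : Set (Finset (Fin n))))
    (hd : ∀ A ∈ F, ∀ B ∈ F, A.card ≤ B.card → (A \ B).card ≤ r) :
    F.card ≤ ∑ s ∈ range (r + 1), n.choose s := by
  have hz : ∀ A ∈ F, ∀ B ∈ F, B ≠ A → B.card ≤ A.card → j7195_p r A B = 0 := by
    intro A hA B hB hne hc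
    apply j7195_p_zero
    · rw [Nat.one_le_iff_ne_zero, Ne, Finset.card_eq_zero, Finset.sdiff_eq_empty_iff_subset]
      exact fun h => hF hB hA hne h
    · exact hd B hB A hA hc
  have hli : LinearIndependent ℚ (fun A : F => j7195_p r (A : Finset (Fin n))) := by
    rw [linearIndependent_iff']
    intro s g hs
    by_contra hne
    push Not at hne
    obtain ⟨i, his, hgi⟩ := hne
    have hne' : (s.filter (fun i => g i ≠ 0)).Nonempty := ⟨i, by simp [his, hgi]⟩
    obtain ⟨B, hB, hmin⟩ := Finset.exists_min_image _ (fun A : F => (A : Finset (Fin n)).card) hne'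
    rw [Finset.mem_filter] at hB
    have h1 := congrFun hs (B : Finset (Fin n))
    simp only [Finset.sum_apply, Pi.smul_apply, smul_eq_mul, Pi.zero_apply] at h1
    rw [Finset.sum_eq_single B] at h1
    · rw [j7195_p_self, mul_one] at h1
      exact hB.2 h1
    · intro A hA hAB
      by_cases hgA : g A = 0
      · rw [hgA, zero_mul]
      · rw [hz A A.2 B B.2 (fun h => hAB (Subtype.ext h.symm))
          (hmin A (by simp [hA, hgA])), mul_zero]
    · intro h; exact absurd hB.1 h
  let w : Finset (Finset (Fin n) → ℚ) :=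
    ((range (r + 1)).biUnion (fun s => powersetCard s (univ : Finset (Fin n)))).image j7195_m
  have hw : (w : Set (Finset (Fin n) → ℚ)) = j7195_m '' {T : Finset (Fin n) | T.card ≤ r} := by
    ext f
    simp only [w, Finset.coe_image, Set.mem_image, Finset.mem_coe, Finset.mem_biUnion,
      Finset.mem_range, Finset.mem_powersetCard, Finset.subset_univ, true_and, Set.mem_setOf_eq]
    constructor
    · rintro ⟨T, ⟨s, hs, hT⟩, rfl⟩
      exact ⟨T, by omega, rfl⟩
    · rintro ⟨T, hT, rfl⟩
      exact ⟨T, ⟨T.card, by omega, rfl⟩, rfl⟩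
  have hle := linearIndependent_le_span_aux' (fun A : F => j7195_p r (A : Finset (Fin n))) hli
    (w : Set (Finset (Fin n) → ℚ)) (by
      rintro _ ⟨A, rfl⟩
      rw [hw]
      exact j7195_p_mem n r A)
  rw [Fintype.card_coe] at hle
  calc F.card ≤ Fintype.card (w : Set (Finset (Fin n) → ℚ)) := hle
    _ = w.card := by simp
    _ ≤ ((range (r + 1)).biUnion (fun s => powersetCard s (univ : Finset (Fin n)))).card :=
        Finset.card_image_le
    _ ≤ ∑ s ∈ range (r + 1), (powersetCard s (univ : Finset (Fin n))).card :=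
        Finset.card_biUnion_le
    _ = ∑ s ∈ range (r + 1), n.choose s := by simp
end FrJ

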