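import Mathlib
set_option autoImplicit false
open Finset
namespace FrK
theorem choose_mono_half (n r : ℕ) (hn : 2 * r + 1 ≤ n) : ∀ k, k ≤ r → n.choose k ≤ n.choose r := by
  intro k hk
  induction r with
  | zero =>
    have : k = 0 := by omega
    rw [this]
  | succ r ih =>
    rcases Nat.lt_or_ge k (r + 1) with h | h
    · exact (ih (by omega) (by omega)).trans (Nat.choose_le_succ_of_lt_half_left (by omega))
    · have : k = r + 1 := by omega
      rw [this]

theorem lym_bound (n r : ℕ) (F : Finset (Finset (Fin n)))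
    (hF : IsAntichain (· ⊆ ·) (F : Set (Finset (Fin n))))
    (h : ∀ A ∈ F, n.choose A.card ≤ n.choose r) (hr : r ≤ n) : F.card ≤ n.choose r := by
  have h1 := Finset.lubell_yamamoto_meshalkin_inequality_sum_inv_choose (𝕜 := ℚ) hF
  rw [Fintype.card_fin] at h1
  have hpos : 0 < (n.choose r : ℚ) := by exact_mod_cast Nat.choose_pos hr
  have h2 : ∑ s ∈ F, ((n.choose r : ℚ))⁻¹ ≤ ∑ s ∈ F, ((n.choose s.card : ℚ))⁻¹ := by
    apply Finset.sum_le_sum
    intro s hs
    have hp : 0 < (n.choose s.card : ℚ) := by
      exact_mod_cast Nat.choose_pos (by simpa using Finset.card_le_univ s)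
    apply inv_anti₀ hp
    exact_mod_cast h s hs
  rw [Finset.sum_const, nsmul_eq_mul] at h2
  have h3 := h2.trans h1
  rw [← div_eq_mul_inv, div_le_one hpos] at h3
  exact_mod_cast h3

/-- sum of `g` over sets of size `m` containing `T` -/
def S {n : ℕ} (m : ℕ) (g : Finset (Fin n) → ℚ) (T : Finset (Fin n)) : ℚ :=
  ∑ X ∈ powersetCard m univ, if T ⊆ X then g X else 0

theorem S_down_step {n : ℕ} (m j : ℕ) (hj : j < m) (g : Finset (Fin n) → ℚ)
    (h : ∀ T : Finset (Fin n), T.card = j + 1 → S m g T = 0) :
    ∀ T : Finset (Fin n), T.card = j → S m g T = 0 := by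
  intro T hT
  have h1 : ∑ a ∈ Tᶜ, S m g (insert a T) = 0 := by
    apply Finset.sum_eq_zero
    intro a ha
    apply h
    rw [Finset.card_insert_of_notMem (by simpa using ha), hT]
  have h2 : ∑ a ∈ Tᶜ, S m g (insert a T) = ((m - j : ℕ) : ℚ) * S m g T := by
    unfold S
    rw [Finset.sum_comm, Finset.mul_sum]
    apply Finset.sum_congr rfl
    intro X hX
    have hXc : X.card = m := (Finset.mem_powersetCard.1 hX).2
    by_cases hTX : T ⊆ X
    · rw [if_pos hTX]
      have h3 : ∀ a ∈ Tᶜ, (if insert a T ⊆ X then g X else 0) = if a ∈ X then g X else 0 := by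
        intro a _
        have : insert a T ⊆ X ↔ a ∈ X := by
          rw [Finset.insert_subset_iff]
          exact ⟨fun h => h.1, fun h => ⟨h, hTX⟩⟩
        simp only [this]
      rw [Finset.sum_congr rfl h3, ← Finset.sum_filter, Finset.sum_const, nsmul_eq_mul]
      congr 2
      have h4 : Tᶜ.filter (fun a => a ∈ X) = X \ T := by
        ext a
        simp [and_comm]
      rw [h4, Finset.card_sdiff_of_subset hTX, hXc, hT]
    · rw [if_neg hTX, mul_zero]
      apply Finset.sum_eq_zero
      intro a _
      rw [if_neg]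
      intro h
      exact hTX ((Finset.subset_insert a T).trans h)
  rw [h2] at h1
  rcases mul_eq_zero.1 h1 with h3 | h3
  · exfalso
    have : m - j = 0 := by exact_mod_cast h3
    omega
  · exact h3

theorem S_down {n : ℕ} (m k : ℕ) (hk : k ≤ m) (g : Finset (Fin n) → ℚ)
    (h : ∀ T : Finset (Fin n), T.card = k → S m g T = 0) :
    ∀ T : Finset (Fin n), T.card ≤ k → S m g T = 0 := by
  induction k with
  | zero =>
    intro T hT
    exact h T (by omega)
  | succ k ih =>
    intro T hT
    rcases Nat.lt_or_ge T.card (k + 1) with h1 | h1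
    · exact ih (by omega) (S_down_step m k (by omega) g h) T (by omega)
    · exact h T (by omega)

theorem poly_kill {n : ℕ} (m r : ℕ) (g : Finset (Fin n) → ℚ)
    (h : ∀ T : Finset (Fin n), T.card ≤ r → S m g T = 0) (A : Finset (Fin n)) (c : ℕ → ℚ) :
    ∀ (k : ℕ) (T : Finset (Fin n)), T.card + k ≤ r →
      S m (fun X => g X * ∏ i ∈ range k, (c i - ((X ∩ A).card : ℚ))) T = 0 := by
  intro k
  induction k with
  | zero =>
    intro T hT
    simpa using h T hT
  | succ k ih =>
    intro T hT
    have e : S m (fun X => g X * ∏ i ∈ range (k + 1), (c i - ((X ∩ A).card : ℚ))) T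
        = c k * S m (fun X => g X * ∏ i ∈ range k, (c i - ((X ∩ A).card : ℚ))) T
        - ∑ a ∈ A, S m (fun X => g X * ∏ i ∈ range k, (c i - ((X ∩ A).card : ℚ))) (insert a T) := by
      unfold S
      rw [Finset.sum_comm, Finset.mul_sum, ← Finset.sum_sub_distrib]
      apply Finset.sum_congr rfl
      intro X _
      by_cases hTX : T ⊆ X
      · simp only [if_pos hTX]
        have h3 : ∀ a ∈ A, (if insert a T ⊆ X then g X * ∏ i ∈ range k, (c i - ((X ∩ A).card : ℚ)) else 0)
            = if a ∈ X then g X * ∏ i ∈ range k, (c i - ((X ∩ A).card : ℚ)) else 0 := by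
          intro a _
          have : insert a T ⊆ X ↔ a ∈ X := by
            rw [Finset.insert_subset_iff]
            exact ⟨fun h => h.1, fun h => ⟨h, hTX⟩⟩
          simp only [this]
        rw [Finset.sum_congr rfl h3, ← Finset.sum_filter, Finset.sum_const, nsmul_eq_mul,
          Finset.prod_range_succ]
        have h4 : A.filter (fun a => a ∈ X) = X ∩ A := by
          ext a
          simp [and_comm]
        rw [h4]
        ring
      · simp only [if_neg hTX, mul_zero, zero_sub]
        symm
        rw [neg_eq_zero]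
        apply Finset.sum_eq_zero
        intro a _
        rw [if_neg]
        intro h
        exact hTX ((Finset.subset_insert a T).trans h)
    rw [e, ih T (by omega), mul_zero, zero_sub, neg_eq_zero]
    apply Finset.sum_eq_zero
    intro a _
    apply ih
    have := Finset.card_insert_le a T
    omega

/-- isolation -/
theorem isolate {n : ℕ} (m r : ℕ) (g : Finset (Fin n) → ℚ)
    (h : ∀ T : Finset (Fin n), T.card ≤ r → S m g T = 0) (A : Finset (Fin n)) (c : ℕ)
    (hc : ∀ X : Finset (Fin n), X.card = m → g X ≠ 0 → (X ∩ A).card ≤ c ∧ c ≤ (X ∩ A).card + r) :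
    ∑ X ∈ powersetCard m univ, (if (X ∩ A).card = c then g X else 0) = 0 := by
  have h1 := poly_kill m r g h A (fun i => (c : ℚ) - (i + 1)) r ∅ (by simp)
  unfold S at h1
  simp only [Finset.empty_subset, if_true] at h1
  have h2 : ∀ X ∈ powersetCard m (univ : Finset (Fin n)),
      g X * ∏ i ∈ range r, ((c : ℚ) - ((i : ℚ) + 1) - ((X ∩ A).card : ℚ))
      = (∏ i ∈ range r, (- ((i : ℚ) + 1))) * (if (X ∩ A).card = c then g X else 0) := by
    intro X hX
    have hXc := (Finset.mem_powersetCard.1 hX).2
    by_cases hg : g X = 0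
    · simp [hg]
    obtain ⟨h3, h4⟩ := hc X hXc hg
    by_cases h5 : (X ∩ A).card = c
    · rw [if_pos h5, mul_comm]
      congr 1
      apply Finset.prod_congr rfl
      intro i _
      rw [h5]
      ring
    · rw [if_neg h5, mul_zero]
      have h6 : ∏ i ∈ range r, ((c : ℚ) - ((i : ℚ) + 1) - ((X ∩ A).card : ℚ)) = 0 := by
        apply Finset.prod_eq_zero (i := c - (X ∩ A).card - 1) (Finset.mem_range.2 (by omega))
        have h7 : ((c - (X ∩ A).card - 1 : ℕ) : ℚ) = (c : ℚ) - ((X ∩ A).card : ℚ) - 1 := by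
          rw [Nat.cast_sub (by omega), Nat.cast_sub h3]
          simp
        rw [h7]
        ring
      rw [h6, mul_zero]
  rw [Finset.sum_congr rfl h2, ← Finset.mul_sum] at h1
  rcases mul_eq_zero.1 h1 with h8 | h8
  · exfalso
    rw [Finset.prod_eq_zero_iff] at h8
    obtain ⟨i, _, hi⟩ := h8
    have : (0 : ℚ) < (i : ℚ) + 1 := by positivity
    linarith
  · exact h8

theorem single {n : ℕ} (m : ℕ) (g : Finset (Fin n) → ℚ) (A : Finset (Fin n)) (hA : A.card = m)
    (h : ∑ X ∈ powersetCard m univ, (if (X ∩ A).card = m then g X else 0) = 0) : g A = 0 := by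
  rw [Finset.sum_eq_single A] at h
  · rwa [Finset.inter_self, if_pos hA] at h
  · intro X hX hXA
    rw [if_neg]
    intro h1
    apply hXA
    have hXc := (Finset.mem_powersetCard.1 hX).2
    have h2 : X ∩ A = X := Finset.eq_of_subset_of_card_le Finset.inter_subset_left (by omega)
    have h3 : X ∩ A = A := Finset.eq_of_subset_of_card_le Finset.inter_subset_right (by omega)
    rw [← h2, h3]
  · intro h1
    exact absurd (Finset.mem_powersetCard.2 ⟨Finset.subset_univ A, hA⟩) h1

/-- `S` as a linear map -/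
def SL {n : ℕ} (m : ℕ) (T : Finset (Fin n)) : (Finset (Fin n) → ℚ) →ₗ[ℚ] ℚ :=
  ∑ X ∈ (powersetCard m univ).filter (fun X => T ⊆ X), LinearMap.proj X

theorem SL_apply {n : ℕ} (m : ℕ) (T : Finset (Fin n)) (g : Finset (Fin n) → ℚ) :
    SL m T g = S m g T := by
  unfold SL S
  rw [LinearMap.sum_apply, Finset.sum_filter]
  rfl

def low {n : ℕ} (l : ℕ) (y : Finset (Fin n) → ℚ) (X : Finset (Fin n)) : ℚ :=
  S (n - l + 1) (fun Y => y Yᶜ) Xᶜ

def Qf {n : ℕ} (l : ℕ) (y : Finset (Fin n) → ℚ) (X : Finset (Fin n)) : ℚ :=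
  y X + S (l + 1) y X + low l y X

def QL {n : ℕ} (l : ℕ) : (Finset (Fin n) → ℚ) →ₗ[ℚ] (Finset (Fin n) → ℚ) :=
  LinearMap.pi fun X => LinearMap.proj X + SL (l + 1) X
    + (SL (n - l + 1) Xᶜ).comp (LinearMap.funLeft ℚ ℚ (fun Y : Finset (Fin n) => Yᶜ))

theorem QL_apply {n : ℕ} (l : ℕ) (y : Finset (Fin n) → ℚ) : QL l y = Qf l y := by
  funext X
  unfold QL Qf low
  rw [LinearMap.pi_apply, LinearMap.add_apply, LinearMap.add_apply, LinearMap.comp_apply,
    SL_apply, SL_apply]
  rfl

def EL {n : ℕ} (F : Finset (Finset (Fin n))) : (F → ℚ) →ₗ[ℚ] (Finset (Fin n) → ℚ) :=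
  LinearMap.pi fun A => if h : A ∈ F then LinearMap.proj (⟨A, h⟩ : F) else 0

theorem exists_y {n : ℕ} (r l : ℕ) (F : Finset (Finset (Fin n))) (h : n.choose r < F.card) :
    ∃ y : Finset (Fin n) → ℚ, (∀ A, A ∉ F → y A = 0) ∧ (∃ A ∈ F, y A ≠ 0) ∧
      ∀ T : Finset (Fin n), T.card = r → S l (Qf l y) T = 0 := by
  let Φ : (F → ℚ) →ₗ[ℚ] ((powersetCard r (univ : Finset (Fin n))) → ℚ) :=
    LinearMap.pi fun T => ((SL l (T : Finset (Fin n))).comp (QL l)).comp (EL F)
  have hker : LinearMap.ker Φ ≠ ⊥ := by
    apply LinearMap.ker_ne_bot_of_finrank_lt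
    rw [Module.finrank_fintype_fun_eq_card, Module.finrank_fintype_fun_eq_card,
      Fintype.card_coe, Fintype.card_coe, Finset.card_powersetCard, Finset.card_univ,
      Fintype.card_fin]
    exact h
  obtain ⟨y0, hy0, hne⟩ := Submodule.exists_mem_ne_zero_of_ne_bot hker
  refine ⟨EL F y0, ?_, ?_, ?_⟩
  · intro A hA
    unfold EL
    rw [LinearMap.pi_apply, dif_neg hA, LinearMap.zero_apply]
  · by_contra hcon
    push Not at hcon
    apply hne
    funext ⟨A, hA⟩
    have := hcon A hA
    unfold EL at this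
    rw [LinearMap.pi_apply, dif_pos hA] at this
    exact this
  · intro T hT
    have h1 : Φ y0 = 0 := hy0
    have h2 := congrFun h1 ⟨T, Finset.mem_powersetCard.2 ⟨Finset.subset_univ _, hT⟩⟩
    have h3 : SL l T (QL l (EL F y0)) = 0 := h2
    rwa [SL_apply, QL_apply] at h3

theorem card_symm {n : ℕ} (A B : Finset (Fin n)) :
    (symmDiff A B).card + 2 * (A ∩ B).card = A.card + B.card := by
  have h1 : (symmDiff A B).card = (A \ B).card + (B \ A).card := by
    rw [symmDiff_def, Finset.sup_eq_union, Finset.card_union_of_disjoint]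
    exact disjoint_sdiff_sdiff
  have h2 := Finset.card_sdiff_add_card_inter A B
  have h3 := Finset.card_sdiff_add_card_inter B A
  rw [Finset.inter_comm B A] at h3
  omega

theorem card_inter_step {n : ℕ} (X A' A : Finset (Fin n)) (h : X ⊆ A') (hc : A'.card = X.card + 1) :
    (A' ∩ A).card ≤ (X ∩ A).card + 1 := by
  have h1 : A' ∩ A ⊆ (X ∩ A) ∪ (A' \ X) := by
    intro a ha
    rw [Finset.mem_inter] at ha
    by_cases hX : a ∈ X
    · exact Finset.mem_union_left _ (Finset.mem_inter.2 ⟨hX, ha.2⟩)
    · exact Finset.mem_union_right _ (Finset.mem_sdiff.2 ⟨ha.1, hX⟩)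
  have h2 := (Finset.card_le_card h1).trans (Finset.card_union_le _ _)
  have h3 : (A' \ X).card = 1 := by
    rw [Finset.card_sdiff_of_subset h]; omega
  omega

theorem main_arg (n r l : ℕ) (hrl : r ≤ l) (hln : l + r ≤ n) (F : Finset (Finset (Fin n)))
    (hF : IsAntichain (· ⊆ ·) (F : Set (Finset (Fin n))))
    (hd : ∀ A ∈ F, ∀ B ∈ F, (symmDiff A B).card ≤ 2 * r + 1)
    (hl : ∀ A ∈ F, l ≤ A.card + 1 ∧ A.card ≤ l + 1)
    (y : Finset (Fin n) → ℚ) (hy : ∀ A, A ∉ F → y A = 0)
    (hk : ∀ T : Finset (Fin n), T.card = r → S l (Qf l y) T = 0) : ∀ A, y A = 0 := by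
  have hint : ∀ A ∈ F, ∀ B ∈ F, A.card + B.card ≤ 2 * (A ∩ B).card + (2 * r + 1) := by
    intro A hA B hB
    have h1 := card_symm A B
    have h2 := hd A hA B hB
    omega
  have hcompl : ∀ X : Finset (Fin n), X.card + Xᶜ.card = n := by
    intro X
    rw [Finset.card_compl, Fintype.card_fin]
    have := Finset.card_le_univ X
    rw [Fintype.card_fin] at this
    omega
  have hyF : ∀ A, y A ≠ 0 → A ∈ F := by
    intro A h
    by_contra h1
    exact h (hy A h1)
  have hkk := S_down l r hrl (Qf l y) hk
  have hup : ∀ X, S (l + 1) y X ≠ 0 → ∃ A ∈ F, A.card = l + 1 ∧ X ⊆ A := by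
    intro X hX
    by_contra hcon
    push Not at hcon
    apply hX
    unfold S
    apply Finset.sum_eq_zero
    intro A hA
    by_cases hXA : X ⊆ A
    · rw [if_pos hXA]
      by_contra h1
      exact hcon A (hyF A h1) (Finset.mem_powersetCard.1 hA).2 hXA
    · rw [if_neg hXA]
  have hYc : ∀ Y : Finset (Fin n), Y.card = n - l + 1 → Yᶜ.card + 1 = l := by
    intro Y hY
    have := hcompl Y
    omega
  have hlo : ∀ X, low l y X ≠ 0 → ∃ B ∈ F, B.card + 1 = l ∧ B ⊆ X := by
    intro X hX
    by_contra hcon
    push Not at hcon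
    apply hX
    unfold low S
    apply Finset.sum_eq_zero
    intro Y hY
    by_cases hXY : Xᶜ ⊆ Y
    · rw [if_pos hXY]
      by_contra h1
      refine hcon Yᶜ (hyF _ h1) (hYc Y (Finset.mem_powersetCard.1 hY).2) ?_
      have := Finset.compl_subset_compl.2 hXY
      rwa [compl_compl] at this
    · rw [if_neg hXY]
  have hanti : ∀ A ∈ F, ∀ B ∈ F, A ⊆ B → A = B := by
    intro A hA B hB h
    by_contra hne
    exact hF hA hB hne h
  have hd1 : ∀ X : Finset (Fin n), X.card = l → S (l + 1) y X ≠ 0 → y X = 0 ∧ low l y X = 0 := by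
    intro X hX h
    obtain ⟨A, hA, hAc, hXA⟩ := hup X h
    constructor
    · by_contra h1
      have := hanti X (hyF X h1) A hA hXA
      rw [← this] at hAc
      omega
    · by_contra h1
      obtain ⟨B, hB, hBc, hBX⟩ := hlo X h1
      have := hanti B hB A hA (hBX.trans hXA)
      rw [← this] at hAc
      omega
  have hd2 : ∀ X : Finset (Fin n), X.card = l → low l y X ≠ 0 → y X = 0 ∧ S (l + 1) y X = 0 := by
    intro X hX h
    obtain ⟨B, hB, hBc, hBX⟩ := hlo X h
    constructor
    · by_contra h1
      have := hanti B hB X (hyF X h1) hBX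
      rw [this] at hBc
      omega
    · by_contra h1
      exact h (hd1 X hX h1).2
  have hsupp : ∀ X : Finset (Fin n), X.card = l → Qf l y X ≠ 0 → X ∈ F ∨
      (∃ A ∈ F, A.card = l + 1 ∧ X ⊆ A) ∨ (∃ B ∈ F, B.card + 1 = l ∧ B ⊆ X) := by
    intro X hX h
    by_cases h1 : y X = 0
    · by_cases h2 : S (l + 1) y X = 0
      · right; right
        apply hlo
        intro h3
        apply h
        unfold Qf
        rw [h1, h2, h3]
        norm_num
      · right; left
        exact hup X h2
    · left
      exact hyF X h1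
  -- step 3
  have hA3 : ∀ A ∈ F, A.card = l + 1 →
      ∑ X ∈ powersetCard l univ, (if X ⊆ A then Qf l y X else 0) = 0 := by
    intro A hA hAc
    have h1 := isolate l r (Qf l y) hkk A l (by
      intro X hX hq
      have hle : (X ∩ A).card ≤ X.card := Finset.card_le_card Finset.inter_subset_left
      refine ⟨by omega, ?_⟩
      rcases hsupp X hX hq with h | ⟨A', hA', hA'c, hXA'⟩ | ⟨B, hB, hBc, hBX⟩
      · have := hint X h A hA
        omega
      · have h2 := hint A' hA' A hA
        have h3 := card_inter_step X A' A hXA' (by omega)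
        omega
      · have h2 := hint B hB A hA
        have h3 : (B ∩ A).card ≤ (X ∩ A).card := Finset.card_le_card (Finset.inter_subset_inter_right hBX)
        omega)
    refine Eq.trans ?_ h1
    apply Finset.sum_congr rfl
    intro X hX
    have hXc := (Finset.mem_powersetCard.1 hX).2
    have h2 : X ⊆ A ↔ (X ∩ A).card = l := by
      constructor
      · intro h; rw [Finset.inter_eq_left.2 h, hXc]
      · intro h
        have : X ∩ A = X := Finset.eq_of_subset_of_card_le Finset.inter_subset_left (by omega)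
        exact Finset.inter_eq_left.1 this
    simp only [h2]
  have hB3 : ∀ B ∈ F, B.card + 1 = l →
      ∑ X ∈ powersetCard l univ, (if B ⊆ X then Qf l y X else 0) = 0 := by
    intro B hB hBc
    have h1 := isolate l r (Qf l y) hkk B B.card (by
      intro X hX hq
      have hle : (X ∩ B).card ≤ B.card := Finset.card_le_card Finset.inter_subset_right
      refine ⟨by omega, ?_⟩
      rcases hsupp X hX hq with h | ⟨A', hA', hA'c, hXA'⟩ | ⟨B', hB', hB'c, hBX⟩
      · have := hint X h B hB
        omega
      · have h2 := hint A' hA' B hB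
        have h3 := card_inter_step X A' B hXA' (by omega)
        omega
      · have h2 := hint B' hB' B hB
        have h3 : (B' ∩ B).card ≤ (X ∩ B).card := Finset.card_le_card (Finset.inter_subset_inter_right hBX)
        omega)
    refine Eq.trans ?_ h1
    apply Finset.sum_congr rfl
    intro X hX
    have h2 : B ⊆ X ↔ (X ∩ B).card = B.card := by
      constructor
      · intro h; rw [Finset.inter_eq_right.2 h]
      · intro h
        have : X ∩ B = B := Finset.eq_of_subset_of_card_le Finset.inter_subset_right (by omega)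
        exact Finset.inter_eq_right.1 this
    simp only [h2]
  -- step 4
  have hup0 : ∀ X : Finset (Fin n), X.card = l → S (l + 1) y X = 0 := by
    have h1 : ∑ X ∈ powersetCard l univ, Qf l y X * S (l + 1) y X = 0 := by
      have e : ∀ X ∈ powersetCard l (univ : Finset (Fin n)), Qf l y X * S (l + 1) y X =
          ∑ A ∈ powersetCard (l + 1) univ, y A * (if X ⊆ A then Qf l y X else 0) := by
        intro X _
        unfold S
        rw [Finset.mul_sum]
        apply Finset.sum_congr rfl
        intro A _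
        split_ifs <;> ring
      rw [Finset.sum_congr rfl e, Finset.sum_comm]
      apply Finset.sum_eq_zero
      intro A hA
      rw [← Finset.mul_sum]
      by_cases hAF : A ∈ F
      · rw [hA3 A hAF (Finset.mem_powersetCard.1 hA).2, mul_zero]
      · rw [hy A hAF, zero_mul]
    have h2 : ∀ X ∈ powersetCard l (univ : Finset (Fin n)), Qf l y X * S (l + 1) y X
        = (S (l + 1) y X) ^ 2 := by
      intro X hX
      by_cases h : S (l + 1) y X = 0
      · rw [h]; ring
      · obtain ⟨h3, h4⟩ := hd1 X (Finset.mem_powersetCard.1 hX).2 h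
        unfold Qf
        rw [h3, h4]
        ring
    rw [Finset.sum_congr rfl h2] at h1
    rw [Finset.sum_eq_zero_iff_of_nonneg (fun X _ => sq_nonneg _)] at h1
    intro X hX
    exact pow_eq_zero_iff (two_ne_zero) |>.1 (h1 X (Finset.mem_powersetCard.2 ⟨Finset.subset_univ _, hX⟩))
  have hlo0 : ∀ X : Finset (Fin n), X.card = l → low l y X = 0 := by
    have h1 : ∑ X ∈ powersetCard l univ, Qf l y X * low l y X = 0 := by
      have e : ∀ X ∈ powersetCard l (univ : Finset (Fin n)), Qf l y X * low l y X =
          ∑ Y ∈ powersetCard (n - l + 1) univ, y Yᶜ * (if Yᶜ ⊆ X then Qf l y X else 0) := by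
        intro X _
        unfold low S
        rw [Finset.mul_sum]
        apply Finset.sum_congr rfl
        intro Y _
        have h5 : Xᶜ ⊆ Y ↔ Yᶜ ⊆ X := by
          rw [← Finset.compl_subset_compl, compl_compl]
        simp only [h5]
        split_ifs <;> ring
      rw [Finset.sum_congr rfl e, Finset.sum_comm]
      apply Finset.sum_eq_zero
      intro Y hY
      rw [← Finset.mul_sum]
      by_cases hAF : Yᶜ ∈ F
      · rw [hB3 Yᶜ hAF (hYc Y (Finset.mem_powersetCard.1 hY).2), mul_zero]
      · rw [hy _ hAF, zero_mul]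
    have h2 : ∀ X ∈ powersetCard l (univ : Finset (Fin n)), Qf l y X * low l y X
        = (low l y X) ^ 2 := by
      intro X hX
      by_cases h : low l y X = 0
      · rw [h]; ring
      · obtain ⟨h3, h4⟩ := hd2 X (Finset.mem_powersetCard.1 hX).2 h
        unfold Qf
        rw [h3, h4]
        ring
    rw [Finset.sum_congr rfl h2] at h1
    rw [Finset.sum_eq_zero_iff_of_nonneg (fun X _ => sq_nonneg _)] at h1
    intro X hX
    exact pow_eq_zero_iff (two_ne_zero) |>.1 (h1 X (Finset.mem_powersetCard.2 ⟨Finset.subset_univ _, hX⟩))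
  have hQy : ∀ X : Finset (Fin n), X.card = l → Qf l y X = y X := by
    intro X hX
    unfold Qf
    rw [hup0 X hX, hlo0 X hX]
    ring
  intro A
  by_cases hAF : A ∈ F
  swap
  · exact hy A hAF
  obtain ⟨hl1, hl2⟩ := hl A hAF
  rcases Nat.lt_trichotomy A.card l with hAc | hAc | hAc
  · -- low level
    have hAc' : A.card + 1 = l := by omega
    have hS : ∀ T : Finset (Fin n), T.card = n - l → S (n - l + 1) (fun Y => y Yᶜ) T = 0 := by
      intro T hT
      have h1 := hlo0 Tᶜ (by have := hcompl T; omega)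
      unfold low at h1
      rwa [compl_compl] at h1
    have hS2 := S_down (n - l + 1) (n - l) (by omega) _ hS
    have hAcc : Aᶜ.card = n - l + 1 := by have := hcompl A; omega
    have h1 := isolate (n - l + 1) r (fun Y => y Yᶜ) (fun T hT => hS2 T (by omega)) Aᶜ (n - l + 1) (by
      intro X hX hq
      have hle : (X ∩ Aᶜ).card ≤ X.card := Finset.card_le_card Finset.inter_subset_left
      refine ⟨by omega, ?_⟩
      have h2 := hint Xᶜ (hyF _ hq) A hAF
      have h3 := hcompl X
      have h4 : (X ∩ Aᶜ).card + (Xᶜ ∪ A).card = n := by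
        have : Xᶜ ∪ A = (X ∩ Aᶜ)ᶜ := by rw [Finset.compl_inter, compl_compl]
        rw [this]
        exact hcompl _
      have h5 := Finset.card_union_add_card_inter Xᶜ A
      omega)
    have h2 := single (n - l + 1) (fun Y => y Yᶜ) Aᶜ hAcc h1
    simpa using h2
  · -- level l
    have h1 := isolate l r (Qf l y) hkk A l (by
      intro X hX hq
      have hle : (X ∩ A).card ≤ X.card := Finset.card_le_card Finset.inter_subset_left
      refine ⟨by omega, ?_⟩
      rw [hQy X hX] at hq
      have := hint X (hyF X hq) A hAF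
      omega)
    have h2 := single l (Qf l y) A hAc h1
    rwa [hQy A hAc] at h2
  · -- upper level
    have hAc' : A.card = l + 1 := by omega
    have hS2 := S_down (l + 1) l (by omega) y hup0
    have h1 := isolate (l + 1) r y (fun T hT => hS2 T (by omega)) A (l + 1) (by
      intro X hX hq
      have hle : (X ∩ A).card ≤ X.card := Finset.card_le_card Finset.inter_subset_left
      refine ⟨by omega, ?_⟩
      have := hint X (hyF X hq) A hAF
      omega)
    exact single (l + 1) y A hAc' h1

theorem three_levels (n r l : ℕ) (hn : 2 * r + 1 ≤ n) (F : Finset (Finset (Fin n)))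
    (hF : IsAntichain (· ⊆ ·) (F : Set (Finset (Fin n))))
    (hl : ∀ A ∈ F, l ≤ A.card + 1 ∧ A.card ≤ l + 1)
    (hd : ∀ A ∈ F, ∀ B ∈ F, (symmDiff A B).card ≤ 2 * r + 1) :
    F.card ≤ n.choose r := by
  by_cases h1 : l < r
  · apply lym_bound n r F hF _ (by omega)
    intro A hA
    have := (hl A hA).2
    exact choose_mono_half n r hn _ (by omega)
  by_cases h2 : n < l + r
  · apply lym_bound n r F hF _ (by omega)
    intro A hA
    have h3 := (hl A hA).1
    have h4 : A.card ≤ n := by simpa using Finset.card_le_univ A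
    rw [← Nat.choose_symm h4]
    exact choose_mono_half n r hn _ (by omega)
  by_contra hcon
  push Not at hcon
  obtain ⟨y, hy, ⟨A, hA, hA0⟩, hk⟩ := exists_y r l F hcon
  exact hA0 (main_arg n r l (by omega) (by omega) F hF hd hl y hy hk A)
end FrK

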