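import Mathlib
import Pool.Agent.Helper153.FrkE
import Pool.Agent.Helper153.FrkF
import Pool.Agent.Helper153.FrkG
import Pool.Agent.Helper153.FrkK
set_option autoImplicit false
open Finset

namespace FrL

lemma card_symmDiff' {n : ℕ} (A B : Finset (Fin n)) :
    (symmDiff A B).card = (A \ B).card + (B \ A).card := by
  rw [symmDiff_def, sup_eq_union, card_union_of_disjoint]
  exact disjoint_sdiff_sdiff

lemma sdiff_card_eq {n : ℕ} (A B : Finset (Fin n)) :
    (A \ B).card + B.card = (B \ A).card + A.card := by
  have h1 := card_sdiff_add_card_inter A B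
  have h2 := card_sdiff_add_card_inter B A
  rw [inter_comm] at h2
  omega

lemma sdiff_pos {n : ℕ} {F : Finset (Finset (Fin n))}
    (hF : IsAntichain (· ⊆ ·) (F : Set (Finset (Fin n)))) {A B : Finset (Fin n)}
    (hA : A ∈ F) (hB : B ∈ F) (hne : A ≠ B) : 1 ≤ (A \ B).card := by
  by_contra h
  have : (A \ B).card = 0 := by omega
  rw [card_eq_zero, sdiff_eq_empty_iff_subset] at this
  exact hF hA hB hne this

/-- number of r-sets meeting B -/
lemma card_meet {n : ℕ} (r : ℕ) (hr : 1 ≤ r) (B : Finset (Fin n)) (G : Finset (Finset (Fin n)))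
    (hG : ∀ T ∈ G, T.card = r ∧ (T ∩ B).Nonempty) :
    G.card ≤ B.card * n.choose (r - 1) := by
  classical
  have hsub : G ⊆ B.biUnion (fun b => (powersetCard (r - 1) (univ : Finset (Fin n))).image (fun S => insert b S)) := by
    intro T hT
    obtain ⟨hc, b, hb⟩ := hG T hT
    rw [mem_inter] at hb
    rw [mem_biUnion]
    refine ⟨b, hb.2, ?_⟩
    rw [mem_image]
    refine ⟨T.erase b, ?_, insert_erase hb.1⟩
    rw [mem_powersetCard]
    exact ⟨subset_univ _, by rw [card_erase_of_mem hb.1, hc]⟩
  calc G.card ≤ _ := card_le_card hsub
    _ ≤ ∑ b ∈ B, ((powersetCard (r - 1) (univ : Finset (Fin n))).image (fun S => insert b S)).card := card_biUnion_le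
    _ ≤ ∑ b ∈ B, n.choose (r - 1) := by
        apply sum_le_sum
        intro b _
        refine card_image_le.trans ?_
        rw [card_powersetCard, card_univ, Fintype.card_fin]
    _ = B.card * n.choose (r - 1) := by rw [sum_const, smul_eq_mul]

theorem core_low (n r a : ℕ) (hr : 1 ≤ r) (hn : 6 * r ^ 2 + 4 * r ≤ n)
    (F : Finset (Finset (Fin n)))
    (hF : IsAntichain (· ⊆ ·) (F : Set (Finset (Fin n))))
    (hd : ∀ A ∈ F, ∀ B ∈ F, (symmDiff A B).card ≤ 2 * r + 1)
    (ha : ∀ A ∈ F, a ≤ A.card ∧ A.card ≤ a + (2 * r - 1))
    (hle : ∀ A ∈ F, A.card + 2 * r + 4 ≤ n + r)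
    (haF : ∃ A ∈ F, A.card = a) :
    F.card ≤ n.choose r := by
  classical
  have hr2 : r ≤ r ^ 2 := by nlinarith
  have hn4 : 10 * r ≤ n := by omega
  set Fl := F.filter (fun A => A.card ≤ r) with hFl
  set Fh := F.filter (fun A => ¬ A.card ≤ r) with hFh
  have hsplit : Fl.card + Fh.card = F.card := by
    rw [hFl, hFh]; exact card_filter_add_card_filter_not _
  have hFlanti : IsAntichain (· ⊆ ·) (Fl : Set (Finset (Fin n))) :=
    hF.subset (by intro A hA; exact mem_coe.2 ((mem_filter.1 (mem_coe.1 hA)).1))
  obtain ⟨D, hDc, hD⟩ := FrF.up_family n r (by omega) Fl hFlanti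
    (fun A hA => (mem_filter.1 hA).2)
  have hDF : ∀ T ∈ D, ∀ A ∈ Fh, ¬ T ⊆ A := by
    intro T hT A hA hTA
    obtain ⟨-, B, hB, hBT⟩ := hD T hT
    have hB' := mem_filter.1 hB
    have hA' := mem_filter.1 hA
    have hne : B ≠ A := by
      rintro rfl; exact hA'.2 hB'.2
    exact hF hB'.1 hA'.1 hne (hBT.trans hTA)
  have hedge : ∀ A ∈ Fh, ∀ B ∈ Fh, A ≠ B → A.card ≤ B.card →
      1 ≤ (A \ B).card ∧ (A \ B).card ≤ r := by
    intro A hA B hB hne hcard
    have hA' := (mem_filter.1 hA).1
    have hB' := (mem_filter.1 hB).1
    refine ⟨sdiff_pos hF hA' hB' hne, ?_⟩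
    have h1 := hd A hA' B hB'
    rw [card_symmDiff'] at h1
    have h2 := sdiff_card_eq A B
    omega
  have hbin := FrG.binom_large n r hr hn
  have hC0 : (0 : ℝ) ≤ (n.choose (r - 1) : ℝ) := Nat.cast_nonneg _
  have hnr : (6 : ℝ) * r ^ 2 + 4 * r ≤ n := by exact_mod_cast hn
  have hr1 : (1 : ℝ) ≤ r := by exact_mod_cast hr
  have hS0 : (0 : ℝ) ≤ ∑ l ∈ Finset.Icc 1 (r / 2), (n.choose (r - 2 * l) : ℝ) :=
    sum_nonneg (fun _ _ => Nat.cast_nonneg _)
  by_cases hemp : Fl = ∅
  · -- no small sets
    have hDe : D = ∅ := by
      rw [← card_eq_zero, hDc, hemp, card_empty]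
    rw [hemp, card_empty, zero_add] at hsplit
    have hb : ∀ A ∈ Fh, r + 1 ≤ A.card ∧ A.card ≤ r + (n - 2 * r - 4) := by
      intro A hA
      have hA' := mem_filter.1 hA
      have := hle A hA'.1
      constructor
      · omega
      · omega
    have key := FrE.size_bound n r (n - 2 * r - 4) hr Fh hb hedge (Finset.Icc a (a + (2 * r - 1)))
      (fun A hA => by
        have := ha A (mem_filter.1 hA).1
        rw [mem_Icc]; exact this) ∅ (by simp) (by simp) 1 one_pos (by
          have : (((n - 2 * r - 4 : ℕ)) : ℝ) = n - 2 * r - 4 := by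
            rw [Nat.cast_sub (by omega), Nat.cast_sub (by omega)]; push_cast; ring
          rw [this]; linarith)
    have hLc : ((Finset.Icc a (a + (2 * r - 1))).card : ℝ) = 2 * r := by
      rw [Nat.card_Icc]
      have : a + (2 * r - 1) + 1 - a = 2 * r := by omega
      rw [this]; push_cast; ring
    rw [hLc] at key
    simp only [card_empty, Nat.cast_zero, mul_zero, zero_div, sub_zero, add_zero] at key
    have hpos : (0 : ℝ) ≤ (r : ℝ) * (3 * r * (n.choose (r - 1) : ℝ)) / ((n : ℝ) - 4 * r) := by
      apply div_nonneg
      · positivity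
      · nlinarith
    have : (Fh.card : ℝ) ≤ n.choose r := by linarith
    have h3 : Fh.card ≤ n.choose r := by exact_mod_cast this
    omega
  · -- small sets
    obtain ⟨A0, hA0⟩ := nonempty_iff_ne_empty.2 hemp
    have hA0' := mem_filter.1 hA0
    have har : a ≤ r := (ha A0 hA0'.1).1.trans hA0'.2
    by_cases hbig : ∃ B ∈ Fh, r + 2 ≤ B.card
    · obtain ⟨B, hB, hBc⟩ := hbig
      have hB' := mem_filter.1 hB
      -- bound on Fl
      have hFlb : Fl.card ≤ 3 * r * n.choose (r - 1) := by
        set G1 := Fl.filter (fun A => A.card = r) with hG1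
        set G2 := Fl.filter (fun A => ¬ A.card = r) with hG2
        have hs : G1.card + G2.card = Fl.card := by
          rw [hG1, hG2]; exact card_filter_add_card_filter_not _
        have h1 : G1.card ≤ B.card * n.choose (r - 1) := by
          apply card_meet r hr B
          intro T hT
          have hT' := mem_filter.1 hT
          refine ⟨hT'.2, ?_⟩
          have hTF := (mem_filter.1 hT'.1).1
          have h2 := hd T hTF B hB'.1
          rw [card_symmDiff'] at h2
          have h3 := card_sdiff_add_card_inter T B
          have h4 := card_sdiff_add_card_inter B T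
          rw [inter_comm] at h4
          rw [← card_pos]
          have h5 := hT'.2
          omega
        have hBc2 : B.card ≤ 3 * r - 1 := by
          have := ha B hB'.1
          omega
        have h2 : G2.card ≤ n.choose (r - 1) := by
          obtain ⟨E, hEc, hE⟩ := FrF.up_family n (r - 1) (by omega) G2
            (hF.subset (by
              intro A hA
              exact mem_coe.2 ((mem_filter.1 ((mem_filter.1 (mem_coe.1 hA)).1)).1)))
            (fun A hA => by
              have hA' := mem_filter.1 hA
              have hA'' := mem_filter.1 hA'.1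
              have := hA'.2
              have := hA''.2
              omega)
          rw [← hEc]
          have hsub : E ⊆ powersetCard (r - 1) (univ : Finset (Fin n)) := by
            intro T hT
            rw [mem_powersetCard]
            exact ⟨subset_univ _, (hE T hT).1⟩
          have := card_le_card hsub
          rwa [card_powersetCard, card_univ, Fintype.card_fin] at this
        have h3 : B.card * n.choose (r - 1) ≤ (3 * r - 1) * n.choose (r - 1) :=
          Nat.mul_le_mul_right _ hBc2
        have h4 : (3 * r - 1) * n.choose (r - 1) + n.choose (r - 1) = 3 * r * n.choose (r - 1) := by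
          have : 3 * r = (3 * r - 1) + 1 := by omega
          conv_rhs => rw [this]
          ring
        omega
      have hτ : (0 : ℝ) < (n : ℝ) - 4 * r := by nlinarith
      have key := FrE.size_bound n r (2 * r - 1) hr Fh (by
          intro A hA
          have hA' := mem_filter.1 hA
          have := ha A hA'.1
          omega) hedge (Finset.Icc (r + 1) (3 * r - 1))
        (fun A hA => by
          have hA' := mem_filter.1 hA
          have := ha A hA'.1
          rw [mem_Icc]; omega) D (fun T hT => (hD T hT).1) hDF ((n : ℝ) - 4 * r) hτ (by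
            have : (((2 * r - 1 : ℕ)) : ℝ) = 2 * r - 1 := by
              rw [Nat.cast_sub (by omega)]; push_cast; ring
            rw [this]; linarith)
      have hLc : ((Finset.Icc (r + 1) (3 * r - 1)).card : ℝ) ≤ 2 * r := by
        rw [Nat.card_Icc]
        have : 3 * r - 1 + 1 - (r + 1) ≤ 2 * r := by omega
        exact_mod_cast this
      have hDb : (D.card : ℝ) ≤ 3 * r * n.choose (r - 1) := by
        rw [hDc]; exact_mod_cast hFlb
      have h6 : (r : ℝ) * D.card / ((n : ℝ) - 4 * r) ≤
          (r : ℝ) * (3 * r * (n.choose (r - 1) : ℝ)) / ((n : ℝ) - 4 * r) := by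
        apply div_le_div_of_nonneg_right _ hτ.le
        exact mul_le_mul_of_nonneg_left hDb (by linarith)
      have h7 := mul_le_mul_of_nonneg_right hLc hS0
      have h8 : (Fh.card : ℝ) + D.card ≤ n.choose r := by linarith
      have h9 : Fh.card + D.card ≤ n.choose r := by exact_mod_cast h8
      omega
    · -- all big sets have size r+1
      push Not at hbig
      have hdisj : Disjoint D Fh := by
        rw [disjoint_left]
        intro T hT hT2
        exact hDF T hT T hT2 (Subset.refl T)
      have key := FrK.three_levels n r (r + 1) (by omega) (D ∪ Fh) (by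
          intro A hA B hB hne hAB
          rw [mem_coe, mem_union] at hA hB
          rcases hA with hA | hA <;> rcases hB with hB | hB
          · have h1 := (hD A hA).1
            have h2 := (hD B hB).1
            exact hne (eq_of_subset_of_card_le hAB (by omega))
          · exact hDF A hA B hB hAB
          · have h1 := (hD B hB).1
            have h2 := (mem_filter.1 hA).2
            have h3 := card_le_card hAB
            omega
          · exact hF (mem_filter.1 hA).1 (mem_filter.1 hB).1 hne hAB) (by
          intro A hA
          rw [mem_union] at hA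
          rcases hA with hA | hA
          · have := (hD A hA).1
            omega
          · have h1 := hbig A hA
            have h2 := (mem_filter.1 hA).2
            omega) (by
          intro A hA B hB
          rw [mem_union] at hA hB
          have hcard : ∀ X ∈ D ∪ Fh, X.card ≤ r + 1 := by
            intro X hX
            rw [mem_union] at hX
            rcases hX with hX | hX
            · have := (hD X hX).1; omega
            · have := hbig X hX; omega
          have hub : (symmDiff A B).card ≤ A.card + B.card := by
            rw [card_symmDiff']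
            exact Nat.add_le_add (card_le_card sdiff_subset) (card_le_card sdiff_subset)
          rcases hA with hA | hA <;> rcases hB with hB | hB
          · have h1 := (hD A hA).1
            have h2 := (hD B hB).1
            omega
          · have h1 := (hD A hA).1
            have h2 := hbig B hB
            omega
          · have h1 := (hD B hB).1
            have h2 := hbig A hA
            omega
          · exact hd A (mem_filter.1 hA).1 B (mem_filter.1 hB).1)
      rw [card_union_of_disjoint hdisj] at key
      omega

theorem large_n (n r : ℕ) (hr : 1 ≤ r) (hn : 6 * r ^ 2 + 4 * r ≤ n)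
    (F : Finset (Finset (Fin n)))
    (hF : IsAntichain (· ⊆ ·) (F : Set (Finset (Fin n))))
    (hd : ∀ A ∈ F, ∀ B ∈ F, (symmDiff A B).card ≤ 2 * r + 1) :
    F.card ≤ n.choose r := by
  classical
  have hr2 : r ≤ r ^ 2 := by nlinarith
  have hn4 : 10 * r ≤ n := by omega
  rcases F.eq_empty_or_nonempty with hE | hne
  · rw [hE, card_empty]; exact Nat.zero_le _
  obtain ⟨A0, hA0, hmin⟩ := exists_min_image F card hne
  obtain ⟨B0, hB0, hmax⟩ := exists_max_image F card hne
  have hwin : B0.card ≤ A0.card + (2 * r - 1) := by
    by_cases hAB : A0 = B0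
    · rw [hAB]; omega
    · have h1 := sdiff_pos hF hA0 hB0 hAB
      have h2 := hd A0 hA0 B0 hB0
      rw [card_symmDiff'] at h2
      have h3 := sdiff_card_eq A0 B0
      omega
  by_cases hcase : A0.card + B0.card ≤ n
  · apply core_low n r A0.card hr hn F hF hd
    · intro A hA
      exact ⟨hmin A hA, (hmax A hA).trans hwin⟩
    · intro A hA
      have h1 := hmax A hA
      omega
    · exact ⟨A0, hA0, rfl⟩
  · -- complement
    push Not at hcase
    set Fc := F.image (fun A => Aᶜ) with hFc
    have hcard : Fc.card = F.card := card_image_of_injective _ compl_injective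
    rw [← hcard]
    have hn1 : B0.card ≤ n := by
      have := card_le_univ B0; rwa [Fintype.card_fin] at this
    apply core_low n r (n - B0.card) hr hn Fc
    · intro A hA B hB hne' hAB
      rw [mem_coe, hFc, mem_image] at hA hB
      obtain ⟨A', hA', rfl⟩ := hA
      obtain ⟨B', hB', rfl⟩ := hB
      apply hF hB' hA' (fun h => hne' (by rw [h]))
      exact compl_subset_compl.1 hAB
    · intro A hA B hB
      rw [hFc, mem_image] at hA hB
      obtain ⟨A', hA', rfl⟩ := hA
      obtain ⟨B', hB', rfl⟩ := hB
      have : symmDiff (A'ᶜ) (B'ᶜ) = symmDiff A' B' := by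
        ext x; simp only [mem_symmDiff, mem_compl]; tauto
      rw [this]
      exact hd A' hA' B' hB'
    · intro A hA
      rw [hFc, mem_image] at hA
      obtain ⟨A', hA', rfl⟩ := hA
      rw [card_compl, Fintype.card_fin]
      have h1 := hmin A' hA'
      have h2 := hmax A' hA'
      omega
    · intro A hA
      rw [hFc, mem_image] at hA
      obtain ⟨A', hA', rfl⟩ := hA
      rw [card_compl, Fintype.card_fin]
      have h1 := hmin A' hA'
      have h2 := hmax A' hA'
      omega
    · refine ⟨B0ᶜ, ?_, ?_⟩
      · rw [hFc]; exact mem_image_of_mem _ hB0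
      · rw [card_compl, Fintype.card_fin]
end FrL
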