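import Mathlib
import Pool.Agent.Helper153.FrkL
import Pool.Agent.Helper153.FrkH
import Pool.Agent.Helper153.FrkI
import Pool.Agent.Helper153.FrkJ
set_option autoImplicit false
open Finset

namespace FrM

theorem few_sizes (n r L : ℕ) (hr : 1 ≤ r) (hL : 2 ≤ L) (h2 : 2 * L * r ≤ n)
    (F : Finset (Finset (Fin n)))
    (hF : IsAntichain (· ⊆ ·) (F : Set (Finset (Fin n))))
    (hd : ∀ A ∈ F, ∀ B ∈ F, (symmDiff A B).card ≤ 2 * r + 1)
    (hs : ∀ A ∈ F, r + 1 ≤ A.card ∧ A.card + r + 2 ≤ n)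
    (hc : (F.image card).card ≤ L) :
    F.card ≤ n.choose r := by
  classical
  have hn4 : 4 * r ≤ n := by nlinarith
  have hedge : ∀ A ∈ F, ∀ B ∈ F, A ≠ B → A.card ≤ B.card →
      1 ≤ (A \ B).card ∧ (A \ B).card ≤ r := by
    intro A hA B hB hne hcard
    refine ⟨FrL.sdiff_pos hF hA hB hne, ?_⟩
    have h1 := hd A hA B hB
    rw [FrL.card_symmDiff'] at h1
    have h2 := FrL.sdiff_card_eq A B
    omega
  rcases F.eq_empty_or_nonempty with hE | ⟨A1, hA1⟩
  · rw [hE, card_empty]; exact Nat.zero_le _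
  have hn3 := hs A1 hA1
  have key := FrE.size_bound n r (n - 2 * r - 2) hr F (fun A hA => by
      have := hs A hA
      constructor
      · exact this.1
      · omega) hedge (F.image card) (fun A hA => mem_image_of_mem _ hA) ∅ (by simp) (by simp)
      1 one_pos (by
        have : (((n - 2 * r - 2 : ℕ)) : ℝ) = n - 2 * r - 2 := by
          rw [Nat.cast_sub (by omega), Nat.cast_sub (by omega)]; push_cast; ring
        rw [this]; linarith)
  simp only [card_empty, Nat.cast_zero, mul_zero, zero_div, sub_zero, add_zero] at key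
  have hS0 : (0 : ℝ) ≤ ∑ l ∈ Finset.Icc 1 (r / 2), (n.choose (r - 2 * l) : ℝ) :=
    sum_nonneg (fun _ _ => Nat.cast_nonneg _)
  have hLR : ((F.image card).card : ℝ) ≤ L := by exact_mod_cast hc
  have h3 := mul_le_mul_of_nonneg_right hLR hS0
  have hmain : (L : ℝ) * ∑ l ∈ Finset.Icc 1 (r / 2), (n.choose (r - 2 * l) : ℝ) ≤
      (n.choose (r - 1) : ℝ) := by
    by_cases hr2 : r = 1
    · subst hr2
      have h2 : Finset.Icc 1 (1 / 2) = (∅ : Finset ℕ) := by simp
      rw [h2, Finset.sum_empty, mul_zero]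
      positivity
    · have hnr : 3 * r + 2 ≤ n := by omega
      have h2' : ∑ l ∈ Finset.Icc 1 (r / 2), (n.choose (r - 2 * l) : ℝ) ≤
          4 / 3 * (n.choose (r - 2) : ℝ) := by
        calc ∑ l ∈ Finset.Icc 1 (r / 2), (n.choose (r - 2 * l) : ℝ)
            ≤ ∑ l ∈ Finset.Icc 1 (r / 2), (n.choose (r - 2) : ℝ) * (1 / 4) ^ (l - 1) := by
              refine Finset.sum_le_sum fun l hl => ?_
              rw [Finset.mem_Icc] at hl
              exact FrG.ch_pow n r hnr l hl.1 (by omega)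
          _ = (n.choose (r - 2) : ℝ) * (4 / 3 * (1 - (1 / 4) ^ (r / 2))) := by
              rw [← Finset.mul_sum, FrG.geo_le]
          _ ≤ 4 / 3 * (n.choose (r - 2) : ℝ) := by
              have h3 : (0 : ℝ) ≤ (1 / 4) ^ (r / 2) := by positivity
              have h4 : (0 : ℝ) ≤ n.choose (r - 2) := Nat.cast_nonneg _
              nlinarith [mul_nonneg h4 h3]
      obtain ⟨k, rfl⟩ : ∃ k, r = k + 2 := ⟨r - 2, by omega⟩
      have e1 : k + 2 - 2 = k := by omega
      have e2 : k + 2 - 1 = k + 1 := by omega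
      rw [e1] at h2'
      rw [e2]
      have h4 := Nat.choose_succ_right_eq n k
      have h5 : (n.choose (k + 1) : ℝ) * (k + 1) = n.choose k * ((n : ℝ) - k) := by
        have h6 : ((n.choose (k + 1) * (k + 1) : ℕ) : ℝ) = ((n.choose k * (n - k) : ℕ) : ℝ) := by
          rw [h4]
        push_cast [Nat.cast_sub (by omega : k ≤ n)] at h6
        exact h6
      have h7 : (0 : ℝ) ≤ n.choose k := Nat.cast_nonneg _
      have h8 : (0 : ℝ) ≤ n.choose (k + 1) := Nat.cast_nonneg _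
      have hk : (0 : ℝ) ≤ k := Nat.cast_nonneg _
      have hL2 : (2 : ℝ) ≤ L := by exact_mod_cast hL
      have h2R : (2 : ℝ) * L * (k + 2) ≤ n := by exact_mod_cast h2
      have h9 : (4 / 3 : ℝ) * L * (k + 1) ≤ (n : ℝ) - k := by nlinarith [mul_nonneg (by linarith : (0:ℝ) ≤ (L:ℝ) - 2) hk]
      have h10 : (n.choose k : ℝ) * ((4 / 3 : ℝ) * L * (k + 1)) ≤ n.choose (k + 1) * (k + 1) := by
        rw [h5]; exact mul_le_mul_of_nonneg_left h9 h7
      have h11 : ((4 / 3 : ℝ) * L * n.choose k) * (k + 1) ≤ n.choose (k + 1) * (k + 1) := by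
        linarith
      have h12 := le_of_mul_le_mul_right h11 (by positivity : (0 : ℝ) < k + 1)
      have h13 := mul_le_mul_of_nonneg_left h2' (by linarith : (0 : ℝ) ≤ L)
      linarith
  have : (F.card : ℝ) ≤ n.choose r := by linarith
  exact_mod_cast this

theorem choose_symm' (n k : ℕ) (hkn : k ≤ n) :
    n.choose ((n + k + 1) / 2) = n.choose ((n - k) / 2) := by
  have h1 : (n - k) / 2 ≤ n := by omega
  rw [← Nat.choose_symm h1]
  congr 1
  omega

theorem three_sizes (n k m : ℕ) (hk : 1 ≤ k) (hkn : k ≤ n) (F : Finset (Finset (Fin n)))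
    (hF : IsAntichain (· ⊆ ·) (F : Set (Finset (Fin n))))
    (hd : ∀ A ∈ F, ∀ B ∈ F, (symmDiff A B).card ≤ n - k)
    (hm : ∀ A ∈ F, m ≤ A.card ∧ A.card ≤ m + 2) :
    F.card ≤ n.choose ((n + k + 1) / 2) := by
  rw [choose_symm' n k hkn]
  apply FrK.three_levels n ((n - k) / 2) (m + 1) (by omega) F hF
  · intro A hA
    have := hm A hA
    omega
  · intro A hA B hB
    have := hd A hA B hB
    omega

theorem small_diam (n k : ℕ) (hk : 1 ≤ k) (hkn : k ≤ n) (F : Finset (Finset (Fin n)))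
    (hF : IsAntichain (· ⊆ ·) (F : Set (Finset (Fin n))))
    (hd : ∀ A ∈ F, ∀ B ∈ F, (symmDiff A B).card ≤ n - k) (h4 : n - k ≤ 4) :
    F.card ≤ n.choose ((n + k + 1) / 2) := by
  rcases F.eq_empty_or_nonempty with hE | hne
  · rw [hE, card_empty]; exact Nat.zero_le _
  obtain ⟨A0, hA0, hmin⟩ := exists_min_image F card hne
  apply three_sizes n k A0.card hk hkn F hF hd
  intro A hA
  refine ⟨hmin A hA, ?_⟩
  by_cases hAB : A0 = A
  · rw [hAB]; omega
  · have h1 := FrL.sdiff_pos hF hA0 hA hAB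
    have h2 := hd A0 hA0 A hA
    rw [FrL.card_symmDiff'] at h2
    have h3 := FrL.sdiff_card_eq A0 A
    omega

theorem large (n k : ℕ) (hk : 1 ≤ k) (hkn : k ≤ n) (F : Finset (Finset (Fin n)))
    (hF : IsAntichain (· ⊆ ·) (F : Set (Finset (Fin n))))
    (hd : ∀ A ∈ F, ∀ B ∈ F, (symmDiff A B).card ≤ n - k) (h4 : 2 * (n - k) ^ 2 ≤ n) :
    F.card ≤ n.choose ((n + k + 1) / 2) := by
  by_cases h : n - k ≤ 4
  · exact small_diam n k hk hkn F hF hd h
  · rw [choose_symm' n k hkn]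
    obtain ⟨r, hr⟩ : ∃ r, r = (n - k) / 2 := ⟨_, rfl⟩
    rw [← hr]
    have h1 : 2 ≤ r := by omega
    have h2 : 2 * r ≤ n - k := by omega
    apply FrL.large_n n r (by omega) _ F hF
    · intro A hA B hB
      have := hd A hA B hB
      omega
    · have h3 : (2 * r) ^ 2 ≤ (n - k) ^ 2 := Nat.pow_le_pow_left h2 2
      nlinarith

theorem chain2 (n k : ℕ) (hk : 1 ≤ k) (hkn : k ≤ n) (F : Finset (Finset (Fin n)))
    (hF : IsAntichain (· ⊆ ·) (F : Set (Finset (Fin n))))
    (hd : ∀ A ∈ F, ∀ B ∈ F, (symmDiff A B).card ≤ n - k) (h2 : k ^ 2 ≤ n) :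
    2 * F.card ≤ n.choose ((n - k) / 2) + n.choose ((n - k + 1) / 2) :=
  FrH.chain_bound n k _ hk hkn F hF hd
    (fun i hi => FrI.single_bound n k hk hkn h2 i hi)
    (fun i j hij hj => FrI.pair_bound n k hk hkn h2 i j hij hj)

theorem general (n k : ℕ) (F : Finset (Finset (Fin n)))
    (hF : IsAntichain (· ⊆ ·) (F : Set (Finset (Fin n))))
    (hd : ∀ A ∈ F, ∀ B ∈ F, (symmDiff A B).card ≤ n - k) :
    F.card ≤ ∑ s ∈ range ((n - k) / 2 + 1), n.choose s := by
  apply FrJ.general_bound n _ F hF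
  intro A hA B hB hcard
  have h1 := hd A hA B hB
  rw [FrL.card_symmDiff'] at h1
  have h2 := FrL.sdiff_card_eq A B
  omega

end FrM
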